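import Pool.Agent.GG.Defs

/-!
# GA ADefs: the algebraic half of GG-ALL (notes 4577, 4590, 4594, 4598)

`U` is a connected open subset of `ℂ` (the half-plane), `F : ℂ → ℂ^(N+1)` is analytic on `U` without zeros, with values in the cone of `P`; `OO` is a ring of
functions `ℂ → ℂ` which are analytic on `U` (the small functions), closed under `deriv`.
-/

set_option autoImplicit false

open MvPolynomial Topology Filter Metric
open Pool.Agent.H13.SM (conTan cone)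
open Pool.Agent.H17 (PN)
open Pool.Agent.GG (SymSec Ph pt Frame gfam)

noncomputable section

namespace Pool.Agent.GA

variable {N : ℕ}

/-! ## germs -/

/-- the constant germs -/
instance (z₀ : ℂ) : Algebra ℂ (Filter.Germ (𝓝 z₀) ℂ) :=
  ((Filter.Germ.coeRingHom (𝓝 z₀)).comp (Pi.constRingHom ℂ ℂ)).toAlgebra

/-- the ring of the germs of analytic functions at `z₀` -/
def AnG (z₀ : ℂ) : Subalgebra ℂ (Filter.Germ (𝓝 z₀) ℂ) where
  carrier := {g | ∃ f : ℂ → ℂ, AnalyticAt ℂ f z₀ ∧ (f : Filter.Germ (𝓝 z₀) ℂ) = g}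
  mul_mem' := by
    rintro _ _ ⟨f, hf, rfl⟩ ⟨g, hg, rfl⟩
    exact ⟨f * g, hf.mul hg, rfl⟩
  add_mem' := by
    rintro _ _ ⟨f, hf, rfl⟩ ⟨g, hg, rfl⟩
    exact ⟨f + g, hf.add hg, rfl⟩
  algebraMap_mem' := fun c => ⟨fun _ => c, analyticAt_const, rfl⟩

instance (z₀ : ℂ) : IsDomain (AnG z₀) := by
  have h1 : NoZeroDivisors (AnG z₀) := by
    refine ⟨?_⟩
    rintro ⟨_, f, hf, rfl⟩ ⟨_, g, hg, rfl⟩ h
    have h2 : ∀ᶠ z in 𝓝 z₀, f z * g z = 0 := Filter.Germ.coe_eq.1 (congrArg Subtype.val h)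
    rcases hf.eventually_eq_zero_or_eventually_ne_zero with h3 | h3
    · exact Or.inl (Subtype.ext (Filter.Germ.coe_eq.2 h3))
    · right
      rcases hg.eventually_eq_zero_or_eventually_ne_zero with h4 | h4
      · exact Subtype.ext (Filter.Germ.coe_eq.2 h4)
      · exfalso
        obtain ⟨z, hz1, hz2, hz3⟩ := (h3.and (h4.and (h2.filter_mono nhdsWithin_le_nhds))).exists
        exact mul_ne_zero hz1 hz2 hz3
  exact NoZeroDivisors.to_isDomain _

/-- the field of the germs of meromorphic functions at `z₀` -/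
abbrev Gm (z₀ : ℂ) : Type := FractionRing (AnG z₀)

/-- the germ of a function which is analytic at `z₀` -/
def gm (z₀ : ℂ) (f : ℂ → ℂ) (hf : AnalyticAt ℂ f z₀) : Gm z₀ := algebraMap (AnG z₀) (Gm z₀) ⟨(f : Filter.Germ (𝓝 z₀) ℂ), f, hf, rfl⟩

/-! ## rings of functions -/

/-- evaluation at `w` -/
def ev0 (OO : Subalgebra ℂ (ℂ → ℂ)) (w : ℂ) : OO →+* ℂ := (Pi.evalRingHom (fun _ : ℂ => ℂ) w).comp OO.val.toRingHom

/-- the value at `w` of a polynomial with coefficients in `OO` -/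
def evO {σ : Type} (OO : Subalgebra ℂ (ℂ → ℂ)) (y : ℂ → σ → ℂ) (P : MvPolynomial σ OO) (w : ℂ) : ℂ := eval₂ (ev0 OO w) (y w) P

/-- `OO` consists of functions which are analytic on `U`, and is closed under differentiation. -/
structure IsSmallRing (OO : Subalgebra ℂ (ℂ → ℂ)) (U : Set ℂ) : Prop where
  an : ∀ g ∈ OO, ∀ w ∈ U, AnalyticAt ℂ g w
  deriv_mem : ∀ g ∈ OO, deriv g ∈ OO

/-- Near `w₀` the vector field `V` along `x` comes from a derivation over `OO`: it satisfies the linearised equation of every algebraic relation of `x` over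
`OO`. -/
def RelX (OO : Subalgebra ℂ (ℂ → ℂ)) (x V : ℂ → Fin (N + 1) → ℂ) (w₀ : ℂ) : Prop :=
  ∀ R : MvPolynomial (Fin (N + 1)) OO, (∀ᶠ w in 𝓝 w₀, evO OO x R w = 0) → ∀ᶠ w in 𝓝 w₀, ∑ b, evO OO x (pderiv b R) w * V w b = 0

/-- Near `w₀` the vector field `(V, V')` along `(x, x')` comes from a derivation over `OO`: it satisfies the linearised equation of every algebraic relation of
`(x, x')` over `OO`. -/
def RelP (OO : Subalgebra ℂ (ℂ → ℂ)) (x V : ℂ → Fin (N + 1) → ℂ) (w₀ : ℂ) : Prop :=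
  ∀ R : MvPolynomial (Ph N) OO, (∀ᶠ w in 𝓝 w₀, evO OO (fun w => pt (x w) (deriv x w)) R w = 0) →
    ∀ᶠ w in 𝓝 w₀, ∑ s, evO OO (fun w => pt (x w) (deriv x w)) (pderiv s R) w * pt (V w) (deriv V w) s = 0

/-- The data at `z₁`: `Y / s` are the values of the dual derivations at `(x, x')`, `C / s` the coefficients of the differential equation. -/
structure Dual (OO : Subalgebra ℂ (ℂ → ℂ)) (x : ℂ → Fin (N + 1) → ℂ) (z₁ : ℂ) (r : ℕ) (σ : Fin (r + 1) → Ph N) (s : ℂ → ℂ)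
    (Y : Fin (r + 1) → Ph N → ℂ → ℂ) (C : Fin (r + 1) → Fin (r + 1) → ℂ → ℂ) : Prop where
  an : AnalyticAt ℂ s z₁
  ne : ¬ ∀ᶠ w in 𝓝 z₁, s w = 0
  anY : ∀ m i, AnalyticAt ℂ (Y m i) z₁
  anC : ∀ l m, AnalyticAt ℂ (C l m) z₁
  unit : ∀ m l, ∀ᶠ w in 𝓝 z₁, Y m (σ l) w = if m = l then s w else 0
  rel : ∀ m (R : MvPolynomial (Ph N) OO), (∀ᶠ w in 𝓝 z₁, evO OO (fun w => pt (x w) (deriv x w)) R w = 0) →
    ∀ᶠ w in 𝓝 z₁, ∑ i, evO OO (fun w => pt (x w) (deriv x w)) (pderiv i R) w * Y m i w = 0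
  der : ∀ m b, ∀ᶠ w in 𝓝 z₁, s w ≠ 0 →
    Y m (Sum.inr b) w / s w = deriv (fun w => Y m (Sum.inl b) w / s w) w + ∑ l, C l m w / s w * (Y l (Sum.inl b) w / s w)

/-! ## variation fields along the curve -/

/-- the curve in the chart `x_b = 1` -/
def xb (F : ℂ → Fin (N + 1) → ℂ) (b : Fin (N + 1)) (w : ℂ) : Fin (N + 1) → ℂ := (F w b)⁻¹ • F w

/-- the variation in the chart `x_b = 1` which belongs to the bivector field `Z = F ∧ V` -/
def Vb (F : ℂ → Fin (N + 1) → ℂ) (Z : ℂ → Fin (N + 1) × Fin (N + 1) → ℂ) (b : Fin (N + 1)) (w : ℂ) : Fin (N + 1) → ℂ := fun j => Z w (b, j) / F w b ^ 2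

/-- the left side of the linearised equation of `G (x, x') = const`, for the variation `V` of the curve `x` -/
def lhs (G : MvPolynomial (Ph N) ℂ) (x V : ℂ → Fin (N + 1) → ℂ) (w : ℂ) : ℂ :=
  ∑ s, eval (pt (x w) (deriv x w)) (pderiv s G) * pt (V w) (deriv V w) s

variable {P : Ideal (MvPolynomial (Fin (N + 1)) ℂ)} {J : ℕ} {m : Fin J → ℕ} {θ : ∀ k, SymSec P (m k)}

/-- `Z = F ∧ V` for a variation field `V`, near `z`: the linearised equations hold in all charts -/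
def IsVar (f : Frame θ) (F : ℂ → Fin (N + 1) → ℂ) (Z : ℂ → Fin (N + 1) × Fin (N + 1) → ℂ) (z : ℂ) : Prop :=
  AnalyticAt ℂ Z z ∧ ∀ᶠ w in 𝓝 z, ∀ b, F w b ≠ 0 → (∀ i j, Z w (i, j) = F w i * F w b * Vb F Z b w j - F w j * F w b * Vb F Z b w i) ∧
    ∀ l, lhs (gfam f b l) (xb F b) (Vb F Z b) w = 0

/-- `F` is a lift of a holomorphic curve in the variety, not constant, on `U` -/
structure IsCurve (P : Ideal (MvPolynomial (Fin (N + 1)) ℂ)) (F : ℂ → Fin (N + 1) → ℂ) (U : Set ℂ) : Prop where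
  isOpen : IsOpen U
  conn : IsPreconnected U
  an : ∀ w ∈ U, AnalyticAt ℂ F w
  mem : ∀ w ∈ U, F w ∈ cone P
  ne : ∃ w ∈ U, deriv F w ∉ Submodule.span ℂ {F w}

end Pool.Agent.GA
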