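import Pool.Agent.GA.BndD

/-!
# GA BndL: the linearised equation gives `‖U‖ ≤ C ‖v‖ ‖V‖`

`g_l (x, ρ v) = ρ ^ e_l g_l (x, v)` for the functions `g_l` of the family: so `(V, U / ρ)` solves the equation at `(x, v / ρ)`, `ρ = ‖v‖`.  On the compact set of the unit vectors the
map `U ↦ (∂G_l/∂v U)_l` is bounded below by `GG.row_zero`.
-/

set_option autoImplicit false

open MvPolynomial Topology Filter Metric
open Pool.Agent.H13.SM (conTan cone)
open Pool.Agent.H62.FC (Homog)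
open Pool.Agent.GG

noncomputable section

namespace Pool.Agent.GA.BL

variable {N : ℕ} {P : Ideal (MvPolynomial (Fin (N + 1)) ℂ)} {J : ℕ} {m : Fin J → ℕ} {θ : ∀ k, SymSec P (m k)}

/-- the index of the family -/
abbrev Ix {θ : ∀ k, SymSec P (m k)} (f : Frame θ) : Type := (Unit ⊕ Unit) ⊕ (Fin f.q ⊕ Fin f.q) ⊕ Fin J

theorem hasDerivAt_evalA (p : MvPolynomial (Ph N) ℂ) (x v V U : Fin (N + 1) → ℂ) :
    HasDerivAt (fun t : ℂ => eval (pt (x + t • V) (v + t • U)) p) (∑ s, eval (pt x v) (pderiv s p) * pt V U s) 0 := by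
  have h1 : HasDerivAt (fun t : ℂ => (pt (x + t • V) (v + t • U) : Ph N → ℂ)) (pt V U) 0 := by
    rw [hasDerivAt_pi]
    rintro (b | b)
    · have h2 : HasDerivAt (fun t : ℂ => x b + t * V b) (V b) 0 := by
        simpa using ((hasDerivAt_id (0 : ℂ)).mul_const (V b)).const_add (x b)
      simpa using h2
    · have h2 : HasDerivAt (fun t : ℂ => v b + t * U b) (U b) 0 := by
        simpa using ((hasDerivAt_id (0 : ℂ)).mul_const (U b)).const_add (v b)
      simpa using h2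
  have h3 := Pool.Agent.H13.SM.Inv_hasFDerivAt_eval p (pt (x + (0 : ℂ) • V) (v + (0 : ℂ) • U))
  have h4 := h3.comp_hasDerivAt (0 : ℂ) h1
  have h5 : (v + (0 : ℂ) • U) = v := by simp
  have h6 : (x + (0 : ℂ) • V) = x := by simp
  rw [h5, h6] at h4
  refine (h4.congr_deriv ?_)
  simp

/-- a weighted homogeneous polynomial is homogeneous in `v` -/
theorem eval_hom {p : MvPolynomial (Ph N) ℂ} {d : ℕ} (hp : IsWeightedHomogeneous (Sum.elim (fun _ => 0) (fun _ => 1) : Ph N → ℕ) p d)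
    (x v : Fin (N + 1) → ℂ) (ρ : ℂ) : eval (pt x (ρ • v)) p = ρ ^ d * eval (pt x v) p := by
  rw [eval_eq', eval_eq', Finset.mul_sum]
  refine Finset.sum_congr rfl fun μ hμ => ?_
  have h2 := hp (mem_support_iff.1 hμ)
  rw [Finsupp.weight_apply, Finsupp.sum_fintype _ _ (by simp)] at h2
  rw [Fintype.sum_sum_type] at h2
  simp only [Sum.elim_inl, Sum.elim_inr, smul_eq_mul, mul_zero, Finset.sum_const_zero, mul_one, zero_add] at h2
  rw [Fintype.prod_sum_type, Fintype.prod_sum_type]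
  simp only [pt, Sum.elim_inl, Sum.elim_inr, Pi.smul_apply, smul_eq_mul, mul_pow, Finset.prod_mul_distrib]
  rw [Finset.prod_pow_eq_pow_sum, h2]
  ring

/-- the degrees in `v` -/
def deg {θ : ∀ k, SymSec P (m k)} (f : Frame θ) : Ix f → ℕ :=
  Sum.elim (Sum.elim (fun _ => 0) fun _ => 1) (Sum.elim (Sum.elim (fun _ => 0) fun _ => 1) m)

theorem eval_gfam {f : Frame θ} (hf : HomFr f) (b : Fin (N + 1)) (l : Ix f) (x v : Fin (N + 1) → ℂ) (ρ : ℂ) :
    eval (pt x (ρ • v)) (gfam f b l) = ρ ^ deg f l * eval (pt x v) (gfam f b l) := by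
  rcases l with ((l | l) | ((j | j) | k))
  · simp [gfam, deg]
  · simp [gfam, deg]
  · simp only [gfam, deg, Sum.elim_inl, Sum.elim_inr, pow_zero, one_mul, eval_rename]
    rfl
  · simp only [gfam, deg, Sum.elim_inl, Sum.elim_inr, pow_one, map_sum, map_mul, eval_X, eval_rename, pt, Pi.smul_apply, smul_eq_mul, Finset.mul_sum]
    refine Finset.sum_congr rfl fun c _ => ?_
    have : (Sum.elim x (ρ • v) ∘ Sum.inl : Fin (N + 1) → ℂ) = Sum.elim x v ∘ Sum.inl := rfl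
    rw [this]
    ring
  · exact eval_hom (hf b k) x v ρ

/-- scaling of the linearised equation -/
theorem lin_scale {f : Frame θ} (hf : HomFr f) (b : Fin (N + 1)) (l : Ix f) (x v V U : Fin (N + 1) → ℂ) (ρ : ℂ) :
    ∑ s, eval (pt x (ρ • v)) (pderiv s (gfam f b l)) * pt V (ρ • U) s =
      ρ ^ deg f l * ∑ s, eval (pt x v) (pderiv s (gfam f b l)) * pt V U s := by
  have h1 := hasDerivAt_evalA (gfam f b l) x (ρ • v) V (ρ • U)
  have h2 := (hasDerivAt_evalA (gfam f b l) x v V U).const_mul (ρ ^ deg f l)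
  refine h1.unique (h2.congr_of_eventuallyEq (Eventually.of_forall fun t => ?_))
  have h3 : ρ • v + t • (ρ • U) = ρ • (v + t • U) := by
    rw [smul_add, smul_comm t ρ]
  simp only [h3]
  exact eval_gfam hf b l _ _ ρ

/-- the unit vectors in the chart -/
def UnitSet (P : Ideal (MvPolynomial (Fin (N + 1)) ℂ)) (b : Fin (N + 1)) : Set (Ph N → ℂ) :=
  {y | InCh P b (fun c => y (Sum.inl c)) (fun c => y (Sum.inr c)) ∧ ‖fun c => y (Sum.inr c)‖ = 1}

theorem isCompact_UnitSet (P : Ideal (MvPolynomial (Fin (N + 1)) ℂ)) (b : Fin (N + 1)) : IsCompact (UnitSet P b) := by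
  have hc : ∀ Q : MvPolynomial (Fin (N + 1)) ℂ, Continuous fun y : Ph N → ℂ => eval (fun b => y (Sum.inl b)) Q := fun Q =>
    (MvPolynomial.continuous_eval Q).comp (continuous_pi fun b => continuous_apply _)
  have e : UnitSet P b = {y | y (Sum.inl b) = 1} ∩ ({y | y (Sum.inr b) = 0} ∩ ({y | ∀ c, ‖y (Sum.inl c)‖ ≤ 1} ∩
      ({y | ∀ Q ∈ P, eval (fun b => y (Sum.inl b)) Q = 0} ∩
        ({y | ∀ Q ∈ P, ∑ i, y (Sum.inr i) * eval (fun b => y (Sum.inl b)) (pderiv i Q) = 0} ∩ {y | ‖fun c => y (Sum.inr c)‖ = 1})))) := by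
    ext y
    constructor
    · rintro ⟨⟨h1, h2, h3, h4, h5⟩, h6⟩
      exact ⟨h2, h5, h3, h1.2, h4, h6⟩
    · rintro ⟨h2, h5, h3, h1, h4, h6⟩
      refine ⟨⟨⟨fun h0 => ?_, h1⟩, h2, h3, h4, h5⟩, h6⟩
      have h7 := congrFun h0 b
      have h8 : y (Sum.inl b) = 1 := h2
      simp only [Pi.zero_apply] at h7
      rw [h8] at h7
      exact one_ne_zero h7
  have h1 : IsClosed {y : Ph N → ℂ | y (Sum.inl b) = 1} := isClosed_eq (continuous_apply _) continuous_const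
  have h2 : IsClosed {y : Ph N → ℂ | y (Sum.inr b) = 0} := isClosed_eq (continuous_apply _) continuous_const
  have h3 : IsClosed {y : Ph N → ℂ | ∀ b, ‖y (Sum.inl b)‖ ≤ 1} := by
    simp only [Set.ofPred_forall]
    exact isClosed_iInter fun b => isClosed_le (continuous_apply _).norm continuous_const
  have h4 : IsClosed {y : Ph N → ℂ | ∀ Q ∈ P, eval (fun b => y (Sum.inl b)) Q = 0} := by
    simp only [Set.ofPred_forall]
    exact isClosed_iInter fun Q => isClosed_iInter fun _ => isClosed_eq (hc Q) continuous_const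
  have h5 : IsClosed {y : Ph N → ℂ | ∀ Q ∈ P, ∑ i, y (Sum.inr i) * eval (fun b => y (Sum.inl b)) (pderiv i Q) = 0} := by
    simp only [Set.ofPred_forall]
    refine isClosed_iInter fun Q => isClosed_iInter fun _ => isClosed_eq ?_ continuous_const
    exact continuous_finsetSum _ fun i _ => (continuous_apply _).mul (hc _)
  have h6 : IsClosed {y : Ph N → ℂ | ‖fun c : Fin (N + 1) => y (Sum.inr c)‖ = 1} :=
    isClosed_eq (continuous_pi fun b => continuous_apply (Sum.inr b)).norm continuous_const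
  have hcl : IsClosed (UnitSet P b) := by
    rw [e]
    exact h1.inter (h2.inter (h3.inter (h4.inter (h5.inter h6))))
  refine Metric.isCompact_of_isClosed_isBounded hcl ?_
  refine (isBounded_closedBall (x := (0 : Ph N → ℂ)) (r := 1)).subset ?_
  rintro y ⟨⟨_, _, h3, _, _⟩, h6⟩
  rw [mem_closedBall_zero_iff, pi_norm_le_iff_of_nonneg zero_le_one]
  rintro (c | c)
  · exact h3 c
  · rw [← h6]
    exact norm_le_pi_norm (fun c : Fin (N + 1) => y (Sum.inr c)) c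

/-- a lower bound on a compact set for injective linear maps -/
theorem lower_bound {ι Y : Type} [Fintype ι] [TopologicalSpace Y] {n : ℕ} {S : Set Y} (hS : IsCompact S) {A : ι → Fin n → Y → ℂ}
    (hA : ∀ l c, Continuous (A l c)) (hinj : ∀ y ∈ S, ∀ U : Fin n → ℂ, (∀ l, ∑ c, A l c y * U c = 0) → U = 0) :
    ∃ δ > 0, ∀ y ∈ S, ∀ U : Fin n → ℂ, δ * ‖U‖ ≤ ∑ l, ‖∑ c, A l c y * U c‖ := by
  obtain ⟨g, hg⟩ : ∃ g : Y × (Fin n → ℂ) → ℝ, g = fun z => ∑ l, ‖∑ c, A l c z.1 * z.2 c‖ := ⟨_, rfl⟩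
  have hcont : Continuous g := by
    rw [hg]
    refine continuous_finsetSum _ fun l _ => (continuous_finsetSum _ fun c _ => ?_).norm
    exact ((hA l c).comp continuous_fst).mul ((continuous_apply c).comp continuous_snd)
  have hK : IsCompact (S ×ˢ sphere (0 : Fin n → ℂ) 1) := hS.prod (isCompact_sphere _ _)
  obtain ⟨δ, hδ, h1⟩ : ∃ δ > 0, ∀ y ∈ S, ∀ U : Fin n → ℂ, ‖U‖ = 1 → δ ≤ g (y, U) := by
    rcases (S ×ˢ sphere (0 : Fin n → ℂ) 1).eq_empty_or_nonempty with h0 | h0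
    · refine ⟨1, one_pos, fun y hy U hU => ?_⟩
      have h2 : (y, U) ∈ S ×ˢ sphere (0 : Fin n → ℂ) 1 := ⟨hy, by simpa using hU⟩
      rw [h0] at h2
      exact h2.elim
    · obtain ⟨z, hz, hmin⟩ := hK.exists_isMinOn h0 hcont.continuousOn
      refine ⟨g z, ?_, fun y hy U hU => ?_⟩
      · obtain ⟨hz1, hz2⟩ := hz
        by_contra hneg
        rw [hg] at hneg
        have h5 : ∑ l, ‖∑ c, A l c z.1 * z.2 c‖ = 0 :=
          le_antisymm (not_lt.1 hneg) (Finset.sum_nonneg fun k _ => norm_nonneg _)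
        have h7 : z.2 = 0 := hinj z.1 hz1 z.2 fun l =>
          norm_eq_zero.1 ((Finset.sum_eq_zero_iff_of_nonneg fun k _ => norm_nonneg _).1 h5 l (Finset.mem_univ l))
        rw [mem_sphere_zero_iff_norm, h7, norm_zero] at hz2
        exact zero_ne_one hz2
      · have h2 : (y, U) ∈ S ×ˢ sphere (0 : Fin n → ℂ) 1 := ⟨hy, by simpa using hU⟩
        exact hmin h2
  refine ⟨δ, hδ, fun y hy U => ?_⟩
  rcases eq_or_ne U 0 with rfl | hU
  · simp only [norm_zero, mul_zero]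
    exact Finset.sum_nonneg fun _ _ => norm_nonneg _
  · have hU0 : 0 < ‖U‖ := norm_pos_iff.2 hU
    have h3 := h1 y hy (((‖U‖⁻¹ : ℝ) : ℂ) • U) (by
      rw [norm_smul, Complex.norm_real, norm_inv, norm_norm, inv_mul_cancel₀ hU0.ne'])
    rw [hg] at h3
    have h4 : ∀ l, ‖∑ c, A l c y * (((‖U‖⁻¹ : ℝ) : ℂ) • U) c‖ = ‖U‖⁻¹ * ‖∑ c, A l c y * U c‖ := by
      intro l
      have h5 : ∑ c, A l c y * (((‖U‖⁻¹ : ℝ) : ℂ) • U) c = ((‖U‖⁻¹ : ℝ) : ℂ) * ∑ c, A l c y * U c := by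
        rw [Finset.mul_sum]
        refine Finset.sum_congr rfl fun c _ => ?_
        rw [Pi.smul_apply, smul_eq_mul]
        ring
      rw [h5, norm_mul, Complex.norm_real, norm_inv, norm_norm]
    simp only [h4] at h3
    rw [← Finset.mul_sum, inv_mul_eq_div, le_div_iff₀ hU0] at h3
    exact h3

theorem upper_bound {ι Y : Type} [Fintype ι] [TopologicalSpace Y] {n : ℕ} {S : Set Y} (hS : IsCompact S) {A : ι → Fin n → Y → ℂ}
    (hA : ∀ l c, Continuous (A l c)) : ∃ B : ℝ, ∀ y ∈ S, ∑ l, ∑ c, ‖A l c y‖ ≤ B := by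
  obtain ⟨g, hg⟩ : ∃ g : Y → ℝ, g = fun y => ∑ l, ∑ c, ‖A l c y‖ := ⟨_, rfl⟩
  have hcont : Continuous g := by
    rw [hg]
    exact continuous_finsetSum _ fun l _ => continuous_finsetSum _ fun c _ => (hA l c).norm
  obtain ⟨B, hB⟩ := hS.exists_bound_of_continuousOn hcont.continuousOn
  refine ⟨B, fun y hy => ?_⟩
  have := (le_abs_self _).trans (hB y hy)
  rwa [hg] at this

theorem abs_bound {ι Y : Type} [Fintype ι] [TopologicalSpace Y] {n : ℕ} {S : Set Y} (hS : IsCompact S) {A E : ι → Fin n → Y → ℂ}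
    (hA : ∀ l c, Continuous (A l c)) (hE : ∀ l c, Continuous (E l c))
    (hinj : ∀ y ∈ S, ∀ U : Fin n → ℂ, (∀ l, ∑ c, A l c y * U c = 0) → U = 0) :
    ∃ C : ℝ, 0 ≤ C ∧ ∀ y ∈ S, ∀ V U : Fin n → ℂ, (∀ l, ∑ c, E l c y * V c + ∑ c, A l c y * U c = 0) → ‖U‖ ≤ C * ‖V‖ := by
  obtain ⟨δ, hδ, h1⟩ := lower_bound hS hA hinj
  obtain ⟨B, hB⟩ := upper_bound hS hE
  refine ⟨|B| / δ, by positivity, fun y hy V U heq => ?_⟩
  have h3 : ∀ l, ‖∑ c, A l c y * U c‖ ≤ (∑ c, ‖E l c y‖) * ‖V‖ := by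
    intro l
    have h5 : ∑ c, A l c y * U c = -∑ c, E l c y * V c := eq_neg_of_add_eq_zero_right (heq l)
    rw [h5, norm_neg, Finset.sum_mul]
    refine (norm_sum_le _ _).trans (Finset.sum_le_sum fun c _ => ?_)
    rw [norm_mul]
    exact mul_le_mul_of_nonneg_left (norm_le_pi_norm V c) (norm_nonneg _)
  have h4 : δ * ‖U‖ ≤ |B| * ‖V‖ := by
    refine (h1 y hy U).trans ((Finset.sum_le_sum fun l _ => h3 l).trans ?_)
    rw [← Finset.sum_mul]
    exact mul_le_mul_of_nonneg_right ((hB _ hy).trans (le_abs_self B)) (norm_nonneg _)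
  rw [div_mul_eq_mul_div, le_div_iff₀ hδ]
  linarith

/-- the bound for unit vectors -/
theorem unit_bound (hθ : Polar θ) (f : Frame θ) (b : Fin (N + 1)) : ∃ C : ℝ, 0 ≤ C ∧ ∀ x v V U : Fin (N + 1) → ℂ,
    InCh P b x v → ‖v‖ = 1 → (∀ l, ∑ s, eval (pt x v) (pderiv s (gfam f b l)) * pt V U s = 0) → ‖U‖ ≤ C * ‖V‖ := by
  obtain ⟨C, hC0, hC⟩ := abs_bound (ι := Ix f) (isCompact_UnitSet P b)
    (A := fun l c y => eval y (pderiv (Sum.inr c) (gfam f b l))) (E := fun l c y => eval y (pderiv (Sum.inl c) (gfam f b l)))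
    (fun l c => MvPolynomial.continuous_eval _) (fun l c => MvPolynomial.continuous_eval _) (fun y hy U hU => by
      have hpt : y = pt (fun c => y (Sum.inl c)) (fun c => y (Sum.inr c)) := by
        funext s
        rcases s with s | s <;> rfl
      obtain ⟨⟨i1, i2, i3, i4, i5⟩, i6⟩ := hy
      refine row_zero hθ f (a := b) (c := fun k => (θ k).toFun (fun c => y (Sum.inl c)) (fun c => y (Sum.inr c)))
        (x := fun c => y (Sum.inl c)) (v := fun c => y (Sum.inr c)) ⟨i1, i2, i4, i5, fun k => rfl⟩ ?_ U (fun l => ?_)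
      · intro h0
        rw [h0, norm_zero] at i6
        exact zero_ne_one i6
      · rw [← hpt]
        exact hU l)
  refine ⟨C, hC0, fun x v V U hin hv heq => ?_⟩
  have hy : pt x v ∈ UnitSet P b := ⟨hin, hv⟩
  refine hC (pt x v) hy V U fun l => ?_
  have h4 := heq l
  rw [Fintype.sum_sum_type] at h4
  exact h4

end Pool.Agent.GA.BL

namespace Pool.Agent.GA

open BL

variable {N : ℕ} {P : Ideal (MvPolynomial (Fin (N + 1)) ℂ)} {J : ℕ} {m : Fin J → ℕ} {θ : ∀ k, SymSec P (m k)}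

/-- the linearised equation gives `‖U‖ ≤ C ‖v‖ ‖V‖` -/
theorem le_bound (hθ : Polar θ) (hm : ∀ k, 1 ≤ m k) (f : Frame θ) (hf : HomFr f) : ∃ C : ℝ, ∀ (b : Fin (N + 1)) (x v V U : Fin (N + 1) → ℂ),
    InCh P b x v → v ≠ 0 → V ∈ conTan P x → V b = 0 → (∀ l, ∑ s, eval (pt x v) (pderiv s (gfam f b l)) * pt V U s = 0) →
    ‖U‖ ≤ C * ‖v‖ * ‖V‖ := by
  have _hm := hm
  choose C hC0 hC using fun b => unit_bound hθ f b
  refine ⟨∑ b, C b, fun b x v V U hin hv _ _ heq => ?_⟩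
  have hv0 : 0 < ‖v‖ := norm_pos_iff.2 hv
  have hρ : ((‖v‖ : ℝ) : ℂ) ≠ 0 := by exact_mod_cast hv0.ne'
  set ρ : ℂ := ((‖v‖ : ℝ) : ℂ) with hρd
  have hρn : ‖ρ‖ = ‖v‖ := by rw [hρd, Complex.norm_real, norm_norm]
  have e1 : ρ • (ρ⁻¹ • v) = v := by rw [smul_smul, mul_inv_cancel₀ hρ, one_smul]
  have e2 : ρ • (ρ⁻¹ • U) = U := by rw [smul_smul, mul_inv_cancel₀ hρ, one_smul]
  have h1 : ∀ l, ∑ s, eval (pt x (ρ⁻¹ • v)) (pderiv s (gfam f b l)) * pt V (ρ⁻¹ • U) s = 0 := by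
    intro l
    have h2 := lin_scale hf b l x (ρ⁻¹ • v) V (ρ⁻¹ • U) ρ
    rw [e1, e2, heq l] at h2
    rcases mul_eq_zero.1 h2.symm with h3 | h3
    · exact absurd h3 (pow_ne_zero _ hρ)
    · exact h3
  obtain ⟨a1, a2, a3, a4, a5⟩ := hin
  have h2 : InCh P b x (ρ⁻¹ • v) := ⟨a1, a2, a3, (conTan P x).smul_mem _ a4, by rw [Pi.smul_apply, a5, smul_zero]⟩
  have h3 : ‖ρ⁻¹ • v‖ = 1 := by rw [norm_smul, norm_inv, hρn, inv_mul_cancel₀ hv0.ne']
  have h4 := hC b x (ρ⁻¹ • v) V (ρ⁻¹ • U) h2 h3 h1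
  rw [norm_smul, norm_inv, hρn, inv_mul_eq_div, div_le_iff₀ hv0] at h4
  have h5 : C b ≤ ∑ b, C b := Finset.single_le_sum (fun b _ => hC0 b) (Finset.mem_univ b)
  calc ‖U‖ ≤ C b * ‖V‖ * ‖v‖ := h4
    _ = C b * (‖v‖ * ‖V‖) := by ring
    _ ≤ (∑ b, C b) * (‖v‖ * ‖V‖) := mul_le_mul_of_nonneg_right h5 (by positivity)
    _ = _ := by ring

end Pool.Agent.GA
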