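import Pool.Agent.GA.BndB
import Pool.Agent.GA.BndL

/-!
# GA Bnd: the linearised equation gives `|V'| ≤ C |x'| |V|` in the chart of the largest coordinate

Definitions in `BndD`; `exists_homFr`, `wl_chart` and `alpha_of_le` in `BndB`; `le_bound` (helper20) in `BndL`.

The functions `gfam f b l` are homogeneous in `v` (weights `0`, `1`), of degree `e_l` (`0`, `1`, `0`, `1`, `m k`): the derivatives in `v` at `(x, v)` are homogeneous of degree `e_l - 1` in `v`, the
derivatives in `x` of degree `e_l`.  So scale to `‖v‖ = 1`; the set of the `(x, v)` with `x ∈ cone P`, `x b = 1`, `‖x c‖ ≤ 1`, `v ∈ conTan P x`, `v b = 0`, `‖v‖ = 1` is compact, `GG.exists_row` gives at every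
point a minor `vdet ≠ 0`, so (finitely many rows) `U` is bounded by `C ‖V‖` near every point.
-/

set_option autoImplicit false

open MvPolynomial Topology Filter Metric
open Pool.Agent.H13.SM (conTan cone)
open Pool.Agent.H62.FC (Homog)
open Pool.Agent.GG

namespace Pool.Agent.GA

variable {N : ℕ} {P : Ideal (MvPolynomial (Fin (N + 1)) ℂ)} {J : ℕ} {m : Fin J → ℕ} {θ : ∀ k, SymSec P (m k)}

theorem alpha_bound (hθ : Polar θ) (hm : ∀ k, 1 ≤ m k) (f : Frame θ) (hf : HomFr f) : ∃ C : ℝ, ∀ (b : Fin (N + 1)) (x v V U : Fin (N + 1) → ℂ),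
    InCh P b x v → v ≠ 0 → V ∈ conTan P x → V b = 0 → (∀ l, ∑ s, eval (pt x v) (pderiv s (gfam f b l)) * pt V U s = 0) →
    ∀ k, ‖∑ s, eval (pt x V) (pderiv s (f.A b k)) * pt v U s‖ ≤ C * ‖v‖ * ‖V‖ ^ m k :=
  alpha_of_le hm f hf (le_bound hθ hm f hf)

end Pool.Agent.GA
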