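import Pool.Agent.MQ.Ker

/-!
# GA RCore: the means of `log⁺ |g ^ (j)|` of a periodic holomorphic function

`g` is holomorphic near the strip `|Re w - t| ≤ 2 r`, with period `2 π i`; the integrals over the period of `log⁺ |g|` on the lines `Re w = t'`,
`|t' - t| ≤ 2 r`, are at most `B`.  Then the integral over the period of `log⁺ |g ^ (j)|` on the line `Re w = t` is at most
`2 π log⁺ (j! / r ^ j) + 6 B`.

Proof.  Let `u = log⁺ |g|`.  By the Cauchy estimate and the area mean value inequality `log⁺ |g ^ (j) (w)| ≤ log⁺ (j! / r ^ j) + S (w)`, where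
`S (w)` is `1 / (π r ^ 2)` times the integral of `u` over the square with the centre `w` and the side `4 r`.  The integral of `S` over the period is
`1 / (π r ^ 2)` times `(4 r) ^ 2` times a mean of the integrals of `u` over the period, by the theorem of Fubini and the periodicity.
-/

set_option autoImplicit false

open Topology Filter Metric Set MeasureTheory

namespace Pool.Agent.GA

/-- the sub-mean value property on circles -/
theorem posLog_le_circleAverage {g : ℂ → ℂ} {w : ℂ} {ρ : ℝ} (hρ : 0 < ρ) (hg : AnalyticOnNhd ℂ g (closedBall w ρ)) :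
    Real.posLog ‖g w‖ ≤ Real.circleAverage (fun z => Real.posLog ‖g z‖) w ρ := by
  have har : |ρ| = ρ := abs_of_pos hρ
  have hana : AnalyticOnNhd ℂ g (closedBall w |ρ|) := by rwa [har]
  have hsph : sphere w |ρ| ⊆ closedBall w |ρ| := sphere_subset_closedBall
  have hcont : ContinuousOn (fun z => Real.posLog ‖g z‖) (sphere w |ρ|) :=
    Real.continuous_posLog.comp_continuousOn (hana.continuousOn.mono hsph).norm
  have hci : CircleIntegrable (fun z => Real.posLog ‖g z‖) w ρ := by
    rw [har] at hcont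
    exact hcont.circleIntegrable hρ.le
  have h0 : 0 ≤ Real.circleAverage (fun z => Real.posLog ‖g z‖) w ρ := by
    rw [Real.circleAverage_def]
    refine smul_nonneg (by positivity) (intervalIntegral.integral_nonneg Real.two_pi_pos.le fun θ _ => Real.posLog_nonneg)
  by_cases hw : g w = 0
  · rw [hw, norm_zero, Real.posLog_zero]
    exact h0
  have h1 : Real.log ‖g w‖ ≤ Real.circleAverage (fun z => Real.log ‖g z‖) w ρ := by
    rw [AnalyticOnNhd.circleAverage_log_norm hρ.ne' hana hw]
    have h1 : 0 ≤ ∑ᶠ u, (MeromorphicOn.divisor g (closedBall w |ρ|) u : ℝ) * Real.log (ρ * ‖w - u‖⁻¹) := by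
      apply finsum_nonneg
      intro u
      by_cases hu : u ∈ closedBall w |ρ|
      · apply mul_nonneg
        · have := MeromorphicOn.AnalyticOnNhd.divisor_nonneg hana u
          exact_mod_cast this
        · by_cases huc : u = w
          · simp [huc]
          · apply Real.log_nonneg
            have h2 : 0 < ‖w - u‖ := by
              rw [norm_pos_iff, sub_ne_zero]
              exact fun h => huc h.symm
            have h3 : ‖w - u‖ ≤ ρ := by
              rw [mem_closedBall, dist_eq_norm, har, norm_sub_rev] at hu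
              exact hu
            rw [← div_eq_mul_inv, one_le_div h2]
            exact h3
      · rw [Function.locallyFinsuppWithin.apply_eq_zero_of_notMem _ hu]
        simp
    linarith
  have h2 : Real.circleAverage (fun z => Real.log ‖g z‖) w ρ ≤ Real.circleAverage (fun z => Real.posLog ‖g z‖) w ρ := by
    refine Real.circleAverage_mono (hana.mono hsph).meromorphicOn.circleIntegrable_log_norm hci fun z _ => le_max_right _ _
  exact max_le h0 (h1.trans h2)

/-- the area mean value inequality -/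
theorem area_submean {u : ℂ → ℝ} {r : ℝ} (hr : 0 < r) (hc : ContinuousOn u (closedBall 0 r))
    (hs : ∀ ρ, 0 < ρ → ρ ≤ r → u 0 ≤ Real.circleAverage u 0 ρ) : Real.pi * r ^ 2 * u 0 ≤ ∫ z in closedBall (0 : ℂ) r, u z := by
  classical
  -- the radial weight
  obtain ⟨G, hG⟩ : ∃ G : ℝ → ℝ, G = fun s => if s ≤ Real.log r then Real.exp (2 * s) else 0 := ⟨_, rfl⟩
  have hGz : ∀ z : ℂ, z ≠ 0 → G (Real.log ‖z‖) / ‖z‖ ^ 2 = if z ∈ closedBall (0 : ℂ) r then 1 else 0 := by
    intro z hz
    have hz0 : 0 < ‖z‖ := norm_pos_iff.2 hz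
    rw [hG]
    simp only [mem_closedBall_zero_iff, Real.log_le_log_iff hz0 hr]
    split_ifs with h
    · have h3 : Real.exp (2 * Real.log ‖z‖) = ‖z‖ ^ 2 := by
        rw [two_mul, Real.exp_add, Real.exp_log hz0, sq]
      rw [h3, div_self (by positivity)]
    · simp
  have hint : IntegrableOn u (closedBall (0 : ℂ) r) := hc.integrableOn_compact (isCompact_closedBall 0 r)
  have hae : (fun z : ℂ => G (Real.log ‖z‖) / ‖z‖ ^ 2 * u z) =ᵐ[volume] (closedBall (0 : ℂ) r).indicator u := by
    have h1 : ∀ᵐ z : ℂ, z ≠ 0 := by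
      rw [ae_iff]
      simp
    filter_upwards [h1] with z hz
    rw [hGz z hz, indicator_apply]
    split_ifs <;> simp
  have hI : Integrable (fun z : ℂ => G (Real.log ‖z‖) / ‖z‖ ^ 2 * u z) :=
    ((integrable_indicator_iff isClosed_closedBall.measurableSet).2 hint).congr hae.symm
  have hae1 : (fun z : ℂ => G (Real.log ‖z‖) / ‖z‖ ^ 2) =ᵐ[volume] (closedBall (0 : ℂ) r).indicator fun _ => 1 := by
    have h1 : ∀ᵐ z : ℂ, z ≠ 0 := by
      rw [ae_iff]
      simp
    filter_upwards [h1] with z hz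
    rw [hGz z hz, indicator_apply]
  have hI1 : Integrable (fun z : ℂ => G (Real.log ‖z‖) / ‖z‖ ^ 2) := by
    refine Integrable.congr ((integrable_indicator_iff isClosed_closedBall.measurableSet).2 ?_) hae1.symm
    exact (continuousOn_const (c := (1 : ℝ))).integrableOn_compact (isCompact_closedBall 0 r)
  have e1 := Pool.Agent.MQ.polar_radial G u hI
  have e2 := Pool.Agent.MQ.polar_radial_one G hI1
  have e3 : ∫ z : ℂ, G (Real.log ‖z‖) / ‖z‖ ^ 2 * u z = ∫ z in closedBall (0 : ℂ) r, u z := by
    rw [integral_congr_ae hae, integral_indicator isClosed_closedBall.measurableSet]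
  have e4 : ∫ z : ℂ, G (Real.log ‖z‖) / ‖z‖ ^ 2 = Real.pi * r ^ 2 := by
    rw [integral_congr_ae hae1, integral_indicator isClosed_closedBall.measurableSet, setIntegral_const, smul_eq_mul, mul_one, Measure.real,
      Complex.volume_closedBall]
    simp [hr.le]
    ring
  rw [e3] at e1
  rw [e4] at e2
  have hGi : Integrable G := by
    have hG' : G = (Iic (Real.log r)).indicator fun s => Real.exp (2 * s) := by
      funext s
      rw [hG, indicator_apply]
      rfl
    rw [hG', integrable_indicator_iff measurableSet_Iic]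
    have := integrableOn_exp_mul_Iic (a := 2) (by norm_num) (Real.log r)
    exact this
  have hmono : ∫ s : ℝ, G s * u 0 ≤ ∫ s : ℝ, G s * Real.circleAverage u 0 (Real.exp s) := by
    obtain ⟨M, hM⟩ := (isCompact_closedBall (0 : ℂ) r).exists_bound_of_continuousOn hc
    have hG0 : ∀ s, 0 ≤ G s := by
      intro s
      rw [hG]
      dsimp only
      split_ifs
      · exact (Real.exp_pos _).le
      · exact le_rfl
    have hmem : ∀ s, s ≤ Real.log r → Real.exp s ≤ r := fun s hs => by
      rw [← Real.exp_log hr]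
      exact Real.exp_le_exp.2 hs
    by_cases hi : Integrable fun s : ℝ => G s * Real.circleAverage u 0 (Real.exp s)
    · refine integral_mono (hGi.mul_const _) hi fun s => ?_
      by_cases hs' : s ≤ Real.log r
      · exact mul_le_mul_of_nonneg_left (hs _ (Real.exp_pos s) (hmem s hs')) (hG0 s)
      · have h0 : G s = 0 := by rw [hG]; simp [hs']
        simp [h0]
    · exfalso
      apply hi
      have hcA : ContinuousOn (fun s : ℝ => Real.circleAverage u 0 (Real.exp s)) (Iic (Real.log r)) := by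
        have h1 : ContinuousOn (fun ρ : ℝ => Real.circleAverage u 0 ρ) (Icc 0 r) := by
          refine Real.ContinuousOn.circleAverage (hc.mono ?_) fun ρ hρ => hρ.1
          intro z hz
          rw [mem_closedBall_zero_iff]
          have h2 : ‖z - 0‖ ∈ Icc 0 r := hz
          rw [sub_zero] at h2
          exact h2.2
        refine h1.comp Real.continuous_exp.continuousOn fun s hs => ⟨(Real.exp_pos s).le, hmem s hs⟩
      have hb : ∀ s, ‖G s * Real.circleAverage u 0 (Real.exp s)‖ ≤ ‖G s * M‖ := by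
        intro s
        by_cases hs' : s ≤ Real.log r
        · rw [norm_mul, norm_mul]
          refine mul_le_mul_of_nonneg_left ?_ (norm_nonneg _)
          have h1 : ‖Real.circleAverage u 0 (Real.exp s)‖ ≤ M := by
            rw [Real.circleAverage_def, norm_smul]
            have h2 : ‖∫ θ in (0)..2 * Real.pi, u (circleMap 0 (Real.exp s) θ)‖ ≤ M * |2 * Real.pi - 0| := by
              refine intervalIntegral.norm_integral_le_of_norm_le_const fun θ _ => hM _ ?_
              rw [mem_closedBall_zero_iff, norm_circleMap_zero, abs_of_pos (Real.exp_pos s)]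
              exact hmem s hs'
            rw [sub_zero, abs_of_pos Real.two_pi_pos] at h2
            rw [norm_inv, Real.norm_eq_abs, abs_of_pos Real.two_pi_pos]
            calc (2 * Real.pi)⁻¹ * ‖∫ θ in (0)..2 * Real.pi, u (circleMap 0 (Real.exp s) θ)‖ ≤ (2 * Real.pi)⁻¹ * (M * (2 * Real.pi)) :=
                  mul_le_mul_of_nonneg_left h2 (by positivity)
              _ = M := by
                have := Real.pi_ne_zero
                field_simp
          exact h1.trans (le_abs_self M)
        · have h0 : G s = 0 := by rw [hG]; simp [hs']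
          simp [h0]
      refine (hGi.mul_const M).mono ?_ (Eventually.of_forall hb)
      have hG' : (fun s => G s * Real.circleAverage u 0 (Real.exp s)) =
          (Iic (Real.log r)).indicator fun s => Real.exp (2 * s) * Real.circleAverage u 0 (Real.exp s) := by
        funext s
        rw [hG, indicator_apply]
        by_cases hs' : s ≤ Real.log r
        · simp [hs']
        · simp [hs']
      rw [hG', aestronglyMeasurable_indicator_iff measurableSet_Iic]
      exact (ContinuousOn.mul (by fun_prop) hcA).aestronglyMeasurable measurableSet_Iic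
  rw [e1]
  rw [integral_mul_const] at hmono
  calc Real.pi * r ^ 2 * u 0 = 2 * Real.pi * ((∫ s : ℝ, G s) * u 0) := by rw [e2]; ring
    _ ≤ 2 * Real.pi * ∫ s : ℝ, G s * Real.circleAverage u 0 (Real.exp s) := mul_le_mul_of_nonneg_left hmono Real.two_pi_pos.le

/-- `u = log⁺ |g|` at the points of a disc is at most the integral over a square -/
theorem posLog_le_square {g : ℂ → ℂ} {w ζ : ℂ} {r : ℝ} (hr : 0 < r) (hg : AnalyticOnNhd ℂ g {z | |z.re - w.re| ≤ 2 * r}) (hζ : ζ ∈ closedBall w r) :
    Real.pi * r ^ 2 * Real.posLog ‖g ζ‖ ≤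
      ∫ p in Icc (-(2 * r)) (2 * r) ×ˢ Icc (-(2 * r)) (2 * r), Real.posLog ‖g (w + ((p.1 : ℝ) + (p.2 : ℝ) * Complex.I))‖ := by
  have hball : ∀ z ∈ closedBall (0 : ℂ) r, ζ + z ∈ closedBall w (2 * r) := by
    intro z hz
    rw [mem_closedBall_zero_iff] at hz
    rw [mem_closedBall, dist_eq_norm] at hζ ⊢
    calc ‖ζ + z - w‖ = ‖(ζ - w) + z‖ := by ring_nf
      _ ≤ ‖ζ - w‖ + ‖z‖ := norm_add_le _ _
      _ ≤ 2 * r := by linarith
  have hstrip : ∀ z ∈ closedBall w (2 * r), z ∈ {z : ℂ | |z.re - w.re| ≤ 2 * r} := by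
    intro z hz
    rw [mem_closedBall, dist_eq_norm] at hz
    exact (Complex.abs_re_le_norm (z - w)).trans hz
  have hgb : AnalyticOnNhd ℂ g (closedBall w (2 * r)) := hg.mono hstrip
  have hu : ContinuousOn (fun z => Real.posLog ‖g z‖) (closedBall w (2 * r)) := Real.continuous_posLog.comp_continuousOn hgb.continuousOn.norm
  have h1 : Real.pi * r ^ 2 * Real.posLog ‖g (ζ + 0)‖ ≤ ∫ z in closedBall (0 : ℂ) r, Real.posLog ‖g (ζ + z)‖ := by
    refine area_submean (u := fun z => Real.posLog ‖g (ζ + z)‖) hr ?_ ?_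
    · exact hu.comp (continuous_const.add continuous_id).continuousOn hball
    · intro ρ hρ hρr
      have hsub : closedBall ζ ρ ⊆ closedBall w (2 * r) := by
        intro z hz
        have := hball (z - ζ) (by
          rw [mem_closedBall_zero_iff]
          rw [mem_closedBall, dist_eq_norm] at hz
          exact hz.trans hρr)
        rwa [add_sub_cancel] at this
      have h2 := posLog_le_circleAverage hρ (hgb.mono hsub)
      have h3 : Real.circleAverage (fun z => Real.posLog ‖g (ζ + z)‖) 0 ρ = Real.circleAverage (fun z => Real.posLog ‖g z‖) ζ ρ := by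
        have := Real.circleAverage_map_add_const (f := fun z => Real.posLog ‖g z‖) (c := ζ) (R := ρ)
        rw [← this]
        simp only [add_comm]
      rw [h3, add_zero]
      exact h2
  rw [add_zero] at h1
  refine h1.trans ?_
  -- translate, enlarge, and write as an integral over the square
  have e1 : ∫ z in closedBall (0 : ℂ) r, Real.posLog ‖g (ζ + z)‖ = ∫ z in closedBall (ζ - w) r, Real.posLog ‖g (w + z)‖ := by
    have h2 := (measurePreserving_add_left (volume : Measure ℂ) (ζ - w)).setIntegral_preimage_emb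
      (measurableEmbedding_addLeft (ζ - w)) (fun z => Real.posLog ‖g (w + z)‖) (closedBall (ζ - w) r)
    rw [← h2]
    have h3 : (fun z : ℂ => ζ - w + z) ⁻¹' closedBall (ζ - w) r = closedBall 0 r := by
      ext z
      simp [dist_eq_norm]
    rw [h3]
    refine setIntegral_congr_fun isClosed_closedBall.measurableSet fun z _ => ?_
    show Real.posLog ‖g (ζ + z)‖ = Real.posLog ‖g (w + (ζ - w + z))‖
    rw [show w + (ζ - w + z) = ζ + z by ring]
  rw [e1]
  obtain ⟨S, hS⟩ : ∃ S : Set ℂ, S = Complex.measurableEquivRealProd ⁻¹' (Icc (-(2 * r)) (2 * r) ×ˢ Icc (-(2 * r)) (2 * r)) := ⟨_, rfl⟩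
  have hSm : MeasurableSet S := by
    rw [hS]
    exact Complex.measurableEquivRealProd.measurable (measurableSet_Icc.prod measurableSet_Icc)
  have hmemS : ∀ z : ℂ, z ∈ S ↔ (|z.re| ≤ 2 * r ∧ |z.im| ≤ 2 * r) := by
    intro z
    rw [hS]
    simp only [mem_preimage, mem_prod, mem_Icc, Complex.measurableEquivRealProd_apply, abs_le]
  have hS2 : S ⊆ closedBall 0 (4 * r) := by
    intro z hz
    rw [hmemS] at hz
    rw [mem_closedBall_zero_iff]
    exact (Complex.norm_le_abs_re_add_abs_im z).trans (by linarith)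
  have hSs : ∀ z ∈ S, w + z ∈ {z : ℂ | |z.re - w.re| ≤ 2 * r} := by
    intro z hz
    rw [hmemS] at hz
    show |(w + z).re - w.re| ≤ 2 * r
    rw [Complex.add_re, add_sub_cancel_left]
    exact hz.1
  have hSc : IsCompact S := by
    refine (isCompact_closedBall (0 : ℂ) (4 * r)).of_isClosed_subset ?_ hS2
    have : S = {z : ℂ | |z.re| ≤ 2 * r} ∩ {z : ℂ | |z.im| ≤ 2 * r} := by
      ext z
      rw [hmemS]
      rfl
    rw [this]
    exact (isClosed_le Complex.continuous_re.abs continuous_const).inter (isClosed_le Complex.continuous_im.abs continuous_const)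
  have hint : IntegrableOn (fun z => Real.posLog ‖g (w + z)‖) S := by
    refine ContinuousOn.integrableOn_compact hSc ?_
    exact (Real.continuous_posLog.comp_continuousOn hg.continuousOn.norm).comp (continuous_const.add continuous_id).continuousOn hSs
  have e2 : ∫ z in closedBall (ζ - w) r, Real.posLog ‖g (w + z)‖ ≤ ∫ z in S, Real.posLog ‖g (w + z)‖ := by
    refine setIntegral_mono_set hint (Eventually.of_forall fun z => Real.posLog_nonneg) ?_
    refine Eventually.of_forall fun z hz => ?_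
    show z ∈ S
    rw [hmemS]
    have hz : z ∈ closedBall (ζ - w) r := hz
    have h2 : ‖z‖ ≤ 2 * r := by
      rw [mem_closedBall, dist_eq_norm] at hz hζ
      calc ‖z‖ = ‖(z - (ζ - w)) + (ζ - w)‖ := by ring_nf
        _ ≤ ‖z - (ζ - w)‖ + ‖ζ - w‖ := norm_add_le _ _
        _ ≤ 2 * r := by linarith
    exact ⟨(Complex.abs_re_le_norm z).trans h2, (Complex.abs_im_le_norm z).trans h2⟩
  refine e2.trans (le_of_eq ?_)
  have h3 := (Complex.volume_preserving_equiv_real_prod).setIntegral_preimage_emb Complex.measurableEquivRealProd.measurableEmbedding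
    (fun p : ℝ × ℝ => Real.posLog ‖g (w + ((p.1 : ℝ) + (p.2 : ℝ) * Complex.I))‖) (Icc (-(2 * r)) (2 * r) ×ˢ Icc (-(2 * r)) (2 * r))
  rw [← h3, ← hS]
  refine setIntegral_congr_fun hSm fun z _ => ?_
  show Real.posLog ‖g (w + z)‖ = Real.posLog ‖g (w + ((z.re : ℂ) + (z.im : ℂ) * Complex.I))‖
  rw [Complex.re_add_im]

/-- the integrals over the period of `log⁺` of the derivatives -/
theorem rcore {g : ℂ → ℂ} {t r B : ℝ} (hr : 0 < r) (hg : AnalyticOnNhd ℂ g {z | |z.re - t| ≤ 2 * r})
    (hper : ∀ z : ℂ, |z.re - t| ≤ 2 * r → g (z + 2 * Real.pi * Complex.I) = g z)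
    (hB : ∀ t' : ℝ, |t' - t| ≤ 2 * r → ∫ y in (0)..2 * Real.pi, Real.posLog ‖g (t' + y * Complex.I)‖ ≤ B) (j : ℕ) :
    ∫ y in (0)..2 * Real.pi, Real.posLog ‖iteratedDeriv j g (t + y * Complex.I)‖ ≤
      2 * Real.pi * Real.posLog (j.factorial / r ^ j) + 6 * B := by
  have h2π := Real.two_pi_pos
  obtain ⟨Q, hQ⟩ : ∃ Q : Set (ℝ × ℝ), Q = Icc (-(2 * r)) (2 * r) ×ˢ Icc (-(2 * r)) (2 * r) := ⟨_, rfl⟩
  have hQc : IsCompact Q := by rw [hQ]; exact isCompact_Icc.prod isCompact_Icc
  have hQm : MeasurableSet Q := hQc.isClosed.measurableSet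
  have hQmem : ∀ p ∈ Q, |p.1| ≤ 2 * r := by
    intro p hp
    rw [hQ] at hp
    exact abs_le.2 hp.1
  have hre : ∀ y : ℝ, ((t : ℂ) + y * Complex.I).re = t := by intro y; simp
  obtain ⟨u, hu⟩ : ∃ u : ℂ → ℝ, u = fun z => Real.posLog ‖g z‖ := ⟨_, rfl⟩
  have huc : ContinuousOn u {z : ℂ | |z.re - t| ≤ 2 * r} := by
    rw [hu]
    exact Real.continuous_posLog.comp_continuousOn hg.continuousOn.norm
  have hu0 : ∀ z, 0 ≤ u z := by
    intro z
    rw [hu]
    exact Real.posLog_nonneg
  -- the function of three real variables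
  have hmem : ∀ (y : ℝ) (p : ℝ × ℝ), p ∈ Q → (t : ℂ) + y * Complex.I + ((p.1 : ℝ) + (p.2 : ℝ) * Complex.I) ∈ {z : ℂ | |z.re - t| ≤ 2 * r} := by
    intro y p hp
    show |((t : ℂ) + y * Complex.I + ((p.1 : ℝ) + (p.2 : ℝ) * Complex.I)).re - t| ≤ 2 * r
    have : ((t : ℂ) + y * Complex.I + ((p.1 : ℝ) + (p.2 : ℝ) * Complex.I)).re - t = p.1 := by simp
    rw [this]
    exact hQmem p hp
  have hF : ContinuousOn (fun q : ℝ × (ℝ × ℝ) => u ((t : ℂ) + q.1 * Complex.I + ((q.2.1 : ℝ) + (q.2.2 : ℝ) * Complex.I))) (univ ×ˢ Q) := by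
    refine huc.comp (by fun_prop) ?_
    rintro ⟨y, p⟩ ⟨-, hp⟩
    exact hmem y p hp
  -- pointwise
  obtain ⟨S, hS⟩ : ∃ S : ℝ → ℝ, S = fun y : ℝ => (Real.pi * r ^ 2)⁻¹ * ∫ p in Q, u ((t : ℂ) + y * Complex.I + ((p.1 : ℝ) + (p.2 : ℝ) * Complex.I)) := ⟨_, rfl⟩
  have hS0 : ∀ y, 0 ≤ S y := by
    intro y
    rw [hS]
    exact mul_nonneg (by positivity) (integral_nonneg fun p => hu0 _)
  have hpt : ∀ y : ℝ, Real.posLog ‖iteratedDeriv j g (t + y * Complex.I)‖ ≤ Real.posLog (j.factorial / r ^ j) + S y := by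
    intro y
    have hg' : AnalyticOnNhd ℂ g {z | |z.re - ((t : ℂ) + y * Complex.I).re| ≤ 2 * r} := by rw [hre]; exact hg
    have h1 : ∀ ζ ∈ closedBall ((t : ℂ) + y * Complex.I) r, ‖g ζ‖ ≤ Real.exp (S y) := by
      intro ζ hζ
      have h2 := posLog_le_square hr hg' hζ
      rw [← hQ] at h2
      have h3 : Real.posLog ‖g ζ‖ ≤ S y := by
        have h4 : (∫ p in Q, Real.posLog ‖g ((t : ℂ) + y * Complex.I + ((p.1 : ℝ) + (p.2 : ℝ) * Complex.I))‖) =
            ∫ p in Q, u ((t : ℂ) + y * Complex.I + ((p.1 : ℝ) + (p.2 : ℝ) * Complex.I)) := by rw [hu]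
        rw [h4] at h2
        rw [hS]
        show Real.posLog ‖g ζ‖ ≤ (Real.pi * r ^ 2)⁻¹ * ∫ p in Q, u ((t : ℂ) + y * Complex.I + ((p.1 : ℝ) + (p.2 : ℝ) * Complex.I))
        rw [inv_mul_eq_div, le_div_iff₀ (by positivity), mul_comm]
        exact h2
      by_cases h0 : g ζ = 0
      · rw [h0, norm_zero]
        exact (Real.exp_pos _).le
      · have h5 : Real.log ‖g ζ‖ ≤ S y := (le_max_right _ _).trans h3
        rw [← Real.exp_log (norm_pos_iff.2 h0)]
        exact Real.exp_le_exp.2 h5
    have hsub : closedBall ((t : ℂ) + y * Complex.I) r ⊆ {z : ℂ | |z.re - t| ≤ 2 * r} := by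
      intro z hz
      rw [mem_closedBall, dist_eq_norm] at hz
      have h2 := (Complex.abs_re_le_norm (z - ((t : ℂ) + y * Complex.I))).trans hz
      rw [Complex.sub_re, hre] at h2
      show |z.re - t| ≤ 2 * r
      linarith
    have hd : DiffContOnCl ℂ g (ball ((t : ℂ) + y * Complex.I) r) := by
      refine DifferentiableOn.diffContOnCl ?_
      rw [closure_ball _ hr.ne']
      exact (hg.mono hsub).differentiableOn
    have h6 : ‖iteratedDeriv j g ((t : ℂ) + y * Complex.I)‖ ≤ j.factorial * Real.exp (S y) / r ^ j :=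
      Complex.norm_iteratedDeriv_le_of_forall_mem_sphere_norm_le j hr hd fun z hz => h1 z (sphere_subset_closedBall hz)
    calc Real.posLog ‖iteratedDeriv j g ((t : ℂ) + y * Complex.I)‖ ≤ Real.posLog (j.factorial / r ^ j * Real.exp (S y)) := by
          refine Real.posLog_le_posLog (norm_nonneg _) (h6.trans (le_of_eq ?_))
          ring
      _ ≤ Real.posLog (j.factorial / r ^ j) + Real.posLog (Real.exp (S y)) := Real.posLog_mul
      _ = Real.posLog (j.factorial / r ^ j) + S y := by
        have h7 : Real.posLog (Real.exp (S y)) = S y := by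
          rw [Real.posLog_apply, Real.log_exp, max_eq_right (hS0 y)]
        rw [h7]
  -- integration
  have hFi : Integrable (Function.uncurry fun (y : ℝ) (p : ℝ × ℝ) => u ((t : ℂ) + y * Complex.I + ((p.1 : ℝ) + (p.2 : ℝ) * Complex.I)))
      ((volume.restrict (Set.uIoc 0 (2 * Real.pi))).prod (volume.restrict Q)) := by
    have h1 : IntegrableOn (Function.uncurry fun (y : ℝ) (p : ℝ × ℝ) => u ((t : ℂ) + y * Complex.I + ((p.1 : ℝ) + (p.2 : ℝ) * Complex.I)))
        (Icc 0 (2 * Real.pi) ×ˢ Q) (volume.prod volume) :=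
      (hF.mono (prod_mono (subset_univ _) le_rfl)).integrableOn_compact (isCompact_Icc.prod hQc)
    have h2 : IntegrableOn (Function.uncurry fun (y : ℝ) (p : ℝ × ℝ) => u ((t : ℂ) + y * Complex.I + ((p.1 : ℝ) + (p.2 : ℝ) * Complex.I)))
        (Set.uIoc 0 (2 * Real.pi) ×ˢ Q) (volume.prod volume) := by
      refine h1.mono_set (prod_mono ?_ le_rfl)
      rw [Set.uIoc_of_le h2π.le]
      exact Ioc_subset_Icc_self
    rw [IntegrableOn, ← Measure.prod_restrict] at h2
    exact h2
  have hswap := intervalIntegral_integral_swap hFi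
  have hinner : ∀ p ∈ Q, ∫ y in (0)..2 * Real.pi, u ((t : ℂ) + y * Complex.I + ((p.1 : ℝ) + (p.2 : ℝ) * Complex.I)) ≤ B := by
    intro p hp
    have hper' : Function.Periodic (fun y : ℝ => u (((t + p.1 : ℝ) : ℂ) + y * Complex.I)) (2 * Real.pi) := by
      intro y
      show u (((t + p.1 : ℝ) : ℂ) + ((y + 2 * Real.pi : ℝ) : ℂ) * Complex.I) = u (((t + p.1 : ℝ) : ℂ) + y * Complex.I)
      have e1 : ((t + p.1 : ℝ) : ℂ) + ((y + 2 * Real.pi : ℝ) : ℂ) * Complex.I = ((t + p.1 : ℝ) : ℂ) + y * Complex.I + 2 * Real.pi * Complex.I := by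
        push_cast
        ring
      rw [e1, hu]
      show Real.posLog ‖g (((t + p.1 : ℝ) : ℂ) + y * Complex.I + 2 * Real.pi * Complex.I)‖ = Real.posLog ‖g (((t + p.1 : ℝ) : ℂ) + y * Complex.I)‖
      rw [hper]
      have e2 : (((t + p.1 : ℝ) : ℂ) + y * Complex.I).re - t = p.1 := by simp
      rw [e2]
      exact hQmem p hp
    have e3 : ∫ y in (0)..2 * Real.pi, u ((t : ℂ) + y * Complex.I + ((p.1 : ℝ) + (p.2 : ℝ) * Complex.I)) =
        ∫ y in (0)..2 * Real.pi, (fun y : ℝ => u (((t + p.1 : ℝ) : ℂ) + y * Complex.I)) (y + p.2) := by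
      refine intervalIntegral.integral_congr fun y _ => ?_
      show u ((t : ℂ) + y * Complex.I + ((p.1 : ℝ) + (p.2 : ℝ) * Complex.I)) = u (((t + p.1 : ℝ) : ℂ) + ((y + p.2 : ℝ) : ℂ) * Complex.I)
      have e4 : (t : ℂ) + y * Complex.I + ((p.1 : ℝ) + (p.2 : ℝ) * Complex.I) = ((t + p.1 : ℝ) : ℂ) + ((y + p.2 : ℝ) : ℂ) * Complex.I := by
        push_cast
        ring
      rw [e4]
    rw [e3, intervalIntegral.integral_comp_add_right (fun y : ℝ => u (((t + p.1 : ℝ) : ℂ) + y * Complex.I)) p.2]
    have e5 := hper'.intervalIntegral_add_eq p.2 0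
    rw [zero_add] at e5
    rw [zero_add, add_comm (2 * Real.pi) p.2, e5]
    have h1 := hB (t + p.1) (by rw [add_sub_cancel_left]; exact hQmem p hp)
    rw [hu]
    exact h1
  have hSI : ∫ y in (0)..2 * Real.pi, S y ≤ 6 * B := by
    have hB0 : 0 ≤ B := by
      refine le_trans (intervalIntegral.integral_nonneg h2π.le fun y _ => Real.posLog_nonneg) (hB t (by rw [sub_self, abs_zero]; positivity))
    have e1 : ∫ y in (0)..2 * Real.pi, S y = (Real.pi * r ^ 2)⁻¹ * ∫ y in (0)..2 * Real.pi, ∫ p in Q,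
        u ((t : ℂ) + y * Complex.I + ((p.1 : ℝ) + (p.2 : ℝ) * Complex.I)) := by
      rw [hS, intervalIntegral.integral_const_mul]
    rw [e1, hswap]
    have hvol : (volume Q).toReal = (4 * r) ^ 2 := by
      rw [hQ, Measure.volume_eq_prod, Measure.prod_prod, Real.volume_Icc, ENNReal.toReal_mul, ENNReal.toReal_ofReal (by linarith)]
      ring
    have h2 : ∫ p in Q, (∫ y in (0)..2 * Real.pi, u ((t : ℂ) + y * Complex.I + ((p.1 : ℝ) + (p.2 : ℝ) * Complex.I))) ≤ B * (4 * r) ^ 2 := by
      have h3 : ‖∫ p in Q, (∫ y in (0)..2 * Real.pi, u ((t : ℂ) + y * Complex.I + ((p.1 : ℝ) + (p.2 : ℝ) * Complex.I)))‖ ≤ B * (volume.real Q) := by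
        refine norm_setIntegral_le_of_norm_le_const hQc.measure_lt_top fun p hp => ?_
        rw [Real.norm_eq_abs, abs_of_nonneg (intervalIntegral.integral_nonneg h2π.le fun y _ => hu0 _)]
        exact hinner p hp
      have h4 : volume.real Q = (4 * r) ^ 2 := hvol
      rw [h4] at h3
      exact (le_abs_self _).trans h3
    calc (Real.pi * r ^ 2)⁻¹ * ∫ p in Q, (∫ y in (0)..2 * Real.pi, u ((t : ℂ) + y * Complex.I + ((p.1 : ℝ) + (p.2 : ℝ) * Complex.I)))
        ≤ (Real.pi * r ^ 2)⁻¹ * (B * (4 * r) ^ 2) := mul_le_mul_of_nonneg_left h2 (by positivity)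
      _ = 16 / Real.pi * B := by
        have := Real.pi_ne_zero
        field_simp
        ring
      _ ≤ 6 * B := by
        refine mul_le_mul_of_nonneg_right ?_ hB0
        rw [div_le_iff₀ Real.pi_pos]
        nlinarith [Real.pi_gt_three]
  have hSi : IntervalIntegrable S volume 0 (2 * Real.pi) := by
    rw [hS, intervalIntegrable_iff]
    refine Integrable.const_mul ?_ _
    exact hFi.integral_prod_left
  have hcl : IntervalIntegrable (fun y : ℝ => Real.posLog ‖iteratedDeriv j g (t + y * Complex.I)‖) volume 0 (2 * Real.pi) := by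
    refine ContinuousOn.intervalIntegrable ?_
    have h0 : ∀ (k : ℕ) (z : ℂ), z ∈ {z : ℂ | |z.re - t| ≤ 2 * r} → AnalyticAt ℂ (iteratedDeriv k g) z := by
      intro k
      induction k with
      | zero => intro z hz; rw [iteratedDeriv_zero]; exact hg z hz
      | succ k ih => intro z hz; rw [iteratedDeriv_succ]; exact (ih z hz).deriv
    have h1 : AnalyticOnNhd ℂ (iteratedDeriv j g) {z : ℂ | |z.re - t| ≤ 2 * r} := h0 j
    refine Real.continuous_posLog.comp_continuousOn ((h1.continuousOn.comp (t := {z : ℂ | |z.re - t| ≤ 2 * r}) (by fun_prop) ?_).norm)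
    intro y _
    show |((t : ℂ) + y * Complex.I).re - t| ≤ 2 * r
    rw [hre, sub_self, abs_zero]
    positivity
  calc ∫ y in (0)..2 * Real.pi, Real.posLog ‖iteratedDeriv j g (t + y * Complex.I)‖
      ≤ ∫ y in (0)..2 * Real.pi, (Real.posLog (j.factorial / r ^ j) + S y) :=
        intervalIntegral.integral_mono_on h2π.le hcl ((intervalIntegrable_const).add hSi) fun y _ => hpt y
    _ = 2 * Real.pi * Real.posLog (j.factorial / r ^ j) + ∫ y in (0)..2 * Real.pi, S y := by
        rw [intervalIntegral.integral_add intervalIntegrable_const hSi, intervalIntegral.integral_const, sub_zero, smul_eq_mul]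
    _ ≤ 2 * Real.pi * Real.posLog (j.factorial / r ^ j) + 6 * B := by linarith

end Pool.Agent.GA
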