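import Pool.Agent.GA.Defs
import Pool.Agent.GA.RCore

/-!
# GA Ring: the ring `OO` of small periodic functions on the half-plane, as a subalgebra of `ℂ → ℂ`
-/

set_option autoImplicit false

open Filter Topology MeasureTheory intervalIntegral Set Complex
open scoped Real

noncomputable section

namespace Pool.Agent.GA

theorem Rg.isOpen_HP : IsOpen HP := isOpen_lt continuous_const continuous_re

variable {s : ℂ → ℝ} {X : ℕ → ℝ}

/-! ## elementary facts on the levels -/

theorem Lev.tau_ge (L : Lev s X) (n : ℕ) : ((n : ℝ) + 1) * ((n : ℝ) + 4) ≤ tau s X n :=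
  (mul_le_mul_of_nonneg_left (L.big n) (by positivity)).trans (L.sub n)

theorem Lev.tau_ge' (L : Lev s X) (n : ℕ) : (n : ℝ) + 4 ≤ tau s X n := by
  have h1 := L.tau_ge n
  have h2 : (0 : ℝ) ≤ n := Nat.cast_nonneg n
  nlinarith

theorem Lev.tau_pos (L : Lev s X) (n : ℕ) : 0 < tau s X n := by
  have h1 := L.tau_ge' n
  have h2 : (0 : ℝ) ≤ n := Nat.cast_nonneg n
  linarith

theorem Lev.tau_atTop (L : Lev s X) : Tendsto (tau s X) atTop atTop := by
  refine tendsto_atTop_mono (f := fun n : ℕ => (n : ℝ)) (fun n => ?_) tendsto_natCast_atTop_atTop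
  have := L.tau_ge' n
  linarith

theorem Lev.two_div (L : Lev s X) (n : ℕ) : 2 / tau s X n ≤ 1 / 2 := by
  rw [div_le_div_iff₀ (L.tau_pos n) two_pos]
  have h1 := L.tau_ge' n
  have h2 : (0 : ℝ) ≤ n := Nat.cast_nonneg n
  linarith

theorem Lev.xi_ge (L : Lev s X) (n : ℕ) : (n : ℝ) + 3 ≤ xi s X n := by
  have h1 := L.two_div n
  have h2 := L.big n
  unfold xi
  linarith

theorem Lev.xi_pos (L : Lev s X) (n : ℕ) : 0 < xi s X n := by
  have h1 := L.xi_ge n
  have h2 : (0 : ℝ) ≤ n := Nat.cast_nonneg n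
  linarith

theorem Lev.xi_lt (L : Lev s X) (n : ℕ) : xi s X n < X n := by
  have h1 := div_pos two_pos (L.tau_pos n)
  unfold xi
  linarith

/-- `X n = o (tau n)` -/
theorem Lev.smallX (L : Lev s X) : SmallN s X X := by
  unfold SmallN
  have h0 : Tendsto (fun n : ℕ => 1 / ((n : ℝ) + 1)) atTop (𝓝 0) := tendsto_one_div_add_atTop_nhds_zero_nat
  refine squeeze_zero (fun n => ?_) (fun n => ?_) h0
  · have h1 := L.big n
    have h2 : (0 : ℝ) ≤ n := Nat.cast_nonneg n
    exact div_nonneg (by linarith) (L.tau_pos n).le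
  · rw [div_le_div_iff₀ (L.tau_pos n) (by positivity), one_mul, mul_comm]
    exact L.sub n

theorem SmallN.mono (L : Lev s X) {η ζ : ℕ → ℝ} (h : SmallN s X η) (h0 : ∀ n, 0 ≤ ζ n) (h1 : ∀ n, ζ n ≤ η n) : SmallN s X ζ :=
  squeeze_zero (fun n => div_nonneg (h0 n) (L.tau_pos n).le) (fun n => div_le_div_of_nonneg_right (h1 n) (L.tau_pos n).le) h

theorem SmallN.add {η ζ : ℕ → ℝ} (h : SmallN s X η) (h' : SmallN s X ζ) : SmallN s X fun n => η n + ζ n := by
  unfold SmallN at *
  have := h.add h'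
  simp only [add_zero] at this
  exact this.congr fun n => (add_div _ _ _).symm

theorem SmallN.const_mul {η : ℕ → ℝ} (h : SmallN s X η) (c : ℝ) : SmallN s X fun n => c * η n := by
  unfold SmallN at *
  have := Tendsto.const_mul c h
  simp only [mul_zero] at this
  exact this.congr fun n => by ring

theorem smallN_const (L : Lev s X) (c : ℝ) : SmallN s X fun _ => c := tendsto_const_nhds.div_atTop L.tau_atTop

/-- `log tau n = o (tau n)` -/
theorem smallN_log (L : Lev s X) : SmallN s X fun n => Real.log (tau s X n) := by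
  have h1 : Tendsto (fun x : ℝ => Real.log x / x) atTop (𝓝 0) := by
    have := Real.isLittleO_log_id_atTop.tendsto_div_nhds_zero
    simpa using this
  exact h1.comp L.tau_atTop

/-! ## means -/

theorem Rg.line_mem {t : ℝ} (ht : 0 < t) (y : ℝ) : (t + y * I : ℂ) ∈ HP := by
  simp [HP, ht]

theorem Rg.continuous_line {E : Type} [TopologicalSpace E] {g : ℂ → E} (hg : ContinuousOn g HP) {t : ℝ} (ht : 0 < t) :
    Continuous fun y : ℝ => g (t + y * I) := by
  rw [continuous_iff_continuousAt]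
  intro y
  have h1 : ContinuousAt g (t + y * I) := hg.continuousAt (Rg.isOpen_HP.mem_nhds (Rg.line_mem ht y))
  exact ContinuousAt.comp (f := fun y : ℝ => (t + y * I : ℂ)) (g := g) h1 (by fun_prop)

theorem Rg.cont_of_an {g : ℂ → ℂ} (hg : ∀ w ∈ HP, AnalyticAt ℂ g w) : ContinuousOn g HP :=
  fun w hw => (hg w hw).continuousAt.continuousWithinAt

theorem Rg.cont_posLog {g : ℂ → ℂ} (hg : ContinuousOn g HP) : ContinuousOn (fun w => Real.posLog ‖g w‖) HP :=
  Real.continuous_posLog.comp_continuousOn hg.norm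

theorem mn_nonneg {h : ℂ → ℝ} {t : ℝ} (h0 : ∀ y : ℝ, 0 ≤ h (t + y * I)) : 0 ≤ mn h t :=
  intervalIntegral.integral_nonneg (by positivity) fun y _ => h0 y

theorem mn_mono {g h : ℂ → ℝ} (hg : ContinuousOn g HP) (hh : ContinuousOn h HP) {t : ℝ} (ht : 0 < t)
    (hle : ∀ y : ℝ, g (t + y * I) ≤ h (t + y * I)) : mn g t ≤ mn h t :=
  intervalIntegral.integral_mono_on (μ := volume) (by positivity) ((Rg.continuous_line hg ht).intervalIntegrable _ _)
    ((Rg.continuous_line hh ht).intervalIntegrable _ _) fun y _ => hle y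

theorem mn_congr {g h : ℂ → ℝ} (e : EqOn g h HP) {t : ℝ} (ht : 0 < t) : mn g t = mn h t := by
  unfold mn
  congr 1
  funext y
  exact e (Rg.line_mem ht y)

theorem mn_add {g h : ℂ → ℝ} (hg : ContinuousOn g HP) (hh : ContinuousOn h HP) {t : ℝ} (ht : 0 < t) :
    mn (fun w => g w + h w) t = mn g t + mn h t :=
  intervalIntegral.integral_add ((Rg.continuous_line hg ht).intervalIntegrable _ _) ((Rg.continuous_line hh ht).intervalIntegrable _ _)

theorem mn_const (c t : ℝ) : mn (fun _ => c) t = 2 * π * c := by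
  unfold mn
  rw [intervalIntegral.integral_const, sub_zero, smul_eq_mul]

theorem mn_const_mul (c : ℝ) (h : ℂ → ℝ) (t : ℝ) : mn (fun w => c * h w) t = c * mn h t := by
  unfold mn
  rw [intervalIntegral.integral_const_mul]

theorem mn_posLog_nonneg (g : ℂ → ℂ) (t : ℝ) : 0 ≤ mn (fun w => Real.posLog ‖g w‖) t := mn_nonneg fun _ => Real.posLog_nonneg

theorem mn_posLog_add {g h : ℂ → ℂ} (hg : ContinuousOn g HP) (hh : ContinuousOn h HP) {t : ℝ} (ht : 0 < t) :
    mn (fun w => Real.posLog ‖g w + h w‖) t ≤ 2 * π * Real.log 2 + (mn (fun w => Real.posLog ‖g w‖) t + mn (fun w => Real.posLog ‖h w‖) t) := by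
  have e1 := mn_add (Rg.cont_posLog hg) (Rg.cont_posLog hh) ht
  have e2 := mn_add (g := fun _ => Real.log 2) (h := fun w => Real.posLog ‖g w‖ + Real.posLog ‖h w‖) continuousOn_const
    ((Rg.cont_posLog hg).add (Rg.cont_posLog hh)) ht
  rw [mn_const, e1] at e2
  rw [← e2]
  refine mn_mono (Rg.cont_posLog (hg.add hh)) (continuousOn_const.add ((Rg.cont_posLog hg).add (Rg.cont_posLog hh))) ht fun y => ?_
  have := Real.posLog_norm_add_le (g (t + y * I)) (h (t + y * I))
  simp only [Pi.add_apply]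
  linarith

theorem mn_posLog_mul {g h : ℂ → ℂ} (hg : ContinuousOn g HP) (hh : ContinuousOn h HP) {t : ℝ} (ht : 0 < t) :
    mn (fun w => Real.posLog ‖g w * h w‖) t ≤ mn (fun w => Real.posLog ‖g w‖) t + mn (fun w => Real.posLog ‖h w‖) t := by
  rw [← mn_add (Rg.cont_posLog hg) (Rg.cont_posLog hh) ht]
  refine mn_mono (Rg.cont_posLog (hg.mul hh)) ((Rg.cont_posLog hg).add (Rg.cont_posLog hh)) ht fun y => ?_
  simp only [Pi.mul_apply, norm_mul]
  exact Real.posLog_mul

/-! ## the ring -/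

/-- the mean of `log⁺ |g|` is small -/
def SmM (s : ℂ → ℝ) (X : ℕ → ℝ) (g : ℂ → ℂ) : Prop := SmallN s X fun n => mn (fun w => Real.posLog ‖g w‖) (xi s X n)

theorem SmM.congr (L : Lev s X) {g h : ℂ → ℂ} (hg : SmM s X g) (e : EqOn g h HP) : SmM s X h := by
  unfold SmM SmallN at *
  refine hg.congr fun n => ?_
  have := mn_congr (g := fun w => Real.posLog ‖g w‖) (h := fun w => Real.posLog ‖h w‖) (fun w hw => by simp only [e hw]) (L.xi_pos n)
  simp only [this]

theorem SmM.add (L : Lev s X) {g h : ℂ → ℂ} (ag : ContinuousOn g HP) (ah : ContinuousOn h HP) (hg : SmM s X g) (hh : SmM s X h) :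
    SmM s X (g + h) :=
  SmallN.mono L ((smallN_const L (2 * π * Real.log 2)).add (SmallN.add hg hh)) (fun _ => mn_posLog_nonneg _ _)
    fun n => mn_posLog_add ag ah (L.xi_pos n)

theorem SmM.mul (L : Lev s X) {g h : ℂ → ℂ} (ag : ContinuousOn g HP) (ah : ContinuousOn h HP) (hg : SmM s X g) (hh : SmM s X h) :
    SmM s X (g * h) :=
  SmallN.mono L (SmallN.add hg hh) (fun _ => mn_posLog_nonneg _ _) fun n => mn_posLog_mul ag ah (L.xi_pos n)

theorem smM_const (L : Lev s X) (c : ℂ) : SmM s X (fun _ => c) :=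
  SmallN.mono L (smallN_const L (2 * π * Real.posLog ‖c‖)) (fun _ => mn_posLog_nonneg _ _) fun _ => (mn_const _ _).le

theorem Rg.iter_congr {g h : ℂ → ℂ} (e : EqOn g h HP) (j : ℕ) : EqOn (iteratedDeriv j g) (iteratedDeriv j h) HP := by
  intro w hw
  have : g =ᶠ[𝓝 w] h := by
    filter_upwards [Rg.isOpen_HP.mem_nhds hw] with z hz using e hz
  exact this.iteratedDeriv_eq j

theorem Rg.an_iter {g : ℂ → ℂ} (hg : ∀ w ∈ HP, AnalyticAt ℂ g w) (j : ℕ) : ∀ w ∈ HP, AnalyticAt ℂ (iteratedDeriv j g) w := by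
  have h1 : AnalyticOnNhd ℂ (iteratedDeriv j g) HP := by
    induction j with
    | zero => rw [iteratedDeriv_zero]; exact hg
    | succ j ih => rw [iteratedDeriv_succ]; exact ih.deriv
  exact h1

theorem Rg.iter_add {g h : ℂ → ℂ} (hg : ∀ w ∈ HP, AnalyticAt ℂ g w) (hh : ∀ w ∈ HP, AnalyticAt ℂ h w) (j : ℕ) :
    EqOn (iteratedDeriv j (g + h)) (iteratedDeriv j g + iteratedDeriv j h) HP := by
  intro w hw
  rw [Pi.add_apply, iteratedDeriv_add ((hg w hw).contDiffAt) ((hh w hw).contDiffAt)]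

theorem Rg.all_mul (L : Lev s X) (j : ℕ) : ∀ {g h : ℂ → ℂ}, (∀ w ∈ HP, AnalyticAt ℂ g w) → (∀ w ∈ HP, AnalyticAt ℂ h w) →
    (∀ j, SmM s X (iteratedDeriv j g)) → (∀ j, SmM s X (iteratedDeriv j h)) → SmM s X (iteratedDeriv j (g * h)) := by
  induction j with
  | zero =>
    intro g h ag ah hg hh
    simpa using SmM.mul L (Rg.cont_of_an ag) (Rg.cont_of_an ah) (by simpa using hg 0) (by simpa using hh 0)
  | succ j ih =>
    intro g h ag ah hg hh
    have e : EqOn (deriv (g * h)) (deriv g * h + g * deriv h) HP := by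
      intro w hw
      rw [deriv_mul (ag w hw).differentiableAt (ah w hw).differentiableAt]
      rfl
    have hg' : ∀ j, SmM s X (iteratedDeriv j (deriv g)) := fun j => by
      have := hg (j + 1)
      rwa [iteratedDeriv_succ'] at this
    have hh' : ∀ j, SmM s X (iteratedDeriv j (deriv h)) := fun j => by
      have := hh (j + 1)
      rwa [iteratedDeriv_succ'] at this
    have adg : ∀ w ∈ HP, AnalyticAt ℂ (deriv g) w := fun w hw => (ag w hw).deriv
    have adh : ∀ w ∈ HP, AnalyticAt ℂ (deriv h) w := fun w hw => (ah w hw).deriv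
    have a1 : ∀ w ∈ HP, AnalyticAt ℂ (deriv g * h) w := fun w hw => (adg w hw).mul (ah w hw)
    have a2 : ∀ w ∈ HP, AnalyticAt ℂ (g * deriv h) w := fun w hw => (ag w hw).mul (adh w hw)
    rw [iteratedDeriv_succ']
    have h1 := ih adg ah hg' hh
    have h2 := ih ag adh hg hh'
    have h3 := SmM.add L (Rg.cont_of_an (Rg.an_iter a1 j)) (Rg.cont_of_an (Rg.an_iter a2 j)) h1 h2
    refine SmM.congr L h3 ?_
    intro w hw
    rw [← Rg.iter_add a1 a2 j hw]
    exact (Rg.iter_congr e j hw).symm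

theorem Rg.iter_const (c : ℂ) (j : ℕ) : iteratedDeriv j (fun _ : ℂ => c) = fun _ => if j = 0 then c else 0 := by
  induction j with
  | zero => simp
  | succ j ih =>
    rw [iteratedDeriv_succ, ih]
    funext w
    simp

/-- The ring of small functions. -/
def OO (L : Lev s X) : Subalgebra ℂ (ℂ → ℂ) where
  carrier := {g | IsOO s X g}
  mul_mem' := by
    rintro g h ⟨ag, pg, sg⟩ ⟨ah, ph, sh⟩
    exact ⟨fun w hw => (ag w hw).mul (ah w hw), fun w hw => by rw [Pi.mul_apply, Pi.mul_apply, pg w hw, ph w hw],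
      fun j => Rg.all_mul L j ag ah sg sh⟩
  add_mem' := by
    rintro g h ⟨ag, pg, sg⟩ ⟨ah, ph, sh⟩
    refine ⟨fun w hw => (ag w hw).add (ah w hw), fun w hw => by rw [Pi.add_apply, Pi.add_apply, pg w hw, ph w hw], fun j => ?_⟩
    exact SmM.congr L (SmM.add L (Rg.cont_of_an (Rg.an_iter ag j)) (Rg.cont_of_an (Rg.an_iter ah j)) (sg j) (sh j))
      fun w hw => (Rg.iter_add ag ah j hw).symm
  algebraMap_mem' := by
    intro c
    refine ⟨fun w _ => analyticAt_const, fun w _ => rfl, fun j => ?_⟩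
    have h1 : (algebraMap ℂ (ℂ → ℂ) c) = fun _ => c := rfl
    rw [h1, Rg.iter_const]
    exact smM_const L _

theorem mem_OO {L : Lev s X} {g : ℂ → ℂ} : g ∈ OO L ↔ IsOO s X g := Iff.rfl

theorem deriv_mem {L : Lev s X} {g : ℂ → ℂ} (h : g ∈ OO L) : deriv g ∈ OO L := by
  obtain ⟨ag, pg, sg⟩ := h
  refine ⟨fun w hw => (ag w hw).deriv, fun w hw => ?_, fun j => ?_⟩
  · have h1 : (fun z => g (z + per)) =ᶠ[𝓝 w] g := by
      filter_upwards [Rg.isOpen_HP.mem_nhds hw] with z hz using pg z hz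
    have h2 := h1.deriv_eq
    rwa [deriv_comp_add_const] at h2
  · have := sg (j + 1)
    rwa [iteratedDeriv_succ'] at this

/-- `e^(c w)`, `c` an integer, is small -/
theorem exp_mem_OO (L : Lev s X) (c : ℤ) : (fun w => cexp (c * w)) ∈ OO L := by
  refine ⟨fun w _ => ?_, fun w _ => ?_, fun j => ?_⟩
  · exact (differentiable_exp.comp (differentiable_id.const_mul _)).analyticAt w
  · have : (c : ℂ) * (w + per) = c * w + c * (2 * π * I) := by unfold per; ring
    simp only [this]
    rw [Complex.exp_add, Complex.exp_int_mul_two_pi_mul_I, mul_one]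
  · have e : iteratedDeriv j (fun w => cexp (c * w)) = fun w => (c : ℂ) ^ j * cexp (c * w) := by
      rw [iteratedDeriv_cexp_const_mul]
    rw [e]
    have hs : SmallN s X fun n => 2 * π * Real.posLog ‖(c : ℂ) ^ j‖ + 2 * π * |(c : ℝ)| * X n :=
      (smallN_const L _).add (L.smallX.const_mul _)
    refine SmallN.mono L hs (fun _ => mn_posLog_nonneg (fun w => (c : ℂ) ^ j * cexp (c * w)) _) fun n => ?_
    have h3 : ∀ y : ℝ, Real.posLog ‖(c : ℂ) ^ j * cexp (c * (xi s X n + y * I))‖ ≤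
        Real.posLog ‖(c : ℂ) ^ j‖ + |(c : ℝ)| * X n := by
      intro y
      rw [norm_mul]
      refine Real.posLog_mul.trans (add_le_add le_rfl ?_)
      rw [Complex.norm_exp]
      have h4 : ((c : ℂ) * (xi s X n + y * I)).re = c * xi s X n := by simp
      have h5 : 0 ≤ xi s X n := (L.xi_pos n).le
      have h6 : xi s X n ≤ X n := (L.xi_lt n).le
      rw [h4, Real.posLog_apply, Real.log_exp]
      refine max_le (mul_nonneg (abs_nonneg _) (h5.trans h6)) ((mul_le_mul_of_nonneg_right (le_abs_self _) h5).trans ?_)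
      exact mul_le_mul_of_nonneg_left h6 (abs_nonneg _)
    refine (mn_mono (g := fun w => Real.posLog ‖(c : ℂ) ^ j * cexp (c * w)‖)
      (h := fun _ => Real.posLog ‖(c : ℂ) ^ j‖ + |(c : ℝ)| * X n) (Rg.cont_posLog (by fun_prop)) continuousOn_const (L.xi_pos n) h3).trans ?_
    rw [mn_const]
    exact le_of_eq (by ring)

/-- A periodic holomorphic function whose means near the levels are small is in the ring. -/
theorem IsOO.of_mean (hX : Lev s X) {a : ℂ → ℂ} (han : ∀ w ∈ HP, AnalyticAt ℂ a w) (hper : ∀ w ∈ HP, a (w + per) = a w) {η : ℕ → ℝ}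
    (hη : SmallN s X η)
    (h : ∀ᶠ n in atTop, ∀ t ∈ Set.Icc (xi s X n - 1 / tau s X n) (xi s X n + 1 / tau s X n), mn (fun w => Real.posLog ‖a w‖) t ≤ η n) :
    IsOO s X a := by
  refine ⟨han, hper, fun j => ?_⟩
  have hs : SmallN s X fun n => 2 * π * Real.posLog (j.factorial : ℝ) + 2 * π * (j * Real.log (2 * tau s X n)) + 6 * η n := by
    refine ((smallN_const hX _).add (SmallN.const_mul (SmallN.const_mul ?_ j) _)).add (hη.const_mul 6)
    have h1 : SmallN s X fun n => Real.log 2 + Real.log (tau s X n) := (smallN_const hX _).add (smallN_log hX)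
    have h2 : (fun n => Real.log (2 * tau s X n)) = fun n => Real.log 2 + Real.log (tau s X n) := by
      funext n
      rw [Real.log_mul two_ne_zero (hX.tau_pos n).ne']
    rw [h2]
    exact h1
  refine squeeze_zero' (Eventually.of_forall fun n => div_nonneg (mn_posLog_nonneg _ _) (hX.tau_pos n).le) ?_ hs
  filter_upwards [h] with n h
  refine div_le_div_of_nonneg_right ?_ (hX.tau_pos n).le
  have hτ := hX.tau_pos n
  have h2 : 2 * (1 / (2 * tau s X n)) = 1 / tau s X n := by field_simp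
  have hd : 1 / tau s X n ≤ 1 := by
    have := hX.tau_ge' n
    have h5 : (0 : ℝ) ≤ n := Nat.cast_nonneg n
    rw [div_le_one hτ]
    linarith
  have hsub : ∀ z : ℂ, |z.re - xi s X n| ≤ 2 * (1 / (2 * tau s X n)) → z ∈ HP := by
    intro z hz
    rw [h2] at hz
    have h3 := hX.xi_ge n
    have h5 : (0 : ℝ) ≤ n := Nat.cast_nonneg n
    have h6 := (abs_le.mp hz).1
    show 0 < z.re
    linarith
  have h1 := rcore (g := a) (t := xi s X n) (r := 1 / (2 * tau s X n)) (B := η n) (by positivity) (fun z hz => han z (hsub z hz))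
    (fun z hz => hper z (hsub z hz)) (fun t' ht' => h t' (by
      rw [h2] at ht'
      have := abs_le.mp ht'
      exact ⟨by linarith [this.1], by linarith [this.2]⟩)) j
  refine h1.trans ?_
  have h7 : Real.posLog (j.factorial / (1 / (2 * tau s X n)) ^ j) ≤ Real.posLog (j.factorial : ℝ) + j * Real.log (2 * tau s X n) := by
    rw [one_div, inv_pow, div_inv_eq_mul]
    refine Real.posLog_mul.trans (add_le_add le_rfl ?_)
    rw [Real.posLog_pow, Real.posLog_eq_log]
    have := hX.tau_ge' n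
    have h5 : (0 : ℝ) ≤ n := Nat.cast_nonneg n
    rw [abs_of_pos (by positivity)]
    linarith
  have h8 : (0 : ℝ) ≤ 2 * π := by positivity
  nlinarith [mul_le_mul_of_nonneg_left h7 h8]

/-- A periodic holomorphic function whose means up to the levels `X n` are small is in the ring. -/
theorem mem_OO_of (hX : Lev s X) {g : ℂ → ℂ} (hg : ∀ w ∈ HP, AnalyticAt ℂ g w) (hper : ∀ w ∈ HP, g (w + per) = g w) {η : ℕ → ℝ}
    (hη : SmallN s X η) (h : ∀ n, ∀ t ∈ Set.Icc (1 : ℝ) (X n), mn (fun w => Real.posLog ‖g w‖) t ≤ η n) : g ∈ OO hX := by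
  refine IsOO.of_mean hX hg hper hη (Eventually.of_forall fun n t ht => h n t ?_)
  have h3 := hX.xi_ge n
  have h4 := hX.two_div n
  have h5 : (0 : ℝ) ≤ n := Nat.cast_nonneg n
  have h6 := hX.tau_pos n
  have h7 : 0 < 1 / tau s X n := by positivity
  have h8 : 2 / tau s X n = 2 * (1 / tau s X n) := by ring
  constructor
  · linarith [ht.1]
  · have := ht.2
    unfold xi at this
    linarith

end Pool.Agent.GA
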