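import Pool.Agent.GA.ADefs
import Pool.Agent.GA.Bnd
import Pool.Agent.GA.Ring

/-!
# GA AStub: the statements of the algebraic half of GG-ALL (chief: helper9)

Every theorem is one module `GA/<Name>.lean` (name and owner in the list of the message).  `OO : Subalgebra ℂ (ℂ → ℂ)` is abstract, `IsSmallRing OO U`.
-/

set_option autoImplicit false

open MvPolynomial Topology Filter Metric
open Pool.Agent.H13.SM (conTan cone)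
open Pool.Agent.H62.FC (Homog)
open Pool.Agent.GG

namespace Pool.Agent.GA

variable {N : ℕ}

/-! ## pure algebra -/

/-- MODULE AlgD.  `L = K (y)` is a finitely generated field extension of `K`, not algebraic: choose a transcendence basis `y (σ l)` among the generators
(`exists_isTranscendenceBasis_subset` or so), the dual derivations `D m` of `L` over `K` (`D m (y (σ l)) = δ`; extension of derivations in characteristic `0`), `Y m s = D m (y s)`,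
`C l m = D m (d (y (σ l)))`; `[d, D m]` is a derivation over `K`, so it is `- ∑ l, C l m • D l`. -/
theorem exists_dual {M : Type*} [Field M] [CharZero M] (K : Subfield M) (d : Derivation ℤ M M) (hd : ∀ c ∈ K, d c ∈ K) (y : Ph N → M)
    (h1 : ∀ b, d (y (Sum.inl b)) = y (Sum.inr b)) (h2 : ∀ b, d (y (Sum.inr b)) ∈ IntermediateField.adjoin K (Set.range y))
    (hT : ∃ s, Transcendental K (y s)) :
    ∃ (r : ℕ) (σ : Fin (r + 1) → Ph N) (Y : Fin (r + 1) → Ph N → M) (C : Fin (r + 1) → Fin (r + 1) → M),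
      (∀ m l, Y m (σ l) = if m = l then 1 else 0) ∧
      (∀ m (R : MvPolynomial (Ph N) K), aeval y R = 0 → ∑ s, aeval y (pderiv s R) * Y m s = 0) ∧
      (∀ m b, Y m (Sum.inr b) = d (Y m (Sum.inl b)) + ∑ l, C l m * Y l (Sum.inl b)) := by
  sorry

/-- MODULE DerExt.  `FractionRing A` is formally étale over `A`; field extensions in characteristic `0` are formally smooth (`Mathlib/RingTheory/Smooth/Field.lean`), or by a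
transcendence basis of `W` over `FractionRing A` and `Algebra.IsSeparable`. -/
theorem exists_ext {A E : Type} [CommRing A] [IsDomain A] [Field E] [Algebra ℂ A] [Algebra ℂ E] [Algebra A E] [IsScalarTower ℂ A E]
    (hinj : Function.Injective (algebraMap A E)) (d : Derivation ℂ A E) : ∃ D : Derivation ℂ E E, ∀ a, D (algebraMap A E a) = d a := by
  sorry

/-- MODULE EndA.  `aeval (Dt p) = vdet * D (aeval p)` for all `p`, by Cramer; induction on `k`. -/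
theorem crit_alg {ι : Type} {E : Type*} [Field E] [Algebra ℂ E] (G : ι → MvPolynomial (Ph N) ℂ) (I : Fin (N + 1) → ι) (D : Derivation ℂ E E)
    {x V : Fin (N + 1) → E} (hx : ∀ b, D (x b) = V b) (hG : ∀ l, D (aeval (Sum.elim x V) (G l)) = 0)
    (hI : aeval (Sum.elim x V) (vdet G I) ≠ 0) : ∀ l k, aeval (Sum.elim x V) ((⇑(Dt G I))^[k + 1] (G l)) = 0 := by
  sorry

/-! ## germs -/

section Ger

variable {z₀ : ℂ}

/-- MODULE Ger (all of this section) -/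
theorem gm_inj {f g : ℂ → ℂ} {hf : AnalyticAt ℂ f z₀} {hg : AnalyticAt ℂ g z₀} : gm z₀ f hf = gm z₀ g hg ↔ f =ᶠ[𝓝 z₀] g := by
  sorry

theorem gm_surj (y : Gm z₀) : ∃ (f g : ℂ → ℂ) (hf : AnalyticAt ℂ f z₀) (hg : AnalyticAt ℂ g z₀), gm z₀ g hg ≠ 0 ∧ y * gm z₀ g hg = gm z₀ f hf := by
  sorry

/-- the derivation `d / dz` of the field of the germs of meromorphic functions -/
theorem exists_dz (z₀ : ℂ) : ∃ d : Derivation ℂ (Gm z₀) (Gm z₀), ∀ f (hf : AnalyticAt ℂ f z₀), d (gm z₀ f hf) = gm z₀ (deriv f) hf.deriv := by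
  sorry

/-- polynomials over `OO` and germs -/
theorem gm_evO {σ : Type} [Fintype σ] {OO : Subalgebra ℂ (ℂ → ℂ)} (hO : ∀ g ∈ OO, AnalyticAt ℂ g z₀) {y : ℂ → σ → ℂ} (hy : AnalyticAt ℂ y z₀) :
    ∃ φ : OO →+* Gm z₀, (∀ g : OO, φ g = gm z₀ g (hO g g.2)) ∧ ∀ R : MvPolynomial σ OO, ∃ h : AnalyticAt ℂ (evO OO y R) z₀,
      eval₂ φ (fun s => gm z₀ (fun z => y z s) ((analyticAt_pi_iff.mp hy) s)) R = gm z₀ (evO OO y R) h := by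
  sorry

/-- polynomials over `ℂ` and germs -/
theorem gm_eval {σ : Type} [Fintype σ] {y : ℂ → σ → ℂ} (hy : AnalyticAt ℂ y z₀) (R : MvPolynomial σ ℂ) : ∃ h : AnalyticAt ℂ (fun z => eval (y z) R) z₀,
    aeval (fun s => gm z₀ (fun z => y z s) ((analyticAt_pi_iff.mp hy) s)) R = gm z₀ (fun z => eval (y z) R) h := by
  sorry

end Ger

/-! ## one chart, arbitrary family -/

section Chart

variable {ι : Type} {U : Set ℂ} {OO : Subalgebra ℂ (ℂ → ℂ)}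

/-- MODULE HorC1.  `M = Gm z₁`, `d = d/dz` (`exists_dz`), `K` = the subfield generated by the germs of `OO`; `x'' ∈ K (x, x')` by Cramer (derivative of `G l (x, x') = g`); `exists_dual`;
common denominator `s` (`gm_surj`). -/
theorem exists_Dual (hO : IsSmallRing OO U) (G : ι → MvPolynomial (Ph N) ℂ) (I : Fin (N + 1) → ι) {x : ℂ → Fin (N + 1) → ℂ} {z₁ : ℂ}
    (hz : z₁ ∈ U) (hx : AnalyticAt ℂ x z₁) (hG : ∀ l, ∃ g ∈ OO, ∀ᶠ w in 𝓝 z₁, eval (pt (x w) (deriv x w)) (G l) = g w)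
    (hI : ¬ ∀ᶠ w in 𝓝 z₁, eval (pt (x w) (deriv x w)) (vdet G I) = 0)
    (hT : ∃ c, ∀ p : Polynomial OO, (∀ᶠ w in 𝓝 z₁, p.eval₂ (ev0 OO w) (x w c) = 0) → ∀ n, ∀ᶠ w in 𝓝 z₁, ev0 OO w (p.coeff n) = 0) :
    ∃ (r : ℕ) (σ : Fin (r + 1) → Ph N) (s : ℂ → ℂ) (Y : Fin (r + 1) → Ph N → ℂ → ℂ) (C : Fin (r + 1) → Fin (r + 1) → ℂ → ℂ), Dual OO x z₁ r σ s Y C := by
  sorry

/-- MODULE HorC2.  Choose `w₀ ≠ z₁` near `z₁` with `s (w₀) ≠ 0`; solve `g_l' = ∑ (C l m / s) g_m` near `w₀`, `g (w₀) ≠ 0` (linear ODE; `GG.exists_flowG` or `GA/CntB`),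
`V_b = ∑ g_m Y m (inl b) / s`; then `V_b' = ∑ g_m Y m (inr b) / s`.  A relation near `w₀` holds on a fixed ball around `z₁` (where `x` is analytic; identity theorem), its linearisation by
`Y m` holds near `z₁` and again on a ball.  `V` is not `0` near `w₀` (component `σ l` of `(V, V')`), move `w₀`. -/
theorem exists_of_Dual (hO : IsSmallRing OO U) {x : ℂ → Fin (N + 1) → ℂ} {z₁ : ℂ} (hU : IsOpen U) (hz : z₁ ∈ U) (hx : AnalyticAt ℂ x z₁)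
    {r : ℕ} {σ : Fin (r + 1) → Ph N} {s : ℂ → ℂ} {Y : Fin (r + 1) → Ph N → ℂ → ℂ} {C : Fin (r + 1) → Fin (r + 1) → ℂ → ℂ} (h : Dual OO x z₁ r σ s Y C) :
    ∃ᶠ w₀ in 𝓝 z₁, ∃ V : ℂ → Fin (N + 1) → ℂ, AnalyticAt ℂ V w₀ ∧ V w₀ ≠ 0 ∧ RelP OO x V w₀ := by
  sorry

/-- HorC1 + HorC2 -/
theorem hor_chart (hO : IsSmallRing OO U) (G : ι → MvPolynomial (Ph N) ℂ) (I : Fin (N + 1) → ι) {x : ℂ → Fin (N + 1) → ℂ} {z₁ : ℂ}
    (hU : IsOpen U) (hz : z₁ ∈ U) (hx : AnalyticAt ℂ x z₁) (hG : ∀ l, ∃ g ∈ OO, ∀ᶠ w in 𝓝 z₁, eval (pt (x w) (deriv x w)) (G l) = g w)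
    (hI : ¬ ∀ᶠ w in 𝓝 z₁, eval (pt (x w) (deriv x w)) (vdet G I) = 0)
    (hT : ∃ c, ∀ p : Polynomial OO, (∀ᶠ w in 𝓝 z₁, p.eval₂ (ev0 OO w) (x w c) = 0) → ∀ n, ∀ᶠ w in 𝓝 z₁, ev0 OO w (p.coeff n) = 0) :
    ∃ᶠ w₀ in 𝓝 z₁, ∃ V : ℂ → Fin (N + 1) → ℂ, AnalyticAt ℂ V w₀ ∧ V w₀ ≠ 0 ∧ RelP OO x V w₀ := by
  obtain ⟨r, σ, s, Y, C, h⟩ := exists_Dual hO G I hz hx hG hI hT
  exact exists_of_Dual hO hU hz hx h

/-- MODULE RelC (with `RelP.relX`, `RelP.lhs`) -/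
theorem RelP.relX {x V : ℂ → Fin (N + 1) → ℂ} {w₀ : ℂ} (h : RelP OO x V w₀) : RelX OO x V w₀ := by
  sorry

theorem RelP.lhs {x V : ℂ → Fin (N + 1) → ℂ} {w₀ : ℂ} (h : RelP OO x V w₀) {G : MvPolynomial (Ph N) ℂ} {g : ℂ → ℂ} (hg : g ∈ OO)
    (hG : ∀ᶠ w in 𝓝 w₀, eval (pt (x w) (deriv x w)) G = g w) : ∀ᶠ w in 𝓝 w₀, lhs G x V w = 0 := by
  sorry

/-- Change of the chart.  There are `e` and a polynomial `G'` with `G' (x, v) = x_b ^ e G (x / x_b, v / x_b - v_b x / x_b ^ 2)`; apply the hypothesis to `R = X_b G' - g X_b ^ (e + 1)`; the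
linearised equation of `R` is `x_b ^ (e + 1)` times the one of `G` where `x_b ≠ 0` (chain rule: derivative at `t = 0` of `t ↦ G' (x + t V, x' + t V')`). -/
theorem relP_chart {x V : ℂ → Fin (N + 1) → ℂ} {w₀ : ℂ} (hx : AnalyticAt ℂ x w₀) (hV : AnalyticAt ℂ V w₀) (h : RelP OO x V w₀) (b : Fin (N + 1))
    {G : MvPolynomial (Ph N) ℂ} {g : ℂ → ℂ} (hg : g ∈ OO)
    (hG : ∀ᶠ w in 𝓝 w₀, x w b ≠ 0 → eval (pt ((x w b)⁻¹ • x w) (deriv (fun w => (x w b)⁻¹ • x w) w)) G = g w) :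
    ∀ᶠ w in 𝓝 w₀, x w b ≠ 0 → GA.lhs G (fun w => (x w b)⁻¹ • x w) (fun w => (x w b)⁻¹ • V w - (V w b / x w b ^ 2) • x w) w = 0 := by
  sorry

/-- MODULE EndC.  `E = Gm w₁`; the derivation `R (x) ↦ ∑ b, (∂_b R) (x) V_b` of the ring `OO [x]` is well defined by `RelX` and extends to `E` (`exists_ext`); it kills `OO`; `crit_alg`; value at `w₁`. -/
theorem crit_of_rel (hO : IsSmallRing OO U) (G : ι → MvPolynomial (Ph N) ℂ) (I : Fin (N + 1) → ι) {x V : ℂ → Fin (N + 1) → ℂ} {w₁ : ℂ} (hw : w₁ ∈ U)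
    (hx : AnalyticAt ℂ x w₁) (hV : AnalyticAt ℂ V w₁) (hR : RelX OO x V w₁)
    (hG : ∀ l, ∃ g ∈ OO, ∀ᶠ w in 𝓝 w₁, eval (pt (x w) (V w)) (G l) = g w) (hI : eval (pt (x w₁) (V w₁)) (vdet G I) ≠ 0) :
    Crit G I (pt (x w₁) (V w₁)) := by
  sorry

end Chart

/-! ## the curve -/

variable {P : Ideal (MvPolynomial (Fin (N + 1)) ℂ)} {J : ℕ} {m : Fin J → ℕ} {θ : ∀ k, SymSec P (m k)} {F : ℂ → Fin (N + 1) → ℂ}
  {U : Set ℂ} {OO : Subalgebra ℂ (ℂ → ℂ)} {Z : ℂ → Fin (N + 1) × Fin (N + 1) → ℂ}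

/-- MODULE Hor.  `z₁` with `F_a ≠ 0`, `x = xb F a`, `x' ≠ 0`: `exists_row`, `hor_chart` for `gfam f a`, `Z_ij = F_a ^ 2 (x_i V_j - x_j V_i)`, `relP_chart` for the other charts
(`θ (F, F') = A b k (xb F b, (xb F b)')`). -/
theorem hor (hP : Homog P) (hθ : Polar θ) (f : Frame θ) (hF : IsCurve P F U) (hO : IsSmallRing OO U)
    (hs : ∀ k, (fun w => (θ k).toFun (F w) (deriv F w)) ∈ OO) {a : Fin (N + 1)} (ha : ∃ w ∈ U, F w a ≠ 0)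
    (hT : ∃ c, ∀ (d : ℕ) (A : Fin (d + 1) → ℂ → ℂ), (∀ i, A i ∈ OO) →
      (∀ w ∈ U, ∑ i, A i w * F w c ^ (i : ℕ) * F w a ^ (d - i) = 0) → ∀ i, ∀ w ∈ U, A i w = 0) :
    ∃ w₀ ∈ U, F w₀ a ≠ 0 ∧ ∃ Z : ℂ → Fin (N + 1) × Fin (N + 1) → ℂ, IsVar f F Z w₀ ∧ RelX OO (xb F a) (Vb F Z a) w₀ ∧ Z w₀ ≠ 0 := by
  sorry

/-- MODULE Lin0.  Near `z₁` write `x' = (z - z₁) ^ p h`, `h (z₁) ≠ 0`, `x = xb F b`; `exists_row` at `(x (z₁), h (z₁))`; `∂_v G_l (x, x') = (z - z₁) ^ (p (e_l - 1)) ∂_v G_l (x, h)`,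
`∂_x G_l (x, x') = (z - z₁) ^ (p e_l) ∂_x G_l (x, h)` by homogeneity; divide and solve for `V'`. -/
theorem exists_linODE (hP : Homog P) (hθ : Polar θ) (hm : ∀ k, 1 ≤ m k) (f : Frame θ) (hf : HomFr f) (hF : IsCurve P F U) {z₁ : ℂ} (hz : z₁ ∈ U)
    {b : Fin (N + 1)} (hb : F z₁ b ≠ 0) :
    ∃ ρ > 0, ball z₁ ρ ⊆ U ∧ (∀ w ∈ ball z₁ ρ, F w b ≠ 0) ∧ ∃ B : ℂ → (Fin (N + 1) → ℂ) →L[ℂ] (Fin (N + 1) → ℂ), (∀ w ∈ ball z₁ ρ, AnalyticAt ℂ B w) ∧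
      ∀ z₂ ∈ ball z₁ ρ, ∀ V : ℂ → Fin (N + 1) → ℂ, AnalyticAt ℂ V z₂ → (∀ᶠ w in 𝓝 z₂, ∀ l, lhs (gfam f b l) (xb F b) V w = 0) →
        ∀ᶠ w in 𝓝 z₂, deriv V w = B w (V w) := by
  sorry

/-- MODULE Lin1.  `Z'_ij = F_i F_b V_j - F_j F_b V_i`; identity theorem for the meromorphic functions `lhs (gfam f b' l) (xb F b') (Vb F Z' b')` on the ball. -/
theorem isVar_of_chart {f : Frame θ} (hF : IsCurve P F U) {z₁ z₂ : ℂ} {ρ : ℝ} (hρ : ball z₁ ρ ⊆ U) {b : Fin (N + 1)} (hb : ∀ w ∈ ball z₁ ρ, F w b ≠ 0)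
    {V : ℂ → Fin (N + 1) → ℂ} (hV : ∀ w ∈ ball z₁ ρ, AnalyticAt ℂ V w) (hz : z₂ ∈ ball z₁ ρ) (hZ : IsVar f F Z z₂) (hVZ : V =ᶠ[𝓝 z₂] Vb F Z b) :
    ∃ Z' : ℂ → Fin (N + 1) × Fin (N + 1) → ℂ, (∀ w ∈ ball z₁ ρ, IsVar f F Z' w) ∧ Z' =ᶠ[𝓝 z₂] Z := by
  sorry

/-- MODULE Cnt (with CntA, CntB) -/
theorem exists_cont (hP : Homog P) (hθ : Polar θ) (hm : ∀ k, 1 ≤ m k) (f : Frame θ) (hf : HomFr f) (hF : IsCurve P F U) (hU : Convex ℝ U) {w₀ : ℂ} (hw : w₀ ∈ U)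
    (hZ : IsVar f F Z w₀) : ∃ Z' : ℂ → Fin (N + 1) × Fin (N + 1) → ℂ, (∀ w ∈ U, IsVar f F Z' w) ∧ Z' =ᶠ[𝓝 w₀] Z := by
  sorry

/-- MODULE Det: a variation field is determined by its value at one point (`exists_linODE`, uniqueness, identity theorem) -/
theorem isVar_zero (hP : Homog P) (hθ : Polar θ) (hm : ∀ k, 1 ≤ m k) (f : Frame θ) (hf : HomFr f) (hF : IsCurve P F U) (hZ : ∀ w ∈ U, IsVar f F Z w) {w₀ : ℂ} (hw : w₀ ∈ U)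
    (h0 : Z w₀ = 0) : ∀ w ∈ U, Z w = 0 := by
  sorry

/-- MODULE Tr.  `F_a ^ e` times a relation is analytic on `U`: identity theorem. -/
theorem relX_transport (hF : IsCurve P F U) (hO : IsSmallRing OO U) {a : Fin (N + 1)} (hZ : ∀ w ∈ U, AnalyticAt ℂ Z w) {w₀ w₁ : ℂ} (hw₀ : w₀ ∈ U)
    (h₀ : F w₀ a ≠ 0) (hw₁ : w₁ ∈ U) (h₁ : F w₁ a ≠ 0) (h : RelX OO (xb F a) (Vb F Z a) w₀) : RelX OO (xb F a) (Vb F Z a) w₁ := by
  sorry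

/-- MODULE Alpha -/
theorem exists_alpha (hP : Homog P) (f : Frame θ) (hF : IsCurve P F U) (hZ : ∀ w ∈ U, IsVar f F Z w) :
    ∃ α : ℂ → Fin J → ℂ, (∀ w ∈ U, AnalyticAt ℂ α w) ∧ ∀ w ∈ U, ∀ b, F w b ≠ 0 → Vb F Z b w ∈ conTan P (xb F b w) ∧ Vb F Z b w b = 0 ∧
      ∀ k, (θ k).toFun (xb F b w) (Vb F Z b w) = α w k := by
  sorry

/-- MODULE AlphaD: `|A'| ≤ C sp |A|` for `A_k = α_k ^ (∏ m / m_k)` (`alpha_bound`, `theta_bd`, `wl_chart` in the chart of the largest coordinate of `F w`) -/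
theorem alpha_deriv (hP : Homog P) (hθ : Polar θ) (hm : ∀ k, 1 ≤ m k) (f : Frame θ) (hf : HomFr f) : ∃ C : ℝ, ∀ (U : Set ℂ) (F : ℂ → Fin (N + 1) → ℂ)
    (Z : ℂ → Fin (N + 1) × Fin (N + 1) → ℂ) (α : ℂ → Fin J → ℂ), IsCurve P F U → (∀ w ∈ U, IsVar f F Z w) → (∀ w ∈ U, AnalyticAt ℂ α w) →
    (∀ w ∈ U, ∀ b, F w b ≠ 0 → ∀ k, (θ k).toFun (xb F b w) (Vb F Z b w) = α w k) →
    ∀ w ∈ U, ‖deriv (fun w k => α w k ^ ((∏ i, m i) / m k)) w‖ ≤ C * sp F w * ‖fun k => α w k ^ ((∏ i, m i) / m k)‖ := by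
  sorry

/-- MODULE ArcF: the final criterion in a chart (`crit_of_rel` for `gfam f a`, `exists_row`) -/
theorem crit_point (hθ : Polar θ) (f : Frame θ) (hO : IsSmallRing OO U) {a : Fin (N + 1)} {x V : ℂ → Fin (N + 1) → ℂ} {w₁ : ℂ} (hw : w₁ ∈ U)
    (hx : AnalyticAt ℂ x w₁) (hV : AnalyticAt ℂ V w₁) (hxc : ∀ᶠ w in 𝓝 w₁, x w ∈ cone P ∧ x w a = 1) (hR : RelX OO x V w₁)
    (hα : ∀ k, ∃ g ∈ OO, ∀ᶠ w in 𝓝 w₁, (θ k).toFun (x w) (V w) = g w) (h0 : V w₁ ≠ 0) :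
    ∃ (I : Fin (N + 1) → (Unit ⊕ Unit) ⊕ (Fin f.q ⊕ Fin f.q) ⊕ Fin J) (c : Fin J → ℂ), IsTan θ a c (x w₁) (V w₁) ∧
      Crit (gfam f a) I (pt (x w₁) (V w₁)) := by
  sorry

/-- MODULE Brg -/
theorem isSmallRing_OO {s : ℂ → ℝ} {X : ℕ → ℝ} (hX : Lev s X) : IsSmallRing (GA.OO hX) HP := by
  sorry

theorem HCurve.isCurve (hF : HCurve P F) (h : ∃ w ∈ HP, deriv F w ∉ Submodule.span ℂ {F w}) : IsCurve P F HP := by
  sorry

end Pool.Agent.GA
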