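import Mathlib

/-!
# GA GroCore: growth of the solutions of `|a'| ≤ C √e |a|` in the half-plane

`norm_le_exp`: Gronwall's inequality with a variable coefficient.
`gro_core`: if `a` is holomorphic in the half-plane `Re w > 0` and `‖a'‖ ≤ C √e ‖a‖`, then the mean of `log⁺ ‖a‖` over `Re w = X` is at most
`C' + C √(2 π (X - 1)) √(∫_1^X ∫ e)`: Gronwall on the horizontal rays and the Cauchy–Schwarz inequality.
-/

set_option autoImplicit false

open Filter Topology MeasureTheory intervalIntegral Set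

namespace Pool.Agent.GA

variable {E : Type*} [NormedAddCommGroup E] [NormedSpace ℝ E]

private theorem norm_le_exp_aux {f f' : ℝ → E} {k : ℝ → ℝ} {a b : ℝ} (hab : a ≤ b) (hf : ∀ t ∈ Icc a b, HasDerivAt f (f' t) t) (hk : Continuous k)
    (h : ∀ t ∈ Icc a b, ‖f' t‖ ≤ k t * ‖f t‖) {ε : ℝ} (hε : 0 < ε) :
    ‖f b‖ ≤ (‖f a‖ + ε) * Real.exp ((∫ t in a..b, k t) + ε * (b - a)) := by
  have hK : ∀ x, HasDerivAt (fun x => ∫ t in a..x, k t) (k x) x := fun x => (hk.integral_hasStrictDerivAt a x).hasDerivAt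
  have hB : ∀ x, HasDerivAt (fun x => (‖f a‖ + ε) * Real.exp ((∫ t in a..x, k t) + ε * (x - a)))
      ((‖f a‖ + ε) * (Real.exp ((∫ t in a..x, k t) + ε * (x - a)) * (k x + ε * 1))) x := fun x =>
    ((((hK x).add (((hasDerivAt_id x).sub_const a).const_mul ε)).exp).const_mul _)
  refine image_norm_le_of_norm_deriv_right_lt_deriv_boundary (f := f) (f' := f') (a := a) (b := b)
    (fun x hx => (hf x hx).continuousAt.continuousWithinAt) (fun x hx => (hf x ⟨hx.1, hx.2.le⟩).hasDerivWithinAt) ?_ hB ?_ (right_mem_Icc.2 hab)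
  · simp [hε.le]
  · intro x hx hxB
    have h1 := h x ⟨hx.1, hx.2.le⟩
    have h2 : 0 < (‖f a‖ + ε) * Real.exp ((∫ t in a..x, k t) + ε * (x - a)) := by positivity
    calc ‖f' x‖ ≤ k x * ‖f x‖ := h1
      _ = k x * ((‖f a‖ + ε) * Real.exp ((∫ t in a..x, k t) + ε * (x - a))) := by rw [hxB]
      _ < (k x + ε * 1) * ((‖f a‖ + ε) * Real.exp ((∫ t in a..x, k t) + ε * (x - a))) := by
        refine mul_lt_mul_of_pos_right ?_ h2
        linarith
      _ = (‖f a‖ + ε) * (Real.exp ((∫ t in a..x, k t) + ε * (x - a)) * (k x + ε * 1)) := by ring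

/-- **Gronwall's inequality** with a variable coefficient. -/
theorem norm_le_exp {f f' : ℝ → E} {k : ℝ → ℝ} {a b : ℝ} (hab : a ≤ b) (hf : ∀ t ∈ Icc a b, HasDerivAt f (f' t) t) (hk : ContinuousOn k (Icc a b))
    (h : ∀ t ∈ Icc a b, ‖f' t‖ ≤ k t * ‖f t‖) : ‖f b‖ ≤ ‖f a‖ * Real.exp (∫ t in a..b, k t) := by
  have hk' : Continuous (IccExtend hab ((Icc a b).domRestrict k)) := by
    apply Continuous.Icc_extend'
    exact continuousOn_iff_continuous_domRestrict.1 hk
  have he : ∀ t ∈ Icc a b, IccExtend hab ((Icc a b).domRestrict k) t = k t := fun t ht => by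
    rw [IccExtend_of_mem _ _ ht]
    rfl
  have hint : ∫ t in a..b, IccExtend hab ((Icc a b).domRestrict k) t = ∫ t in a..b, k t := by
    refine intervalIntegral.integral_congr fun t ht => ?_
    rw [uIcc_of_le hab] at ht
    exact he t ht
  have h1 : ∀ ε : ℝ, 0 < ε → ‖f b‖ ≤ (‖f a‖ + ε) * Real.exp ((∫ t in a..b, k t) + ε * (b - a)) := by
    intro ε hε
    have h2 := norm_le_exp_aux hab hf hk' (fun t ht => by rw [he t ht]; exact h t ht) hε
    rwa [hint] at h2
  have h3 : Tendsto (fun ε : ℝ => (‖f a‖ + ε) * Real.exp ((∫ t in a..b, k t) + ε * (b - a))) (𝓝[>] 0)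
      (𝓝 ((‖f a‖ + 0) * Real.exp ((∫ t in a..b, k t) + 0 * (b - a)))) := by
    refine Tendsto.mono_left ?_ nhdsWithin_le_nhds
    exact (by fun_prop : Continuous fun ε : ℝ => (‖f a‖ + ε) * Real.exp ((∫ t in a..b, k t) + ε * (b - a))).tendsto 0
  have h4 := ge_of_tendsto h3 (eventually_mem_nhdsWithin.mono fun ε hε => h1 ε hε)
  simpa using h4

open Real in
/-- Gronwall's inequality for `log⁺`. -/
theorem posLog_norm_le {f f' : ℝ → E} {k : ℝ → ℝ} {a b : ℝ} (hab : a ≤ b) (hf : ∀ t ∈ Icc a b, HasDerivAt f (f' t) t) (hk : ContinuousOn k (Icc a b))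
    (hk0 : ∀ t ∈ Icc a b, 0 ≤ k t) (h : ∀ t ∈ Icc a b, ‖f' t‖ ≤ k t * ‖f t‖) : log⁺ ‖f b‖ ≤ log⁺ ‖f a‖ + ∫ t in a..b, k t := by
  have h1 := norm_le_exp hab hf hk h
  have h2 : 0 ≤ ∫ t in a..b, k t := intervalIntegral.integral_nonneg hab hk0
  calc log⁺ ‖f b‖ ≤ log⁺ (‖f a‖ * Real.exp (∫ t in a..b, k t)) := posLog_le_posLog (norm_nonneg _) h1
    _ ≤ log⁺ ‖f a‖ + log⁺ (Real.exp (∫ t in a..b, k t)) := posLog_mul
    _ = log⁺ ‖f a‖ + ∫ t in a..b, k t := by
      rw [posLog_eq_log (x := Real.exp (∫ t in a..b, k t)) (by rw [abs_of_pos (Real.exp_pos _)]; exact Real.one_le_exp h2), Real.log_exp]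

private theorem sqrt_le_aux {x l : ℝ} (hx : 0 ≤ x) (hl : 0 < l) : √x ≤ (l * x + l⁻¹) / 2 := by
  have h1 := Real.sq_sqrt hx
  have h2 : 0 ≤ (l * √x - 1) ^ 2 := sq_nonneg _
  have h4 : (l * √x - 1) ^ 2 = l * (l * √x ^ 2) - l * (2 * √x) + 1 := by ring
  rw [h1] at h4
  have h3 : l * (2 * √x) ≤ l * (l * x + l⁻¹) := by
    rw [mul_add, mul_inv_cancel₀ hl.ne']
    linarith
  linarith [le_of_mul_le_mul_left h3 hl]

private theorem le_sqrt_aux {I A B : ℝ} (hA : 0 ≤ A) (hB : 0 ≤ B) (h : ∀ l : ℝ, 0 < l → I ≤ (l * A + l⁻¹ * B) / 2) : I ≤ √B * √A := by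
  have h1 : ∀ ε : ℝ, 0 < ε → I ≤ √(B + ε) * √(A + ε) := by
    intro ε hε
    have hA' : 0 < √(A + ε) := Real.sqrt_pos.2 (by linarith)
    have hB' : 0 < √(B + ε) := Real.sqrt_pos.2 (by linarith)
    have h2 := h (√(B + ε) / √(A + ε)) (by positivity)
    have hA2 : A ≤ √(A + ε) ^ 2 := by rw [Real.sq_sqrt (by linarith)]; linarith
    have hB2 : B ≤ √(B + ε) ^ 2 := by rw [Real.sq_sqrt (by linarith)]; linarith
    have h3 : √(B + ε) / √(A + ε) * A ≤ √(B + ε) / √(A + ε) * √(A + ε) ^ 2 := mul_le_mul_of_nonneg_left hA2 (by positivity)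
    have h4 : (√(B + ε) / √(A + ε))⁻¹ * B ≤ (√(B + ε) / √(A + ε))⁻¹ * √(B + ε) ^ 2 := mul_le_mul_of_nonneg_left hB2 (by positivity)
    have h5 : √(B + ε) / √(A + ε) * √(A + ε) ^ 2 = √(B + ε) * √(A + ε) := by field_simp
    have h6 : (√(B + ε) / √(A + ε))⁻¹ * √(B + ε) ^ 2 = √(B + ε) * √(A + ε) := by field_simp
    linarith
  have h3 : Tendsto (fun ε : ℝ => √(B + ε) * √(A + ε)) (𝓝[>] 0) (𝓝 (√(B + 0) * √(A + 0))) := by
    refine Tendsto.mono_left ?_ nhdsWithin_le_nhds
    exact (by fun_prop : Continuous fun ε : ℝ => √(B + ε) * √(A + ε)).tendsto 0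
  have h4 := ge_of_tendsto h3 (eventually_mem_nhdsWithin.mono fun ε hε => h1 ε hε)
  simpa using h4

open Real in
/-- **The growth of `a`.** -/
theorem gro_core {F : Type*} [NormedAddCommGroup F] [NormedSpace ℂ F] {a : ℂ → F} {e : ℂ → ℝ} (ha : DifferentiableOn ℂ a {w | 0 < w.re})
    (he : ContinuousOn e {w | 0 < w.re}) (he0 : ∀ w, 0 < w.re → 0 ≤ e w) {C : ℝ} (hC : 0 ≤ C) (h : ∀ w : ℂ, 0 < w.re → ‖deriv a w‖ ≤ C * √(e w) * ‖a w‖) :
    ∀ X : ℝ, 1 ≤ X → ∫ y in (0 : ℝ)..2 * π, log⁺ ‖a (X + y * Complex.I)‖ ≤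
      (∫ y in (0 : ℝ)..2 * π, log⁺ ‖a (1 + y * Complex.I)‖) + C * (√(2 * π * (X - 1)) * √(∫ t in (1 : ℝ)..X, ∫ y in (0 : ℝ)..2 * π, e (t + y * Complex.I))) := by
  intro X hX
  have hopen : IsOpen {w : ℂ | 0 < w.re} := isOpen_lt continuous_const Complex.continuous_re
  have hre : ∀ t y : ℝ, ((t : ℂ) + y * Complex.I).re = t := fun t y => by simp
  have h2π : (0 : ℝ) ≤ 2 * π := by positivity
  -- the continuous extension of `e`
  obtain ⟨e', he'⟩ : ∃ e' : ℝ → ℝ → ℝ, e' = fun t (y : ℝ) => e (((max t 1 : ℝ) : ℂ) + (y : ℂ) * Complex.I) := ⟨_, rfl⟩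
  have he'c : Continuous (Function.uncurry e') := by
    rw [he']
    have h1 : Continuous fun q : ℝ × ℝ => (((max q.1 1 : ℝ) : ℂ) + q.2 * Complex.I) := by fun_prop
    refine continuous_iff_continuousAt.2 fun q => ?_
    have h2 : 0 < ((((max q.1 1 : ℝ) : ℂ) + q.2 * Complex.I)).re := by
      rw [hre]
      exact lt_of_lt_of_le one_pos (le_max_right _ _)
    exact ContinuousAt.comp (f := fun q : ℝ × ℝ => (((max q.1 1 : ℝ) : ℂ) + q.2 * Complex.I)) (g := e)
      (he.continuousAt (hopen.mem_nhds h2)) h1.continuousAt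
  have he'e : ∀ t y : ℝ, 1 ≤ t → e' t y = e (t + y * Complex.I) := fun t y ht => by
    rw [he']
    simp only [max_eq_left ht]
  have he'0 : ∀ t y : ℝ, 0 ≤ e' t y := fun t y => by
    rw [he']
    refine he0 _ ?_
    rw [hre]
    exact lt_of_lt_of_le one_pos (le_max_right _ _)
  have hIe : ∫ t in (1 : ℝ)..X, ∫ y in (0 : ℝ)..2 * π, e (t + y * Complex.I) = ∫ t in (1 : ℝ)..X, ∫ y in (0 : ℝ)..2 * π, e' t y := by
    refine intervalIntegral.integral_congr fun t ht => ?_
    rw [uIcc_of_le hX] at ht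
    exact intervalIntegral.integral_congr fun y _ => (he'e t y ht.1).symm
  -- Fubini
  have hfub : ∫ y in (0 : ℝ)..2 * π, ∫ t in (1 : ℝ)..X, e' t y = ∫ t in (1 : ℝ)..X, ∫ y in (0 : ℝ)..2 * π, e' t y := by
    symm
    refine intervalIntegral_intervalIntegral_swap ?_
    have h1 : IntegrableOn (Function.uncurry e') (uIcc 1 X ×ˢ uIcc 0 (2 * π)) := he'c.continuousOn.integrableOn_compact (isCompact_uIcc.prod isCompact_uIcc)
    exact h1.mono_set (Set.prod_mono uIoc_subset_uIcc uIoc_subset_uIcc)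
  have hc1 : Continuous fun y : ℝ => ∫ t in (1 : ℝ)..X, e' t y :=
    intervalIntegral.continuous_parametric_intervalIntegral_of_continuous' (f := fun y t => e' t y) (he'c.comp continuous_swap) 1 X
  have hA0 : 0 ≤ ∫ t in (1 : ℝ)..X, ∫ y in (0 : ℝ)..2 * π, e' t y :=
    intervalIntegral.integral_nonneg hX fun t _ => intervalIntegral.integral_nonneg h2π fun y _ => he'0 t y
  -- `a` on the vertical lines
  have hac : ∀ t : ℝ, 0 < t → Continuous fun y : ℝ => log⁺ ‖a (t + y * Complex.I)‖ := by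
    intro t ht
    have h1 : Continuous fun y : ℝ => ((t : ℂ) + y * Complex.I) := by fun_prop
    have h2 : Continuous fun y : ℝ => a (t + y * Complex.I) := by
      refine continuous_iff_continuousAt.2 fun y => ?_
      have h3 : 0 < ((t : ℂ) + y * Complex.I).re := by rw [hre]; exact ht
      exact ContinuousAt.comp (f := fun y : ℝ => ((t : ℂ) + y * Complex.I)) (g := a) (ha.continuousOn.continuousAt (hopen.mem_nhds h3)) h1.continuousAt
    exact Real.continuous_posLog.comp h2.norm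
  have hac1 : Continuous fun y : ℝ => log⁺ ‖a (1 + y * Complex.I)‖ := by
    have := hac 1 one_pos
    simpa using this
  -- the estimate on a ray
  have hray : ∀ y : ℝ, log⁺ ‖a (X + y * Complex.I)‖ ≤ log⁺ ‖a (1 + y * Complex.I)‖ + C * ∫ t in (1 : ℝ)..X, √(e' t y) := by
    intro y
    have h1 : ∀ t ∈ Icc (1 : ℝ) X, HasDerivAt (fun t : ℝ => a (t + y * Complex.I)) (deriv a (t + y * Complex.I)) t := by
      intro t ht
      have h2 : 0 < ((t : ℂ) + y * Complex.I).re := by rw [hre]; linarith [ht.1]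
      have h3 : HasDerivAt a (deriv a (t + y * Complex.I)) ((t : ℂ) + y * Complex.I) := (ha.differentiableAt (hopen.mem_nhds h2)).hasDerivAt
      have h4 : HasDerivAt (fun t : ℝ => ((t : ℂ) + y * Complex.I)) 1 t := (Complex.ofRealCLM.hasDerivAt (x := t)).add_const (y * Complex.I)
      have h5 := h3.scomp t h4
      rw [one_smul] at h5
      exact h5
    have hkc : Continuous fun t => C * √(e' t y) := by
      have : Continuous fun t => e' t y := he'c.comp (by fun_prop : Continuous fun t : ℝ => (t, y))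
      fun_prop
    let _ : NormedSpace ℝ F := NormedSpace.complexToReal
    have h2 := posLog_norm_le hX h1 hkc.continuousOn (fun t _ => by positivity) (fun t ht => by
      rw [he'e t y ht.1]
      exact h _ (by rw [hre]; linarith [ht.1]))
    rw [intervalIntegral.integral_const_mul] at h2
    simpa using h2
  -- integrate
  have hlam : ∀ l : ℝ, 0 < l → (∫ y in (0 : ℝ)..2 * π, ∫ t in (1 : ℝ)..X, √(e' t y)) ≤
      (l * (∫ t in (1 : ℝ)..X, ∫ y in (0 : ℝ)..2 * π, e' t y) + l⁻¹ * (2 * π * (X - 1))) / 2 := by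
    intro l hl
    have hc2 : Continuous fun y : ℝ => ∫ t in (1 : ℝ)..X, √(e' t y) :=
      intervalIntegral.continuous_parametric_intervalIntegral_of_continuous' (f := fun y t => √(e' t y)) ((he'c.comp continuous_swap).sqrt) 1 X
    calc (∫ y in (0 : ℝ)..2 * π, ∫ t in (1 : ℝ)..X, √(e' t y)) ≤ ∫ y in (0 : ℝ)..2 * π, (l * (∫ t in (1 : ℝ)..X, e' t y) + l⁻¹ * (X - 1)) / 2 := by
          refine intervalIntegral.integral_mono_on h2π (hc2.intervalIntegrable _ _) (Continuous.intervalIntegrable (by fun_prop) _ _) fun y _ => ?_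
          have hcy : Continuous fun t => e' t y := he'c.comp (by fun_prop : Continuous fun t : ℝ => (t, y))
          have h3 : ∫ t in (1 : ℝ)..X, √(e' t y) ≤ ∫ t in (1 : ℝ)..X, (l * e' t y + l⁻¹) / 2 :=
            intervalIntegral.integral_mono_on hX (hcy.sqrt.intervalIntegrable _ _) (Continuous.intervalIntegrable (by fun_prop) _ _)
              fun t _ => sqrt_le_aux (he'0 t y) hl
          refine h3.trans (le_of_eq ?_)
          rw [intervalIntegral.integral_div, intervalIntegral.integral_add ((hcy.const_mul l).intervalIntegrable _ _) intervalIntegrable_const,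
            intervalIntegral.integral_const_mul, intervalIntegral.integral_const, smul_eq_mul]
          ring
      _ = (l * (∫ t in (1 : ℝ)..X, ∫ y in (0 : ℝ)..2 * π, e' t y) + l⁻¹ * (2 * π * (X - 1))) / 2 := by
          rw [intervalIntegral.integral_div, intervalIntegral.integral_add ((hc1.const_mul l).intervalIntegrable _ _) intervalIntegrable_const,
            intervalIntegral.integral_const_mul, intervalIntegral.integral_const, smul_eq_mul, hfub]
          ring
  have hcs := le_sqrt_aux hA0 (by have := Real.pi_pos; nlinarith : (0 : ℝ) ≤ 2 * π * (X - 1)) hlam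
  have hc2 : Continuous fun y : ℝ => ∫ t in (1 : ℝ)..X, √(e' t y) :=
    intervalIntegral.continuous_parametric_intervalIntegral_of_continuous' (f := fun y t => √(e' t y)) ((he'c.comp continuous_swap).sqrt) 1 X
  calc ∫ y in (0 : ℝ)..2 * π, log⁺ ‖a (X + y * Complex.I)‖ ≤ ∫ y in (0 : ℝ)..2 * π, (log⁺ ‖a (1 + y * Complex.I)‖ + C * ∫ t in (1 : ℝ)..X, √(e' t y)) :=
        intervalIntegral.integral_mono_on h2π ((hac X (by linarith)).intervalIntegrable _ _)
          ((hac1.add (hc2.const_mul C)).intervalIntegrable _ _) fun y _ => hray y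
    _ = (∫ y in (0 : ℝ)..2 * π, log⁺ ‖a (1 + y * Complex.I)‖) + C * ∫ y in (0 : ℝ)..2 * π, ∫ t in (1 : ℝ)..X, √(e' t y) := by
        rw [intervalIntegral.integral_add (hac1.intervalIntegrable _ _) ((hc2.const_mul C).intervalIntegrable _ _), intervalIntegral.integral_const_mul]
    _ ≤ _ := by
        rw [hIe]
        exact add_le_add_right (mul_le_mul_of_nonneg_left hcs hC) _

end Pool.Agent.GA
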