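import Pool.Agent.GA.Ring
import Pool.Agent.GA.GroCore

/-!
# GA Gro: Gronwall and length-area

`log⁺ ‖A (t + i y)‖ ≤ log⁺ ‖A (1 + i y)‖ + C ∫_1^t s (τ + i y) dτ` (horizontal lines; `‖A‖` for the Euclidean norm, or `‖A t‖ ≤ ‖A 1‖ exp (C ∫ s)` by Gronwall),
mean over `y`, Cauchy-Schwarz: `mn log⁺ ‖A‖ (t) ≤ C + C ∫_1^t mn s ≤ C + C' (t AA s t)^(1/2)`, monotone in `t`, at `X_n`: `(X_n AA (X_n))^(1/2) ≤ τ_n / (n + 1)^(1/2)`.
-/

set_option autoImplicit false

open Topology Filter Metric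

namespace Pool.Agent.GA

variable {s : ℂ → ℝ} {X : ℕ → ℝ}

private theorem isOpen_HP' : IsOpen HP := isOpen_lt continuous_const Complex.continuous_re

private theorem re_line (t y : ℝ) : ((t : ℂ) + y * Complex.I).re = t := by simp

private theorem continuous_line {E : Type*} [TopologicalSpace E] {h : ℂ → E} (hh : ContinuousOn h HP) {t : ℝ} (ht : 0 < t) :
    Continuous fun y : ℝ => h (t + y * Complex.I) := by
  have h1 : Continuous fun y : ℝ => ((t : ℂ) + y * Complex.I) := by fun_prop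
  refine continuous_iff_continuousAt.2 fun y => ?_
  have h2 : ((t : ℂ) + y * Complex.I) ∈ HP := by
    show 0 < ((t : ℂ) + y * Complex.I).re
    rw [re_line]
    exact ht
  exact ContinuousAt.comp (f := fun y : ℝ => ((t : ℂ) + y * Complex.I)) (g := h) (hh.continuousAt (isOpen_HP'.mem_nhds h2)) h1.continuousAt

private theorem lev_ge (hX : Lev s X) (n : ℕ) : ((n : ℝ) + 1) * X n ≤ tau s X n ∧ 4 ≤ X n ∧ (n : ℝ) + 1 ≤ tau s X n ∧ 4 ≤ tau s X n := by
  have h1 := hX.big n
  have h2 := hX.sub n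
  have h3 : (0 : ℝ) ≤ n := Nat.cast_nonneg n
  refine ⟨h2, by linarith, ?_, ?_⟩ <;> nlinarith

private theorem tau_tendsto (hX : Lev s X) : Tendsto (tau s X) atTop atTop := by
  refine tendsto_atTop_mono (fun n => (lev_ge hX n).2.2.1) ?_
  exact tendsto_atTop_add_const_right _ _ tendsto_natCast_atTop_atTop

private theorem gro_smallN_const (hX : Lev s X) (c : ℝ) : SmallN s X fun _ => c := (tau_tendsto hX).const_div_atTop c

private theorem SmallN.add' {η μ : ℕ → ℝ} (h₁ : SmallN s X η) (h₂ : SmallN s X μ) : SmallN s X fun n => η n + μ n := by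
  have h := Tendsto.add h₁ h₂
  rw [add_zero] at h
  refine h.congr fun n => ?_
  rw [add_div]

private theorem SmallN.const_mul' {η : ℕ → ℝ} (h₁ : SmallN s X η) (c : ℝ) : SmallN s X fun n => c * η n := by
  have h := Tendsto.const_mul c h₁
  rw [mul_zero] at h
  refine h.congr fun n => ?_
  rw [mul_div_assoc]

private theorem gro_smallN_X (hX : Lev s X) : SmallN s X X := by
  have h1 : Tendsto (fun n : ℕ => 1 / ((n : ℝ) + 1)) atTop (𝓝 0) := tendsto_one_div_add_atTop_nhds_zero_nat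
  refine squeeze_zero (fun n => ?_) (fun n => ?_) h1
  · have h2 := lev_ge hX n
    exact div_nonneg (by linarith) (by linarith)
  · have h2 := lev_ge hX n
    have h3 : (0 : ℝ) < (n : ℝ) + 1 := by positivity
    rw [div_le_div_iff₀ (by linarith) h3]
    linarith

private theorem gro_smallN_sqrt (hX : Lev s X) : SmallN s X fun n => √(X n) * √(AA s (X n)) := by
  have h1 : Tendsto (fun n : ℕ => 1 / √((n : ℝ) + 1)) atTop (𝓝 0) := by
    have h2 : Tendsto (fun n : ℕ => √((n : ℝ) + 1)) atTop atTop :=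
      Real.tendsto_sqrt_atTop.comp (tendsto_atTop_add_const_right _ _ tendsto_natCast_atTop_atTop)
    exact h2.const_div_atTop 1
  refine squeeze_zero (fun n => ?_) (fun n => ?_) h1
  · have h2 := lev_ge hX n
    exact div_nonneg (by positivity) (by linarith)
  · have h2 := lev_ge hX n
    have h3 : (0 : ℝ) < (n : ℝ) + 1 := by positivity
    have h4 : 0 < √((n : ℝ) + 1) := Real.sqrt_pos.2 h3
    rw [div_le_div_iff₀ (by linarith) h4, one_mul]
    show √(X n) * √(AA s (X n)) * √((n : ℝ) + 1) ≤ tau s X n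
    rw [← Real.sqrt_mul (by linarith), ← Real.sqrt_mul' _ h3.le]
    refine Real.sqrt_le_iff.2 ⟨by linarith, ?_⟩
    have h5 := hX.area n
    linarith

/-- the area is monotone -/
private theorem AA_mono (hs : Speed s) {t T : ℝ} (ht : 1 ≤ t) (hT : t ≤ T) : AA s t ≤ AA s T := by
  have hmax : max t 1 = t := max_eq_left ht
  have hmax' : max T 1 = T := max_eq_left (ht.trans hT)
  rw [AA, AA, hmax, hmax']
  have hc : ContinuousOn (fun w => s w ^ 2) HP := hs.cont.pow 2
  -- the continuous extension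
  obtain ⟨e', he'⟩ : ∃ e' : ℝ → ℝ → ℝ, e' = fun t (y : ℝ) => s (((max t 1 : ℝ) : ℂ) + (y : ℂ) * Complex.I) ^ 2 := ⟨_, rfl⟩
  have he'c : Continuous (Function.uncurry e') := by
    rw [he']
    have h1 : Continuous fun q : ℝ × ℝ => (((max q.1 1 : ℝ) : ℂ) + q.2 * Complex.I) := by fun_prop
    refine continuous_iff_continuousAt.2 fun q => ?_
    have h2 : ((((max q.1 1 : ℝ) : ℂ) + q.2 * Complex.I)) ∈ HP := by
      show 0 < ((((max q.1 1 : ℝ) : ℂ) + q.2 * Complex.I)).re
      rw [re_line]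
      exact lt_of_lt_of_le one_pos (le_max_right _ _)
    exact ContinuousAt.comp (f := fun q : ℝ × ℝ => (((max q.1 1 : ℝ) : ℂ) + q.2 * Complex.I)) (g := fun w => s w ^ 2)
      (hc.continuousAt (isOpen_HP'.mem_nhds h2)) h1.continuousAt
  have hmn : ∀ t : ℝ, 1 ≤ t → mn (fun w => s w ^ 2) t = ∫ y in (0 : ℝ)..2 * Real.pi, e' t y := by
    intro t ht
    rw [mn, he']
    refine intervalIntegral.integral_congr fun y _ => ?_
    simp only [max_eq_left ht]
  have hc1 : Continuous fun t : ℝ => ∫ y in (0 : ℝ)..2 * Real.pi, e' t y :=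
    intervalIntegral.continuous_parametric_intervalIntegral_of_continuous' he'c 0 (2 * Real.pi)
  have hcong : ∀ T : ℝ, 1 ≤ T → ∫ t in (1 : ℝ)..T, mn (fun w => s w ^ 2) t = ∫ t in (1 : ℝ)..T, ∫ y in (0 : ℝ)..2 * Real.pi, e' t y := by
    intro T hT
    refine intervalIntegral.integral_congr fun t ht => ?_
    rw [Set.uIcc_of_le hT] at ht
    exact hmn t ht.1
  rw [hcong t ht, hcong T (ht.trans hT), ← sub_nonneg, intervalIntegral.integral_interval_sub_left (hc1.intervalIntegrable _ _) (hc1.intervalIntegrable _ _)]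
  refine intervalIntegral.integral_nonneg hT fun u _ => intervalIntegral.integral_nonneg (by positivity) fun y _ => ?_
  rw [he']
  positivity

theorem gro (hs : Speed s) (hX : Lev s X) {n : ℕ} {A : ℂ → Fin n → ℂ} (hA : ∀ w ∈ HP, AnalyticAt ℂ A w) {C : ℝ}
    (hb : ∀ w ∈ HP, ‖deriv A w‖ ≤ C * s w * ‖A w‖) :
    ∃ η : ℕ → ℝ, SmallN s X η ∧ ∀ n, ∀ t ∈ Set.Icc 1 (X n), mn (fun w => Real.posLog ‖A w‖) t ≤ η n := by
  have hcore := gro_core (a := A) (e := fun w => s w ^ 2) (fun w hw => (hA w hw).differentiableAt.differentiableWithinAt) (hs.cont.pow 2)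
    (fun w _ => sq_nonneg _) (abs_nonneg C) (fun w hw => by
      rw [Real.sqrt_sq (hs.nonneg w hw)]
      refine (hb w hw).trans ?_
      have h1 := hs.nonneg w hw
      gcongr
      exact le_abs_self C)
  refine ⟨fun n => mn (fun w => Real.posLog ‖A w‖) 1 + |C| * √(2 * Real.pi) * (√(X n) * √(AA s (X n))),
    (gro_smallN_const hX _).add' ((gro_smallN_sqrt hX).const_mul' _), fun n t ht => ?_⟩
  refine (hcore t ht.1).trans ?_
  have h1 : ∫ u in (1 : ℝ)..t, ∫ y in (0 : ℝ)..2 * Real.pi, s (u + y * Complex.I) ^ 2 = AA s t := by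
    rw [AA, max_eq_left ht.1]
    rfl
  rw [h1]
  have h2 : √(2 * Real.pi * (t - 1)) * √(AA s t) ≤ √(2 * Real.pi) * (√(X n) * √(AA s (X n))) := by
    rw [Real.sqrt_mul (by positivity), mul_assoc]
    have h3 : √(t - 1) ≤ √(X n) := Real.sqrt_le_sqrt (by linarith [ht.2])
    have h4 : √(AA s t) ≤ √(AA s (X n)) := Real.sqrt_le_sqrt (AA_mono hs ht.1 ht.2)
    gcongr
  have h5 : (∫ y in (0 : ℝ)..2 * Real.pi, Real.posLog ‖A (1 + y * Complex.I)‖) = mn (fun w => Real.posLog ‖A w‖) 1 := by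
    rw [mn]
    simp
  rw [h5]
  have h6 := mul_le_mul_of_nonneg_left h2 (abs_nonneg C)
  linarith

/-- after a multiplication by an exponential a component is small -/
theorem gro_comp (hs : Speed s) (hX : Lev s X) {n : ℕ} {A : ℂ → Fin n → ℂ} (hA : ∀ w ∈ HP, AnalyticAt ℂ A w) {C : ℝ}
    (hb : ∀ w ∈ HP, ‖deriv A w‖ ≤ C * s w * ‖A w‖) {a : ℂ → ℂ} (ha : ∀ w ∈ HP, AnalyticAt ℂ a w) (hap : ∀ w ∈ HP, a (w + per) = a w)
    {q : ℂ} {k : Fin n} {e : ℕ} (he : 1 ≤ e) (hq : ∀ w ∈ HP, ‖a w‖ ^ e ≤ ‖Complex.exp (q * w)‖ * ‖A w k‖) : IsOO s X a := by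
  obtain ⟨η, hη, hη'⟩ := gro hs hX hA hb
  refine IsOO.of_mean hX ha hap (η := fun n => η n + 2 * Real.pi * ‖q‖ * (X n + 2 * Real.pi)) ?_ ?_
  · have h1 : SmallN s X fun n => 2 * Real.pi * ‖q‖ * (X n + 2 * Real.pi) :=
      ((gro_smallN_X hX).add' (gro_smallN_const hX (2 * Real.pi))).const_mul' (2 * Real.pi * ‖q‖)
    exact hη.add' h1
  · refine Filter.Eventually.of_forall fun n t ht => ?_
    have h1 := lev_ge hX n
    have h2 : 1 / tau s X n ≤ 1 / 4 := one_div_le_one_div_of_le (by norm_num) h1.2.2.2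
    have h3 : 0 < 1 / tau s X n := one_div_pos.2 (by linarith)
    have h4 : xi s X n = X n - 2 * (1 / tau s X n) := by rw [xi, mul_one_div]
    rw [h4] at ht
    have ht1 : 1 ≤ t := by linarith [ht.1]
    have ht2 : t ≤ X n := by linarith [ht.2]
    have ht0 : 0 < t := by linarith
    refine le_trans ?_ (add_le_add_left (hη' n t ⟨ht1, ht2⟩) _)
    have hac : ContinuousOn a HP := fun w hw => (ha w hw).continuousAt.continuousWithinAt
    have hAc : ContinuousOn A HP := fun w hw => (hA w hw).continuousAt.continuousWithinAt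
    have hc1 : Continuous fun y : ℝ => Real.posLog ‖a (t + y * Complex.I)‖ := Real.continuous_posLog.comp (continuous_line hac ht0).norm
    have hc2 : Continuous fun y : ℝ => Real.posLog ‖A (t + y * Complex.I)‖ := Real.continuous_posLog.comp (continuous_line hAc ht0).norm
    have hpt : ∀ y ∈ Set.Icc (0 : ℝ) (2 * Real.pi), Real.posLog ‖a (t + y * Complex.I)‖ ≤
        Real.posLog ‖A (t + y * Complex.I)‖ + ‖q‖ * (X n + 2 * Real.pi) := by
      intro y hy
      obtain ⟨w, hw⟩ : ∃ w : ℂ, w = t + y * Complex.I := ⟨_, rfl⟩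
      have hwH : w ∈ HP := by
        show 0 < w.re
        rw [hw, re_line]
        exact ht0
      rw [← hw]
      have h5 : (e : ℝ) * Real.posLog ‖a w‖ ≤ Real.posLog ‖Complex.exp (q * w)‖ + Real.posLog ‖A w k‖ := by
        rw [← Real.posLog_pow]
        exact (Real.posLog_le_posLog (by positivity) (hq w hwH)).trans Real.posLog_mul
      have h6 : Real.posLog ‖a w‖ ≤ (e : ℝ) * Real.posLog ‖a w‖ := by
        have h7 : (1 : ℝ) ≤ e := by exact_mod_cast he
        have h8 : 0 ≤ Real.posLog ‖a w‖ := Real.posLog_nonneg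
        nlinarith
      have h7 : Real.posLog ‖A w k‖ ≤ Real.posLog ‖A w‖ := Real.posLog_le_posLog (norm_nonneg _) (norm_le_pi_norm _ _)
      have h8 : ‖w‖ ≤ X n + 2 * Real.pi := by
        rw [hw]
        refine (norm_add_le _ _).trans ?_
        rw [norm_mul, Complex.norm_I, mul_one, Complex.norm_real, Complex.norm_real, Real.norm_of_nonneg ht0.le, Real.norm_of_nonneg hy.1]
        linarith [hy.2]
      have h9 : Real.posLog ‖Complex.exp (q * w)‖ ≤ ‖q‖ * (X n + 2 * Real.pi) := by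
        rw [Complex.norm_exp, Real.posLog_apply, Real.log_exp]
        refine max_le (by have := Real.pi_pos; have := h1.2.1; positivity) ?_
        calc (q * w).re ≤ ‖q * w‖ := Complex.re_le_norm _
          _ = ‖q‖ * ‖w‖ := norm_mul _ _
          _ ≤ _ := mul_le_mul_of_nonneg_left h8 (norm_nonneg _)
      linarith
    calc mn (fun w => Real.posLog ‖a w‖) t ≤ ∫ y in (0 : ℝ)..2 * Real.pi, (Real.posLog ‖A (t + y * Complex.I)‖ + ‖q‖ * (X n + 2 * Real.pi)) :=
          intervalIntegral.integral_mono_on (by positivity) (hc1.intervalIntegrable _ _) ((hc2.add continuous_const).intervalIntegrable _ _) hpt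
      _ = mn (fun w => Real.posLog ‖A w‖) t + 2 * Real.pi * ‖q‖ * (X n + 2 * Real.pi) := by
          rw [intervalIntegral.integral_add (hc2.intervalIntegrable _ _) intervalIntegrable_const, intervalIntegral.integral_const, smul_eq_mul, mn]
          ring

end Pool.Agent.GA
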