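import Pool.Agent.GA.Bas
import Pool.Agent.GA.Bnd
import Pool.Agent.GA.Gro

/-!
# GA AlS: the values of the symmetric differentials on a horizontal field are small

Let `M = ∏ m k`, `A_k = α_k ^ (M / m k)`.  Near `w`, in the chart `b` of a largest coordinate, `x = F / F_b`: `α_k' = dA_k (x, V) (x', V')`, `alpha_bound` gives `|α_k'| ≤ C |x'| |V| ^ m k` where `x' ≠ 0` (the zeros of `x'` are isolated, or `F` is
constant in the projective space and everything is `0`; continuity), `wl_chart`: `|x'| ≤ C sp F`, `theta_bd` for `(x, V)`: `|V| ^ M ≤ C ‖A‖`, so `‖A'‖ ≤ C sp F ‖A‖`; then `gro_comp` with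
`e = M / m k`, `a = exp (-(m k) q w) α_k`: `‖a‖ ^ e = ‖exp (-M q w)‖ ‖A_k‖`.
-/

set_option autoImplicit false

open MvPolynomial Topology Filter Metric
open Pool.Agent.H13.SM (conTan cone)
open Pool.Agent.H62.FC (Homog)
open Pool.Agent.GG

namespace Pool.Agent.GA

variable {N : ℕ} {P : Ideal (MvPolynomial (Fin (N + 1)) ℂ)} {J : ℕ} {m : Fin J → ℕ} {θ : ∀ k, SymSec P (m k)} {F : ℂ → Fin (N + 1) → ℂ} {X : ℕ → ℝ}

theorem alpha_small (hP : Homog P) (hθ : Polar θ) (hm : ∀ k, 1 ≤ m k) (f : Frame θ) (hf : HomFr f) (hF : HCurve P F) (hX : Lev (sp F) X)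
    {α : Fin J → ℂ → ℂ} (hα : ∀ k, ∀ w ∈ HP, AnalyticAt ℂ (α k) w) {q : ℂ}
    (hper : ∀ k, ∀ w ∈ HP, Complex.exp (-(m k * q * (w + per))) * α k (w + per) = Complex.exp (-(m k * q * w)) * α k w)
    (hloc : ∀ w ∈ HP, ∀ b, (∀ c, ‖F w c‖ ≤ ‖F w b‖) → ∃ V : ℂ → Fin (N + 1) → ℂ, AnalyticAt ℂ V w ∧ ∀ᶠ u in 𝓝 w,
      V u ∈ conTan P (F u) ∧ V u b = 0 ∧ (∀ k, α k u = (θ k).toFun ((F u b)⁻¹ • F u) (V u)) ∧
      ∀ l, ∑ s, eval (pt ((F u b)⁻¹ • F u) (deriv (fun u => (F u b)⁻¹ • F u) u)) (pderiv s (gfam f b l)) * pt (V u) (deriv V u) s = 0)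
    (k : Fin J) : IsOO (sp F) X (fun w => Complex.exp (-(m k * q * w)) * α k w) := by
  sorry

end Pool.Agent.GA
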