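import Pool.Agent.GA.AlphaD

/-!
# GA Alpha: the values of the symmetric differentials on a variation field
-/

set_option autoImplicit false

open MvPolynomial Topology Filter Metric
open Pool.Agent.H13.SM (conTan cone)
open Pool.Agent.H62.FC (Homog)
open Pool.Agent.GG

namespace Pool.Agent.GA

variable {N : ℕ} {P : Ideal (MvPolynomial (Fin (N + 1)) ℂ)} {J : ℕ} {m : Fin J → ℕ} {θ : ∀ k, SymSec P (m k)} {F : ℂ → Fin (N + 1) → ℂ}
  {U : Set ℂ} {Z : ℂ → Fin (N + 1) × Fin (N + 1) → ℂ}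

private theorem alpha_cone (hP : Homog P) (hF : IsCurve P F U) {w : ℂ} (hw : w ∈ U) {b : Fin (N + 1)} (hb : F w b ≠ 0) : xb F b w ∈ cone P :=
  ⟨smul_ne_zero (inv_ne_zero hb) (hF.mem w hw).1, Pool.Agent.H13.SM.cone_smul hP (hF.mem w hw).2 _⟩

/-- MODULE Alpha -/
theorem exists_alpha (hP : Homog P) (f : Frame θ) (hF : IsCurve P F U) (hZ : ∀ w ∈ U, IsVar f F Z w) :
    ∃ α : ℂ → Fin J → ℂ, (∀ w ∈ U, AnalyticAt ℂ α w) ∧ ∀ w ∈ U, ∀ b, F w b ≠ 0 → Vb F Z b w ∈ conTan P (xb F b w) ∧ Vb F Z b w b = 0 ∧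
      ∀ k, (θ k).toFun (xb F b w) (Vb F Z b w) = α w k := by
  classical
  have h0 : ∀ w ∈ U, ∀ b, F w b ≠ 0 → Vb F Z b w b = 0 ∧ Vb F Z b w ∈ conTan P (xb F b w) := by
    intro w hw b hb
    exact alphaD_tan f (alpha_cone hP hF hw hb) ((hZ w hw).2.self_of_nhds b hb).2
  have hself : ∀ w ∈ U, ∀ b, F w b ≠ 0 → xb F b w ∈ conTan P (xb F b w) := fun w hw b hb Q hQ =>
    Pool.Agent.H13.SM.euler hP (alpha_cone hP hF hw hb).2 hQ
  -- independence of the chart
  have hch : ∀ w ∈ U, ∀ b c, F w b ≠ 0 → F w c ≠ 0 → ∀ k, (θ k).toFun (xb F c w) (Vb F Z c w) = (θ k).toFun (xb F b w) (Vb F Z b w) := by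
    intro w hw b c hb hc k
    have hx : xb F c w = (F w b / F w c) • xb F b w := by
      unfold xb
      rw [smul_smul]
      congr 1
      field_simp
    have hV : Vb F Z c w = (F w b / F w c) • (Vb F Z b w + (-(F w b / F w c * Vb F Z b w c)) • xb F b w) := by
      have h1 := ((hZ w hw).2.self_of_nhds b hb).1
      funext j
      have h2 : Vb F Z c w j = Z w (c, j) / F w c ^ 2 := rfl
      rw [h2, h1 c j]
      simp only [xb, Pi.smul_apply, Pi.add_apply, smul_eq_mul]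
      field_simp
      ring
    have ht : F w b / F w c ≠ 0 := div_ne_zero hb hc
    have hm1 := (h0 w hw b hb).2
    have hm2 := hself w hw b hb
    rw [hx, hV, (θ k).scale _ (alpha_cone hP hF hw hb) _ (Submodule.add_mem _ hm1 (Submodule.smul_mem _ _ hm2)) _ ht,
      (θ k).add_smul _ (alpha_cone hP hF hw hb) _ hm1]
  have hne : ∀ w ∈ U, ∃ b, F w b ≠ 0 := by
    intro w hw
    by_contra hcon
    push Not at hcon
    exact (hF.mem w hw).1 (funext hcon)
  set bi : ℂ → Fin (N + 1) := fun w => if h : ∃ b, F w b ≠ 0 then h.choose else 0 with hbi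
  have hbi' : ∀ w ∈ U, F w (bi w) ≠ 0 := by
    intro w hw
    have h := hne w hw
    have h1 : bi w = h.choose := dif_pos h
    rw [h1]
    exact h.choose_spec
  refine ⟨fun w k => (θ k).toFun (xb F (bi w) w) (Vb F Z (bi w) w), fun w hw => ?_, fun w hw b hb => ⟨(h0 w hw b hb).2, (h0 w hw b hb).1, fun k => ?_⟩⟩
  · rw [analyticAt_pi_iff]
    intro k
    obtain ⟨b, hb⟩ := hne w hw
    have hFa := hF.an w hw
    have hFb : AnalyticAt ℂ (fun u => F u b) w := (analyticAt_pi_iff.mp hFa) b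
    have hxa : AnalyticAt ℂ (xb F b) w := (hFb.inv hb).smul hFa
    have hVa : AnalyticAt ℂ (Vb F Z b) w := by
      rw [analyticAt_pi_iff]
      intro j
      exact AnalyticAt.div ((analyticAt_pi_iff.mp (hZ w hw).1) (b, j)) (hFb.pow 2) (pow_ne_zero 2 hb)
    have hpt : AnalyticAt ℂ (fun u => (pt (xb F b u) (Vb F Z b u) : Ph N → ℂ)) w := by
      rw [analyticAt_pi_iff]
      rintro (c | c)
      · exact (analyticAt_pi_iff.mp hxa) c
      · exact (analyticAt_pi_iff.mp hVa) c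
    have hA : AnalyticAt ℂ (fun u => eval (pt (xb F b u) (Vb F Z b u)) (f.A b k)) w :=
      AnalyticAt.comp (g := fun y : Ph N → ℂ => eval y (f.A b k)) (f := fun u => (pt (xb F b u) (Vb F Z b u) : Ph N → ℂ))
        (AnalyticOnNhd.eval_mvPolynomial (f.A b k) _ (Set.mem_univ _)) hpt
    refine hA.congr ?_
    filter_upwards [hF.isOpen.mem_nhds hw, hFb.continuousAt.eventually_ne hb] with u hu hub
    have h1 := hch u hu b (bi u) hub (hbi' u hu) k
    have hx1 : xb F b u b = 1 := inv_mul_cancel₀ hub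
    rw [h1, f.hA b k _ (alpha_cone hP hF hu hub) hx1 _ (h0 u hu b hub).2]
  · exact hch w hw (bi w) b (hbi' w hw) hb k

end Pool.Agent.GA
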