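import Pool.Agent.GG.Bd

/-!
# GA BasB: the symmetric differentials and the length of a tangent vector

`theta_bd`: scale (`x` to `x_a = 1 = ‖x‖`, `v` modulo `x` to `v_a = 0`); the set of these `(x, v)` with `‖v‖ = 1` is compact, and the sum of the `|θ_k|` is continuous and positive there (`Polar` with `w = v`).
-/

set_option autoImplicit false

open MvPolynomial Topology Filter Metric
open Pool.Agent.H13.SM (conTan cone)
open Pool.Agent.H17 (PN VanishesAt)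
open Pool.Agent.H62.FC (Homog)
open Pool.Agent.GG

namespace Pool.Agent.GA

variable {N : ℕ} {P : Ideal (MvPolynomial (Fin (N + 1)) ℂ)} {J : ℕ} {m : Fin J → ℕ} {θ : ∀ k, SymSec P (m k)}

private theorem nz (hθ : Polar θ) {x v : Fin (N + 1) → ℂ} (hx : x ∈ cone P) (hv : v ∈ conTan P x)
    (h : v ∉ Submodule.span ℂ {x}) : ∃ k, (θ k).toFun x v ≠ 0 := by
  obtain ⟨k, hk⟩ := hθ x hx v hv v hv h h
  refine ⟨k, fun h0 => hk ?_⟩
  have h1 : (fun t : ℂ => (θ k).toFun x (v + t • v)) = fun _ => 0 := by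
    funext t
    have h2 : v + t • v = (1 + t) • v := by rw [add_smul, one_smul]
    rw [h2, (θ k).smul x hx v hv, h0, mul_zero]
  rw [h1, deriv_const]

/-- the normalised tangent vectors -/
private def KK (P : Ideal (MvPolynomial (Fin (N + 1)) ℂ)) (a : Fin (N + 1)) :
    Set ((Fin (N + 1) → ℂ) × (Fin (N + 1) → ℂ)) :=
  {q | (∀ Q ∈ P, eval q.1 Q = 0) ∧ (∀ Q ∈ P, ∑ i, q.2 i * eval q.1 (pderiv i Q) = 0) ∧
    (q.1 a = 1 ∧ q.2 a = 0) ∧ ‖q.1‖ ≤ 1 ∧ ‖q.2‖ = 1}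

private theorem isCompact_KK (a : Fin (N + 1)) : IsCompact (KK P a) := by
  refine IsCompact.of_isClosed_subset (isCompact_closedBall (0 : (Fin (N + 1) → ℂ) × (Fin (N + 1) → ℂ)) 1) ?_ ?_
  · have c1 : ∀ Q : MvPolynomial (Fin (N + 1)) ℂ, Continuous fun q : (Fin (N + 1) → ℂ) × (Fin (N + 1) → ℂ) => eval q.1 Q :=
      fun Q => (MvPolynomial.continuous_eval Q).comp continuous_fst
    have e : KK P a = (⋂ Q ∈ P, {q | eval q.1 Q = 0}) ∩ ((⋂ Q ∈ P, {q | ∑ i, q.2 i * eval q.1 (pderiv i Q) = 0}) ∩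
        (({q | q.1 a = 1} ∩ {q | q.2 a = 0}) ∩ ({q | ‖q.1‖ ≤ 1} ∩ {q | ‖q.2‖ = 1}))) := by
      ext q
      simp only [KK, Set.mem_ofPred_eq, Set.mem_inter_iff, Set.mem_iInter]
    rw [e]
    refine (isClosed_biInter fun Q _ => isClosed_eq (c1 Q) continuous_const).inter
      ((isClosed_biInter fun Q _ => isClosed_eq (continuous_finsetSum _ fun i _ =>
        ((continuous_apply i).comp continuous_snd).mul (c1 _)) continuous_const).inter
      (((isClosed_eq ((continuous_apply a).comp continuous_fst) continuous_const).inter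
        (isClosed_eq ((continuous_apply a).comp continuous_snd) continuous_const)).inter
      ((isClosed_le (continuous_norm.comp continuous_fst) continuous_const).inter
        (isClosed_eq (continuous_norm.comp continuous_snd) continuous_const))))
  · rintro q ⟨-, -, -, h1, h2⟩
    rw [mem_closedBall_zero_iff, Prod.norm_def]
    exact max_le h1 h2.le

/-- If `x a = 1`, `‖x‖ = 1` and `v a = 0`, then `‖v‖ ≤ wl x v`. -/
private theorem norm_le_wl {x v : Fin (N + 1) → ℂ} {a : Fin (N + 1)} (hx : ‖x‖ = 1) (hxa : x a = 1) (hva : v a = 0) : ‖v‖ ≤ wl x v := by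
  rw [wl, hx, one_pow, div_one]
  refine (pi_norm_le_iff_of_nonneg (norm_nonneg _)).2 fun b => ?_
  have h1 := norm_le_pi_norm (fun p : Fin (N + 1) × Fin (N + 1) => x p.1 * v p.2 - x p.2 * v p.1) (a, b)
  simp only [hxa, hva, one_mul, mul_zero, sub_zero] at h1
  exact h1

private theorem wl_le {x v : Fin (N + 1) → ℂ} (hx : ‖x‖ = 1) : wl x v ≤ 2 * ‖v‖ := by
  rw [wl, hx, one_pow, div_one]
  refine (pi_norm_le_iff_of_nonneg (by positivity)).2 fun p => ?_
  have h1 : ∀ i j, ‖x i * v j‖ ≤ ‖v‖ := fun i j => by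
    rw [norm_mul]
    calc ‖x i‖ * ‖v j‖ ≤ 1 * ‖v‖ := mul_le_mul ((norm_le_pi_norm x i).trans hx.le) (norm_le_pi_norm v j) (norm_nonneg _) zero_le_one
      _ = ‖v‖ := one_mul _
  calc ‖x p.1 * v p.2 - x p.2 * v p.1‖ ≤ ‖x p.1 * v p.2‖ + ‖x p.2 * v p.1‖ := norm_sub_le _ _
    _ ≤ 2 * ‖v‖ := by linarith [h1 p.1 p.2, h1 p.2 p.1]

/-- the bounds on the compact sets -/
theorem bd_one (hθ : Polar θ) (a : Fin (N + 1)) : ∃ δ > 0, ∃ C > 0, ∀ x ∈ cone P, ∀ v ∈ conTan P x,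
    x a = 1 → v a = 0 → ‖x‖ ≤ 1 → ‖v‖ = 1 → (∀ k, ‖(θ k).toFun x v‖ ≤ C) ∧ δ ≤ ∑ k, ‖(θ k).toFun x v‖ := by
  classical
  choose e A hA using fun k => (θ k).regular a
  have hKc := isCompact_KK (P := P) a
  have hin : ∀ q ∈ KK P a, q.1 ∈ cone P := by
    rintro q ⟨h1, -, ⟨h3, -⟩, -, -⟩
    exact ⟨fun h0 => by rw [h0] at h3; exact zero_ne_one h3, h1⟩
  have hval : ∀ q ∈ KK P a, ∀ k, (θ k).toFun q.1 q.2 = eval (Sum.elim q.1 q.2) (A k) := by
    intro q hq k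
    have h1 := hA k q.1 (hin q hq) q.2 hq.2.1
    rw [hq.2.2.1.1, one_pow, one_mul] at h1
    exact h1
  have hcont : ∀ k, Continuous fun q : (Fin (N + 1) → ℂ) × (Fin (N + 1) → ℂ) => ‖eval (Sum.elim q.1 q.2 : Ph N → ℂ) (A k)‖ := by
    intro k
    refine continuous_norm.comp ((MvPolynomial.continuous_eval (A k)).comp ?_)
    refine continuous_pi fun s => ?_
    rcases s with b | b
    · exact (continuous_apply b).comp continuous_fst
    · exact (continuous_apply b).comp continuous_snd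
  have hsum : Continuous fun q : (Fin (N + 1) → ℂ) × (Fin (N + 1) → ℂ) => ∑ k, ‖eval (Sum.elim q.1 q.2 : Ph N → ℂ) (A k)‖ :=
    continuous_finsetSum _ fun k _ => hcont k
  have hpos : ∀ q ∈ KK P a, 0 < ∑ k, ‖eval (Sum.elim q.1 q.2 : Ph N → ℂ) (A k)‖ := by
    intro q hq
    have hns : q.2 ∉ Submodule.span ℂ {q.1} := by
      intro h
      obtain ⟨s, hs⟩ := Submodule.mem_span_singleton.mp h
      have h1 := congrFun hs a
      rw [Pi.smul_apply, hq.2.2.1.1, hq.2.2.1.2, smul_eq_mul, mul_one] at h1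
      rw [h1, zero_smul] at hs
      have h2 := hq.2.2.2.2
      rw [← hs, norm_zero] at h2
      exact zero_ne_one h2
    obtain ⟨k, hk⟩ := nz hθ (hin q hq) hq.2.1 hns
    rw [hval q hq] at hk
    exact Finset.sum_pos' (fun k _ => norm_nonneg _) ⟨k, Finset.mem_univ k, norm_pos_iff.2 hk⟩
  obtain ⟨δ, hδ, hδ'⟩ := hKc.exists_forall_le' hsum.continuousOn hpos
  obtain ⟨C, hC⟩ := hKc.exists_bound_of_continuousOn hsum.continuousOn
  refine ⟨δ, hδ, max C 1, lt_of_lt_of_le one_pos (le_max_right _ _), ?_⟩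
  intro x hx v hv hxa hva hxn hvn
  have hq : ((x, v) : (Fin (N + 1) → ℂ) × (Fin (N + 1) → ℂ)) ∈ KK P a := ⟨hx.2, hv, ⟨hxa, hva⟩, hxn, hvn⟩
  have hv1 := hval _ hq
  have h1 : (∑ k, ‖(θ k).toFun x v‖) = ∑ k, ‖eval (Sum.elim x v : Ph N → ℂ) (A k)‖ :=
    Finset.sum_congr rfl fun k _ => by rw [← hv1 k]
  have h5 : δ ≤ ∑ k, ‖eval (Sum.elim x v : Ph N → ℂ) (A k)‖ := hδ' (x, v) hq
  have h6 : ∑ k, ‖eval (Sum.elim x v : Ph N → ℂ) (A k)‖ ≤ C := by
    have h7 := hC (x, v) hq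
    rw [Real.norm_eq_abs] at h7
    exact (le_abs_self _).trans h7
  refine ⟨fun k => ?_, ?_⟩
  · calc ‖(θ k).toFun x v‖ ≤ ∑ k, ‖(θ k).toFun x v‖ := Finset.single_le_sum (f := fun k => ‖(θ k).toFun x v‖) (fun k _ => norm_nonneg _) (Finset.mem_univ k)
      _ ≤ C := by
        rw [h1]
        exact h6
      _ ≤ max C 1 := le_max_left _ _
  · rw [h1]
    exact h5

theorem theta_bd (hP : Homog P) (hθ : Polar θ) (hm : ∀ k, 1 ≤ m k) : ∃ c > 0, ∃ C > 0, ∀ x ∈ cone P, ∀ v ∈ conTan P x,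
    (∀ k, ‖(θ k).toFun x v‖ ≤ C * wl x v ^ m k) ∧ (v ∉ Submodule.span ℂ {x} → ∃ k, c * wl x v ^ m k ≤ ‖(θ k).toFun x v‖) := by
  classical
  choose δ hδ C hC hb using fun a => bd_one (P := P) hθ a
  obtain ⟨a₀, -, ha₀⟩ := Finset.exists_min_image (Finset.univ : Finset (Fin (N + 1))) δ Finset.univ_nonempty
  obtain ⟨a₁, -, ha₁⟩ := Finset.exists_max_image (Finset.univ : Finset (Fin (N + 1))) C Finset.univ_nonempty
  have hJ : (0 : ℝ) < J + 1 := by positivity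
  refine ⟨δ a₀ / ((J + 1) * 2 ^ (∑ k, m k)), by have := hδ a₀; positivity, C a₁, hC a₁, fun x hx v hv => ?_⟩
  -- the coordinate of maximal absolute value
  obtain ⟨a, ha⟩ : ∃ a, ‖x a‖ = ‖x‖ := by
    obtain ⟨a, -, ha⟩ := Finset.exists_max_image (Finset.univ : Finset (Fin (N + 1))) (fun a => ‖x a‖) Finset.univ_nonempty
    refine ⟨a, le_antisymm (norm_le_pi_norm x a) ?_⟩
    exact (pi_norm_le_iff_of_nonneg (norm_nonneg _)).2 fun b => ha b (Finset.mem_univ _)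
  have hxn : ‖x‖ ≠ 0 := norm_ne_zero_iff.2 hx.1
  have hxa : x a ≠ 0 := norm_ne_zero_iff.1 (by rw [ha]; exact hxn)
  obtain ⟨c, hc⟩ : ∃ c : ℂ, c = (x a)⁻¹ := ⟨_, rfl⟩
  have hc0 : c ≠ 0 := by rw [hc]; exact inv_ne_zero hxa
  have hcn : ‖c‖ * ‖x‖ = 1 := by rw [hc, norm_inv, ha, inv_mul_cancel₀ hxn]
  obtain ⟨x', hx'⟩ : ∃ x' : Fin (N + 1) → ℂ, x' = c • x := ⟨_, rfl⟩
  have hx'n : ‖x'‖ = 1 := by rw [hx', norm_smul, hcn]
  have hx'a : x' a = 1 := by rw [hx', Pi.smul_apply, smul_eq_mul, hc, inv_mul_cancel₀ hxa]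
  have hx'c : x' ∈ cone P := by rw [hx']; exact Pool.Agent.AD.G.cone_smulC hP hx hc0
  have hx't : x' ∈ conTan P x' := Pool.Agent.AD.G.self_mem_conTan hP hx'c
  have hcv : c • v ∈ conTan P x' := by rw [hx']; exact Pool.Agent.AD.G.conTan_smulC hP hv c
  obtain ⟨v', hv'⟩ : ∃ v' : Fin (N + 1) → ℂ, v' = c • v + (-((c • v) a)) • x' := ⟨_, rfl⟩
  have hv't : v' ∈ conTan P x' := by
    rw [hv']
    exact (conTan P x').add_mem hcv ((conTan P x').smul_mem _ hx't)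
  have hv'a : v' a = 0 := by
    rw [hv', Pi.add_apply, Pi.smul_apply (-((c • v) a)) x', hx'a, smul_eq_mul, mul_one, add_neg_cancel]
  have h1 : ∀ k, (θ k).toFun x v = (θ k).toFun x' v' := fun k => by
    rw [hv', (θ k).add_smul x' hx'c (c • v) hcv, hx', (θ k).scale x hx v hv c hc0]
  have h2 : wl x v = wl x' v' := by
    rw [hv', wl_add_smul, hx', wl_smul hc0]
  have h3 : ‖v'‖ ≤ wl x' v' := norm_le_wl hx'n hx'a hv'a
  have h4 : wl x' v' ≤ 2 * ‖v'‖ := wl_le hx'n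
  by_cases h0 : v' = 0
  · have h5 : wl x v = 0 := by
      rw [h2]
      refine le_antisymm ?_ (wl_nonneg _ _)
      rw [h0, norm_zero, mul_zero] at h4
      rw [h0]
      exact h4
    refine ⟨fun k => ?_, fun hns => ?_⟩
    · have h6 : (θ k).toFun x' v' = 0 := by
        have h7 := (θ k).smul x' hx'c v' hv't 0
        rw [zero_smul, zero_pow (by have := hm k; omega), zero_mul] at h7
        rw [h0]
        exact h7
      rw [h1, h6, norm_zero]
      exact mul_nonneg (hC a₁).le (pow_nonneg (wl_nonneg _ _) _)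
    · exfalso
      apply hns
      rw [Submodule.mem_span_singleton]
      refine ⟨(c • v) a, ?_⟩
      have h8 : c • v = ((c • v) a) • (c • x) := by
        have h9 : c • v + (-((c • v) a)) • x' = 0 := hv'.symm.trans h0
        rw [neg_smul, add_neg_eq_zero, hx'] at h9
        exact h9
      have h10 : c • v = c • (((c • v) a) • x) := by
        conv_lhs => rw [h8]
        rw [smul_comm]
      exact (smul_right_injective _ hc0 h10).symm
  · have hn0 : ‖v'‖ ≠ 0 := norm_ne_zero_iff.2 h0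
    obtain ⟨u, hu⟩ : ∃ u : Fin (N + 1) → ℂ, u = ((‖v'‖⁻¹ : ℝ) : ℂ) • v' := ⟨_, rfl⟩
    have hun : ‖u‖ = 1 := by
      rw [hu, norm_smul, Complex.norm_real, norm_inv, norm_norm, inv_mul_cancel₀ hn0]
    have hut : u ∈ conTan P x' := by
      rw [hu]
      exact (conTan P x').smul_mem _ hv't
    have hua : u a = 0 := by rw [hu, Pi.smul_apply, hv'a, smul_zero]
    have hvu : v' = ((‖v'‖ : ℝ) : ℂ) • u := by
      rw [hu, smul_smul, ← Complex.ofReal_mul, mul_inv_cancel₀ hn0, Complex.ofReal_one, one_smul]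
    have hnorm : ∀ k, ‖(θ k).toFun x v‖ = ‖v'‖ ^ m k * ‖(θ k).toFun x' u‖ := fun k => by
      rw [h1 k]
      conv_lhs => rw [hvu]
      rw [(θ k).smul x' hx'c u hut, norm_mul, norm_pow, Complex.norm_real, norm_norm]
    obtain ⟨hb1, hb2⟩ := hb a x' hx'c u hut hx'a hua hx'n.le hun
    have hw0 : 0 ≤ ‖v'‖ := norm_nonneg _
    refine ⟨fun k => ?_, fun _ => ?_⟩
    · rw [hnorm k, h2, mul_comm (C a₁)]
      exact mul_le_mul (pow_le_pow_left₀ hw0 h3 _) ((hb1 k).trans (ha₁ a (Finset.mem_univ _))) (norm_nonneg _) (pow_nonneg (wl_nonneg _ _) _)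
    · obtain ⟨k, hk⟩ : ∃ k, δ a₀ / (J + 1) ≤ ‖(θ k).toFun x' u‖ := by
        by_contra hcon
        push Not at hcon
        have h5 : ∑ k, ‖(θ k).toFun x' u‖ ≤ ∑ _k : Fin J, δ a₀ / (J + 1) := Finset.sum_le_sum fun k _ => (hcon k).le
        rw [Finset.sum_const, Finset.card_univ, Fintype.card_fin, nsmul_eq_mul] at h5
        have h6 : (J : ℝ) * (δ a₀ / (J + 1)) < δ a₀ := by
          rw [mul_div_assoc', div_lt_iff₀ hJ]
          have := hδ a₀
          nlinarith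
        have h7 := ha₀ a (Finset.mem_univ _)
        linarith
      refine ⟨k, ?_⟩
      rw [hnorm k, h2]
      have h5 : wl x' v' ^ m k ≤ 2 ^ (∑ k, m k) * ‖v'‖ ^ m k := by
        calc wl x' v' ^ m k ≤ (2 * ‖v'‖) ^ m k := pow_le_pow_left₀ (wl_nonneg _ _) h4 _
          _ = 2 ^ m k * ‖v'‖ ^ m k := mul_pow _ _ _
          _ ≤ 2 ^ (∑ k, m k) * ‖v'‖ ^ m k := by
            refine mul_le_mul_of_nonneg_right ?_ (pow_nonneg hw0 _)
            exact pow_le_pow_right₀ one_le_two (Finset.single_le_sum (f := m) (fun k _ => Nat.zero_le _) (Finset.mem_univ k))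
      have h6 : 0 < (2 : ℝ) ^ (∑ k, m k) := by positivity
      calc δ a₀ / ((J + 1) * 2 ^ (∑ k, m k)) * wl x' v' ^ m k ≤ δ a₀ / ((J + 1) * 2 ^ (∑ k, m k)) * (2 ^ (∑ k, m k) * ‖v'‖ ^ m k) :=
            mul_le_mul_of_nonneg_left h5 (by have := hδ a₀; positivity)
        _ = ‖v'‖ ^ m k * (δ a₀ / (J + 1)) := by
            field_simp
        _ ≤ ‖v'‖ ^ m k * ‖(θ k).toFun x' u‖ := mul_le_mul_of_nonneg_left hk (pow_nonneg hw0 _)

end Pool.Agent.GA
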