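import Pool.Agent.GA.Defs
import Pool.Agent.GA.BasB
import Pool.Agent.GG.Kcpt

/-!
# GA Bas: the speed of a curve and the values of the symmetric differentials (helper92; `theta_bd` is in `BasB`)
-/

set_option autoImplicit false

open MvPolynomial Topology Filter Metric
open Pool.Agent.H13.SM (conTan cone Inv_hasFDerivAt_eval)
open Pool.Agent.H17 (PN VanishesAt)
open Pool.Agent.H62.FC (Homog)
open Pool.Agent.GG

namespace Pool.Agent.GA

variable {N : ℕ} {P : Ideal (MvPolynomial (Fin (N + 1)) ℂ)} {J : ℕ} {m : Fin J → ℕ} {θ : ∀ k, SymSec P (m k)} {F : ℂ → Fin (N + 1) → ℂ}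

theorem isOpen_HP : IsOpen HP := isOpen_lt continuous_const Complex.continuous_re

theorem HCurve.deriv_mem (hF : HCurve P F) {w : ℂ} (hw : w ∈ HP) : deriv F w ∈ conTan P (F w) := by
  intro Q hQ
  have h1 : HasDerivAt ((fun y : Fin (N + 1) → ℂ => eval y Q) ∘ F) _ w :=
    (Inv_hasFDerivAt_eval Q (F w)).comp_hasDerivAt w (hF.an w hw).differentiableAt.hasDerivAt
  have h2 : HasDerivAt ((fun y : Fin (N + 1) → ℂ => eval y Q) ∘ F) (0 : ℂ) w := by
    refine (hasDerivAt_const w (0 : ℂ)).congr_of_eventuallyEq ?_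
    filter_upwards [isOpen_HP.mem_nhds hw] with z hz
    exact (hF.cone z hz).2 Q hQ
  have h4 := h1.unique h2
  simp only [sum_apply, FunLike.coe_smul, Pi.smul_apply, ContinuousLinearMap.proj_apply, smul_eq_mul] at h4
  rw [← h4]
  exact Finset.sum_congr rfl fun i _ => mul_comm _ _

theorem HCurve.deriv_add_per (hF : HCurve P F) {w : ℂ} (hw : w ∈ HP) : deriv F (w + per) = deriv F w := by
  have h1 : (fun z => F (z + per)) =ᶠ[𝓝 w] F := by
    filter_upwards [isOpen_HP.mem_nhds hw] with z hz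
    exact hF.periodic z hz
  rw [← h1.deriv_eq, deriv_comp_add_const]

theorem HCurve.speed (hF : HCurve P F) : Speed (sp F) := by
  have hd : ∀ w ∈ HP, ContinuousAt (deriv F) w := fun w hw => (hF.an w hw).deriv.continuousAt
  refine ⟨fun w hw => ContinuousAt.continuousWithinAt ?_, fun w _ => by unfold sp wl; positivity, fun w hw => ?_⟩
  · have h1 : ContinuousAt (fun w => fun p : Fin (N + 1) × Fin (N + 1) => F w p.1 * deriv F w p.2 - F w p.2 * deriv F w p.1) w := by
      refine continuousAt_pi.2 fun p => ?_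
      have h2 : ∀ i, ContinuousAt (fun w => F w i) w := fun i => (continuousAt_pi.1 (hF.an w hw).continuousAt) i
      have h3 : ∀ i, ContinuousAt (fun w => deriv F w i) w := fun i => (continuousAt_pi.1 (hd w hw)) i
      exact ((h2 _).mul (h3 _)).sub ((h2 _).mul (h3 _))
    exact h1.norm.div ((hF.an w hw).continuousAt.norm.pow 2) (pow_ne_zero 2 (norm_ne_zero_iff.2 (hF.cone w hw).1))
  · unfold sp
    rw [hF.periodic w hw, hF.deriv_add_per hw]

theorem sth_an (hF : HCurve P F) (k : Fin J) {w : ℂ} (hw : w ∈ HP) : AnalyticAt ℂ (sth θ F k) w := by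
  obtain ⟨b, hb⟩ : ∃ b, F w b ≠ 0 := by
    by_contra h
    push Not at h
    exact (hF.cone w hw).1 (funext h)
  obtain ⟨e, A, hA⟩ := (θ k).regular b
  have hFb : AnalyticAt ℂ (fun z => F z b) w := (analyticAt_pi_iff.1 (hF.an w hw)) b
  have h3 : AnalyticAt ℂ (fun z => aeval (Sum.elim (F z) (deriv F z)) A) w := by
    refine AnalyticAt.aeval_mvPolynomial (fun i => ?_) A
    cases i with
    | inl i => exact (analyticAt_pi_iff.1 (hF.an w hw)) i
    | inr i => exact (analyticAt_pi_iff.1 (hF.an w hw).deriv) i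
  refine (h3.div (hFb.pow e) (pow_ne_zero e hb)).congr ?_
  filter_upwards [isOpen_HP.mem_nhds hw, hFb.continuousAt.eventually_ne hb] with z hz h6
  have h7 := hA (F z) (hF.cone z hz) (deriv F z) (hF.deriv_mem hz)
  show aeval _ A / F z b ^ e = _
  rw [div_eq_iff (pow_ne_zero e h6), mul_comm]
  unfold sth
  rw [h7]
  exact congrArg (fun φ : MvPolynomial (Fin (N + 1) ⊕ Fin (N + 1)) ℂ →+* ℂ => φ A) (coe_aeval_eq_eval _)

theorem sth_periodic (hF : HCurve P F) (k : Fin J) {w : ℂ} (hw : w ∈ HP) : sth θ F k (w + per) = sth θ F k w := by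
  unfold sth
  rw [hF.periodic w hw, hF.deriv_add_per hw]

end Pool.Agent.GA
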