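import Pool.Agent.GA.ADefs
import Pool.Agent.GA.Bas
import Pool.Agent.GA.Bnd
import Pool.Agent.GG.Chart
import Pool.Agent.GG.Bd

/-!
# GA AlphaD: the values `α_k` of the symmetric differentials on a variation satisfy `|A'| ≤ C sp |A|`

`M = ∏ m k`, `A_k = α_k ^ (M / m k)`.  At `w` with `sp F w ≠ 0`, in the chart `b` of a largest coordinate: `x = xb F b`, `v = x'`, `V = Vb F Z b`, `alpha_bound`: `|α_k'| ≤ C |v| |V| ^ m k`;
`theta_bd` for `(x, V)`: `|α_k| ≤ C |V| ^ m k` and `|V| ^ M ≤ C ‖A‖`; `|v| ≤ wl x v = sp F w`.  The zeros of `sp F` are isolated (identity theorem), so the rest follows by continuity.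
-/

set_option autoImplicit false

open MvPolynomial Topology Filter Metric
open Pool.Agent.H13.SM (conTan cone)
open Pool.Agent.H62.FC (Homog)
open Pool.Agent.GG

namespace Pool.Agent.GA

variable {N : ℕ} {P : Ideal (MvPolynomial (Fin (N + 1)) ℂ)} {J : ℕ} {m : Fin J → ℕ} {θ : ∀ k, SymSec P (m k)} {F : ℂ → Fin (N + 1) → ℂ}
  {Z : ℂ → Fin (N + 1) × Fin (N + 1) → ℂ}

/-- the linearised equations of `x_b = 1` and `Q_j (x) = 0` -/
theorem alphaD_tan (f : Frame θ) {b : Fin (N + 1)} {x v V U : Fin (N + 1) → ℂ} (hx : x ∈ cone P)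
    (h : ∀ l, ∑ s, eval (pt x v) (pderiv s (gfam f b l)) * pt V U s = 0) : V b = 0 ∧ V ∈ conTan P x := by
  classical
  constructor
  · have h1 := h (Sum.inl (Sum.inl ()))
    simpa [gfam, pderiv_X, Pi.single_apply, Fintype.sum_sum_type, pt] using h1
  · have h1 : ∀ j, ∑ c, V c * eval x (pderiv c (f.Q j)) = 0 := by
      intro j
      have h2 := h (Sum.inr (Sum.inl (Sum.inl j)))
      rw [Fintype.sum_sum_type] at h2
      have h3 : ∀ c : Fin (N + 1), eval (pt x v) (pderiv (Sum.inl c) (gfam f b (Sum.inr (Sum.inl (Sum.inl j))))) = eval x (pderiv c (f.Q j)) := by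
        intro c
        have h4 : gfam f b (Sum.inr (Sum.inl (Sum.inl j))) = rename Sum.inl (f.Q j) := rfl
        rw [h4, pderiv_rename Sum.inl_injective, eval_rename]
        rfl
      have h5 : ∀ c : Fin (N + 1), eval (pt x v) (pderiv (Sum.inr c) (gfam f b (Sum.inr (Sum.inl (Sum.inl j))))) = 0 := by
        intro c
        have h4 : gfam f b (Sum.inr (Sum.inl (Sum.inl j))) = rename Sum.inl (f.Q j) := rfl
        rw [h4, pderiv_inr_rename, map_zero]
      simp only [h3, h5, zero_mul, Finset.sum_const_zero, add_zero] at h2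
      rw [← h2]
      exact Finset.sum_congr rfl fun c _ => mul_comm _ _
    intro Q hQ
    rw [← f.span] at hQ
    induction hQ using Submodule.span_induction with
    | mem Q hQ =>
      obtain ⟨j, rfl⟩ := hQ
      exact h1 j
    | zero => simp
    | add Q R _ _ hQ hR =>
      simp only [map_add, mul_add, Finset.sum_add_distrib, hQ, hR, add_zero]
    | smul g Q hQm hQ =>
      have hQ0 : eval x Q = 0 := by
        apply hx.2
        rw [← f.span]
        exact hQm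
      simp only [smul_eq_mul, Derivation.leibniz, map_add, map_mul, hQ0, zero_mul, add_zero]
      rw [show (∑ i, V i * (eval x g * eval x (pderiv i Q))) = eval x g * ∑ i, V i * eval x (pderiv i Q) by
        rw [Finset.mul_sum]; exact Finset.sum_congr rfl fun b _ => by ring]
      rw [hQ, mul_zero]

/-- the speed in a chart -/
theorem alphaD_speed {w : ℂ} (hF : AnalyticAt ℂ F w) {b : Fin (N + 1)} (hb : F w b ≠ 0) : wl (xb F b w) (deriv (xb F b) w) = sp F w := by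
  have hFb : AnalyticAt ℂ (fun u => F u b) w := (analyticAt_pi_iff.mp hF) b
  obtain ⟨g, hg⟩ : ∃ g : ℂ → ℂ, g = fun u => (F u b)⁻¹ := ⟨_, rfl⟩
  have hga : AnalyticAt ℂ g w := by
    rw [hg]
    exact hFb.inv hb
  have hg0 : g w ≠ 0 := by
    rw [hg]
    exact inv_ne_zero hb
  have h1 : xb F b = fun u => g u • F u := by
    rw [hg]
    rfl
  have h2 : deriv (fun u => g u • F u) w = g w • deriv F w + deriv g w • F w := deriv_fun_smul hga.differentiableAt hF.differentiableAt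
  have h3 : g w • deriv F w + deriv g w • F w = g w • deriv F w + (deriv g w * (g w)⁻¹) • (g w • F w) := by
    rw [smul_smul, mul_assoc, inv_mul_cancel₀ hg0, mul_one]
  rw [h1, h2, h3, wl_add_smul, wl_smul hg0]
  rfl

/-- The data at a point with `sp F w ≠ 0`. -/
theorem alphaD_pt (hP : Homog P) (f : Frame θ) {w : ℂ} (hF : AnalyticAt ℂ F w) (hc : ∀ᶠ u in 𝓝 w, F u ∈ cone P) (hZ : IsVar f F Z w) {α : ℂ → Fin J → ℂ}
    (hα : ∀ᶠ u in 𝓝 w, ∀ b, F u b ≠ 0 → ∀ k, (θ k).toFun (xb F b u) (Vb F Z b u) = α u k) (hs : sp F w ≠ 0) :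
    ∃ (b : Fin (N + 1)) (x v V U : Fin (N + 1) → ℂ), InCh P b x v ∧ v ≠ 0 ∧ InCh P b x V ∧ (∀ l, ∑ s, eval (pt x v) (pderiv s (gfam f b l)) * pt V U s = 0) ∧
      wl x v = sp F w ∧ ∀ k, (θ k).toFun x V = α w k ∧ HasDerivAt (fun u => α u k) (∑ s, eval (pt x V) (pderiv s (f.A b k)) * pt v U s) w := by
  classical
  obtain ⟨b, -, hb⟩ := Finset.exists_max_image (Finset.univ : Finset (Fin (N + 1))) (fun b => ‖F w b‖) Finset.univ_nonempty
  have hcw := hc.self_of_nhds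
  have hb0 : F w b ≠ 0 := by
    intro h0
    apply hcw.1
    funext c
    have := hb c (Finset.mem_univ c)
    rw [h0, norm_zero] at this
    exact norm_le_zero_iff.mp this
  have hFb : AnalyticAt ℂ (fun u => F u b) w := (analyticAt_pi_iff.mp hF) b
  have hxa : AnalyticAt ℂ (xb F b) w := (hFb.inv hb0).smul hF
  have hne : ∀ᶠ u in 𝓝 w, F u b ≠ 0 := hFb.continuousAt.eventually_ne hb0
  have hxc : ∀ᶠ u in 𝓝 w, xb F b u ∈ cone P := by
    filter_upwards [hc, hne] with u hu hub using Pool.Agent.AD.G.cone_smulC hP hu (inv_ne_zero hub)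
  have hx1 : ∀ᶠ u in 𝓝 w, xb F b u b = 1 := by
    filter_upwards [hne] with u hu
    show (F u b)⁻¹ * F u b = 1
    exact inv_mul_cancel₀ hu
  have hVa : AnalyticAt ℂ (Vb F Z b) w := by
    rw [analyticAt_pi_iff]
    intro j
    exact AnalyticAt.div ((analyticAt_pi_iff.mp hZ.1) (b, j)) (hFb.pow 2) (pow_ne_zero 2 hb0)
  have hlin : ∀ᶠ u in 𝓝 w, ∀ l, ∑ s, eval (pt (xb F b u) (deriv (xb F b) u)) (pderiv s (gfam f b l)) * pt (Vb F Z b u) (deriv (Vb F Z b) u) s = 0 := by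
    filter_upwards [hZ.2, hne] with u hu hub using (hu b hub).2
  have hVt : ∀ᶠ u in 𝓝 w, Vb F Z b u b = 0 ∧ Vb F Z b u ∈ conTan P (xb F b u) := by
    filter_upwards [hlin, hxc] with u hu hux using alphaD_tan f hux hu
  have hle : ∀ c, ‖xb F b w c‖ ≤ 1 := by
    intro c
    show ‖(F w b)⁻¹ * F w c‖ ≤ 1
    rw [norm_mul, norm_inv, inv_mul_le_one₀ (norm_pos_iff.mpr hb0)]
    exact hb c (Finset.mem_univ c)
  have hvt : deriv (xb F b) w ∈ conTan P (xb F b w) := Chart_tan hxa.differentiableAt hxc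
  have hvb : deriv (xb F b) w b = 0 := by
    have h2 : HasDerivAt (fun u => xb F b u b) (deriv (xb F b) w b) w := (hasDerivAt_pi.mp hxa.differentiableAt.hasDerivAt) b
    have h3 : HasDerivAt (fun u => xb F b u b) 0 w := (hasDerivAt_const w (1 : ℂ)).congr_of_eventuallyEq hx1
    exact h2.unique h3
  have hsp : wl (xb F b w) (deriv (xb F b) w) = sp F w := alphaD_speed hF hb0
  have hv0 : deriv (xb F b) w ≠ 0 := by
    intro h0
    apply hs
    rw [← hsp, h0]
    simp [wl]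
  refine ⟨b, xb F b w, deriv (xb F b) w, Vb F Z b w, deriv (Vb F Z b) w, ⟨hxc.self_of_nhds, hx1.self_of_nhds, hle, hvt, hvb⟩, hv0,
    ⟨hxc.self_of_nhds, hx1.self_of_nhds, hle, hVt.self_of_nhds.2, hVt.self_of_nhds.1⟩, hlin.self_of_nhds, hsp, fun k => ⟨hα.self_of_nhds b hb0 k, ?_⟩⟩
  have hy : HasDerivAt (fun u => (pt (xb F b u) (Vb F Z b u) : Ph N → ℂ)) (pt (deriv (xb F b) w) (deriv (Vb F Z b) w)) w := by
    rw [hasDerivAt_pi]
    rintro (c | c)
    · exact (hasDerivAt_pi.mp hxa.differentiableAt.hasDerivAt) c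
    · exact (hasDerivAt_pi.mp hVa.differentiableAt.hasDerivAt) c
  have h1 := Chart_hasDerivAt (f.A b k) hy
  have h2 : (∑ i, pt (deriv (xb F b) w) (deriv (Vb F Z b) w) i * eval (pt (xb F b w) (Vb F Z b w)) (pderiv i (f.A b k))) =
      ∑ s, eval (pt (xb F b w) (Vb F Z b w)) (pderiv s (f.A b k)) * pt (deriv (xb F b) w) (deriv (Vb F Z b) w) s :=
    Finset.sum_congr rfl fun s _ => mul_comm _ _
  rw [h2] at h1
  refine h1.congr_of_eventuallyEq ?_
  filter_upwards [hα, hne, hxc, hx1, hVt] with u hu hub hux hu1 huV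
  rw [← hu b hub k]
  exact f.hA b k _ hux hu1 _ huV.2

/-- the estimate at a point -/
private theorem alphaD_est (hm : ∀ k, 1 ≤ m k) {c C C₁ : ℝ} (hc : 0 < c) (hc1 : c ≤ 1) (hC : 1 ≤ C) (hC₁ : 0 ≤ C₁) {b : Fin (N + 1)} {x v V : Fin (N + 1) → ℂ}
    (hV : InCh P b x V) (hbd : (∀ k, ‖(θ k).toFun x V‖ ≤ C * wl x V ^ m k) ∧ (V ∉ Submodule.span ℂ {x} → ∃ k, c * wl x V ^ m k ≤ ‖(θ k).toFun x V‖))
    {α : ℂ → Fin J → ℂ} {α' : Fin J → ℂ} {w : ℂ} (hα : ∀ k, (θ k).toFun x V = α w k) (hα' : ∀ k, HasDerivAt (fun u => α u k) (α' k) w)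
    (h1 : ∀ k, ‖α' k‖ ≤ C₁ * ‖v‖ * ‖V‖ ^ m k) :
    ‖deriv (fun w k => α w k ^ ((∏ i, m i) / m k)) w‖ ≤ (∏ i, m i : ℕ) * C ^ (∏ i, m i) * 2 ^ (∏ i, m i) * C₁ * (c ^ (∏ i, m i))⁻¹ * ‖v‖ *
      ‖fun k => α w k ^ ((∏ i, m i) / m k)‖ := by
  classical
  obtain ⟨M, hM⟩ : ∃ M, M = ∏ i, m i := ⟨_, rfl⟩
  rw [← hM]
  have hM1 : 1 ≤ M := by
    have h : 0 < ∏ i, m i := Finset.prod_pos fun i _ => hm i
    rw [hM]
    exact h
  have hE : ∀ k, m k * (M / m k) = M := fun k => Nat.mul_div_cancel' (by rw [hM]; exact Finset.dvd_prod_of_mem m (Finset.mem_univ k))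
  have hE1 : ∀ k, 1 ≤ M / m k := by
    intro k
    rcases Nat.eq_zero_or_pos (M / m k) with h | h
    · have := hE k
      rw [h, mul_zero] at this
      omega
    · exact h
  have hEM : ∀ k, M / m k ≤ M := fun k => Nat.div_le_self _ _
  have hwl := wl_chart hV
  -- the lower bound
  have hlow : c ^ M * ‖V‖ ^ M ≤ ‖fun k => α w k ^ (M / m k)‖ := by
    by_cases hV0 : V = 0
    · rw [hV0, norm_zero, zero_pow (by omega), mul_zero]
      exact norm_nonneg _
    · have hVx : V ∉ Submodule.span ℂ {x} := by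
        intro h
        obtain ⟨s, hs⟩ := Submodule.mem_span_singleton.mp h
        have h2 := congrFun hs b
        rw [Pi.smul_apply, hV.2.1, hV.2.2.2.2, smul_eq_mul, mul_one] at h2
        apply hV0
        rw [← hs, h2, zero_smul]
      obtain ⟨k, hk⟩ := hbd.2 hVx
      refine le_trans ?_ (norm_le_pi_norm (fun k => α w k ^ (M / m k)) k)
      rw [norm_pow, ← hα k]
      calc c ^ M * ‖V‖ ^ M ≤ c ^ (M / m k) * wl x V ^ M :=
            mul_le_mul (pow_le_pow_of_le_one hc.le hc1 (hEM k)) (pow_le_pow_left₀ (norm_nonneg _) hwl.1 _) (by positivity) (by positivity)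
        _ = (c * wl x V ^ m k) ^ (M / m k) := by rw [mul_pow, ← pow_mul, hE k]
        _ ≤ _ := pow_le_pow_left₀ (mul_nonneg hc.le (pow_nonneg (wl_nonneg _ _) _)) hk _
  -- the upper bound
  have hup : ∀ k, ‖deriv (fun u => α u k ^ (M / m k)) w‖ ≤ M * C ^ M * 2 ^ M * C₁ * ‖v‖ * ‖V‖ ^ M := by
    intro k
    obtain ⟨e, he⟩ : ∃ e, M / m k = e + 1 := ⟨M / m k - 1, by have := hE1 k; omega⟩
    have h2 : deriv (fun u => α u k ^ (M / m k)) w = ((e + 1 : ℕ) : ℂ) * α w k ^ e * α' k := by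
      rw [he]
      have := ((hα' k).fun_pow (e + 1)).deriv
      simpa using this
    have h3 : ‖α w k‖ ≤ C * (2 * ‖V‖) ^ m k := by
      rw [← hα k]
      exact (hbd.1 k).trans (mul_le_mul_of_nonneg_left (pow_le_pow_left₀ (wl_nonneg _ _) hwl.2 _) (by linarith))
    have h4 : ‖α w k‖ ^ e ≤ C ^ M * 2 ^ M * ‖V‖ ^ (m k * e) := by
      have h5 : m k * e ≤ M := by
        have := hE k
        rw [he] at this
        rw [← this]
        exact Nat.mul_le_mul_left _ (Nat.le_succ e)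
      have h6 : e ≤ M := by
        have := hEM k
        omega
      calc ‖α w k‖ ^ e ≤ (C * (2 * ‖V‖) ^ m k) ^ e := pow_le_pow_left₀ (norm_nonneg _) h3 _
        _ = C ^ e * (2 ^ (m k * e) * ‖V‖ ^ (m k * e)) := by rw [mul_pow, ← pow_mul, mul_pow]
        _ ≤ C ^ M * (2 ^ M * ‖V‖ ^ (m k * e)) :=
            mul_le_mul (pow_le_pow_right₀ hC h6) (mul_le_mul_of_nonneg_right (pow_le_pow_right₀ (by norm_num) h5) (by positivity)) (by positivity) (by positivity)
        _ = _ := by ring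
    rw [h2, norm_mul, norm_mul, norm_pow, Complex.norm_natCast]
    have h7 : ((e + 1 : ℕ) : ℝ) ≤ M := by
      rw [← he]
      exact_mod_cast hEM k
    calc ((e + 1 : ℕ) : ℝ) * ‖α w k‖ ^ e * ‖α' k‖ ≤ M * (C ^ M * 2 ^ M * ‖V‖ ^ (m k * e)) * (C₁ * ‖v‖ * ‖V‖ ^ m k) :=
          mul_le_mul (mul_le_mul h7 h4 (by positivity) (by positivity)) (h1 k) (norm_nonneg _) (by positivity)
      _ = M * C ^ M * 2 ^ M * C₁ * ‖v‖ * ‖V‖ ^ (m k * e + m k) := by
          rw [pow_add]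
          ring
      _ = _ := by
          have h8 : m k * e + m k = M := by
            have := hE k
            rw [he] at this
            rw [← this]
            ring
          rw [h8]
  have hd : deriv (fun w k => α w k ^ (M / m k)) w = fun k => deriv (fun u => α u k ^ (M / m k)) w := by
    rw [deriv_pi]
    intro k
    exact ((hα' k).fun_pow _).differentiableAt
  rw [hd]
  refine (pi_norm_le_iff_of_nonneg (by positivity)).2 fun k => (hup k).trans ?_
  have h9 : ‖V‖ ^ M ≤ (c ^ M)⁻¹ * ‖fun k => α w k ^ (M / m k)‖ := by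
    rw [inv_mul_eq_div, le_div_iff₀ (by positivity), mul_comm]
    exact hlow
  calc M * C ^ M * 2 ^ M * C₁ * ‖v‖ * ‖V‖ ^ M ≤ M * C ^ M * 2 ^ M * C₁ * ‖v‖ * ((c ^ M)⁻¹ * ‖fun k => α w k ^ (M / m k)‖) :=
        mul_le_mul_of_nonneg_left h9 (by positivity)
    _ = _ := by ring

/-- the zeros of the speed are isolated -/
theorem alphaD_freq {U : Set ℂ} (hF : IsCurve P F U) {w : ℂ} (hw : w ∈ U) : ∃ᶠ u in 𝓝 w, sp F u ≠ 0 := by
  intro h
  have h1 : ∀ i j : Fin (N + 1), ∀ u ∈ U, F u i * deriv F u j - F u j * deriv F u i = 0 := by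
    intro i j
    have han : AnalyticOnNhd ℂ (fun u => F u i * deriv F u j - F u j * deriv F u i) U := by
      intro u hu
      have h2 := analyticAt_pi_iff.mp (hF.an u hu)
      have h3 := analyticAt_pi_iff.mp (hF.an u hu).deriv
      exact ((h2 i).mul (h3 j)).sub ((h2 j).mul (h3 i))
    have h4 := han.eqOn_zero_of_preconnected_of_eventuallyEq_zero hF.conn hw ?_
    · exact fun u hu => h4 hu
    · filter_upwards [h, hF.isOpen.mem_nhds hw] with u hu huU
      have h5 : sp F u = 0 := not_not.1 hu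
      have h6 : ‖F u‖ ≠ 0 := norm_ne_zero_iff.2 (hF.mem u huU).1
      rw [sp, wl, div_eq_zero_iff] at h5
      rcases h5 with h5 | h5
      · exact congrFun (norm_eq_zero.1 h5) (i, j)
      · exact absurd h5 (pow_ne_zero 2 h6)
  obtain ⟨u, hu, hu'⟩ := hF.ne
  apply hu'
  have h2 := (hF.mem u hu).1
  obtain ⟨i, hi⟩ : ∃ i, F u i ≠ 0 := by
    by_contra h3
    push Not at h3
    exact h2 (funext h3)
  rw [Submodule.mem_span_singleton]
  refine ⟨deriv F u i / F u i, ?_⟩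
  funext j
  rw [Pi.smul_apply, smul_eq_mul]
  have h3 := h1 i j u hu
  field_simp
  linear_combination -h3

theorem alpha_deriv (hP : Homog P) (hθ : Polar θ) (hm : ∀ k, 1 ≤ m k) (f : Frame θ) (hf : HomFr f) : ∃ C : ℝ, ∀ (U : Set ℂ) (F : ℂ → Fin (N + 1) → ℂ)
    (Z : ℂ → Fin (N + 1) × Fin (N + 1) → ℂ) (α : ℂ → Fin J → ℂ), IsCurve P F U → (∀ w ∈ U, IsVar f F Z w) → (∀ w ∈ U, AnalyticAt ℂ α w) →
    (∀ w ∈ U, ∀ b, F w b ≠ 0 → ∀ k, (θ k).toFun (xb F b w) (Vb F Z b w) = α w k) →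
    ∀ w ∈ U, ‖deriv (fun w k => α w k ^ ((∏ i, m i) / m k)) w‖ ≤ C * sp F w * ‖fun k => α w k ^ ((∏ i, m i) / m k)‖ := by
  classical
  obtain ⟨c, hc, C, hC, hbd⟩ := theta_bd hP hθ hm
  obtain ⟨C₁, hC₁⟩ := alpha_bound hθ hm f hf
  obtain ⟨K, hK⟩ : ∃ K : ℝ, K = (∏ i, m i : ℕ) * (max C 1) ^ (∏ i, m i) * 2 ^ (∏ i, m i) * |C₁| * ((min c 1) ^ (∏ i, m i))⁻¹ := ⟨_, rfl⟩
  have hc' : 0 < min c 1 := lt_min hc one_pos
  have hC' : 1 ≤ max C 1 := le_max_right _ _
  have hK0 : 0 ≤ K := by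
    rw [hK]
    positivity
  refine ⟨K, fun U F Z α hF hZ hα hθα w hw => ?_⟩
  -- the points with `sp F ≠ 0`
  have hmain : ∀ u ∈ U, sp F u ≠ 0 → ‖deriv (fun w k => α w k ^ ((∏ i, m i) / m k)) u‖ ≤ K * sp F u * ‖fun k => α u k ^ ((∏ i, m i) / m k)‖ := by
    intro u hu hs
    have hUn := hF.isOpen.mem_nhds hu
    obtain ⟨b, x, v, V, Y, hv, hv0, hV, hlin, hsp, hk⟩ := alphaD_pt hP f (hF.an u hu) (by filter_upwards [hUn] with s hs using hF.mem s hs) (hZ u hu)
      (α := α) (by filter_upwards [hUn] with s hs using hθα s hs) hs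
    have h1 := hC₁ b x v V Y hv hv0 hV.2.2.2.1 hV.2.2.2.2 hlin
    have h2 := hbd x hv.1 V hV.2.2.2.1
    have h3 : (∀ k, ‖(θ k).toFun x V‖ ≤ max C 1 * wl x V ^ m k) ∧ (V ∉ Submodule.span ℂ {x} → ∃ k, min c 1 * wl x V ^ m k ≤ ‖(θ k).toFun x V‖) := by
      refine ⟨fun k => (h2.1 k).trans (mul_le_mul_of_nonneg_right (le_max_left _ _) (pow_nonneg (wl_nonneg _ _) _)), fun h => ?_⟩
      obtain ⟨k, hk⟩ := h2.2 h
      exact ⟨k, (mul_le_mul_of_nonneg_right (min_le_left _ _) (pow_nonneg (wl_nonneg _ _) _)).trans hk⟩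
    have h4 := alphaD_est (v := v) hm hc' (min_le_right _ _) hC' (abs_nonneg C₁) hV h3 (fun k => (hk k).1) (fun k => (hk k).2) (fun k => (h1 k).trans (by
      have := le_abs_self C₁
      gcongr))
    rw [← hK] at h4
    refine h4.trans ?_
    have h5 : ‖v‖ ≤ sp F u := by
      rw [← hsp]
      exact (wl_chart hv).1
    gcongr
  by_cases hs : sp F w ≠ 0
  · exact hmain w hw hs
  · have hfr := (alphaD_freq hF hw).and_eventually (hF.isOpen.mem_nhds hw)
    have hA : AnalyticAt ℂ (fun w k => α w k ^ ((∏ i, m i) / m k)) w := by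
      rw [analyticAt_pi_iff]
      intro k
      exact ((analyticAt_pi_iff.mp (hα w hw)) k).pow _
    have hspc : ContinuousAt (sp F) w := by
      have h1 := (hF.an w hw).continuousAt
      have h2 := (hF.an w hw).deriv.continuousAt
      have h3 : ‖F w‖ ≠ 0 := norm_ne_zero_iff.2 (hF.mem w hw).1
      have h1' := continuousAt_pi.1 h1
      have h2' := continuousAt_pi.1 h2
      show ContinuousAt (fun u => ‖fun p : Fin (N + 1) × Fin (N + 1) => F u p.1 * deriv F u p.2 - F u p.2 * deriv F u p.1‖ / ‖F u‖ ^ 2) w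
      refine ContinuousAt.div (ContinuousAt.norm ?_) (h1.norm.pow 2) (pow_ne_zero 2 h3)
      rw [continuousAt_pi]
      intro p
      exact ((h1' p.1).mul (h2' p.2)).sub ((h1' p.2).mul (h2' p.1))
    have hcont : ContinuousAt (fun u => ‖deriv (fun w k => α w k ^ ((∏ i, m i) / m k)) u‖ - K * sp F u * ‖fun k => α u k ^ ((∏ i, m i) / m k)‖) w :=
      hA.deriv.continuousAt.norm.sub ((hspc.const_mul K).mul hA.continuousAt.norm)
    have h1 := le_of_tendsto_of_frequently (b := (0 : ℝ)) hcont.tendsto (hfr.mono fun u hu => sub_nonpos.2 (hmain u hu.2 hu.1))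
    exact sub_nonpos.1 h1

end Pool.Agent.GA
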