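import Pool.Agent.GA.EndC
import Pool.Agent.GG.Row

/-!
# GA ArcF: the final criterion in a chart
-/

set_option autoImplicit false

open MvPolynomial Topology Filter Metric
open Pool.Agent.H13.SM (conTan cone)
open Pool.Agent.GG

namespace Pool.Agent.GA

variable {N : ℕ} {P : Ideal (MvPolynomial (Fin (N + 1)) ℂ)} {J : ℕ} {m : Fin J → ℕ} {θ : ∀ k, SymSec P (m k)} {U : Set ℂ} {OO : Subalgebra ℂ (ℂ → ℂ)}

theorem ArcF.evO_map (x : ℂ → Fin (N + 1) → ℂ) (Q : MvPolynomial (Fin (N + 1)) ℂ) (w : ℂ) : evO OO x (map (algebraMap ℂ OO) Q) w = eval (x w) Q := by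
  unfold evO
  rw [eval₂_map]
  have h1 : (ev0 OO w).comp (algebraMap ℂ OO) = RingHom.id ℂ := by
    ext c
    rfl
  rw [h1]
  rfl

/-- the linearised equation of a polynomial which vanishes along `x` -/
theorem ArcF.lin {x V : ℂ → Fin (N + 1) → ℂ} {w₁ : ℂ} (hR : RelX OO x V w₁) (Q : MvPolynomial (Fin (N + 1)) ℂ) (hQ : ∀ᶠ w in 𝓝 w₁, eval (x w) Q = 0) :
    ∀ᶠ w in 𝓝 w₁, ∑ b, eval (x w) (pderiv b Q) * V w b = 0 := by
  have h1 := hR (map (algebraMap ℂ OO) Q) (by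
    filter_upwards [hQ] with w hw
    rw [ArcF.evO_map]
    exact hw)
  filter_upwards [h1] with w hw
  rw [← hw]
  refine Finset.sum_congr rfl fun b _ => ?_
  rw [pderiv_map, ArcF.evO_map]

/-- the tangent space is given by the generators -/
theorem ArcF.mem_conTan (f : Frame θ) {x v : Fin (N + 1) → ℂ} (hx : x ∈ cone P) (h : ∀ j, ∑ b, eval x (pderiv b (f.Q j)) * v b = 0) : v ∈ conTan P x := by
  intro Q hQ
  rw [← f.span] at hQ
  induction hQ using Submodule.span_induction with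
  | mem Q hQ =>
    obtain ⟨j, rfl⟩ := hQ
    rw [← h j]
    exact Finset.sum_congr rfl fun b _ => mul_comm _ _
  | zero => simp
  | add Q R _ _ hQ hR =>
    simp only [map_add, mul_add, Finset.sum_add_distrib, hQ, hR, add_zero]
  | smul g Q hQm hQ =>
    have hQ0 : eval x Q = 0 := by
      apply hx.2
      rw [← f.span]
      exact hQm
    simp only [smul_eq_mul, Derivation.leibniz, map_add, map_mul, hQ0, zero_mul, add_zero]
    rw [show (∑ i, v i * (eval x g * eval x (pderiv i Q))) = eval x g * ∑ i, v i * eval x (pderiv i Q) by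
      rw [Finset.mul_sum]; exact Finset.sum_congr rfl fun b _ => by ring]
    rw [hQ, mul_zero]

/-- MODULE ArcF: the final criterion in a chart -/
theorem crit_point (hθ : Polar θ) (f : Frame θ) (hO : IsSmallRing OO U) {a : Fin (N + 1)} {x V : ℂ → Fin (N + 1) → ℂ} {w₁ : ℂ} (hw : w₁ ∈ U)
    (hx : AnalyticAt ℂ x w₁) (hV : AnalyticAt ℂ V w₁) (hxc : ∀ᶠ w in 𝓝 w₁, x w ∈ cone P ∧ x w a = 1) (hR : RelX OO x V w₁)
    (hα : ∀ k, ∃ g ∈ OO, ∀ᶠ w in 𝓝 w₁, (θ k).toFun (x w) (V w) = g w) (h0 : V w₁ ≠ 0) :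
    ∃ (I : Fin (N + 1) → (Unit ⊕ Unit) ⊕ (Fin f.q ⊕ Fin f.q) ⊕ Fin J) (c : Fin J → ℂ), IsTan θ a c (x w₁) (V w₁) ∧
      Crit (gfam f a) I (pt (x w₁) (V w₁)) := by
  -- `Q_j (x) = 0`
  have hQ0 : ∀ j, ∀ᶠ w in 𝓝 w₁, eval (x w) (f.Q j) = 0 := by
    intro j
    have hj : f.Q j ∈ P := by
      have h1 : f.Q j ∈ Ideal.span (Set.range f.Q) := Ideal.subset_span ⟨j, rfl⟩
      exact f.span.le h1
    filter_upwards [hxc] with w hw
    exact hw.1.2 _ hj
  have hQ1 : ∀ j, ∀ᶠ w in 𝓝 w₁, ∑ b, eval (x w) (pderiv b (f.Q j)) * V w b = 0 := fun j => ArcF.lin hR _ (hQ0 j)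
  have hQ2 : ∀ᶠ w in 𝓝 w₁, ∀ j, ∑ b, eval (x w) (pderiv b (f.Q j)) * V w b = 0 := eventually_all.2 hQ1
  have hT : ∀ᶠ w in 𝓝 w₁, V w ∈ conTan P (x w) := by
    filter_upwards [hQ2, hxc] with w h1 h2
    exact ArcF.mem_conTan f h2.1 h1
  have hVa : ∀ᶠ w in 𝓝 w₁, V w a = 0 := by
    have h1 := ArcF.lin hR (X a - C 1) (by
      filter_upwards [hxc] with w hw
      rw [map_sub, eval_X, eval_C, hw.2, sub_self])
    filter_upwards [h1] with w hw
    classical
    simp only [map_sub, pderiv_C, sub_zero, pderiv_X] at hw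
    rw [← hw, Finset.sum_eq_single a]
    · simp
    · intro b _ hb
      simp [Ne.symm hb]
    · intro h
      exact absurd (Finset.mem_univ a) h
  have htan : IsTan θ a (fun k => (θ k).toFun (x w₁) (V w₁)) (x w₁) (V w₁) :=
    ⟨hxc.self_of_nhds.1, hxc.self_of_nhds.2, hT.self_of_nhds, hVa.self_of_nhds, fun k => rfl⟩
  obtain ⟨I, hI⟩ := exists_row hθ f htan h0
  refine ⟨I, _, htan, crit_of_rel hO (gfam f a) I hw hx hV hR ?_ hI⟩
  rintro ((⟨⟩ | ⟨⟩) | ((j | j) | k))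
  · refine ⟨1, OO.one_mem, ?_⟩
    filter_upwards [hxc] with w hw
    show eval (pt (x w) (V w)) (X (Sum.inl a)) = 1
    rw [eval_X]
    exact hw.2
  · refine ⟨0, OO.zero_mem, ?_⟩
    filter_upwards [hVa] with w hw
    show eval (pt (x w) (V w)) (X (Sum.inr a)) = 0
    rw [eval_X]
    exact hw
  · refine ⟨0, OO.zero_mem, ?_⟩
    filter_upwards [hQ0 j] with w hw
    show eval (pt (x w) (V w)) (rename Sum.inl (f.Q j)) = 0
    rw [eval_rename]
    exact hw
  · refine ⟨0, OO.zero_mem, ?_⟩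
    filter_upwards [hQ1 j] with w hw
    show eval (pt (x w) (V w)) (∑ b, rename Sum.inl (pderiv b (f.Q j)) * X (Sum.inr b)) = 0
    rw [map_sum, ← hw]
    refine Finset.sum_congr rfl fun b _ => ?_
    rw [map_mul, eval_rename, eval_X]
    rfl
  · obtain ⟨g, hg, hg'⟩ := hα k
    refine ⟨g, hg, ?_⟩
    filter_upwards [hg', hxc, hT] with w h1 h2 h3
    show eval (pt (x w) (V w)) (f.A a k) = g w
    rw [← f.hA a k (x w) h2.1 h2.2 (V w) h3]
    exact h1

end Pool.Agent.GA
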