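import Pool.Agent.GG.Defs

/-!
# GA BndA: the core of `alpha_bound`

A polynomial which is homogeneous of degree `n` in `v` is bounded by `C ‖v‖ ^ n` for `‖x c‖ ≤ 1`; the derivatives in `x` have the degree `n`, the derivatives in `v` the degree `n - 1`.
-/

set_option autoImplicit false

open MvPolynomial Topology Filter Metric
open Pool.Agent.H13.SM (conTan cone)
open Pool.Agent.GG

namespace Pool.Agent.GA

variable {N : ℕ} {P : Ideal (MvPolynomial (Fin (N + 1)) ℂ)} {J : ℕ} {m : Fin J → ℕ} {θ : ∀ k, SymSec P (m k)}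

/-- a polynomial, homogeneous of degree `n` in `v` -/
theorem eval_bound {A : MvPolynomial (Ph N) ℂ} {n : ℕ} (hA : IsWeightedHomogeneous (Sum.elim (fun _ => 0) (fun _ => 1) : Ph N → ℕ) A n) :
    ∃ C : ℝ, 0 ≤ C ∧ ∀ x V : Fin (N + 1) → ℂ, (∀ c, ‖x c‖ ≤ 1) → ‖eval (pt x V) A‖ ≤ C * ‖V‖ ^ n := by
  refine ⟨∑ d ∈ A.support, ‖coeff d A‖, Finset.sum_nonneg fun d _ => norm_nonneg _, fun x V hx => ?_⟩
  rw [eval_eq', Finset.sum_mul]
  refine (norm_sum_le _ _).trans (Finset.sum_le_sum fun d hd => ?_)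
  rw [norm_mul, norm_prod]
  refine mul_le_mul_of_nonneg_left ?_ (norm_nonneg _)
  have hdeg : ∑ c, d (Sum.inr c) = n := by
    have h := hA (mem_support_iff.1 hd)
    rw [Finsupp.weight_apply, Finsupp.sum_fintype _ _ (by simp), Fintype.sum_sum_type] at h
    simpa using h
  rw [Fintype.prod_sum_type, ← hdeg, ← Finset.prod_pow_eq_pow_sum]
  calc (∏ c, ‖pt x V (Sum.inl c) ^ d (Sum.inl c)‖) * ∏ c, ‖pt x V (Sum.inr c) ^ d (Sum.inr c)‖
      ≤ 1 * ∏ c, ‖V‖ ^ d (Sum.inr c) := by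
        refine mul_le_mul ?_ ?_ (Finset.prod_nonneg fun _ _ => norm_nonneg _) zero_le_one
        · refine Finset.prod_le_one (fun _ _ => norm_nonneg _) fun c _ => ?_
          rw [norm_pow]
          exact pow_le_one₀ (norm_nonneg _) (hx c)
        · refine Finset.prod_le_prod (fun _ _ => norm_nonneg _) fun c _ => ?_
          rw [norm_pow]
          exact pow_le_pow_left₀ (norm_nonneg _) (norm_le_pi_norm V c) _
    _ = ∏ c, ‖V‖ ^ d (Sum.inr c) := one_mul _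

/-- **The core of `alpha_bound`.** -/
theorem alpha_bound_core (hm : ∀ k, 1 ≤ m k) (f : Frame θ)
    (hf : ∀ a k, IsWeightedHomogeneous (Sum.elim (fun _ => 0) (fun _ => 1) : Ph N → ℕ) (f.A a k) (m k)) (C : ℝ) :
    ∃ C' : ℝ, ∀ (b : Fin (N + 1)) (x v V U : Fin (N + 1) → ℂ), (∀ c, ‖x c‖ ≤ 1) → ‖U‖ ≤ C * ‖v‖ * ‖V‖ →
      ∀ k, ‖∑ s, eval (pt x V) (pderiv s (f.A b k)) * pt v U s‖ ≤ C' * ‖v‖ * ‖V‖ ^ m k := by
  have h1 : ∀ (b : Fin (N + 1)) (k : Fin J) (c : Fin (N + 1)), ∃ K : ℝ, 0 ≤ K ∧ ∀ x V : Fin (N + 1) → ℂ, (∀ c, ‖x c‖ ≤ 1) →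
      ‖eval (pt x V) (pderiv (Sum.inl c) (f.A b k))‖ ≤ K * ‖V‖ ^ m k := fun b k c =>
    eval_bound ((hf b k).pderiv (by simp))
  have h2 : ∀ (b : Fin (N + 1)) (k : Fin J) (c : Fin (N + 1)), ∃ K : ℝ, 0 ≤ K ∧ ∀ x V : Fin (N + 1) → ℂ, (∀ c, ‖x c‖ ≤ 1) →
      ‖eval (pt x V) (pderiv (Sum.inr c) (f.A b k))‖ ≤ K * ‖V‖ ^ (m k - 1) := fun b k c =>
    eval_bound ((hf b k).pderiv (by simpa using Nat.sub_add_cancel (hm k)))
  choose K hK0 hK using h1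
  choose L hL0 hL using h2
  refine ⟨∑ b, ∑ k, ∑ c, (K b k c + L b k c * |C|), fun b x v V U hx hU k => ?_⟩
  have hv0 : 0 ≤ ‖v‖ := norm_nonneg v
  have hV0 : 0 ≤ ‖V‖ := norm_nonneg V
  have hU' : ‖U‖ ≤ |C| * ‖v‖ * ‖V‖ :=
    hU.trans (mul_le_mul_of_nonneg_right (mul_le_mul_of_nonneg_right (le_abs_self C) hv0) hV0)
  have hp : ‖V‖ ^ m k = ‖V‖ ^ (m k - 1) * ‖V‖ := by
    rw [← pow_succ, Nat.sub_add_cancel (hm k)]
  have h3 : ∀ c, ‖eval (pt x V) (pderiv (Sum.inl c) (f.A b k)) * pt v U (Sum.inl c)‖ ≤ K b k c * (‖v‖ * ‖V‖ ^ m k) := fun c => by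
    rw [norm_mul]
    calc ‖eval (pt x V) (pderiv (Sum.inl c) (f.A b k))‖ * ‖v c‖ ≤ (K b k c * ‖V‖ ^ m k) * ‖v‖ :=
          mul_le_mul (hK b k c x V hx) (norm_le_pi_norm v c) (norm_nonneg _) (mul_nonneg (hK0 b k c) (pow_nonneg hV0 _))
      _ = _ := by ring
  have h4 : ∀ c, ‖eval (pt x V) (pderiv (Sum.inr c) (f.A b k)) * pt v U (Sum.inr c)‖ ≤ L b k c * |C| * (‖v‖ * ‖V‖ ^ m k) := fun c => by
    rw [norm_mul]
    calc ‖eval (pt x V) (pderiv (Sum.inr c) (f.A b k))‖ * ‖U c‖ ≤ (L b k c * ‖V‖ ^ (m k - 1)) * (|C| * ‖v‖ * ‖V‖) :=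
          mul_le_mul (hL b k c x V hx) ((norm_le_pi_norm U c).trans hU') (norm_nonneg _) (mul_nonneg (hL0 b k c) (pow_nonneg hV0 _))
      _ = _ := by rw [hp]; ring
  have h5 : ‖∑ s, eval (pt x V) (pderiv s (f.A b k)) * pt v U s‖ ≤ ∑ c, (K b k c + L b k c * |C|) * (‖v‖ * ‖V‖ ^ m k) := by
    rw [Fintype.sum_sum_type, ← Finset.sum_add_distrib]
    refine (norm_sum_le _ _).trans (Finset.sum_le_sum fun c _ => ?_)
    refine (norm_add_le _ _).trans ?_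
    rw [add_mul]
    exact add_le_add (h3 c) (h4 c)
  have h6 : ∑ c, (K b k c + L b k c * |C|) ≤ ∑ b, ∑ k, ∑ c, (K b k c + L b k c * |C|) := by
    have hn : ∀ b k, 0 ≤ ∑ c, (K b k c + L b k c * |C|) := fun b k =>
      Finset.sum_nonneg fun c _ => add_nonneg (hK0 b k c) (mul_nonneg (hL0 b k c) (abs_nonneg C))
    exact (Finset.single_le_sum (f := fun k => ∑ c, (K b k c + L b k c * |C|)) (fun k _ => hn b k) (Finset.mem_univ k)).trans
      (Finset.single_le_sum (f := fun b => ∑ k, ∑ c, (K b k c + L b k c * |C|)) (fun b _ => Finset.sum_nonneg fun k _ => hn b k) (Finset.mem_univ b))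
  rw [← Finset.sum_mul] at h5
  refine h5.trans ?_
  rw [mul_assoc]
  exact mul_le_mul_of_nonneg_right h6 (mul_nonneg hv0 (pow_nonneg hV0 _))

end Pool.Agent.GA
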