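import Pool.Agent.GA.BndD

/-!
# GA BndB: homogeneous frames, `wl` in the chart of the largest coordinate, the bound of the polar forms

`exists_homFr`: take the part of degree `m k` in `v` of the polynomials of a frame (compare the coefficients of `t ^ m` in `θ (x, t v) = t ^ m θ (x, v)`).
`alpha_of_le`: the derivatives of a polynomial of degree `n` in `v` are homogeneous of degree `n` resp. `n - 1` in `v`.
-/

set_option autoImplicit false

open MvPolynomial Topology Filter Metric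
open Pool.Agent.H13.SM (conTan cone)
open Pool.Agent.GG

namespace Pool.Agent.GA

variable {N : ℕ} {P : Ideal (MvPolynomial (Fin (N + 1)) ℂ)} {J : ℕ} {m : Fin J → ℕ} {θ : ∀ k, SymSec P (m k)}

/-- the weights: degree in `v` -/
abbrev wv (N : ℕ) : Ph N → ℕ := Sum.elim (fun _ => 0) (fun _ => 1)

theorem weight_wv (d : Ph N →₀ ℕ) : Finsupp.weight (wv N) d = ∑ b, d (Sum.inr b) := by
  rw [Finsupp.weight_apply, Finsupp.sum_fintype _ _ (by simp), Fintype.sum_sum_type]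
  simp [wv]

theorem prod_pt (x v : Fin (N + 1) → ℂ) (d : Ph N →₀ ℕ) :
    ∏ i, pt x v i ^ d i = (∏ b, x b ^ d (Sum.inl b)) * ∏ b, v b ^ d (Sum.inr b) := by
  rw [Fintype.prod_sum_type]
  rfl

theorem prod_pt_smul (x v : Fin (N + 1) → ℂ) (t : ℂ) (d : Ph N →₀ ℕ) :
    ∏ i, pt x (t • v) i ^ d i = t ^ Finsupp.weight (wv N) d * ∏ i, pt x v i ^ d i := by
  rw [prod_pt, prod_pt, weight_wv, ← Finset.prod_pow_eq_pow_sum]
  simp only [Pi.smul_apply, smul_eq_mul, mul_pow, Finset.prod_mul_distrib]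
  ring

/-- the part of degree `n` in `v` -/
theorem eval_component {A : MvPolynomial (Ph N) ℂ} {x v : Fin (N + 1) → ℂ} {a : ℂ} {n : ℕ} (h : ∀ t : ℂ, eval (pt x (t • v)) A = t ^ n * a) :
    eval (pt x v) (weightedHomogeneousComponent (wv N) n A) = a := by
  classical
  set q : Polynomial ℂ := ∑ d ∈ A.support, Polynomial.C (A.coeff d * ∏ i, pt x v i ^ d i) * Polynomial.X ^ Finsupp.weight (wv N) d with hq
  have h1 : q = Polynomial.C a * Polynomial.X ^ n := by
    apply Polynomial.funext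
    intro t
    rw [hq, Polynomial.eval_finsetSum]
    simp only [Polynomial.eval_mul, Polynomial.eval_C, Polynomial.eval_pow, Polynomial.eval_X]
    rw [mul_comm, ← h t, eval_eq']
    refine Finset.sum_congr rfl fun d _ => ?_
    rw [prod_pt_smul]
    ring
  have h2 := congrArg (fun p : Polynomial ℂ => p.coeff n) h1
  simp only [Polynomial.coeff_C_mul, Polynomial.coeff_X_pow, if_true, mul_one] at h2
  rw [hq, Polynomial.finsetSum_coeff] at h2
  simp only [Polynomial.coeff_C_mul, Polynomial.coeff_X_pow] at h2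
  rw [weightedHomogeneousComponent_apply, map_sum, Finset.sum_filter, ← h2]
  refine Finset.sum_congr rfl fun d _ => ?_
  by_cases hd : Finsupp.weight (wv N) d = n
  · rw [if_pos hd, if_pos hd.symm, mul_one, eval_monomial, Finsupp.prod_fintype _ _ (by simp)]
  · rw [if_neg hd, if_neg (Ne.symm hd), mul_zero]

theorem exists_homFr (θ : ∀ k, SymSec P (m k)) : ∃ f : Frame θ, HomFr f := by
  obtain ⟨f⟩ := exists_frame θ
  refine ⟨⟨f.q, f.Q, f.span, fun a k => weightedHomogeneousComponent (wv N) (m k) (f.A a k), ?_⟩, ?_⟩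
  · intro a k x hx hxa v hv
    refine (eval_component fun t => ?_).symm
    rw [← f.hA a k x hx hxa (t • v) ((conTan P x).smul_mem t hv), (θ k).smul x hx v hv t]
  · intro a k
    exact weightedHomogeneousComponent_isWeightedHomogeneous (w := wv N) (m k) (f.A a k)

/-- a polynomial which is homogeneous of degree `n` in `v` is bounded by `C ‖v‖ ^ n` for `‖x‖ ≤ 1` -/
theorem hom_bound {A : MvPolynomial (Ph N) ℂ} {n : ℕ} (h : IsWeightedHomogeneous (wv N) A n) :
    ∃ C : ℝ, 0 ≤ C ∧ ∀ x v : Fin (N + 1) → ℂ, (∀ c, ‖x c‖ ≤ 1) → ‖eval (pt x v) A‖ ≤ C * ‖v‖ ^ n := by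
  refine ⟨∑ d ∈ A.support, ‖A.coeff d‖, Finset.sum_nonneg fun _ _ => norm_nonneg _, fun x v hx => ?_⟩
  rw [eval_eq', Finset.sum_mul]
  refine (norm_sum_le _ _).trans (Finset.sum_le_sum fun d hd => ?_)
  have h1 : Finsupp.weight (wv N) d = n := h (mem_support_iff.1 hd)
  rw [norm_mul, prod_pt, norm_mul, norm_prod, norm_prod]
  refine mul_le_mul_of_nonneg_left ?_ (norm_nonneg _)
  have h2 : ∏ b, ‖x b ^ d (Sum.inl b)‖ ≤ 1 := by
    refine Finset.prod_le_one (fun _ _ => norm_nonneg _) fun b _ => ?_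
    rw [norm_pow]
    exact pow_le_one₀ (norm_nonneg _) (hx b)
  have h3 : ∏ b, ‖v b ^ d (Sum.inr b)‖ ≤ ‖v‖ ^ n := by
    rw [← h1, weight_wv, ← Finset.prod_pow_eq_pow_sum]
    refine Finset.prod_le_prod (fun _ _ => norm_nonneg _) fun b _ => ?_
    rw [norm_pow]
    exact pow_le_pow_left₀ (norm_nonneg _) (norm_le_pi_norm v b) _
  calc _ ≤ 1 * ‖v‖ ^ n := mul_le_mul h2 h3 (Finset.prod_nonneg fun _ _ => norm_nonneg _) zero_le_one
    _ = _ := one_mul _

/-- in the chart of the largest coordinate `wl` is comparable to the norm -/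
theorem wl_chart {b : Fin (N + 1)} {x v : Fin (N + 1) → ℂ} (h : InCh P b x v) : ‖v‖ ≤ wl x v ∧ wl x v ≤ 2 * ‖v‖ := by
  obtain ⟨-, hb, hx, -, hvb⟩ := h
  have hn : ‖x‖ = 1 := by
    refine le_antisymm ((pi_norm_le_iff_of_nonneg zero_le_one).2 hx) ?_
    calc (1 : ℝ) = ‖x b‖ := by rw [hb, norm_one]
      _ ≤ ‖x‖ := norm_le_pi_norm x b
  have hw : wl x v = ‖fun p : Fin (N + 1) × Fin (N + 1) => x p.1 * v p.2 - x p.2 * v p.1‖ := by
    rw [wl, hn, one_pow, div_one]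
  rw [hw]
  constructor
  · refine (pi_norm_le_iff_of_nonneg (norm_nonneg _)).2 fun c => ?_
    have h1 := norm_le_pi_norm (fun p : Fin (N + 1) × Fin (N + 1) => x p.1 * v p.2 - x p.2 * v p.1) (b, c)
    simp only [hb, hvb, one_mul, mul_zero, sub_zero] at h1
    exact h1
  · refine (pi_norm_le_iff_of_nonneg (by positivity)).2 fun p => ?_
    calc ‖x p.1 * v p.2 - x p.2 * v p.1‖ ≤ ‖x p.1‖ * ‖v p.2‖ + ‖x p.2‖ * ‖v p.1‖ := by
          refine (norm_sub_le _ _).trans ?_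
          rw [norm_mul, norm_mul]
      _ ≤ 1 * ‖v‖ + 1 * ‖v‖ := by
          gcongr
          · exact hx _
          · exact norm_le_pi_norm v _
          · exact hx _
          · exact norm_le_pi_norm v _
      _ = 2 * ‖v‖ := by ring

/-- `alpha_bound` from the conclusion of `le_bound` -/
theorem alpha_of_le (hm : ∀ k, 1 ≤ m k) (f : Frame θ) (hf : HomFr f)
    (hle : ∃ C : ℝ, ∀ (b : Fin (N + 1)) (x v V U : Fin (N + 1) → ℂ),
      InCh P b x v → v ≠ 0 → V ∈ conTan P x → V b = 0 → (∀ l, ∑ s, eval (pt x v) (pderiv s (gfam f b l)) * pt V U s = 0) → ‖U‖ ≤ C * ‖v‖ * ‖V‖) :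
    ∃ C : ℝ, ∀ (b : Fin (N + 1)) (x v V U : Fin (N + 1) → ℂ),
      InCh P b x v → v ≠ 0 → V ∈ conTan P x → V b = 0 → (∀ l, ∑ s, eval (pt x v) (pderiv s (gfam f b l)) * pt V U s = 0) →
      ∀ k, ‖∑ s, eval (pt x V) (pderiv s (f.A b k)) * pt v U s‖ ≤ C * ‖v‖ * ‖V‖ ^ m k := by
  obtain ⟨C₀, hC₀⟩ := hle
  have hx : ∀ (b : Fin (N + 1)) (k : Fin J) (c : Fin (N + 1)), ∃ C : ℝ, 0 ≤ C ∧ ∀ x v : Fin (N + 1) → ℂ, (∀ c, ‖x c‖ ≤ 1) →
      ‖eval (pt x v) (pderiv (Sum.inl c) (f.A b k))‖ ≤ C * ‖v‖ ^ m k := fun b k c =>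
    hom_bound ((hf b k).pderiv (n' := m k) (by simp))
  have hv : ∀ (b : Fin (N + 1)) (k : Fin J) (c : Fin (N + 1)), ∃ C : ℝ, 0 ≤ C ∧ ∀ x v : Fin (N + 1) → ℂ, (∀ c, ‖x c‖ ≤ 1) →
      ‖eval (pt x v) (pderiv (Sum.inr c) (f.A b k))‖ ≤ C * ‖v‖ ^ (m k - 1) := fun b k c =>
    hom_bound ((hf b k).pderiv (n' := m k - 1) (by simpa using Nat.sub_add_cancel (hm k)))
  choose C₁ h1 h1' using hx
  choose C₂ h2 h2' using hv
  refine ⟨∑ b, ∑ k, ((∑ c, C₁ b k c) + (∑ c, C₂ b k c) * max C₀ 0), fun b x v V U hI hv0 hV hVb hU k => ?_⟩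
  have hUb := hC₀ b x v V U hI hv0 hV hVb hU
  have hxc := hI.2.2.1
  have hUb' : ‖U‖ ≤ max C₀ 0 * ‖v‖ * ‖V‖ := by
    refine hUb.trans ?_
    gcongr
    exact le_max_left _ _
  have hterm : ‖∑ s, eval (pt x V) (pderiv s (f.A b k)) * pt v U s‖ ≤ ((∑ c, C₁ b k c) + (∑ c, C₂ b k c) * max C₀ 0) * (‖v‖ * ‖V‖ ^ m k) := by
    rw [Fintype.sum_sum_type, add_mul]
    refine (norm_add_le _ _).trans (add_le_add ?_ ?_)
    · refine (norm_sum_le _ _).trans ?_
      rw [Finset.sum_mul]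
      refine Finset.sum_le_sum fun c _ => ?_
      rw [norm_mul]
      calc _ ≤ (C₁ b k c * ‖V‖ ^ m k) * ‖v‖ := by
            have h5 : 0 ≤ C₁ b k c := h1 b k c
            exact mul_le_mul (h1' b k c x V hxc) (norm_le_pi_norm v c) (norm_nonneg _) (by positivity)
        _ = _ := by ring
    · refine (norm_sum_le _ _).trans ?_
      rw [Finset.sum_mul, Finset.sum_mul]
      refine Finset.sum_le_sum fun c _ => ?_
      rw [norm_mul]
      calc _ ≤ (C₂ b k c * ‖V‖ ^ (m k - 1)) * (max C₀ 0 * ‖v‖ * ‖V‖) := by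
            have h3 : ‖U c‖ ≤ max C₀ 0 * ‖v‖ * ‖V‖ := (norm_le_pi_norm U c).trans hUb'
            have h4 := h2' b k c x V hxc
            have h5 : 0 ≤ C₂ b k c := h2 b k c
            exact mul_le_mul h4 h3 (norm_nonneg _) (by positivity)
        _ = C₂ b k c * max C₀ 0 * (‖v‖ * (‖V‖ ^ (m k - 1) * ‖V‖)) := by ring
        _ = _ := by
          rw [← pow_succ, Nat.sub_add_cancel (hm k)]
  have hnn : ∀ b k, 0 ≤ (∑ c, C₁ b k c) + (∑ c, C₂ b k c) * max C₀ 0 := fun b k =>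
    add_nonneg (Finset.sum_nonneg fun c _ => h1 b k c) (mul_nonneg (Finset.sum_nonneg fun c _ => h2 b k c) (le_max_right _ _))
  refine hterm.trans ?_
  rw [mul_assoc]
  refine mul_le_mul_of_nonneg_right ?_ (by positivity)
  refine (Finset.single_le_sum (f := fun k => (∑ c, C₁ b k c) + (∑ c, C₂ b k c) * max C₀ 0) (fun k _ => hnn b k) (Finset.mem_univ k)).trans ?_
  exact Finset.single_le_sum (f := fun b => ∑ k, ((∑ c, C₁ b k c) + (∑ c, C₂ b k c) * max C₀ 0)) (fun b _ => Finset.sum_nonneg fun k _ => hnn b k)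
    (Finset.mem_univ b)

end Pool.Agent.GA
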