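import Pool.Agent.GA.Defs
import Pool.Agent.GG.Row
import Pool.Agent.GG.Kcpt

/-!
# GA BndD: definitions of `Bnd`
-/

set_option autoImplicit false

open MvPolynomial Topology Filter Metric
open Pool.Agent.H13.SM (conTan cone)
open Pool.Agent.GG

namespace Pool.Agent.GA

variable {N : ℕ} {P : Ideal (MvPolynomial (Fin (N + 1)) ℂ)} {J : ℕ} {m : Fin J → ℕ} {θ : ∀ k, SymSec P (m k)}

/-- the polynomials of the frame are homogeneous of degree `m k` in `v` -/
def HomFr (f : Frame θ) : Prop :=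
  ∀ a k, IsWeightedHomogeneous (Sum.elim (fun _ => 0) (fun _ => 1) : Ph N → ℕ) (f.A a k) (m k)

/-- `(x, v)` is a tangent vector in the chart of the largest coordinate `b` -/
def InCh (P : Ideal (MvPolynomial (Fin (N + 1)) ℂ)) (b : Fin (N + 1)) (x v : Fin (N + 1) → ℂ) : Prop :=
  x ∈ cone P ∧ x b = 1 ∧ (∀ c, ‖x c‖ ≤ 1) ∧ v ∈ conTan P x ∧ v b = 0

end Pool.Agent.GA
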