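import Pool.Agent.GA.ADefs
import Pool.Agent.GA.Ring

/-!
# GA Brg: the ring of the small functions and the curves on the half-plane, in the form of the algebraic half
-/

set_option autoImplicit false

open MvPolynomial Topology Filter Metric
open Pool.Agent.H13.SM (conTan cone)
open Pool.Agent.GG

namespace Pool.Agent.GA

variable {N : ℕ} {P : Ideal (MvPolynomial (Fin (N + 1)) ℂ)} {F : ℂ → Fin (N + 1) → ℂ}

/-- MODULE Brg -/
theorem isSmallRing_OO {s : ℂ → ℝ} {X : ℕ → ℝ} (hX : Lev s X) : IsSmallRing (GA.OO hX) HP where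
  an := fun _ hg w hw => IsOO.an hg w hw
  deriv_mem := fun g hg => by
    refine ⟨fun w hw => (IsOO.an hg w hw).deriv, fun w hw => ?_, fun j => ?_⟩
    · -- the derivative is periodic
      have h1 : (fun z => g (z + per)) =ᶠ[𝓝 w] g := by
        filter_upwards [Rg.isOpen_HP.mem_nhds hw] with z hz
        exact IsOO.periodic hg z hz
      rw [← h1.deriv_eq, deriv_comp_add_const]
    · have h1 := IsOO.small hg (j + 1)
      rw [iteratedDeriv_succ'] at h1
      exact h1

theorem HCurve.isCurve (hF : HCurve P F) (h : ∃ w ∈ HP, deriv F w ∉ Submodule.span ℂ {F w}) : IsCurve P F HP where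
  isOpen := Rg.isOpen_HP
  conn := by
    apply Convex.isPreconnected
    exact convex_halfSpace_re_gt 0
  an := hF.an
  mem := hF.cone
  ne := h

end Pool.Agent.GA
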