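import Mathlib

/-!
# GA CntA: continuation of germs on a convex open set (note 4590 (4))

`Sol σ z` is a property of the germ of `σ` at `z`.  If every point of the convex open set `Ω` has a ball to which all solutions over convex open subsets
extend, then every germ of a solution is the germ of a solution over `Ω`.
-/

set_option autoImplicit false

open Topology Filter Metric Set

namespace Pool.Agent.GA

variable {Y : Type*}

private theorem seg_subset {z₀ z z' : ℂ} {δ : ℝ} (h : dist z' z < δ) : segment ℝ z₀ z' ⊆ thickening δ (segment ℝ z₀ z) := by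
  intro w hw
  obtain ⟨a, b, ha, hb, hab, rfl⟩ := hw
  rw [mem_thickening_iff]
  refine ⟨a • z₀ + b • z, ⟨a, b, ha, hb, hab, rfl⟩, ?_⟩
  rw [dist_add_left, dist_smul₀, Real.norm_of_nonneg hb]
  have hb1 : b ≤ 1 := by linarith
  calc b * dist z' z ≤ 1 * dist z' z := mul_le_mul_of_nonneg_right hb1 dist_nonneg
    _ = dist z' z := one_mul _
    _ < δ := h

/-- continuation along the segments from `z₀` -/
private theorem exists_segment {Ω : Set ℂ} (hc : Convex ℝ Ω) {Sol : (ℂ → Y) → ℂ → Prop}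
    (congr : ∀ (σ σ' : ℂ → Y) (z : ℂ), Sol σ z → σ =ᶠ[𝓝 z] σ' → Sol σ' z)
    (ext : ∀ z ∈ Ω, ∃ r > 0, ball z r ⊆ Ω ∧ ∀ W : Set ℂ, IsOpen W → Convex ℝ W → W ⊆ ball z r → W.Nonempty →
      ∀ σ : ℂ → Y, (∀ w ∈ W, Sol σ w) → ∃ σ' : ℂ → Y, (∀ w ∈ ball z r, Sol σ' w) ∧ EqOn σ σ' W)
    {z₀ : ℂ} (h₀ : z₀ ∈ Ω) {σ₀ : ℂ → Y} {r₀ : ℝ} (hr₀ : 0 < r₀) (hsub : ball z₀ r₀ ⊆ Ω) (hσ : ∀ w ∈ ball z₀ r₀, Sol σ₀ w) {z : ℂ} (hz : z ∈ Ω) :
    ∃ δ > 0, ∃ σ : ℂ → Y, thickening δ (segment ℝ z₀ z) ⊆ Ω ∧ (∀ w ∈ thickening δ (segment ℝ z₀ z), Sol σ w) ∧ σ =ᶠ[𝓝 z₀] σ₀ := by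
  classical
  set γ : ℝ → ℂ := fun t => z₀ + t • (z - z₀) with hγ
  have hγc : Continuous γ := continuous_const.add (continuous_id.smul continuous_const)
  set u : Set ℝ := {t | ∃ δ > 0, ∃ σ : ℂ → Y, thickening δ (segment ℝ z₀ (γ t)) ⊆ Ω ∧
    (∀ w ∈ thickening δ (segment ℝ z₀ (γ t)), Sol σ w) ∧ σ =ᶠ[𝓝 z₀] σ₀} with hu
  have hopen : IsOpen u := by
    rw [Metric.isOpen_iff]
    rintro t ⟨δ, hδ, σ, h1, h2, h3⟩
    have hcont := hγc.continuousAt (x := t)
    obtain ⟨ε, hε, hb⟩ := Metric.continuousAt_iff.1 hcont (δ / 2) (half_pos hδ)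
    refine ⟨ε, hε, fun t' ht' => ?_⟩
    have hd : dist (γ t') (γ t) < δ / 2 := hb ht'
    have hss : thickening (δ / 2) (segment ℝ z₀ (γ t')) ⊆ thickening δ (segment ℝ z₀ (γ t)) := by
      calc thickening (δ / 2) (segment ℝ z₀ (γ t')) ⊆ thickening (δ / 2) (thickening (δ / 2) (segment ℝ z₀ (γ t))) :=
            thickening_subset_of_subset _ (seg_subset hd)
        _ ⊆ thickening (δ / 2 + δ / 2) (segment ℝ z₀ (γ t)) := thickening_thickening_subset _ _ _
        _ = thickening δ (segment ℝ z₀ (γ t)) := by rw [add_halves]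
    exact ⟨δ / 2, half_pos hδ, σ, hss.trans h1, fun w hw => h2 w (hss hw), h3⟩
  have hzero : (0 : ℝ) ∈ u := by
    have e : segment ℝ z₀ (γ 0) = {z₀} := by
      rw [hγ]; simp
    refine ⟨r₀, hr₀, σ₀, ?_, ?_, EventuallyEq.rfl⟩
    · rw [e, thickening_singleton]; exact hsub
    · rw [e, thickening_singleton]; exact hσ
  have hmemΩ : ∀ t ∈ Icc (0 : ℝ) 1, γ t ∈ Ω := by
    intro t ht
    exact hc.add_smul_sub_mem h₀ hz ht
  have hclosed : closure u ∩ Icc (0 : ℝ) 1 ⊆ u := by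
    rintro t ⟨htc, htI⟩
    obtain ⟨r, hr, hrΩ, hext⟩ := ext (γ t) (hmemΩ t htI)
    obtain ⟨ε, hε, hb⟩ := Metric.continuousAt_iff.1 (hγc.continuousAt (x := t)) r hr
    obtain ⟨t', ⟨δ, hδ, σ₁, h1, h2, h3⟩, htt⟩ := Metric.mem_closure_iff.1 htc ε hε
    have hd : γ t' ∈ ball (γ t) r := hb (by rw [dist_comm]; exact htt)
    set A : Set ℂ := thickening δ (segment ℝ z₀ (γ t')) with hA
    have hAo : IsOpen A := isOpen_thickening
    have hAc : Convex ℝ A := (convex_segment _ _).thickening _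
    have hWo : IsOpen (A ∩ ball (γ t) r) := hAo.inter isOpen_ball
    have hWc : Convex ℝ (A ∩ ball (γ t) r) := hAc.inter (convex_ball _ _)
    have hWn : (A ∩ ball (γ t) r).Nonempty :=
      ⟨γ t', self_subset_thickening hδ _ (right_mem_segment ℝ _ _), hd⟩
    obtain ⟨σ₂, h4, h5⟩ := hext _ hWo hWc inter_subset_right hWn σ₁ (fun w hw => h2 w hw.1)
    set σ₃ : ℂ → Y := fun w => if w ∈ A then σ₁ w else σ₂ w with hσ₃
    have hs1 : ∀ w ∈ A, Sol σ₃ w := by
      intro w hw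
      refine congr σ₁ σ₃ w (h2 w hw) ?_
      filter_upwards [hAo.mem_nhds hw] with w' hw'
      rw [hσ₃]
      exact (if_pos hw').symm
    have hs2 : ∀ w ∈ ball (γ t) r, Sol σ₃ w := by
      intro w hw
      refine congr σ₂ σ₃ w (h4 w hw) ?_
      filter_upwards [isOpen_ball.mem_nhds hw] with w' hw'
      show σ₂ w' = if w' ∈ A then σ₁ w' else σ₂ w'
      by_cases hA' : w' ∈ A
      · rw [if_pos hA']; exact (h5 ⟨hA', hw'⟩).symm
      · rw [if_neg hA']
    -- the segment is in `A ∪ ball`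
    have hcomp : IsCompact (segment ℝ z₀ (γ t)) := by
      rw [segment_eq_image]
      exact isCompact_Icc.image (by fun_prop)
    have hsegsub : segment ℝ z₀ (γ t) ⊆ A ∪ ball (γ t) r := by
      intro w hw
      obtain ⟨a, b, ha, hb', hab, rfl⟩ := hw
      -- the points of the segment are on the line through `z₀` and `z`
      by_cases hcase : b * t ≤ t'
      · left
        refine self_subset_thickening hδ _ ?_
        by_cases ht0 : t' ≤ 0
        · -- then `b t ≤ t' ≤ 0`, so both vanish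
          have h6 : 0 ≤ b * t := mul_nonneg hb' htI.1
          have h7 : b * t = 0 := le_antisymm (hcase.trans ht0) h6
          have h8 : a • z₀ + b • γ t = z₀ := by
            rw [hγ]
            simp only [smul_add, smul_smul, h7, zero_smul, add_zero, ← add_smul, hab, one_smul]
          rw [h8]
          exact left_mem_segment ℝ _ _
        · push Not at ht0
          refine ⟨1 - b * t / t', b * t / t', ?_, ?_, by ring, ?_⟩
          · rw [sub_nonneg, div_le_one ht0]; exact hcase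
          · exact div_nonneg (mul_nonneg hb' htI.1) ht0.le
          · have h9 : b * t / t' * t' = b * t := div_mul_cancel₀ _ ht0.ne'
            show (1 - b * t / t') • z₀ + (b * t / t') • (z₀ + t' • (z - z₀)) = a • z₀ + b • (z₀ + t • (z - z₀))
            rw [smul_add, smul_smul, h9, smul_add, smul_smul, ← add_assoc, ← add_assoc, ← add_smul, ← add_smul, hab]
            congr 2
            ring
      · right
        push Not at hcase
        have hbt : b * t ≤ t := by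
          have hb1 : b ≤ 1 := by linarith
          calc b * t ≤ 1 * t := mul_le_mul_of_nonneg_right hb1 htI.1
            _ = t := one_mul t
        have e : a • z₀ + b • γ t = γ (b * t) := by
          show a • z₀ + b • (z₀ + t • (z - z₀)) = z₀ + (b * t) • (z - z₀)
          rw [smul_add, smul_smul, ← add_assoc, ← add_smul, hab, one_smul]
        rw [e]
        refine hb ?_
        rw [Real.dist_eq, abs_sub_comm, abs_of_nonneg (by linarith)]
        have h10 : |t - t'| < ε := by rwa [← Real.dist_eq]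
        have h11 : t - t' ≤ |t - t'| := le_abs_self _
        linarith
    obtain ⟨δ', hδ', hδ''⟩ := hcomp.exists_thickening_subset_open (hAo.union isOpen_ball) hsegsub
    refine ⟨δ', hδ', σ₃, hδ''.trans (union_subset h1 hrΩ), ?_, ?_⟩
    · intro w hw
      rcases hδ'' hw with h | h
      · exact hs1 w h
      · exact hs2 w h
    · have hz₀A : z₀ ∈ A := self_subset_thickening hδ _ (left_mem_segment ℝ _ _)
      have h12 : σ₃ =ᶠ[𝓝 z₀] σ₁ := by
        filter_upwards [hAo.mem_nhds hz₀A] with w hw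
        exact if_pos hw
      exact h12.trans h3
  have hsub2 : Icc (0 : ℝ) 1 ⊆ u :=
    isPreconnected_Icc.subset_of_closure_inter_subset hopen ⟨0, ⟨left_mem_Icc.2 zero_le_one, hzero⟩⟩ hclosed
  have h1 : (1 : ℝ) ∈ u := hsub2 (right_mem_Icc.2 zero_le_one)
  have e1 : γ 1 = z := by rw [hγ]; simp
  obtain ⟨δ, hδ, σ, h2, h3, h4⟩ := h1
  rw [e1] at h2 h3
  exact ⟨δ, hδ, σ, h2, h3, h4⟩

/-- MODULE CntA: continuation on a convex open set. -/
theorem exists_continuation {Ω : Set ℂ} (hΩ : IsOpen Ω) (hc : Convex ℝ Ω) {Sol : (ℂ → Y) → ℂ → Prop}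
    (congr : ∀ (σ σ' : ℂ → Y) (z : ℂ), Sol σ z → σ =ᶠ[𝓝 z] σ' → Sol σ' z)
    (nbhd : ∀ (σ : ℂ → Y), ∀ z ∈ Ω, Sol σ z → ∀ᶠ w in 𝓝 z, Sol σ w)
    (uniq : ∀ W : Set ℂ, IsOpen W → Convex ℝ W → W ⊆ Ω → ∀ σ σ' : ℂ → Y, (∀ w ∈ W, Sol σ w) → (∀ w ∈ W, Sol σ' w) →
      ∀ z ∈ W, σ =ᶠ[𝓝 z] σ' → EqOn σ σ' W)
    (ext : ∀ z ∈ Ω, ∃ r > 0, ball z r ⊆ Ω ∧ ∀ W : Set ℂ, IsOpen W → Convex ℝ W → W ⊆ ball z r → W.Nonempty →
      ∀ σ : ℂ → Y, (∀ w ∈ W, Sol σ w) → ∃ σ' : ℂ → Y, (∀ w ∈ ball z r, Sol σ' w) ∧ EqOn σ σ' W)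
    {z₀ : ℂ} (h₀ : z₀ ∈ Ω) {σ₀ : ℂ → Y} (hσ : Sol σ₀ z₀) :
    ∃ σ : ℂ → Y, (∀ z ∈ Ω, Sol σ z) ∧ σ =ᶠ[𝓝 z₀] σ₀ := by
  classical
  obtain ⟨r₀, hr₀, hball⟩ := Metric.eventually_nhds_iff_ball.1 ((nbhd σ₀ z₀ h₀ hσ).and (hΩ.mem_nhds h₀))
  have key : ∀ z ∈ Ω, ∃ δ > 0, ∃ σ : ℂ → Y, thickening δ (segment ℝ z₀ z) ⊆ Ω ∧ (∀ w ∈ thickening δ (segment ℝ z₀ z), Sol σ w) ∧
      σ =ᶠ[𝓝 z₀] σ₀ := fun z hz =>
    exists_segment hc congr ext h₀ hr₀ (fun w hw => (hball w hw).2) (fun w hw => (hball w hw).1) hz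
  have : Nonempty (ℂ → Y) := ⟨σ₀⟩
  choose! δ hδ τ h1 h2 h3 using key
  have hag : ∀ z ∈ Ω, (fun z => τ z z) =ᶠ[𝓝 z] τ z := by
    intro z hz
    filter_upwards [isOpen_ball.mem_nhds (mem_ball_self (hδ z hz)), hΩ.mem_nhds hz] with z' hz' hz'Ω
    have hz'A : z' ∈ thickening (δ z) (segment ℝ z₀ z) :=
      seg_subset (mem_ball.1 hz') (right_mem_segment ℝ z₀ z')
    have hz'B : z' ∈ thickening (δ z') (segment ℝ z₀ z') := self_subset_thickening (hδ z' hz'Ω) _ (right_mem_segment ℝ _ _)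
    have hz₀A : z₀ ∈ thickening (δ z) (segment ℝ z₀ z) := self_subset_thickening (hδ z hz) _ (left_mem_segment ℝ _ _)
    have hz₀B : z₀ ∈ thickening (δ z') (segment ℝ z₀ z') := self_subset_thickening (hδ z' hz'Ω) _ (left_mem_segment ℝ _ _)
    have h4 := uniq (thickening (δ z) (segment ℝ z₀ z) ∩ thickening (δ z') (segment ℝ z₀ z')) (isOpen_thickening.inter isOpen_thickening)
      (((convex_segment _ _).thickening _).inter ((convex_segment _ _).thickening _)) (inter_subset_left.trans (h1 z hz)) (τ z') (τ z)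
      (fun w hw => h2 z' hz'Ω w hw.2) (fun w hw => h2 z hz w hw.1) z₀ ⟨hz₀A, hz₀B⟩ ((h3 z' hz'Ω).trans (h3 z hz).symm)
    exact h4 ⟨hz'A, hz'B⟩
  refine ⟨fun z => τ z z, fun z hz => ?_, (hag z₀ h₀).trans (h3 z₀ h₀)⟩
  refine congr (τ z) _ z (h2 z hz z ?_) (hag z hz).symm
  exact self_subset_thickening (hδ z hz) _ (right_mem_segment ℝ _ _)

end Pool.Agent.GA
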