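import Pool.Agent.GG.OdeG

/-!
# GA CntB: linear differential equations (note 4590 (4))

`exists_linear`: for `B` analytic at `z` there is a ball on which `U' = B U` has a solution with any value at any point of the ball (`exists_flowG` for
`t' = 1`, `U' = B (t) U` at `(z, 0)`, and homogeneity).  `linear_unique`: uniqueness.
-/

set_option autoImplicit false

open Topology Filter Metric Set

namespace Pool.Agent.GA

variable {ι : Type} [Fintype ι]

/-- the vector field `(1, B (t) u)` -/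
private noncomputable def fieldB (B : ℂ → (ι → ℂ) →L[ℂ] (ι → ℂ)) (y : Option ι → ℂ) : Option ι → ℂ :=
  fun o => o.elim 1 fun i => B (y none) (fun j => y (some j)) i

/-- the pair `(t, u)` -/
private def pr (t : ℂ) (u : ι → ℂ) : Option ι → ℂ := fun o => o.elim t u

private theorem analyticAt_fieldB {B : ℂ → (ι → ℂ) →L[ℂ] (ι → ℂ)} {y : Option ι → ℂ} (hB : AnalyticAt ℂ B (y none)) :
    AnalyticAt ℂ (fieldB B) y := by
  have hev : ∀ o : Option ι, AnalyticAt ℂ (fun y : Option ι → ℂ => y o) y := fun o =>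
    (ContinuousLinearMap.proj (R := ℂ) (φ := fun _ : Option ι => ℂ) o).analyticAt y
  have h1 : AnalyticAt ℂ (fun y : Option ι → ℂ => B (y none)) y := AnalyticAt.comp (g := B) (f := fun y : Option ι → ℂ => y none) hB (hev none)
  have h2 : AnalyticAt ℂ (fun y : Option ι → ℂ => (fun j => y (some j) : ι → ℂ)) y := by
    rw [analyticAt_pi_iff]
    exact fun j => hev (some j)
  have h3 : AnalyticAt ℂ (fun y : Option ι → ℂ => B (y none) (fun j => y (some j))) y := by
    have e := ((ContinuousLinearMap.id ℂ ((ι → ℂ) →L[ℂ] (ι → ℂ))).analyticAt_bilinear (B (y none), (fun j => y (some j) : ι → ℂ)))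
    exact AnalyticAt.comp (g := fun p : ((ι → ℂ) →L[ℂ] (ι → ℂ)) × (ι → ℂ) => p.1 p.2) (f := fun y : Option ι → ℂ => (B (y none), (fun j => y (some j) : ι → ℂ)))
      e (h1.prod h2)
  show AnalyticAt ℂ (fun y => fieldB B y) y
  rw [analyticAt_pi_iff]
  rintro (_ | i)
  · exact analyticAt_const
  · exact (ContinuousLinearMap.proj (R := ℂ) (φ := fun _ : ι => ℂ) i).analyticAt _ |>.comp h3

omit [Fintype ι] in
private theorem hasDerivAt_pr [Finite ι] {B : ℂ → (ι → ℂ) →L[ℂ] (ι → ℂ)} {U : ℂ → ι → ℂ} {t : ℂ} (h : HasDerivAt U (B t (U t)) t) :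
    HasDerivAt (fun s => pr s (U s)) (fieldB B (pr t (U t))) t := by
  rw [hasDerivAt_pi]
  rintro (_ | i)
  · exact hasDerivAt_id t
  · exact (hasDerivAt_pi.1 h) i

/-- local uniqueness -/
theorem linear_unique_nhds {B : ℂ → (ι → ℂ) →L[ℂ] (ι → ℂ)} {U V : ℂ → ι → ℂ} {t : ℂ} (hB : AnalyticAt ℂ B t) (e : U t = V t)
    (hU : ∀ᶠ s in 𝓝 t, HasDerivAt U (B s (U s)) s) (hV : ∀ᶠ s in 𝓝 t, HasDerivAt V (B s (V s)) s) : U =ᶠ[𝓝 t] V := by
  have h := Pool.Agent.GG.ode_uniqueG (V := fieldB B) (y₁ := fun s => pr s (U s)) (y₂ := fun s => pr s (V s)) (t := t)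
    (analyticAt_fieldB (by exact hB)) (by show pr t (U t) = pr t (V t); rw [e]) (hU.mono fun s hs => hasDerivAt_pr hs)
    (hV.mono fun s hs => hasDerivAt_pr hs)
  filter_upwards [h] with s hs
  funext i
  exact congrFun hs (some i)

theorem analyticOnNhd_of_linear {B : ℂ → (ι → ℂ) →L[ℂ] (ι → ℂ)} {U : ℂ → ι → ℂ} {W : Set ℂ} (hW : IsOpen W)
    (hU : ∀ t ∈ W, HasDerivAt U (B t (U t)) t) : AnalyticOnNhd ℂ U W :=
  DifferentiableOn.analyticOnNhd (fun t ht => (hU t ht).differentiableAt.differentiableWithinAt) hW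

/-- uniqueness on a connected open set -/
theorem linear_unique {B : ℂ → (ι → ℂ) →L[ℂ] (ι → ℂ)} {U V : ℂ → ι → ℂ} {W : Set ℂ} (hW : IsOpen W) (hc : IsPreconnected W) {t : ℂ} (ht : t ∈ W)
    (hB : AnalyticAt ℂ B t) (e : U t = V t) (hU : ∀ s ∈ W, HasDerivAt U (B s (U s)) s) (hV : ∀ s ∈ W, HasDerivAt V (B s (V s)) s) :
    EqOn U V W :=
  (analyticOnNhd_of_linear hW hU).eqOn_of_preconnected_of_eventuallyEq (analyticOnNhd_of_linear hW hV) hc ht
    (linear_unique_nhds hB e ((hW.eventually_mem ht).mono hU) ((hW.eventually_mem ht).mono hV))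

/-- MODULE CntB: solutions on a ball, with any value at any point of the ball. -/
theorem exists_linear {B : ℂ → (ι → ℂ) →L[ℂ] (ι → ℂ)} {z : ℂ} (hB : AnalyticAt ℂ B z) {R : ℝ} (hR : 0 < R) :
    ∃ r > 0, r ≤ R ∧ (∀ w ∈ ball z r, AnalyticAt ℂ B w) ∧ ∀ w ∈ ball z r, ∀ u₀ : ι → ℂ, ∃ U : ℂ → ι → ℂ, U w = u₀ ∧
      ∀ t ∈ ball z r, HasDerivAt U (B t (U t)) t := by
  classical
  obtain ⟨r, hr, H, hHa, hH0, hHd⟩ := Pool.Agent.GG.exists_flowG (V := fieldB B) (x₀ := pr z 0) (analyticAt_fieldB (by exact hB))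
  obtain ⟨s, hs, hBs⟩ := Metric.eventually_nhds_iff_ball.1 hB.eventually_analyticAt
  refine ⟨min (min R s) (r / 2), lt_min (lt_min hR hs) (half_pos hr), (min_le_left _ _).trans (min_le_left _ _), ?_, ?_⟩
  · intro w hw
    exact hBs w (ball_subset_ball ((min_le_left _ _).trans (min_le_right _ _)) hw)
  intro w hw u₀
  have hwr : dist w z < r / 2 := (mem_ball.1 hw).trans_le (min_le_right _ _)
  -- a small multiple of the initial value
  obtain ⟨c, hc0, hc⟩ : ∃ c : ℂ, c ≠ 0 ∧ ‖c • u₀‖ < r := by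
    refine ⟨((r / (2 * (‖u₀‖ + 1)) : ℝ) : ℂ), ?_, ?_⟩
    · have : (0 : ℝ) < r / (2 * (‖u₀‖ + 1)) := by positivity
      exact_mod_cast this.ne'
    · have h0 : (0 : ℝ) < r / (2 * (‖u₀‖ + 1)) := by positivity
      rw [norm_smul, Complex.norm_real, Real.norm_of_nonneg h0.le, div_mul_eq_mul_div, div_lt_iff₀ (by positivity)]
      nlinarith [norm_nonneg u₀]
  have hx : pr w (c • u₀) ∈ ball (pr z (0 : ι → ℂ)) r := by
    rw [mem_ball, dist_pi_lt_iff hr]
    rintro (_ | i)
    · show dist w z < r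
      linarith
    · show dist ((c • u₀) i) 0 < r
      rw [dist_zero_right]
      exact (norm_le_pi_norm (c • u₀) i).trans_lt hc
  obtain ⟨Y, hYdef⟩ : ∃ Y : ℂ → Option ι → ℂ, Y = fun ζ => H (ζ, pr w (c • u₀)) := ⟨_, rfl⟩
  have hY : ∀ ζ ∈ ball (0 : ℂ) r, HasDerivAt Y (fieldB B (Y ζ)) ζ := by
    intro ζ hζ
    rw [hYdef]
    exact (hHd _ hx ζ hζ).2
  have hY0 : Y 0 = pr w (c • u₀) := by rw [hYdef]; exact hH0 _ hx
  -- the first component
  have hfst : ∀ ζ ∈ ball (0 : ℂ) r, Y ζ none = w + ζ := by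
    intro ζ hζ
    have hd : ∀ x ∈ ball (0 : ℂ) r, HasDerivWithinAt (fun x => Y x none - x) 0 (ball (0 : ℂ) r) x := by
      intro x hx
      have h1 : HasDerivAt (fun x => Y x none) 1 x := (hasDerivAt_pi.1 (hY x hx)) none
      have h2 := h1.sub (hasDerivAt_id x)
      rw [sub_self] at h2
      exact h2.hasDerivWithinAt
    have h3 := (convex_ball (0 : ℂ) r).norm_image_sub_le_of_norm_hasDerivWithin_le (f := fun x => Y x none - x) (f' := fun _ => 0) (C := 0)
      hd (fun x _ => by simp) (mem_ball_self hr) hζ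
    have h4 : Y ζ none - ζ - (Y 0 none - 0) = 0 := by
      have h5 : ‖Y ζ none - ζ - (Y 0 none - 0)‖ ≤ 0 * ‖ζ - 0‖ := h3
      rw [zero_mul] at h5
      exact norm_le_zero_iff.1 h5
    have h6 : Y 0 none = w := by rw [hY0]; rfl
    rw [h6] at h4
    linear_combination h4
  refine ⟨fun t => c⁻¹ • fun i => Y (t - w) (some i), ?_, ?_⟩
  · show c⁻¹ • (fun i => Y (w - w) (some i)) = u₀
    rw [sub_self, hY0]
    show c⁻¹ • (c • u₀) = u₀
    rw [smul_smul, inv_mul_cancel₀ hc0, one_smul]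
  · intro t ht
    have htr : dist t z < r / 2 := (mem_ball.1 ht).trans_le (min_le_right _ _)
    have hm : t - w ∈ ball (0 : ℂ) r := by
      rw [mem_ball, dist_zero_right, ← dist_eq_norm]
      calc dist t w ≤ dist t z + dist w z := dist_triangle_right _ _ _
        _ < r := by linarith
    have h1 : HasDerivAt (fun t => Y (t - w)) (fieldB B (Y (t - w))) t := by
      have h0 := (hY _ hm).scomp t ((hasDerivAt_id t).sub_const w)
      rw [one_smul] at h0
      exact h0
    have h2 : HasDerivAt (fun t => (fun i => Y (t - w) (some i) : ι → ℂ)) (fun i => fieldB B (Y (t - w)) (some i)) t := by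
      rw [hasDerivAt_pi]
      exact fun i => (hasDerivAt_pi.1 h1) (some i)
    have h3 := h2.const_smul c⁻¹
    have e : B t (c⁻¹ • fun i => Y (t - w) (some i)) = c⁻¹ • fun i => fieldB B (Y (t - w)) (some i) := by
      rw [map_smul]
      congr 1
      funext i
      show _ = B (Y (t - w) none) (fun j => Y (t - w) (some j)) i
      rw [hfst _ hm]
      ring_nf
    show HasDerivAt (fun t => c⁻¹ • fun i => Y (t - w) (some i)) (B t (c⁻¹ • fun i => Y (t - w) (some i))) t
    rw [e]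
    exact h3

end Pool.Agent.GA
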