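import Pool.Agent.GA.ADefs

/-!
# GA Lin1: a variation field in a chart is a variation field
-/

set_option autoImplicit false

open MvPolynomial Topology Filter Metric
open Pool.Agent.H13.SM (conTan cone)
open Pool.Agent.GG (SymSec Ph pt Frame gfam)

noncomputable section

namespace Pool.Agent.GA

namespace Lin1

variable {N : ℕ}

theorem mero_apply {σ : Type} [Fintype σ] {f : ℂ → σ → ℂ} {z : ℂ} (h : MeromorphicAt f z) (i : σ) : MeromorphicAt (fun w => f w i) z := by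
  obtain ⟨n, hn⟩ := h
  exact ⟨n, analyticAt_pi_iff.1 hn i⟩

theorem mero_eval {σ : Type} {y : ℂ → σ → ℂ} {z : ℂ} (hy : ∀ s, MeromorphicAt (fun w => y w s) z) (G : MvPolynomial σ ℂ) :
    MeromorphicAt (fun w => eval (y w) G) z := by
  induction G using MvPolynomial.induction_on with
  | C a =>
    simp only [eval_C]
    exact MeromorphicAt.const a z
  | add p q hp hq =>
    simp only [map_add]
    exact hp.add hq
  | mul_X p i hp =>
    simp only [map_mul, eval_X]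
    exact hp.mul (hy i)

theorem mero_pt {x : ℂ → Fin (N + 1) → ℂ} {z : ℂ} (hx : MeromorphicAt x z) (s : Ph N) : MeromorphicAt (fun w => pt (x w) (deriv x w) s) z := by
  rcases s with b | b
  · exact mero_apply hx b
  · exact mero_apply hx.deriv b

theorem mero_lhs {x V : ℂ → Fin (N + 1) → ℂ} {z : ℂ} (hx : MeromorphicAt x z) (hV : MeromorphicAt V z) (G : MvPolynomial (Ph N) ℂ) :
    MeromorphicAt (lhs G x V) z :=
  MeromorphicAt.fun_sum fun s _ => (mero_eval (fun t => mero_pt hx t) _).mul (mero_pt hV s)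

theorem an_eval {σ : Type} {y : ℂ → σ → ℂ} {z : ℂ} (hy : ∀ s, AnalyticAt ℂ (fun w => y w s) z) (G : MvPolynomial σ ℂ) :
    AnalyticAt ℂ (fun w => eval (y w) G) z := by
  induction G using MvPolynomial.induction_on with
  | C a =>
    simp only [eval_C]
    exact analyticAt_const
  | add p q hp hq =>
    simp only [map_add]
    exact hp.add hq
  | mul_X p i hp =>
    simp only [map_mul, eval_X]
    exact hp.mul (hy i)

theorem an_pt {x : ℂ → Fin (N + 1) → ℂ} {z : ℂ} (hx : AnalyticAt ℂ x z) (s : Ph N) : AnalyticAt ℂ (fun w => pt (x w) (deriv x w) s) z := by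
  rcases s with b | b
  · exact analyticAt_pi_iff.1 hx b
  · exact analyticAt_pi_iff.1 hx.deriv b

theorem an_lhs {x V : ℂ → Fin (N + 1) → ℂ} {z : ℂ} (hx : AnalyticAt ℂ x z) (hV : AnalyticAt ℂ V z) (G : MvPolynomial (Ph N) ℂ) :
    AnalyticAt ℂ (lhs G x V) z := by
  unfold lhs
  exact Finset.analyticAt_fun_sum _ fun s _ => (an_eval (fun t => an_pt hx t) _).mul (an_pt hV s)

end Lin1

open Lin1

variable {N : ℕ} {P : Ideal (MvPolynomial (Fin (N + 1)) ℂ)} {J : ℕ} {m : Fin J → ℕ} {θ : ∀ k, SymSec P (m k)} {F : ℂ → Fin (N + 1) → ℂ}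
  {U : Set ℂ} {Z : ℂ → Fin (N + 1) × Fin (N + 1) → ℂ}

/-- MODULE Lin1.  `Z'_ij = F_i F_b V_j - F_j F_b V_i`; identity theorem for the meromorphic functions `lhs (gfam f b' l) (xb F b') (Vb F Z' b')` on the ball. -/
theorem isVar_of_chart {f : Frame θ} (hF : IsCurve P F U) {z₁ z₂ : ℂ} {ρ : ℝ} (hρ : ball z₁ ρ ⊆ U) {b : Fin (N + 1)} (hb : ∀ w ∈ ball z₁ ρ, F w b ≠ 0)
    {V : ℂ → Fin (N + 1) → ℂ} (hV : ∀ w ∈ ball z₁ ρ, AnalyticAt ℂ V w) (hz : z₂ ∈ ball z₁ ρ) (hZ : IsVar f F Z z₂) (hVZ : V =ᶠ[𝓝 z₂] Vb F Z b) :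
    ∃ Z' : ℂ → Fin (N + 1) × Fin (N + 1) → ℂ, (∀ w ∈ ball z₁ ρ, IsVar f F Z' w) ∧ Z' =ᶠ[𝓝 z₂] Z := by
  set Z' : ℂ → Fin (N + 1) × Fin (N + 1) → ℂ := fun w p => F w p.1 * F w b * V w p.2 - F w p.2 * F w b * V w p.1 with hZ'
  have hFan : ∀ w ∈ ball z₁ ρ, AnalyticAt ℂ F w := fun w hw => hF.an w (hρ hw)
  have hFc : ∀ w ∈ ball z₁ ρ, ∀ c, AnalyticAt ℂ (fun w => F w c) w := fun w hw c => analyticAt_pi_iff.1 (hFan w hw) c
  have hVc : ∀ w ∈ ball z₁ ρ, ∀ c, AnalyticAt ℂ (fun w => V w c) w := fun w hw c => analyticAt_pi_iff.1 (hV w hw) c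
  have hZan : ∀ w ∈ ball z₁ ρ, AnalyticAt ℂ Z' w := fun w hw => analyticAt_pi_iff.2 fun p =>
    (((hFc w hw p.1).mul (hFc w hw b)).mul (hVc w hw p.2)).sub (((hFc w hw p.2).mul (hFc w hw b)).mul (hVc w hw p.1))
  have hZZ : Z' =ᶠ[𝓝 z₂] Z := by
    filter_upwards [hVZ, hZ.2, isOpen_ball.mem_nhds hz] with w h1 h2 h3
    have h4 := (h2 b (hb w h3)).1
    funext p
    rw [h4 p.1 p.2, ← h1]
  refine ⟨Z', fun w hw => ⟨hZan w hw, ?_⟩, hZZ⟩
  rw [Filter.eventually_all]
  intro c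
  -- the points where `F_c` is not `0`
  by_cases hc : ∀ᶠ w' in 𝓝 z₂, F w' c = 0
  · have h1 : Set.EqOn (fun w => F w c) (fun _ => 0) (ball z₁ ρ) :=
      AnalyticOnNhd.eqOn_of_preconnected_of_eventuallyEq (fun w hw => hFc w hw c) (fun w _ => analyticAt_const)
        (convex_ball z₁ ρ).isPreconnected hz hc
    filter_upwards [isOpen_ball.mem_nhds hw] with w' hw' h2
    exact absurd (h1 hw') h2
  · have hZc : ∀ w ∈ ball z₁ ρ, AnalyticAt ℂ (fun w j => Z' w (c, j)) w := fun w hw => analyticAt_pi_iff.2 fun j => analyticAt_pi_iff.1 (hZan w hw) (c, j)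
    have hxm : ∀ w ∈ ball z₁ ρ, MeromorphicAt (xb F c) w := fun w hw => (hFc w hw c).meromorphicAt.inv.smul (hFan w hw).meromorphicAt
    have hVm : ∀ w ∈ ball z₁ ρ, MeromorphicAt (Vb F Z' c) w := by
      intro w hw
      have h1 : MeromorphicAt ((fun w => F w c ^ 2)⁻¹ • fun w (j : Fin (N + 1)) => Z' w (c, j)) w :=
        ((hFc w hw c).pow 2).meromorphicAt.inv.smul (hZc w hw).meromorphicAt
      refine h1.congr (Eventually.of_forall fun w' => ?_)
      funext j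
      show (F w' c ^ 2)⁻¹ * Z' w' (c, j) = Z' w' (c, j) / F w' c ^ 2
      rw [div_eq_inv_mul]
    have hxa : ∀ w ∈ ball z₁ ρ, F w c ≠ 0 → AnalyticAt ℂ (xb F c) w := fun w hw h => ((hFc w hw c).inv h).smul (hFan w hw)
    have hVa : ∀ w ∈ ball z₁ ρ, F w c ≠ 0 → AnalyticAt ℂ (Vb F Z' c) w := fun w hw h =>
      analyticAt_pi_iff.2 fun j => (analyticAt_pi_iff.1 (hZan w hw) (c, j)).div ((hFc w hw c).pow 2) (pow_ne_zero 2 h)
    have hL : ∀ l, ∀ᶠ w' in 𝓝 w, F w' c ≠ 0 → lhs (gfam f c l) (xb F c) (Vb F Z' c) w' = 0 := by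
      intro l
      have hm : MeromorphicOn (lhs (gfam f c l) (xb F c) (Vb F Z' c)) (ball z₁ ρ) := fun w hw => mero_lhs (hxm w hw) (hVm w hw) _
      have hc' : ∀ᶠ w' in 𝓝[≠] z₂, F w' c ≠ 0 := by
        rcases (hFc z₂ hz c).eventually_eq_zero_or_eventually_ne_zero with h1 | h1
        · exact absurd h1 hc
        · exact h1
      have h0 : meromorphicOrderAt (lhs (gfam f c l) (xb F c) (Vb F Z' c)) z₂ = ⊤ := by
        rw [meromorphicOrderAt_eq_top_iff]
        have h2 : ∀ᶠ w' in 𝓝 z₂, Z' =ᶠ[𝓝 w'] Z := hZZ.eventually_nhds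
        filter_upwards [hc', hZ.2.filter_mono nhdsWithin_le_nhds, h2.filter_mono nhdsWithin_le_nhds] with w' h3 h4 h5
        have h6 := (h4 c h3).2 l
        have h7 : Vb F Z' c =ᶠ[𝓝 w'] Vb F Z c := h5.mono fun u hu => by
          funext j
          show Z' u (c, j) / _ = Z u (c, j) / _
          rw [hu]
        unfold lhs at h6 ⊢
        rw [h7.eq_of_nhds, h7.deriv_eq]
        exact h6
      have h1 : meromorphicOrderAt (lhs (gfam f c l) (xb F c) (Vb F Z' c)) w = ⊤ := by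
        by_contra h2
        exact (hm.meromorphicOrderAt_ne_top_of_isPreconnected (convex_ball z₁ ρ).isPreconnected hw hz h2) h0
      rw [meromorphicOrderAt_eq_top_iff] at h1
      by_cases hcw : F w c = 0
      · filter_upwards [eventually_nhdsWithin_iff.1 h1] with w' h2 h3
        exact h2 fun h4 => h3 (by rw [Set.mem_singleton_iff.1 h4]; exact hcw)
      · have h2 : AnalyticAt ℂ (lhs (gfam f c l) (xb F c) (Vb F Z' c)) w := an_lhs (hxa w hw hcw) (hVa w hw hcw) _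
        have h3 : ∀ᶠ w' in 𝓝 w, lhs (gfam f c l) (xb F c) (Vb F Z' c) w' = 0 := by
          rcases h2.eventually_eq_zero_or_eventually_ne_zero with h4 | h4
          · exact h4
          · obtain ⟨w', h5, h6⟩ := (h4.and h1).exists
            exact absurd h6 h5
        exact h3.mono fun w' h4 _ => h4
    filter_upwards [Filter.eventually_all.2 hL, isOpen_ball.mem_nhds hw] with w' h1 h2 h3
    refine ⟨fun i j => ?_, fun l => h1 l h3⟩
    show F w' i * F w' b * V w' j - F w' j * F w' b * V w' i = F w' i * F w' c * ((F w' c * F w' b * V w' j - F w' j * F w' b * V w' c) / F w' c ^ 2) -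
      F w' j * F w' c * ((F w' c * F w' b * V w' i - F w' i * F w' b * V w' c) / F w' c ^ 2)
    field_simp
    ring

end Pool.Agent.GA
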