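import Pool.Agent.GA.Lin0
import Pool.Agent.GA.Lin1
import Pool.Agent.GA.CntA
import Pool.Agent.GA.CntB

/-!
# GA Cnt: a variation field near a point of a convex open set extends to the set

`exists_continuation` (`CntA`) for the property `IsVar f F`; the local extension: `exists_linODE`, `exists_linear`, `linear_unique` (`CntB`), `isVar_of_chart`.
-/

set_option autoImplicit false

open MvPolynomial Topology Filter Metric Set
open Pool.Agent.H13.SM (conTan cone)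
open Pool.Agent.H62.FC (Homog)
open Pool.Agent.GG

namespace Pool.Agent.GA

variable {N : ℕ} {P : Ideal (MvPolynomial (Fin (N + 1)) ℂ)} {J : ℕ} {m : Fin J → ℕ} {θ : ∀ k, SymSec P (m k)} {F : ℂ → Fin (N + 1) → ℂ}
  {U : Set ℂ} {Z Z' : ℂ → Fin (N + 1) × Fin (N + 1) → ℂ}

theorem Vb_congr {w : ℂ} (h : Z =ᶠ[𝓝 w] Z') (b : Fin (N + 1)) : Vb F Z b =ᶠ[𝓝 w] Vb F Z' b := by
  filter_upwards [h] with w' hw'
  unfold Vb
  rw [hw']

theorem lhs_congr {G : MvPolynomial (Ph N) ℂ} {x V V' : ℂ → Fin (N + 1) → ℂ} {w : ℂ} (h : V =ᶠ[𝓝 w] V') : lhs G x V w = lhs G x V' w := by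
  unfold lhs
  rw [h.eq_of_nhds, h.deriv_eq]

theorem IsVar.congr {f : Frame θ} {z : ℂ} (h : IsVar f F Z z) (e : Z =ᶠ[𝓝 z] Z') : IsVar f F Z' z := by
  refine ⟨h.1.congr e, ?_⟩
  filter_upwards [h.2, eventually_eventually_nhds.2 e] with w hw he b hb
  obtain ⟨h1, h2⟩ := hw b hb
  have e1 : Z w = Z' w := he.self_of_nhds
  have he' : Z =ᶠ[𝓝 w] Z' := he
  have e2 := Vb_congr (F := F) he' b
  refine ⟨fun i j => ?_, fun l => ?_⟩
  · rw [← e1, ← e2.eq_of_nhds]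
    exact h1 i j
  · rw [← lhs_congr e2]
    exact h2 l

theorem IsVar.eventually {f : Frame θ} {z : ℂ} (h : IsVar f F Z z) : ∀ᶠ w in 𝓝 z, IsVar f F Z w := by
  filter_upwards [h.1.eventually_analyticAt, eventually_eventually_nhds.2 h.2] with w h1 h2
  exact ⟨h1, h2⟩

theorem analyticAt_Vb {b : Fin (N + 1)} {w : ℂ} (hF : AnalyticAt ℂ F w) (hZ : AnalyticAt ℂ Z w) (hb : F w b ≠ 0) : AnalyticAt ℂ (Vb F Z b) w := by
  show AnalyticAt ℂ (fun w => Vb F Z b w) w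
  rw [analyticAt_pi_iff]
  intro j
  have h1 : AnalyticAt ℂ (fun w => Z w (b, j)) w := (analyticAt_pi_iff.1 hZ) (b, j)
  have h2 : AnalyticAt ℂ (fun w => F w b) w := (analyticAt_pi_iff.1 hF) b
  exact h1.div (h2.pow 2) (pow_ne_zero 2 hb)

/-- MODULE Cnt (with CntA, CntB) -/
theorem exists_cont (hP : Homog P) (hθ : Polar θ) (hm : ∀ k, 1 ≤ m k) (f : Frame θ) (hf : HomFr f) (hF : IsCurve P F U) (hU : Convex ℝ U) {w₀ : ℂ} (hw : w₀ ∈ U)
    (hZ : IsVar f F Z w₀) : ∃ Z' : ℂ → Fin (N + 1) × Fin (N + 1) → ℂ, (∀ w ∈ U, IsVar f F Z' w) ∧ Z' =ᶠ[𝓝 w₀] Z := by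
  have huniq : ∀ W : Set ℂ, Convex ℝ W → ∀ σ σ' : ℂ → Fin (N + 1) × Fin (N + 1) → ℂ, (∀ w ∈ W, IsVar f F σ w) →
      (∀ w ∈ W, IsVar f F σ' w) → ∀ z ∈ W, σ =ᶠ[𝓝 z] σ' → EqOn σ σ' W := by
    intro W hWc σ σ' h1 h2 z hz he
    exact AnalyticOnNhd.eqOn_of_preconnected_of_eventuallyEq (fun w hw => (h1 w hw).1) (fun w hw => (h2 w hw).1) hWc.isPreconnected hz he
  refine exists_continuation hF.isOpen hU (Sol := fun σ z => IsVar f F σ z) (fun σ σ' z h e => h.congr e) (fun σ z _ h => h.eventually)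
    (fun W _ hWc _ => huniq W hWc) ?_ hw hZ
  intro z hz
  obtain ⟨b, hb⟩ : ∃ b, F z b ≠ 0 := by
    by_contra hcon
    push Not at hcon
    exact (hF.mem z hz).1 (funext hcon)
  obtain ⟨ρ, hρ, hρU, hρb, B, hB, hBV⟩ := exists_linODE hP hθ hm f hf hF hz hb
  obtain ⟨r, hr, hrρ, hBr, hsol⟩ := exists_linear (hB z (mem_ball_self hρ)) hρ
  have hsub : ball z r ⊆ ball z ρ := ball_subset_ball hrρ
  refine ⟨r, hr, hsub.trans hρU, fun W hWo hWc hWr hWn σ hσ => ?_⟩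
  obtain ⟨w, hwW⟩ := hWn
  have hV₀ : ∀ s ∈ W, HasDerivAt (Vb F σ b) (B s (Vb F σ b s)) s := by
    intro s hs
    have h1 : AnalyticAt ℂ (Vb F σ b) s := analyticAt_Vb (hF.an s (hρU (hsub (hWr hs)))) (hσ s hs).1 (hρb s (hsub (hWr hs)))
    have h2 : ∀ᶠ t in 𝓝 s, ∀ l, lhs (gfam f b l) (xb F b) (Vb F σ b) t = 0 := by
      have h3 : ∀ᶠ t in 𝓝 s, t ∈ ball z ρ := isOpen_ball.mem_nhds (hsub (hWr hs))
      filter_upwards [(hσ s hs).2, h3] with t ht ht' l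
      exact (ht b (hρb t ht')).2 l
    have h4 := (hBV s (hsub (hWr hs)) (Vb F σ b) h1 h2).self_of_nhds
    rw [← h4]
    exact h1.differentiableAt.hasDerivAt
  obtain ⟨V, hVw, hV⟩ := hsol w (hWr hwW) (Vb F σ b w)
  have hVeq : EqOn V (Vb F σ b) W :=
    linear_unique hWo hWc.isPreconnected hwW (hBr w (hWr hwW)) hVw (fun s hs => hV s (hWr hs)) hV₀
  have hVZ : V =ᶠ[𝓝 w] Vb F σ b := by
    filter_upwards [hWo.mem_nhds hwW] with s hs using hVeq hs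
  obtain ⟨Z', hZ', hZZ⟩ := isVar_of_chart (f := f) hF (hsub.trans hρU) (fun s hs => hρb s (hsub hs))
    (fun s hs => analyticOnNhd_of_linear isOpen_ball hV s hs) (hWr hwW) (hσ w hwW) hVZ
  exact ⟨Z', hZ', huniq W hWc σ Z' hσ (fun s hs => hZ' s (hWr hs)) w hwW hZZ.symm⟩

end Pool.Agent.GA
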