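import Mathlib

/-!
# GA Sel: the selection of good levels

`A` is continuous, monotone, unbounded and `T X = ∫_1^X A`.  Then there are `X n → ∞` with `X n * A (X n) ≤ ε n * T (X n) ^ 2`, `ε n → 0`.
-/

set_option autoImplicit false

open Filter Topology MeasureTheory intervalIntegral Set

namespace Pool.Agent.GA

/-- the integral of `A` -/
noncomputable def TT (A : ℝ → ℝ) (X : ℝ) : ℝ := ∫ t in (1 : ℝ)..X, A t

variable {A : ℝ → ℝ}

theorem TT_sub (hc : Continuous A) (a b : ℝ) : TT A b - TT A a = ∫ t in a..b, A t := by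
  unfold TT
  rw [integral_interval_sub_left (hc.intervalIntegrable _ _) (hc.intervalIntegrable _ _)]

theorem hasDerivAt_TT (hc : Continuous A) (X : ℝ) : HasDerivAt (TT A) (A X) X :=
  integral_hasDerivAt_right (hc.intervalIntegrable _ _) (hc.stronglyMeasurableAtFilter _ _) hc.continuousAt

theorem TT_sub_le (hc : Continuous A) (hm : Monotone A) {a b : ℝ} (hab : a ≤ b) : TT A b - TT A a ≤ (b - a) * A b := by
  rw [TT_sub hc]
  have h := intervalIntegral.integral_mono_on (μ := volume) hab (hc.intervalIntegrable _ _)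
    (g := fun _ => A b) intervalIntegrable_const (fun x hx => hm hx.2)
  simpa using h

theorem le_TT_sub (hc : Continuous A) (hm : Monotone A) {a b : ℝ} (hab : a ≤ b) : (b - a) * A a ≤ TT A b - TT A a := by
  rw [TT_sub hc]
  have h := intervalIntegral.integral_mono_on (μ := volume) hab (f := fun _ => A a) intervalIntegrable_const (hc.intervalIntegrable _ _)
    (fun x hx => hm hx.1)
  simpa using h

/-- `T X / X → ∞` -/
theorem tendsto_TT_div (hc : Continuous A) (hm : Monotone A) (hA : Tendsto A atTop atTop) :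
    Tendsto (fun X => TT A X / X) atTop atTop := by
  rw [tendsto_atTop]
  intro C
  obtain ⟨a, ha⟩ := (hA.eventually_ge_atTop (2 * |C| + 2)).exists_forall_of_atTop
  have h2 : ∀ᶠ X in atTop, |TT A a| + (2 * |C| + 2) * |a| ≤ X := eventually_ge_atTop _
  filter_upwards [h2, eventually_ge_atTop a, eventually_ge_atTop 1] with X hX haX h1
  have h3 := le_TT_sub hc hm haX
  have h4 := ha a le_rfl
  have h5 : (X - a) * (2 * |C| + 2) ≤ (X - a) * A a := mul_le_mul_of_nonneg_left h4 (by linarith)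
  have hXpos : 0 < X := by linarith
  rw [le_div_iff₀ hXpos]
  have h6 : C ≤ |C| := le_abs_self C
  have h7 : -|TT A a| ≤ TT A a := neg_abs_le _
  have h8 : a ≤ |a| := le_abs_self a
  nlinarith [abs_nonneg C, abs_nonneg a, mul_nonneg (abs_nonneg C) (abs_nonneg a), mul_le_mul_of_nonneg_left h8 (abs_nonneg C),
    mul_le_mul_of_nonneg_right h6 hXpos.le]

/-- for every `ε` there are arbitrarily large `X` with `X A(X) < ε T(X)^2` -/
theorem exists_sel (hc : Continuous A) (hm : Monotone A) (hA : Tendsto A atTop atTop) {ε : ℝ} (hε : 0 < ε) (X₀ : ℝ) :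
    ∃ X, X₀ ≤ X ∧ X * A X < ε * TT A X ^ 2 := by
  by_contra hcon
  push Not at hcon
  have hT := tendsto_TT_div hc hm hA
  obtain ⟨a, ha⟩ := (hT.eventually_ge_atTop 1).exists_forall_of_atTop
  set X₁ := max (max X₀ a) 1 with hX1
  have h1 : ∀ X, X₁ ≤ X → X ≤ TT A X := by
    intro X hX
    have h2 := ha X (le_trans (le_trans (le_max_right _ _) (le_max_left _ _)) hX)
    have h3 : 0 < X := lt_of_lt_of_le one_pos (le_trans (le_max_right _ _) hX)
    rwa [le_div_iff₀ h3, one_mul] at h2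
  have hpos : ∀ X, X₁ ≤ X → 0 < X := fun X hX => lt_of_lt_of_le one_pos (le_trans (le_max_right _ _) hX)
  have hTpos : ∀ X, X₁ ≤ X → 0 < TT A X := fun X hX => lt_of_lt_of_le (hpos X hX) (h1 X hX)
  have hder : ∀ X, X₁ ≤ X → HasDerivAt (fun X => -(TT A X)⁻¹ - ε * Real.log X) (A X / TT A X ^ 2 - ε * X⁻¹) X := by
    intro X hX
    have e1 := (hasDerivAt_TT hc X).inv (hTpos X hX).ne'
    have e2 := (Real.hasDerivAt_log (hpos X hX).ne').const_mul ε
    have e3 := e1.neg.sub e2
    exact e3.congr_deriv (by rw [neg_div, neg_neg])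
  have hmono : MonotoneOn (fun X => -(TT A X)⁻¹ - ε * Real.log X) (Ici X₁) := by
    apply monotoneOn_of_deriv_nonneg (convex_Ici X₁)
    · exact fun X hX => (hder X hX).continuousAt.continuousWithinAt
    · intro X hX
      rw [interior_Ici] at hX
      exact (hder X (le_of_lt hX)).differentiableAt.differentiableWithinAt
    · intro X hX
      rw [interior_Ici] at hX
      have hX' : X₁ ≤ X := le_of_lt hX
      rw [(hder X hX').deriv]
      have h4 := hcon X (le_trans (le_trans (le_max_left _ _) (le_max_left _ _)) hX')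
      have h5 := hpos X hX'
      have h6 := hTpos X hX'
      have h7 : ε * X⁻¹ ≤ A X / TT A X ^ 2 := by
        rw [le_div_iff₀ (by positivity), mul_assoc, inv_mul_eq_div, ← mul_div_assoc, div_le_iff₀ h5]
        linarith
      linarith
  have hlog : Tendsto (fun X => ε * Real.log X) atTop atTop := Tendsto.const_mul_atTop hε Real.tendsto_log_atTop
  obtain ⟨X, hX, hX2⟩ := ((hlog.eventually_gt_atTop ((TT A X₁)⁻¹ + ε * Real.log X₁)).and (eventually_ge_atTop X₁)).exists
  have h8 := hmono (mem_Ici.mpr le_rfl) hX2 hX2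
  simp only at h8
  have h9 : 0 < (TT A X)⁻¹ := inv_pos.mpr (hTpos X hX2)
  linarith

/-- **The selection of levels.** -/
theorem sel (hc : Continuous A) (hm : Monotone A) (hA : Tendsto A atTop atTop) :
    ∃ X : ℕ → ℝ, (∀ n : ℕ, (n : ℝ) + 4 ≤ X n) ∧ (∀ n : ℕ, ((n : ℝ) + 1) * (X n * A (X n)) ≤ TT A (X n) ^ 2) ∧
      (∀ n : ℕ, ((n : ℝ) + 1) * X n ≤ TT A (X n)) ∧ (∀ n : ℕ, TT A (X n) ≤ 2 * TT A (X n - 2 / TT A (X n))) := by
  have hT := tendsto_TT_div hc hm hA
  have key : ∀ n : ℕ, ∃ X : ℝ, (n : ℝ) + 4 ≤ X ∧ ((n : ℝ) + 1) * (X * A X) ≤ TT A X ^ 2 ∧ ((n : ℝ) + 1) * X ≤ TT A X ∧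
      TT A X ≤ 2 * TT A (X - 2 / TT A X) := by
    intro n
    obtain ⟨a, ha⟩ := (hT.eventually_ge_atTop ((n : ℝ) + 1)).exists_forall_of_atTop
    obtain ⟨b, hb⟩ := (hA.eventually_ge_atTop 0).exists_forall_of_atTop
    have hn : (0 : ℝ) < (n : ℝ) + 1 := by positivity
    obtain ⟨X, hX, hX2⟩ := exists_sel hc hm hA (ε := ((n : ℝ) + 1)⁻¹) (inv_pos.mpr hn) (max (max a b) ((n : ℝ) + 4))
    have hX4 : (n : ℝ) + 4 ≤ X := le_trans (le_max_right _ _) hX
    have hXa : a ≤ X := le_trans (le_trans (le_max_left _ _) (le_max_left _ _)) hX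
    have hXb : b ≤ X := le_trans (le_trans (le_max_right _ _) (le_max_left _ _)) hX
    have hXpos : 0 < X := by linarith
    have h1 := ha X hXa
    rw [le_div_iff₀ hXpos] at h1
    have hT0 : 0 < TT A X := lt_of_lt_of_le (by positivity) h1
    have hAX : 0 ≤ A X := hb X hXb
    have h2 : ((n : ℝ) + 1) * (X * A X) ≤ TT A X ^ 2 := by
      have h3 : X * A X ≤ ((n : ℝ) + 1)⁻¹ * TT A X ^ 2 := hX2.le
      calc ((n : ℝ) + 1) * (X * A X) ≤ ((n : ℝ) + 1) * (((n : ℝ) + 1)⁻¹ * TT A X ^ 2) := mul_le_mul_of_nonneg_left h3 hn.le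
        _ = TT A X ^ 2 := by field_simp
    refine ⟨X, hX4, h2, h1, ?_⟩
    have h4 := TT_sub_le hc hm (a := X - 2 / TT A X) (b := X) (by linarith [div_pos two_pos hT0])
    have h5 : X - (X - 2 / TT A X) = 2 / TT A X := by ring
    rw [h5] at h4
    -- 4 A(X) ≤ X A(X) ≤ T^2
    have h6 : 4 * A X ≤ TT A X ^ 2 := by
      have h7 : X * A X ≤ TT A X ^ 2 := by
        have : 1 * (X * A X) ≤ ((n : ℝ) + 1) * (X * A X) :=
          mul_le_mul_of_nonneg_right (by linarith [Nat.cast_nonneg (α := ℝ) n]) (mul_nonneg hXpos.le hAX)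
        linarith
      have : 4 * A X ≤ X * A X := mul_le_mul_of_nonneg_right (by linarith [Nat.cast_nonneg (α := ℝ) n]) hAX
      linarith
    have h8 : 2 / TT A X * A X ≤ TT A X / 2 := by
      rw [div_mul_eq_mul_div, div_le_div_iff₀ hT0 two_pos]
      nlinarith
    linarith
  choose X h1 h2 h3 h4 using key
  exact ⟨X, h1, h2, h3, h4⟩

end Pool.Agent.GA
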