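import Pool.Agent.GG.Defs
import Pool.Agent.GA.Sel

/-!
# GA Defs: holomorphic curves in the half-plane, levels, small functions

PROJECT GG-ALL (notes 4577, 4590, 4594, 4598).  A holomorphic map `f` of the punctured disc is studied by `F w = (lift of f) (r exp (-w))` on the right half-plane
`HP`; it has the period `per = 2 π i`.  The levels and the ring of the small functions only depend on the speed `s : ℂ → ℝ` (here `sp F`), see `GA/Sel` for `TT`.
-/

set_option autoImplicit false

open MvPolynomial Topology Filter Metric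
open Pool.Agent.H13.SM (conTan cone)
open Pool.Agent.H17 (PN VanishesAt)
open Pool.Agent.GG

noncomputable section

namespace Pool.Agent.GA

variable {N : ℕ}

/-- the right half-plane -/
def HP : Set ℂ := {w | 0 < w.re}

/-- the period -/
def per : ℂ := 2 * Real.pi * Complex.I

/-- `F` is a holomorphic periodic map from the half-plane to the cone of `P` -/
structure HCurve (P : Ideal (MvPolynomial (Fin (N + 1)) ℂ)) (F : ℂ → Fin (N + 1) → ℂ) : Prop where
  an : ∀ w ∈ HP, AnalyticAt ℂ F w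
  cone : ∀ w ∈ HP, F w ∈ cone P
  periodic : ∀ w ∈ HP, F (w + per) = F w

/-- the mean over a vertical segment of length `2 π` (times `2 π`) -/
def mn (h : ℂ → ℝ) (t : ℝ) : ℝ := ∫ y in (0 : ℝ)..2 * Real.pi, h (t + y * Complex.I)

/-- the speed of `F` -/
def sp (F : ℂ → Fin (N + 1) → ℂ) (w : ℂ) : ℝ := wl (F w) (deriv F w)

/-- a speed function: continuous, nonnegative and periodic on the half-plane -/
structure Speed (s : ℂ → ℝ) : Prop where
  cont : ContinuousOn s HP
  nonneg : ∀ w ∈ HP, 0 ≤ s w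
  periodic : ∀ w ∈ HP, s (w + per) = s w

/-- the area of `1 < Re w < X` for the speed `s` -/
def AA (s : ℂ → ℝ) (X : ℝ) : ℝ := ∫ t in (1 : ℝ)..max X 1, mn (fun w => s w ^ 2) t

/-- the characteristic function at the level `X n` -/
def tau (s : ℂ → ℝ) (X : ℕ → ℝ) (n : ℕ) : ℝ := TT (AA s) (X n)

/-- the inner level -/
def xi (s : ℂ → ℝ) (X : ℕ → ℝ) (n : ℕ) : ℝ := X n - 2 / tau s X n

/-- the selected levels -/
structure Lev (s : ℂ → ℝ) (X : ℕ → ℝ) : Prop where
  big : ∀ n : ℕ, (n : ℝ) + 4 ≤ X n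
  area : ∀ n : ℕ, ((n : ℝ) + 1) * (X n * AA s (X n)) ≤ tau s X n ^ 2
  sub : ∀ n : ℕ, ((n : ℝ) + 1) * X n ≤ tau s X n
  half : ∀ n : ℕ, tau s X n ≤ 2 * TT (AA s) (xi s X n)

/-- `a` is holomorphic and periodic on the half-plane, and small with all its derivatives on the selected levels -/
structure IsOO (s : ℂ → ℝ) (X : ℕ → ℝ) (a : ℂ → ℂ) : Prop where
  an : ∀ w ∈ HP, AnalyticAt ℂ a w
  periodic : ∀ w ∈ HP, a (w + per) = a w
  small : ∀ j : ℕ, Tendsto (fun n => mn (fun w => Real.posLog ‖iteratedDeriv j a w‖) (xi s X n) / tau s X n) atTop (𝓝 0)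

/-- a nonnegative function of the level is small -/
def SmallN (s : ℂ → ℝ) (X : ℕ → ℝ) (η : ℕ → ℝ) : Prop := Tendsto (fun n => η n / tau s X n) atTop (𝓝 0)

variable {P : Ideal (MvPolynomial (Fin (N + 1)) ℂ)} {J : ℕ} {m : Fin J → ℕ}

/-- the values of the symmetric differentials on `F'` -/
def sth (θ : ∀ k, SymSec P (m k)) (F : ℂ → Fin (N + 1) → ℂ) (k : Fin J) (w : ℂ) : ℂ := (θ k).toFun (F w) (deriv F w)

end Pool.Agent.GA
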