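import Mathlib

/-!
# GA DerExt: extension of a derivation of a domain to a field which contains it (characteristic `0`)
-/

set_option autoImplicit false

open scoped TensorProduct

noncomputable section

namespace Pool.Agent.GA

private theorem derExt_smooth {A E : Type} [CommRing A] [IsDomain A] [Field E] [Algebra ℂ A] [Algebra ℂ E] [Algebra A E] [IsScalarTower ℂ A E]
    (hinj : Function.Injective (algebraMap A E)) : Algebra.FormallySmooth A E := by
  have : FaithfulSMul A E := (faithfulSMul_iff_algebraMap_injective A E).2 hinj
  let K := FractionRing A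
  let _ : Algebra K E := FractionRing.liftAlgebra A E
  have : IsScalarTower A K E := FractionRing.isScalarTower_liftAlgebra A E
  have : CharZero E := charZero_of_injective_algebraMap (algebraMap ℂ E).injective
  have : CharZero A := charZero_of_injective_algebraMap (FaithfulSMul.algebraMap_injective ℂ A)
  have : CharZero K := charZero_of_injective_algebraMap (FaithfulSMul.algebraMap_injective A K)
  have h1 : Algebra.FormallySmooth A K := .of_isLocalization (nonZeroDivisors A)
  obtain ⟨s, hs⟩ := exists_isTranscendenceBasis K E
  have h2 : Algebra.IsAlgebraic (IntermediateField.adjoin K (Set.range ((↑) : s → E))) E := hs.isAlgebraic_field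
  have h3 : Algebra.IsSeparable (IntermediateField.adjoin K (Set.range ((↑) : s → E))) E := inferInstance
  have h4 : Algebra.FormallySmooth K E := .of_algebraicIndependent_of_isSeparable hs.1
  exact .comp A K E

/-- MODULE DerExt -/
theorem exists_ext {A E : Type} [CommRing A] [IsDomain A] [Field E] [Algebra ℂ A] [Algebra ℂ E] [Algebra A E] [IsScalarTower ℂ A E]
    (hinj : Function.Injective (algebraMap A E)) (d : Derivation ℂ A E) : ∃ D : Derivation ℂ E E, ∀ a, D (algebraMap A E a) = d a := by
  have := derExt_smooth (A := A) (E := E) hinj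
  have h1 : Function.Injective (KaehlerDifferential.mapBaseChange ℂ A E) := by
    rw [← LinearMap.ker_eq_bot, LinearMap.ker_eq_bot']
    intro x hx
    obtain ⟨y, hy⟩ := (Algebra.H1Cotangent.exact_δ_mapBaseChange ℂ A E x).1 hx
    rw [← hy, Subsingleton.elim y 0, map_zero]
  obtain ⟨p, hp⟩ := LinearMap.exists_leftInverse_of_injective (KaehlerDifferential.mapBaseChange ℂ A E) (LinearMap.ker_eq_bot.2 h1)
  let l : Ω[A⁄ℂ] →ₗ[A] E := d.liftKaehlerDifferential
  let l' : Ω[E⁄ℂ] →ₗ[E] E := (l.liftBaseChange E).comp p
  refine ⟨l'.compDer (KaehlerDifferential.D ℂ E), fun a => ?_⟩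
  have h2 : p (KaehlerDifferential.D ℂ E (algebraMap A E a)) = 1 ⊗ₜ[A] KaehlerDifferential.D ℂ A a := by
    have h3 := LinearMap.congr_fun hp (1 ⊗ₜ[A] KaehlerDifferential.D ℂ A a)
    rw [LinearMap.comp_apply, KaehlerDifferential.mapBaseChange_tmul, one_smul, KaehlerDifferential.map_D, LinearMap.id_apply] at h3
    exact h3
  change l.liftBaseChange E (p (KaehlerDifferential.D ℂ E (algebraMap A E a))) = _
  rw [h2, LinearMap.liftBaseChange_tmul, one_smul]
  exact Derivation.liftKaehlerDifferential_comp_D d a

end Pool.Agent.GA
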