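import Pool.Agent.GA.ADefs
import Pool.Agent.GA.BndB
import Pool.Agent.GG.Cst

/-!
# GA Lin0: the linear differential equation of the variations, near every point

Near `z₁` write `x' = (z - z₁) ^ p h`, `h (z₁) ≠ 0`, `x = xb F b`; `exists_row` at `(x (z₁), h (z₁))`; `∂_v G_l (x, x') = (z - z₁) ^ (p (e_l - 1)) ∂_v G_l (x, h)`,
`∂_x G_l (x, x') = (z - z₁) ^ (p e_l) ∂_x G_l (x, h)` by homogeneity; divide and solve for `V'`.
-/

set_option autoImplicit false

open MvPolynomial Topology Filter Metric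
open Pool.Agent.H13.SM (conTan cone)
open Pool.Agent.H62.FC (Homog)
open Pool.Agent.GG

namespace Pool.Agent.GA

variable {N : ℕ} {P : Ideal (MvPolynomial (Fin (N + 1)) ℂ)} {J : ℕ} {m : Fin J → ℕ} {θ : ∀ k, SymSec P (m k)} {F : ℂ → Fin (N + 1) → ℂ} {U : Set ℂ}

private theorem Lin0_eval {y : ℂ → Ph N → ℂ} {t : ℂ} (hy : AnalyticAt ℂ y t) (g : MvPolynomial (Ph N) ℂ) :
    AnalyticAt ℂ (fun s => eval (y s) g) t :=
  AnalyticAt.comp (g := fun y : Ph N → ℂ => eval y g) (f := y) (AnalyticOnNhd.eval_mvPolynomial g (y t) (Set.mem_univ _)) hy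

/-- the values of a polynomial which is homogeneous of degree `n` in `v` -/
theorem eval_smul_hom {A : MvPolynomial (Ph N) ℂ} {n : ℕ} (hA : IsWeightedHomogeneous (wv N) A n) (x v : Fin (N + 1) → ℂ) (t : ℂ) :
    eval (pt x (t • v)) A = t ^ n * eval (pt x v) A := by
  rw [eval_eq', eval_eq', Finset.mul_sum]
  refine Finset.sum_congr rfl fun d hd => ?_
  rw [prod_pt_smul, hA (mem_support_iff.1 hd)]
  ring

theorem hom_rename (Q : MvPolynomial (Fin (N + 1)) ℂ) : IsWeightedHomogeneous (wv N) (rename Sum.inl Q : MvPolynomial (Ph N) ℂ) 0 := by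
  classical
  intro d hd
  obtain ⟨u, rfl, -⟩ := coeff_rename_ne_zero _ _ _ hd
  rw [weight_wv]
  refine Finset.sum_eq_zero fun b _ => ?_
  exact Finsupp.mapDomain_of_notMem_range _ _ (by simp)

/-- the functions of the family are homogeneous in `v` -/
theorem gfam_hom {f : Frame θ} (hf : HomFr f) (b : Fin (N + 1)) (l : (Unit ⊕ Unit) ⊕ (Fin f.q ⊕ Fin f.q) ⊕ Fin J) :
    ∃ e, IsWeightedHomogeneous (wv N) (gfam f b l) e := by
  rcases l with (l | l) | (j | j) | k
  · exact ⟨_, isWeightedHomogeneous_X ℂ (wv N) (Sum.inl b)⟩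
  · exact ⟨_, isWeightedHomogeneous_X ℂ (wv N) (Sum.inr b)⟩
  · exact ⟨0, hom_rename _⟩
  · refine ⟨0 + 1, ?_⟩
    show IsWeightedHomogeneous (wv N) (∑ b, rename Sum.inl (pderiv b (f.Q j)) * X (Sum.inr b)) (0 + 1)
    refine (weightedHomogeneousSubmodule ℂ (wv N) (0 + 1)).sum_mem fun c _ => ?_
    exact (hom_rename (pderiv c (f.Q j))).mul (isWeightedHomogeneous_X ℂ (wv N) (Sum.inr c))
  · exact ⟨m k, hf b k⟩

/-- divide the linearised equation by the power of `t` -/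
theorem lin_row {G : MvPolynomial (Ph N) ℂ} {e : ℕ} (hG : IsWeightedHomogeneous (wv N) G e) {x h V V' : Fin (N + 1) → ℂ} {t : ℂ} (ht : t ≠ 0)
    (hz : ∑ s, eval (pt x (t • h)) (pderiv s G) * pt V V' s = 0) :
    t * ∑ c, eval (pt x h) (pderiv (Sum.inl c) G) * V c + ∑ c, eval (pt x h) (pderiv (Sum.inr c) G) * V' c = 0 := by
  classical
  rw [Fintype.sum_sum_type] at hz
  have h1 : ∀ c, eval (pt x (t • h)) (pderiv (Sum.inl c) G) = t ^ e * eval (pt x h) (pderiv (Sum.inl c) G) := fun c =>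
    eval_smul_hom (hG.pderiv (n' := e) (by simp)) x h t
  simp only [h1, Sum.elim_inl, Sum.elim_inr] at hz
  rcases e with _ | e
  · have h2 : ∀ c : Fin (N + 1), pderiv (Sum.inr c : Ph N) G = 0 := by
      intro c
      apply pderiv_eq_zero_of_notMem_vars
      intro hc
      obtain ⟨d, hd, hdc⟩ := (mem_vars_iff_mem_support _).1 hc
      have h3 := hG (mem_support_iff.1 hd)
      rw [weight_wv, Finset.sum_eq_zero_iff] at h3
      exact (Finsupp.mem_support_iff.1 hdc) (h3 c (Finset.mem_univ c))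
    simp only [h2, map_zero, zero_mul, Finset.sum_const_zero, add_zero, pow_zero, one_mul] at hz ⊢
    rw [hz, mul_zero]
  · have h2 : ∀ c, eval (pt x (t • h)) (pderiv (Sum.inr c) G) = t ^ e * eval (pt x h) (pderiv (Sum.inr c) G) := fun c =>
      eval_smul_hom (hG.pderiv (n' := e) (by simp)) x h t
    simp only [h2] at hz
    have h3 : t ^ e * (t * ∑ c, eval (pt x h) (pderiv (Sum.inl c) G) * V c + ∑ c, eval (pt x h) (pderiv (Sum.inr c) G) * V' c) = 0 := by
      rw [← hz, mul_add, Finset.mul_sum, Finset.mul_sum, Finset.mul_sum]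
      congr 1
      · exact Finset.sum_congr rfl fun c _ => by ring
      · exact Finset.sum_congr rfl fun c _ => by ring
    exact (mul_eq_zero.1 h3).resolve_left (pow_ne_zero _ ht)

/-- solve for `V'` -/
theorem lin_solve {ι : Type} {G : ι → MvPolynomial (Ph N) ℂ} {I : Fin (N + 1) → ι} {y : Ph N → ℂ} (hy : eval y (vdet G I) ≠ 0) {V V' : Fin (N + 1) → ℂ} {t : ℂ}
    (h : ∀ l, t * ∑ c, eval y (pderiv (Sum.inl c) (G (I l))) * V c + ∑ c, eval y (pderiv (Sum.inr c) (G (I l))) * V' c = 0) (i : Fin (N + 1)) :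
    V' i = ∑ j, (-t * (eval y (vdet G I))⁻¹ * eval y (∑ k, (vmat G I).adjugate i k * pderiv (Sum.inl j) (G (I k)))) * V j := by
  set M : Matrix (Fin (N + 1)) (Fin (N + 1)) ℂ := (vmat G I).map (eval y) with hM
  have h1 : M.mulVec V' = fun l => -(t * ∑ c, eval y (pderiv (Sum.inl c) (G (I l))) * V c) := by
    funext l
    have h2 := h l
    have h3 : M.mulVec V' l = ∑ c, eval y (pderiv (Sum.inr c) (G (I l))) * V' c := rfl
    rw [h3]
    linear_combination h2
  have hdet : M.det = eval y (vdet G I) := by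
    rw [hM, vdet, RingHom.map_det]
    rfl
  have hadj : ∀ k, M.adjugate i k = eval y ((vmat G I).adjugate i k) := by
    intro k
    have h3 : M.adjugate = (vmat G I).adjugate.map (eval y) := by
      rw [hM]
      exact (RingHom.map_adjugate (eval y) (vmat G I)).symm
    rw [h3]
    rfl
  have h4 : M.adjugate.mulVec (M.mulVec V') = M.det • V' := by
    rw [Matrix.mulVec_mulVec, Matrix.adjugate_mul, Matrix.smul_mulVec, Matrix.one_mulVec]
  have h5 := congrFun h4 i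
  rw [h1, Pi.smul_apply, smul_eq_mul, hdet] at h5
  have h6 : V' i = (eval y (vdet G I))⁻¹ * (eval y (vdet G I) * V' i) := by
    rw [← mul_assoc, inv_mul_cancel₀ hy, one_mul]
  rw [h6, ← h5]
  show (eval y (vdet G I))⁻¹ * ∑ k, M.adjugate i k * -(t * ∑ c, eval y (pderiv (Sum.inl c) (G (I k))) * V c) = _
  simp only [hadj, map_sum, map_mul, Finset.mul_sum, Finset.sum_mul, mul_neg, Finset.sum_neg_distrib]
  rw [Finset.sum_comm, ← Finset.sum_neg_distrib]
  refine Finset.sum_congr rfl fun j _ => ?_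
  rw [← Finset.sum_neg_distrib]
  exact Finset.sum_congr rfl fun k _ => by ring

/-- the curve is not constant near any point -/
theorem deriv_xb_ne (hF : IsCurve P F U) {z₁ : ℂ} (hz : z₁ ∈ U) {b : Fin (N + 1)} (hb : F z₁ b ≠ 0) : ¬ ∀ᶠ w in 𝓝 z₁, deriv (xb F b) w = 0 := by
  intro h
  have hFa : ∀ w ∈ U, AnalyticAt ℂ (fun w => F w b) w := fun w hw => (analyticAt_pi_iff.mp (hF.an w hw)) b
  have hbn : ∀ᶠ w in 𝓝 z₁, F w b ≠ 0 := (hFa z₁ hz).continuousAt.eventually_ne hb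
  obtain ⟨ρ, hρ, hB⟩ := Metric.eventually_nhds_iff_ball.1 (h.and (hbn.and (hF.isOpen.mem_nhds hz)))
  have hxa : ∀ w ∈ ball z₁ ρ, AnalyticAt ℂ (xb F b) w := fun w hw =>
    ((hFa w (hB w hw).2.2).inv (hB w hw).2.1).smul (hF.an w (hB w hw).2.2)
  set c := xb F b z₁ with hc
  have h1 : ∀ w ∈ ball z₁ ρ, xb F b w = c := fun w hw =>
    isOpen_ball.is_const_of_deriv_eq_zero (convex_ball z₁ ρ).isPreconnected (fun w hw => (hxa w hw).differentiableAt.differentiableWithinAt)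
      (fun w hw => (hB w hw).1) hw (mem_ball_self hρ)
  have h2 : Set.EqOn F (fun w => F w b • c) U := by
    have hF1 : AnalyticOnNhd ℂ F U := fun w hw => hF.an w hw
    have hF2 : AnalyticOnNhd ℂ (fun w => F w b • c) U := fun w hw => (hFa w hw).smul analyticAt_const
    refine hF1.eqOn_of_preconnected_of_eventuallyEq hF2 hF.conn hz ?_
    filter_upwards [ball_mem_nhds z₁ hρ] with w hw
    rw [← h1 w hw]
    show F w = F w b • (F w b)⁻¹ • F w
    rw [smul_smul, mul_inv_cancel₀ (hB w hw).2.1, one_smul]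
  obtain ⟨w, hw, hne⟩ := hF.ne
  apply hne
  have h3 : F =ᶠ[𝓝 w] fun w => F w b • c := by
    filter_upwards [hF.isOpen.mem_nhds hw] with w' hw'
    exact h2 hw'
  have h4 : deriv F w = deriv (fun w => F w b) w • c := by
    rw [h3.deriv_eq]
    exact deriv_smul_const (hFa w hw).differentiableAt c
  have h5 : F w b ≠ 0 := by
    intro h6
    have h7 := h2 hw
    simp only [h6, zero_smul] at h7
    exact (hF.mem w hw).1 h7
  rw [h4, Submodule.mem_span_singleton]
  refine ⟨deriv (fun w => F w b) w * (F w b)⁻¹, ?_⟩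
  have h7 : F w = F w b • c := h2 hw
  calc (deriv (fun w => F w b) w * (F w b)⁻¹) • F w = (deriv (fun w => F w b) w * (F w b)⁻¹) • (F w b • c) := congrArg _ h7
    _ = deriv (fun w => F w b) w • c := by rw [smul_smul, mul_assoc, inv_mul_cancel₀ h5, mul_one]

/-- the matrix with coefficients `β` as a continuous linear map -/
noncomputable def linMap (β : Fin (N + 1) → Fin (N + 1) → ℂ) : (Fin (N + 1) → ℂ) →L[ℂ] (Fin (N + 1) → ℂ) :=
  ∑ i, ∑ j, β i j • ((ContinuousLinearMap.proj (R := ℂ) (φ := fun _ : Fin (N + 1) => ℂ) j).smulRight (Pi.single i (1 : ℂ)))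

theorem linMap_apply (β : Fin (N + 1) → Fin (N + 1) → ℂ) (V : Fin (N + 1) → ℂ) (i : Fin (N + 1)) : linMap β V i = ∑ j, β i j * V j := by
  classical
  rw [linMap]
  simp only [sum_apply, smul_apply, ContinuousLinearMap.smulRight_apply, ContinuousLinearMap.proj_apply, Finset.sum_apply,
    Pi.smul_apply, smul_eq_mul]
  rw [Finset.sum_eq_single i]
  · refine Finset.sum_congr rfl fun j _ => ?_
    rw [Pi.single_eq_same, mul_one]
  · intro k _ hk
    refine Finset.sum_eq_zero fun j _ => ?_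
    rw [Pi.single_eq_of_ne hk.symm, mul_zero, mul_zero]
  · intro h
    exact absurd (Finset.mem_univ i) h

theorem analyticAt_linMap {β : ℂ → Fin (N + 1) → Fin (N + 1) → ℂ} {w : ℂ} (hβ : ∀ i j, AnalyticAt ℂ (fun w => β w i j) w) :
    AnalyticAt ℂ (fun w => linMap (β w)) w := by
  unfold linMap
  refine Finset.analyticAt_fun_sum _ fun i _ => Finset.analyticAt_fun_sum _ fun j _ => ?_
  exact (hβ i j).smul analyticAt_const

/-- **Module Lin0.** -/
theorem exists_linODE (hP : Homog P) (hθ : Polar θ) (hm : ∀ k, 1 ≤ m k) (f : Frame θ) (hf : HomFr f) (hF : IsCurve P F U) {z₁ : ℂ} (hz : z₁ ∈ U)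
    {b : Fin (N + 1)} (hb : F z₁ b ≠ 0) :
    ∃ ρ > 0, ball z₁ ρ ⊆ U ∧ (∀ w ∈ ball z₁ ρ, F w b ≠ 0) ∧ ∃ B : ℂ → (Fin (N + 1) → ℂ) →L[ℂ] (Fin (N + 1) → ℂ), (∀ w ∈ ball z₁ ρ, AnalyticAt ℂ B w) ∧
      ∀ z₂ ∈ ball z₁ ρ, ∀ V : ℂ → Fin (N + 1) → ℂ, AnalyticAt ℂ V z₂ → (∀ᶠ w in 𝓝 z₂, ∀ l, lhs (gfam f b l) (xb F b) V w = 0) →
        ∀ᶠ w in 𝓝 z₂, deriv V w = B w (V w) := by
  have hFa : ∀ w ∈ U, AnalyticAt ℂ (fun w => F w b) w := fun w hw => (analyticAt_pi_iff.mp (hF.an w hw)) b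
  have hbn : ∀ᶠ w in 𝓝 z₁, F w b ≠ 0 := (hFa z₁ hz).continuousAt.eventually_ne hb
  have hxa : ∀ w ∈ U, F w b ≠ 0 → AnalyticAt ℂ (xb F b) w := fun w hw hw' => ((hFa w hw).inv hw').smul (hF.an w hw)
  have hxc : ∀ w ∈ U, F w b ≠ 0 → xb F b w ∈ cone P ∧ xb F b w b = 1 := by
    intro w hw hw'
    refine ⟨Pool.Agent.AD.G.cone_smulC hP (hF.mem w hw) (inv_ne_zero hw'), ?_⟩
    show (F w b)⁻¹ * F w b = 1
    exact inv_mul_cancel₀ hw'
  obtain ⟨p, h, hha, hh0, hhx⟩ := ((hxa z₁ hz hb).deriv.exists_eventuallyEq_pow_smul_nonzero_iff).2 (deriv_xb_ne hF hz hb)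
  have hev : ∀ᶠ w in 𝓝 z₁, w ∈ U ∧ F w b ≠ 0 := (hF.isOpen.eventually_mem hz).and hbn
  have hdx : ∀ᶠ w in 𝓝 z₁, deriv (xb F b) w ∈ conTan P (xb F b w) ∧ deriv (xb F b) w b = 0 := by
    filter_upwards [hev.eventually_nhds] with w hw
    have h1 := hw.self_of_nhds
    have h2 := hxa w h1.1 h1.2
    refine ⟨cst_deriv_mem h2.differentiableAt (hw.mono fun w' hw' => (hxc w' hw'.1 hw'.2).1), ?_⟩
    have h3 : (fun w => xb F b w b) =ᶠ[𝓝 w] fun _ => (1 : ℂ) := hw.mono fun w' hw' => (hxc w' hw'.1 hw'.2).2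
    have h4 : HasDerivAt (fun w => xb F b w b) (deriv (xb F b) w b) w := (hasDerivAt_pi.1 h2.differentiableAt.hasDerivAt) b
    rw [← h4.deriv, h3.deriv_eq, deriv_const]
  have hnz : ∀ᶠ w in 𝓝[≠] z₁, (w - z₁) ^ p ≠ 0 := by
    filter_upwards [self_mem_nhdsWithin] with w hw
    exact pow_ne_zero _ (sub_ne_zero.2 hw)
  have hhT : h z₁ ∈ conTan P (xb F b z₁) := by
    intro Q hQ
    have h1 : ContinuousAt (fun w => ∑ i, h w i * eval (xb F b w) (pderiv i Q)) z₁ := by
      refine tendsto_finsetSum _ fun i _ => ?_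
      refine ((continuousAt_pi.1 hha.continuousAt) i).mul ?_
      exact ContinuousAt.comp (g := fun y : Fin (N + 1) → ℂ => eval y (pderiv i Q)) (MvPolynomial.continuous_eval _).continuousAt (hxa z₁ hz hb).continuousAt
    have h2 : Tendsto (fun w => ∑ i, h w i * eval (xb F b w) (pderiv i Q)) (𝓝[≠] z₁) (𝓝 0) := by
      refine tendsto_const_nhds.congr' ?_
      filter_upwards [hnz, hdx.filter_mono nhdsWithin_le_nhds, hhx.filter_mono nhdsWithin_le_nhds] with w hw hw' hw''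
      have h3 := hw'.1 Q hQ
      rw [hw''] at h3
      simp only [Pi.smul_apply, smul_eq_mul, mul_assoc, ← Finset.mul_sum] at h3
      exact ((mul_eq_zero.1 h3).resolve_left hw).symm
    exact tendsto_nhds_unique (h1.tendsto.mono_left nhdsWithin_le_nhds) h2
  have hhb : h z₁ b = 0 := by
    have h1 : ContinuousAt (fun w => h w b) z₁ := (continuousAt_pi.1 hha.continuousAt) b
    have h2 : Tendsto (fun w => h w b) (𝓝[≠] z₁) (𝓝 0) := by
      refine tendsto_const_nhds.congr' ?_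
      filter_upwards [hnz, hdx.filter_mono nhdsWithin_le_nhds, hhx.filter_mono nhdsWithin_le_nhds] with w hw hw' hw''
      have h3 := hw'.2
      rw [hw''] at h3
      simp only [Pi.smul_apply, smul_eq_mul] at h3
      exact ((mul_eq_zero.1 h3).resolve_left hw).symm
    exact tendsto_nhds_unique (h1.tendsto.mono_left nhdsWithin_le_nhds) h2
  obtain ⟨I, hI⟩ := exists_row hθ f (a := b) (c := fun k => (θ k).toFun (xb F b z₁) (h z₁)) (x := xb F b z₁) (v := h z₁)
    ⟨(hxc z₁ hz hb).1, (hxc z₁ hz hb).2, hhT, hhb, fun k => rfl⟩ hh0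
  set y : ℂ → Ph N → ℂ := fun w => pt (xb F b w) (h w) with hy
  have hya : ∀ w, AnalyticAt ℂ (xb F b) w → AnalyticAt ℂ h w → AnalyticAt ℂ y w := by
    intro w h1 h2
    rw [analyticAt_pi_iff]
    rintro (i | i)
    · exact (analyticAt_pi_iff.mp h1) i
    · exact (analyticAt_pi_iff.mp h2) i
  have hdet : ∀ᶠ w in 𝓝 z₁, eval (y w) (vdet (gfam f b) I) ≠ 0 :=
    (Lin0_eval (hya z₁ (hxa z₁ hz hb) hha) (vdet (gfam f b) I)).continuousAt.eventually_ne hI
  obtain ⟨ρ, hρ, hB⟩ := Metric.eventually_nhds_iff_ball.1 (hev.and (hha.eventually_analyticAt.and (hdet.and hhx)))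
  have hy' : ∀ w ∈ ball z₁ ρ, AnalyticAt ℂ y w := fun w hw => hya w (hxa w (hB w hw).1.1 (hB w hw).1.2) (hB w hw).2.1
  set β : ℂ → Fin (N + 1) → Fin (N + 1) → ℂ := fun w i j =>
    -(w - z₁) ^ p * (eval (y w) (vdet (gfam f b) I))⁻¹ * eval (y w) (∑ k, (vmat (gfam f b) I).adjugate i k * pderiv (Sum.inl j) (gfam f b (I k))) with hβ
  have hβa : ∀ w ∈ ball z₁ ρ, AnalyticAt ℂ (fun w => linMap (β w)) w := by
    intro w hw
    refine analyticAt_linMap fun i j => ?_
    have h1 : AnalyticAt ℂ (fun w : ℂ => -(w - z₁) ^ p) w := ((analyticAt_id.sub analyticAt_const).pow p).neg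
    exact (h1.mul ((Lin0_eval (hy' w hw) _).inv (hB w hw).2.2.1)).mul (Lin0_eval (hy' w hw) _)
  refine ⟨ρ, hρ, fun w hw => (hB w hw).1.1, fun w hw => (hB w hw).1.2, fun w => linMap (β w), hβa, fun z₂ hz₂ V hV hl => ?_⟩
  have hcont : ContinuousAt (deriv V) z₂ := hV.deriv.continuousAt
  have hcont' : ContinuousAt (fun w => linMap (β w) (V w)) z₂ := (hβa z₂ hz₂).continuousAt.clm_apply hV.continuousAt
  have hne : ∀ᶠ w in 𝓝[≠] z₂, w ≠ z₁ := by
    rcases eq_or_ne z₂ z₁ with h1 | h1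
    · rw [h1]
      exact self_mem_nhdsWithin
    · exact (continuousAt_id.eventually_ne h1).filter_mono nhdsWithin_le_nhds
  have key : ∀ᶠ w in 𝓝[≠] z₂, deriv V w = linMap (β w) (V w) := by
    filter_upwards [hne, (isOpen_ball.eventually_mem hz₂).filter_mono nhdsWithin_le_nhds, hl.filter_mono nhdsWithin_le_nhds] with w hw hwB hwl
    have ht : (w - z₁) ^ p ≠ 0 := pow_ne_zero _ (sub_ne_zero.2 hw)
    have h1 : ∀ l, (w - z₁) ^ p * ∑ c, eval (y w) (pderiv (Sum.inl c) (gfam f b (I l))) * V w c +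
        ∑ c, eval (y w) (pderiv (Sum.inr c) (gfam f b (I l))) * deriv V w c = 0 := by
      intro l
      obtain ⟨e, he⟩ := gfam_hom hf b (I l)
      refine lin_row he ht ?_
      have h2 := hwl (I l)
      rw [lhs, (hB w hwB).2.2.2] at h2
      exact h2
    funext i
    rw [linMap_apply, lin_solve (hB w hwB).2.2.1 h1 i]
  exact (hcont.eventuallyEq_nhds_iff_eventuallyEq_nhdsNE hcont').1 key

end Pool.Agent.GA
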