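import Pool.Agent.GA.DetA
import Pool.Agent.GA.Lin0

/-!
# GA Det: a variation field is determined by its value at one point
-/

set_option autoImplicit false

open MvPolynomial Topology Filter Metric
open Pool.Agent.H13.SM (conTan cone)
open Pool.Agent.H62.FC (Homog)
open Pool.Agent.GG

noncomputable section

namespace Pool.Agent.GA

variable {N : ℕ} {P : Ideal (MvPolynomial (Fin (N + 1)) ℂ)} {J : ℕ} {m : Fin J → ℕ} {θ : ∀ k, SymSec P (m k)}
  {F : ℂ → Fin (N + 1) → ℂ} {U : Set ℂ} {Z : ℂ → Fin (N + 1) × Fin (N + 1) → ℂ}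

/-- MODULE Det: a variation field is determined by its value at one point (`exists_linODE`, uniqueness, identity theorem) -/
theorem isVar_zero (hP : Homog P) (hθ : Polar θ) (hm : ∀ k, 1 ≤ m k) (f : Frame θ) (hf : HomFr f) (hF : IsCurve P F U) (hZ : ∀ w ∈ U, IsVar f F Z w) {w₀ : ℂ} (hw : w₀ ∈ U)
    (h0 : Z w₀ = 0) : ∀ w ∈ U, Z w = 0 := by
  have h1 : F w₀ ≠ 0 := (hF.mem w₀ hw).1
  obtain ⟨b, hb⟩ := Function.ne_iff.1 h1
  exact isVar_zero_of_lin f hF hZ hw h0 hb (exists_linODE hP hθ hm f hf hF hw hb)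

end Pool.Agent.GA
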