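import Pool.Agent.GA.ADefs

/-!
# GA DetA: a variation field with a zero vanishes, from the linear equation in a chart
-/

set_option autoImplicit false

open MvPolynomial Topology Filter Metric
open Pool.Agent.H13.SM (conTan cone)
open Pool.Agent.GG (SymSec Ph pt Frame gfam)

noncomputable section

namespace Pool.Agent.GA

variable {N : ℕ} {P : Ideal (MvPolynomial (Fin (N + 1)) ℂ)} {J : ℕ} {m : Fin J → ℕ} {θ : ∀ k, SymSec P (m k)}
  {F : ℂ → Fin (N + 1) → ℂ} {U : Set ℂ} {Z : ℂ → Fin (N + 1) × Fin (N + 1) → ℂ}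

/-- a solution of a linear equation with a zero vanishes near the zero -/
theorem DetA.lin_zero {E : Type*} [NormedAddCommGroup E] [NormedSpace ℂ E] [CompleteSpace E] {z : ℂ} {B : ℂ → E →L[ℂ] E} {V : ℂ → E} (hB : AnalyticAt ℂ B z)
    (hV : AnalyticAt ℂ V z) (h : ∀ᶠ w in 𝓝 z, deriv V w = B w (V w)) (h0 : V z = 0) : ∀ᶠ w in 𝓝 z, V w = 0 := by
  by_contra hne
  obtain ⟨n, g, hg, hg0, he⟩ := (hV.exists_eventuallyEq_pow_smul_nonzero_iff).2 hne
  have hn : n ≠ 0 := by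
    intro hn
    have := he.self_of_nhds
    rw [hn, h0] at this
    simp at this
    exact hg0 this.symm
  obtain ⟨k, rfl⟩ := Nat.exists_eq_succ_of_ne_zero hn
  have hB' : Tendsto (fun w => (w - z) • (B w (g w) - deriv g w)) (𝓝 z) (𝓝 0) := by
    have h1 : ContinuousAt (fun w => (w - z) • (B w (g w) - deriv g w)) z := by
      have h2 : ContinuousAt (fun w => B w (g w)) z := hB.continuousAt.clm_apply hg.continuousAt
      exact (continuousAt_id.sub continuousAt_const).smul (h2.sub hg.deriv.continuousAt)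
    have h3 := h1.tendsto
    simpa using h3
  have hl : Tendsto (fun w => ((k : ℂ) + 1) • g w) (𝓝 z) (𝓝 (((k : ℂ) + 1) • g z)) := hg.continuousAt.tendsto.const_smul _
  have heq : ∀ᶠ w in 𝓝[≠] z, ((k : ℂ) + 1) • g w = (w - z) • (B w (g w) - deriv g w) := by
    have hga := hg.eventually_analyticAt
    filter_upwards [(eventually_eventually_nhds.2 he).filter_mono nhdsWithin_le_nhds, h.filter_mono nhdsWithin_le_nhds,
      hga.filter_mono nhdsWithin_le_nhds, self_mem_nhdsWithin] with w hw1 hw2 hw3 hw4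
    have hwz : w - z ≠ 0 := sub_ne_zero.2 hw4
    have e1 : V w = (w - z) ^ (k + 1) • g w := hw1.self_of_nhds
    have d1 : HasDerivAt (fun w => (w - z) ^ (k + 1) • g w) ((w - z) ^ (k + 1) • deriv g w + ((k + 1 : ℕ) * (w - z) ^ k * 1) • g w) w := by
      have h3 : HasDerivAt (fun w => (w - z) ^ (k + 1)) (((k + 1 : ℕ) : ℂ) * (w - z) ^ k * 1) w := by
        exact ((hasDerivAt_id w).sub_const z).fun_pow (k + 1)
      exact h3.smul hw3.differentiableAt.hasDerivAt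
    have e2 : deriv V w = (w - z) ^ (k + 1) • deriv g w + ((k + 1 : ℕ) * (w - z) ^ k * 1) • g w := by
      rw [EventuallyEq.deriv_eq hw1, d1.deriv]
    rw [e2, e1, map_smul] at hw2
    have e3 : (w - z) ^ k • (((k : ℂ) + 1) • g w) = (w - z) ^ k • ((w - z) • (B w (g w) - deriv g w)) := by
      rw [smul_smul, smul_smul, smul_sub, ← pow_succ, ← hw2]
      push_cast
      rw [mul_one, mul_comm ((k : ℂ) + 1)]
      abel
    exact smul_right_injective E (pow_ne_zero k hwz) e3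
  have h5 := tendsto_nhds_unique ((hl.mono_left nhdsWithin_le_nhds).congr' heq) (hB'.mono_left nhdsWithin_le_nhds)
  have h6 : ((k : ℂ) + 1) ≠ 0 := by exact_mod_cast Nat.succ_ne_zero k
  rcases smul_eq_zero.1 h5 with h7 | h7
  · exact h6 h7
  · exact hg0 h7

theorem isVar_zero_of_lin (f : Frame θ) (hF : IsCurve P F U) (hZ : ∀ w ∈ U, IsVar f F Z w) {w₀ : ℂ} (hw : w₀ ∈ U)
    (h0 : Z w₀ = 0) {b : Fin (N + 1)} (hb : F w₀ b ≠ 0)
    (hL : ∃ ρ > 0, ball w₀ ρ ⊆ U ∧ (∀ w ∈ ball w₀ ρ, F w b ≠ 0) ∧ ∃ B : ℂ → (Fin (N + 1) → ℂ) →L[ℂ] (Fin (N + 1) → ℂ), (∀ w ∈ ball w₀ ρ, AnalyticAt ℂ B w) ∧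
      ∀ z₂ ∈ ball w₀ ρ, ∀ V : ℂ → Fin (N + 1) → ℂ, AnalyticAt ℂ V z₂ → (∀ᶠ w in 𝓝 z₂, ∀ l, lhs (gfam f b l) (xb F b) V w = 0) →
        ∀ᶠ w in 𝓝 z₂, deriv V w = B w (V w)) : ∀ w ∈ U, Z w = 0 := by
  obtain ⟨ρ, hρ, hρU, hρb, B, hB, hode⟩ := hL
  have hwm : w₀ ∈ ball w₀ ρ := mem_ball_self hρ
  have hFa : AnalyticAt ℂ F w₀ := hF.an w₀ hw
  have hFb : AnalyticAt ℂ (fun w => F w b) w₀ := analyticAt_pi_iff.1 hFa b
  have hZa : AnalyticAt ℂ Z w₀ := (hZ w₀ hw).1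
  have hV : AnalyticAt ℂ (Vb F Z b) w₀ := by
    rw [analyticAt_pi_iff]
    intro j
    exact (analyticAt_pi_iff.1 hZa (b, j)).div (hFb.pow 2) (pow_ne_zero 2 hb)
  have hne : ∀ᶠ w in 𝓝 w₀, F w b ≠ 0 := hFb.continuousAt.eventually_ne hb
  have h1 : ∀ᶠ w in 𝓝 w₀, ∀ l, lhs (gfam f b l) (xb F b) (Vb F Z b) w = 0 := by
    filter_upwards [(hZ w₀ hw).2, hne] with w hw1 hw2 using (hw1 b hw2).2
  have h2 := hode w₀ hwm (Vb F Z b) hV h1
  have h3 : Vb F Z b w₀ = 0 := by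
    funext j
    show Z w₀ (b, j) / F w₀ b ^ 2 = 0
    rw [h0]
    simp
  have h4 := DetA.lin_zero (hB w₀ hwm) hV h2 h3
  have h5 : Z =ᶠ[𝓝 w₀] 0 := by
    filter_upwards [(hZ w₀ hw).2, hne, h4] with w hw1 hw2 hw3
    funext p
    obtain ⟨i, j⟩ := p
    rw [(hw1 b hw2).1 i j, hw3]
    simp
  have hZan : AnalyticOnNhd ℂ Z U := fun w hw' => (hZ w hw').1
  exact fun w hw' => hZan.eqOn_zero_of_preconnected_of_eventuallyEq_zero hF.conn hw h5 hw'

end Pool.Agent.GA
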