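import Pool.Agent.GA.ADefs

/-!
# GA Tr: `RelX` is transported along the curve

Every function of the two sides is meromorphic on `U`: identity theorem for meromorphic functions.
-/

set_option autoImplicit false

open MvPolynomial Topology Filter Metric
open Pool.Agent.H13.SM (conTan cone)
open Pool.Agent.GG

namespace Pool.Agent.GA

variable {N : ℕ}

/-- the identity theorem for a function which is meromorphic on `U` -/
theorem tr_eq_zero {U : Set ℂ} (hU : IsPreconnected U) {h : ℂ → ℂ} (hm : MeromorphicOn h U) {w₀ w₁ : ℂ} (hw₀ : w₀ ∈ U) (hw₁ : w₁ ∈ U)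
    (ha : AnalyticAt ℂ h w₀) (h1 : ∀ᶠ w in 𝓝 w₁, h w = 0) : ∀ᶠ w in 𝓝 w₀, h w = 0 := by
  have h2 : meromorphicOrderAt h w₁ = ⊤ := meromorphicOrderAt_eq_top_iff.2 (h1.filter_mono nhdsWithin_le_nhds)
  have h3 : meromorphicOrderAt h w₀ = ⊤ := by
    by_contra h3
    exact hm.meromorphicOrderAt_ne_top_of_isPreconnected hU hw₀ hw₁ h3 h2
  have h4 : ∀ᶠ w in 𝓝[≠] w₀, h w = 0 := meromorphicOrderAt_eq_top_iff.1 h3
  exact ha.frequently_zero_iff_eventually_zero.1 h4.frequently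

theorem tr_evO_mero {U : Set ℂ} {OO : Subalgebra ℂ (ℂ → ℂ)} (hO : IsSmallRing OO U) {σ : Type} {x : ℂ → σ → ℂ} {w : ℂ} (hw : w ∈ U)
    (hx : ∀ b, MeromorphicAt (fun w => x w b) w) (R : MvPolynomial σ OO) : MeromorphicAt (evO OO x R) w := by
  induction R using MvPolynomial.induction_on with
  | C g =>
    have h1 : evO OO x (C g) = (g : ℂ → ℂ) := by
      funext z
      exact eval₂_C _ _ _
    rw [h1]
    exact (hO.an g g.2 w hw).meromorphicAt
  | add p q hp hq =>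
    have h1 : evO OO x (p + q) = evO OO x p + evO OO x q := by
      funext z
      exact eval₂_add _ _
    rw [h1]
    exact hp.add hq
  | mul_X p b hp =>
    have h1 : evO OO x (p * X b) = evO OO x p * fun z => x z b := by
      funext z
      show eval₂ _ _ _ = _
      rw [eval₂_mul, eval₂_X]
      rfl
    rw [h1]
    exact hp.mul (hx b)

theorem tr_evO_an {U : Set ℂ} {OO : Subalgebra ℂ (ℂ → ℂ)} (hO : IsSmallRing OO U) {σ : Type} {x : ℂ → σ → ℂ} {w : ℂ} (hw : w ∈ U)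
    (hx : ∀ b, AnalyticAt ℂ (fun w => x w b) w) (R : MvPolynomial σ OO) : AnalyticAt ℂ (evO OO x R) w := by
  induction R using MvPolynomial.induction_on with
  | C g =>
    have h1 : evO OO x (C g) = (g : ℂ → ℂ) := by
      funext z
      exact eval₂_C _ _ _
    rw [h1]
    exact hO.an g g.2 w hw
  | add p q hp hq =>
    have h1 : evO OO x (p + q) = evO OO x p + evO OO x q := by
      funext z
      exact eval₂_add _ _
    rw [h1]
    exact hp.add hq
  | mul_X p b hp =>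
    have h1 : evO OO x (p * X b) = evO OO x p * fun z => x z b := by
      funext z
      show eval₂ _ _ _ = _
      rw [eval₂_mul, eval₂_X]
      rfl
    rw [h1]
    exact hp.mul (hx b)

variable {P : Ideal (MvPolynomial (Fin (N + 1)) ℂ)} {F : ℂ → Fin (N + 1) → ℂ} {OO : Subalgebra ℂ (ℂ → ℂ)} {U : Set ℂ}
  {Z : ℂ → Fin (N + 1) × Fin (N + 1) → ℂ}

/-- `F_a ^ e` times a relation is analytic on `U`: identity theorem. -/
theorem relX_transport (hF : IsCurve P F U) (hO : IsSmallRing OO U) {a : Fin (N + 1)} (hZ : ∀ w ∈ U, AnalyticAt ℂ Z w) {w₀ w₁ : ℂ} (hw₀ : w₀ ∈ U)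
    (h₀ : F w₀ a ≠ 0) (hw₁ : w₁ ∈ U) (h₁ : F w₁ a ≠ 0) (h : RelX OO (xb F a) (Vb F Z a) w₀) : RelX OO (xb F a) (Vb F Z a) w₁ := by
  have hFb : ∀ w ∈ U, ∀ b, AnalyticAt ℂ (fun z => F z b) w := fun w hw b => (analyticAt_pi_iff.1 (hF.an w hw)) b
  have hZb : ∀ w ∈ U, ∀ b, AnalyticAt ℂ (fun z => Z z b) w := fun w hw b => (analyticAt_pi_iff.1 (hZ w hw)) b
  have hxm : ∀ w ∈ U, ∀ b, MeromorphicAt (fun z => xb F a z b) w := fun w hw b =>
    ((hFb w hw a).meromorphicAt.inv).mul (hFb w hw b).meromorphicAt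
  have hxa : ∀ w ∈ U, F w a ≠ 0 → ∀ b, AnalyticAt ℂ (fun z => xb F a z b) w := fun w hw h1 b => ((hFb w hw a).inv h1).mul (hFb w hw b)
  have hVm : ∀ w ∈ U, ∀ b, MeromorphicAt (fun z => Vb F Z a z b) w := fun w hw b =>
    (hZb w hw (a, b)).meromorphicAt.div ((hFb w hw a).meromorphicAt.pow 2)
  have hVa : ∀ w ∈ U, F w a ≠ 0 → ∀ b, AnalyticAt ℂ (fun z => Vb F Z a z b) w := fun w hw h1 b =>
    (hZb w hw (a, b)).div ((hFb w hw a).pow 2) (pow_ne_zero 2 h1)
  intro R hR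
  have h2 : ∀ᶠ w in 𝓝 w₀, evO OO (xb F a) R w = 0 :=
    tr_eq_zero hF.conn (fun w hw => tr_evO_mero hO hw (hxm w hw) R) hw₀ hw₁ (tr_evO_an hO hw₀ (hxa w₀ hw₀ h₀) R) hR
  have h3 := h R h2
  refine tr_eq_zero (h := fun w => ∑ b, evO OO (xb F a) (pderiv b R) w * Vb F Z a w b) hF.conn ?_ hw₁ hw₀ ?_ h3
  · intro w hw
    have h4 : (fun w => ∑ b, evO OO (xb F a) (pderiv b R) w * Vb F Z a w b) =
        ∑ b, fun w => evO OO (xb F a) (pderiv b R) w * Vb F Z a w b := by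
      funext z
      rw [Finset.sum_apply]
    rw [h4]
    exact MeromorphicAt.sum fun b _ => (tr_evO_mero hO hw (hxm w hw) (pderiv b R)).mul (hVm w hw b)
  · exact Finset.analyticAt_fun_sum _ fun b _ => (tr_evO_an hO hw₁ (hxa w₁ hw₁ h₁) (pderiv b R)).mul (hVa w₁ hw₁ h₁ b)

end Pool.Agent.GA
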