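import Pool.Agent.GA.EigA
import Pool.Agent.GA.Tr
import Pool.Agent.GA.Det

/-!
# GA Eig: a variation field which the shift by the period multiplies by a constant

The variation fields along the periodic curve `F` on the half-plane which come from derivations over `OO` near `w₀` are a linear space, invariant under the
shift by the period (`relX_transport`), and are determined by their value at `w₀` (`isVar_zero`).  So there is an eigenvector (`exists_eig`).
-/

set_option autoImplicit false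

open MvPolynomial Topology Filter Metric
open Pool.Agent.H13.SM (conTan cone)
open Pool.Agent.H62.FC (Homog)
open Pool.Agent.GG

namespace Pool.Agent.GA

variable {N : ℕ} {P : Ideal (MvPolynomial (Fin (N + 1)) ℂ)} {J : ℕ} {m : Fin J → ℕ} {θ : ∀ k, SymSec P (m k)} {F : ℂ → Fin (N + 1) → ℂ}
  {OO : Subalgebra ℂ (ℂ → ℂ)}

theorem HP_isOpen : IsOpen HP := isOpen_lt continuous_const Complex.continuous_re

theorem HP_per (w : ℂ) : w + per ∈ HP ↔ w ∈ HP := by
  have h : (w + per).re = w.re := by simp [per]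
  show 0 < (w + per).re ↔ 0 < w.re
  rw [h]

theorem per_ne_zero : per ≠ 0 := by
  simp [per, Real.pi_ne_zero]

/-! ## the linear structure -/

private theorem Eig_vb_an {Z : ℂ → Fin (N + 1) × Fin (N + 1) → ℂ} {w : ℂ} (hF : AnalyticAt ℂ F w) (hZ : AnalyticAt ℂ Z w) {b : Fin (N + 1)}
    (hb : F w b ≠ 0) : AnalyticAt ℂ (Vb F Z b) w := by
  rw [analyticAt_pi_iff]
  intro j
  exact ((analyticAt_pi_iff.1 hZ) (b, j)).div (((analyticAt_pi_iff.1 hF) b).pow 2) (pow_ne_zero 2 hb)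

private theorem Eig_vb_add (Z Z' : ℂ → Fin (N + 1) × Fin (N + 1) → ℂ) (b : Fin (N + 1)) : Vb F (Z + Z') b = Vb F Z b + Vb F Z' b := by
  funext w j
  show (Z w (b, j) + Z' w (b, j)) / F w b ^ 2 = Z w (b, j) / F w b ^ 2 + Z' w (b, j) / F w b ^ 2
  rw [add_div]

private theorem Eig_vb_smul (c : ℂ) (Z : ℂ → Fin (N + 1) × Fin (N + 1) → ℂ) (b : Fin (N + 1)) : Vb F (c • Z) b = c • Vb F Z b := by
  funext w j
  show (c * Z w (b, j)) / F w b ^ 2 = c * (Z w (b, j) / F w b ^ 2)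
  rw [mul_div_assoc]

private theorem Eig_lhs_add {G : MvPolynomial (Ph N) ℂ} {x V V' : ℂ → Fin (N + 1) → ℂ} {w : ℂ} (hV : DifferentiableAt ℂ V w) (hV' : DifferentiableAt ℂ V' w) :
    lhs G x (V + V') w = lhs G x V w + lhs G x V' w := by
  unfold lhs
  rw [← Finset.sum_add_distrib]
  refine Finset.sum_congr rfl fun s _ => ?_
  rw [← mul_add]
  congr 1
  have hd : deriv (V + V') w = deriv V w + deriv V' w := deriv_add hV hV'
  cases s with
  | inl b => rfl
  | inr b =>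
    show deriv (V + V') w b = deriv V w b + deriv V' w b
    rw [hd]
    rfl

private theorem Eig_lhs_smul {G : MvPolynomial (Ph N) ℂ} {x V : ℂ → Fin (N + 1) → ℂ} {w : ℂ} (c : ℂ) (hV : DifferentiableAt ℂ V w) :
    lhs G x (c • V) w = c * lhs G x V w := by
  unfold lhs
  rw [Finset.mul_sum]
  refine Finset.sum_congr rfl fun s _ => ?_
  rw [mul_left_comm]
  congr 1
  have hd : deriv (c • V) w = c • deriv V w := deriv_const_smul c hV
  cases s with
  | inl b => rfl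
  | inr b =>
    show deriv (c • V) w b = c * deriv V w b
    rw [hd]
    rfl

private theorem Eig_zero (f : Frame θ) (z : ℂ) : IsVar f F (0 : ℂ → Fin (N + 1) × Fin (N + 1) → ℂ) z := by
  have h0 : ∀ b, Vb F (0 : ℂ → Fin (N + 1) × Fin (N + 1) → ℂ) b = 0 := by
    intro b
    funext w j
    show (0 : ℂ) / F w b ^ 2 = 0
    rw [zero_div]
  refine ⟨analyticAt_const, Eventually.of_forall fun w b hb => ⟨fun i j => ?_, fun l => ?_⟩⟩
  · rw [h0]
    show (0 : ℂ) = F w i * F w b * 0 - F w j * F w b * 0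
    ring
  · rw [h0]
    unfold lhs
    refine Finset.sum_eq_zero fun s _ => ?_
    have hd : deriv (0 : ℂ → Fin (N + 1) → ℂ) w = 0 := deriv_const w (0 : Fin (N + 1) → ℂ)
    cases s with
    | inl b => simp
    | inr b =>
      show _ * deriv (0 : ℂ → Fin (N + 1) → ℂ) w b = 0
      rw [hd]
      simp

private theorem Eig_add {f : Frame θ} {Z Z' : ℂ → Fin (N + 1) × Fin (N + 1) → ℂ} {z : ℂ} (hF : AnalyticAt ℂ F z) (h : IsVar f F Z z) (h' : IsVar f F Z' z) :
    IsVar f F (Z + Z') z := by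
  refine ⟨h.1.add h'.1, ?_⟩
  filter_upwards [h.2, h'.2, hF.eventually_analyticAt, h.1.eventually_analyticAt, h'.1.eventually_analyticAt] with w e1 e2 a1 a2 a3
  intro b hb
  obtain ⟨p1, q1⟩ := e1 b hb
  obtain ⟨p2, q2⟩ := e2 b hb
  refine ⟨fun i j => ?_, fun l => ?_⟩
  · rw [Eig_vb_add]
    show Z w (i, j) + Z' w (i, j) = F w i * F w b * (Vb F Z b w j + Vb F Z' b w j) - F w j * F w b * (Vb F Z b w i + Vb F Z' b w i)
    rw [p1 i j, p2 i j]
    ring
  · rw [Eig_vb_add, Eig_lhs_add (Eig_vb_an a1 a2 hb).differentiableAt (Eig_vb_an a1 a3 hb).differentiableAt, q1 l, q2 l, add_zero]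

private theorem Eig_smul {f : Frame θ} {Z : ℂ → Fin (N + 1) × Fin (N + 1) → ℂ} {z : ℂ} (hF : AnalyticAt ℂ F z) (c : ℂ) (h : IsVar f F Z z) :
    IsVar f F (c • Z) z := by
  refine ⟨analyticAt_const.smul h.1, ?_⟩
  filter_upwards [h.2, hF.eventually_analyticAt, h.1.eventually_analyticAt] with w e1 a1 a2
  intro b hb
  obtain ⟨p1, q1⟩ := e1 b hb
  refine ⟨fun i j => ?_, fun l => ?_⟩
  · rw [Eig_vb_smul]
    show c * Z w (i, j) = F w i * F w b * (c * Vb F Z b w j) - F w j * F w b * (c * Vb F Z b w i)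
    rw [p1 i j]
    ring
  · rw [Eig_vb_smul, Eig_lhs_smul c (Eig_vb_an a1 a2 hb).differentiableAt, q1 l, mul_zero]

/-! ## the shift -/

private theorem Eig_xb (hFp : ∀ w ∈ HP, F (w + per) = F w) (b : Fin (N + 1)) {w : ℂ} (hw : w ∈ HP) : xb F b (w + per) = xb F b w := by
  unfold xb
  rw [hFp w hw]

private theorem Eig_vb (hFp : ∀ w ∈ HP, F (w + per) = F w) (Z : ℂ → Fin (N + 1) × Fin (N + 1) → ℂ) (b : Fin (N + 1)) {w : ℂ} (hw : w ∈ HP) :
    Vb F Z b (w + per) = Vb F (fun w => Z (w + per)) b w := by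
  unfold Vb
  rw [hFp w hw]

private theorem Eig_deriv {E : Type*} [NormedAddCommGroup E] [NormedSpace ℂ E] {g h : ℂ → E} {w : ℂ} (hw : w ∈ HP) (e : ∀ w ∈ HP, g (w + per) = h w) :
    deriv g (w + per) = deriv h w := by
  have h1 : (fun w => g (w + per)) =ᶠ[𝓝 w] h := by
    filter_upwards [HP_isOpen.mem_nhds hw] with z hz
    exact e z hz
  rw [← h1.deriv_eq, deriv_comp_add_const]

private theorem Eig_tendsto (w : ℂ) : Tendsto (fun z : ℂ => z + per) (𝓝 w) (𝓝 (w + per)) := (continuous_id.add continuous_const).tendsto w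

private theorem Eig_shift {f : Frame θ} (hFp : ∀ w ∈ HP, F (w + per) = F w) {Z : ℂ → Fin (N + 1) × Fin (N + 1) → ℂ} {z : ℂ} (hz : z ∈ HP)
    (h : IsVar f F Z (z + per)) : IsVar f F (fun w => Z (w + per)) z := by
  refine ⟨?_, ?_⟩
  · exact AnalyticAt.comp (g := Z) (f := fun w : ℂ => w + per) h.1 (analyticAt_id.add analyticAt_const)
  · filter_upwards [(Eig_tendsto z).eventually h.2, HP_isOpen.mem_nhds hz] with w e1 hw
    intro b hb
    have hb' : F (w + per) b ≠ 0 := by rwa [hFp w hw]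
    obtain ⟨p1, q1⟩ := e1 b hb'
    refine ⟨fun i j => ?_, fun l => ?_⟩
    · show Z (w + per) (i, j) = _
      rw [p1 i j, hFp w hw, Eig_vb hFp Z b hw]
    · rw [← q1 l]
      unfold lhs
      refine Finset.sum_congr rfl fun s _ => ?_
      have e2 : xb F b (w + per) = xb F b w := Eig_xb hFp b hw
      have e3 : deriv (xb F b) (w + per) = deriv (xb F b) w := Eig_deriv hw fun w hw => Eig_xb hFp b hw
      have e4 : Vb F Z b (w + per) = Vb F (fun w => Z (w + per)) b w := Eig_vb hFp Z b hw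
      have e5 : deriv (Vb F Z b) (w + per) = deriv (Vb F (fun w => Z (w + per)) b) w := Eig_deriv hw fun w hw => Eig_vb hFp Z b hw
      rw [e2, e3, e4, e5]

private theorem Eig_evO (hOp : ∀ g ∈ OO, ∀ w ∈ HP, g (w + per) = g w) {σ : Type} {x : ℂ → σ → ℂ} (hx : ∀ w ∈ HP, x (w + per) = x w)
    (R : MvPolynomial σ OO) {w : ℂ} (hw : w ∈ HP) : evO OO x R (w + per) = evO OO x R w := by
  unfold evO
  rw [hx w hw]
  have h1 : ev0 OO (w + per) = ev0 OO w := by
    ext g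
    exact hOp g g.2 w hw
  rw [h1]

private theorem Eig_rel (hFp : ∀ w ∈ HP, F (w + per) = F w) (hOp : ∀ g ∈ OO, ∀ w ∈ HP, g (w + per) = g w) {Z : ℂ → Fin (N + 1) × Fin (N + 1) → ℂ}
    {a : Fin (N + 1)} {w₀ : ℂ} (hw₀ : w₀ ∈ HP) (h : RelX OO (xb F a) (Vb F Z a) (w₀ + per)) : RelX OO (xb F a) (Vb F (fun w => Z (w + per)) a) w₀ := by
  intro R hR
  have h1 : ∀ᶠ w in 𝓝 (w₀ + per), evO OO (xb F a) R w = 0 := by
    have h2 : Tendsto (fun z : ℂ => z - per) (𝓝 (w₀ + per)) (𝓝 w₀) := by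
      have h3 : Continuous fun z : ℂ => z - per := continuous_id.sub continuous_const
      have h4 := h3.tendsto (w₀ + per)
      rwa [add_sub_cancel_right] at h4
    filter_upwards [h2.eventually hR, h2.eventually (HP_isOpen.mem_nhds hw₀)] with w e1 hw
    have h3 := Eig_evO hOp (fun w hw => Eig_xb hFp a hw) R hw
    rw [sub_add_cancel] at h3
    rw [h3]
    exact e1
  filter_upwards [(Eig_tendsto w₀).eventually (h R h1), HP_isOpen.mem_nhds hw₀] with w e1 hw
  rw [← e1]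
  refine Finset.sum_congr rfl fun b _ => ?_
  rw [Eig_evO hOp (fun w hw => Eig_xb hFp a hw) (pderiv b R) hw, Eig_vb hFp Z a hw]

/-! ## the theorem -/

theorem exists_eigVar (hP : Homog P) (hθ : Polar θ) (hm : ∀ k, 1 ≤ m k) (f : Frame θ) (hf : HomFr f) (hF : IsCurve P F HP)
    (hFp : ∀ w ∈ HP, F (w + per) = F w) (hO : IsSmallRing OO HP) (hOp : ∀ g ∈ OO, ∀ w ∈ HP, g (w + per) = g w) {a : Fin (N + 1)} {w₀ : ℂ}
    (hw₀ : w₀ ∈ HP) (h₀ : F w₀ a ≠ 0) {Z : ℂ → Fin (N + 1) × Fin (N + 1) → ℂ} (hZ : ∀ w ∈ HP, IsVar f F Z w)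
    (hR : RelX OO (xb F a) (Vb F Z a) w₀) (hZ0 : Z w₀ ≠ 0) :
    ∃ (Z' : ℂ → Fin (N + 1) × Fin (N + 1) → ℂ) (q : ℂ), (∀ w ∈ HP, IsVar f F Z' w) ∧ RelX OO (xb F a) (Vb F Z' a) w₀ ∧ Z' w₀ ≠ 0 ∧
      ∀ w ∈ HP, Z' (w + per) = Complex.exp (q * per) • Z' w := by
  let VV : Submodule ℂ (ℂ → Fin (N + 1) × Fin (N + 1) → ℂ) :=
    { carrier := {Z | (∀ w ∈ HP, IsVar f F Z w) ∧ RelX OO (xb F a) (Vb F Z a) w₀}
      zero_mem' := by
        refine ⟨fun w _ => Eig_zero f w, fun R _ => Eventually.of_forall fun w => Finset.sum_eq_zero fun b _ => ?_⟩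
        show _ * ((0 : ℂ) / F w a ^ 2) = 0
        rw [zero_div, mul_zero]
      add_mem' := by
        rintro Z₁ Z₂ ⟨h1, g1⟩ ⟨h2, g2⟩
        refine ⟨fun w hw => Eig_add (hF.an w hw) (h1 w hw) (h2 w hw), fun R hR => ?_⟩
        filter_upwards [g1 R hR, g2 R hR] with w e1 e2
        rw [Eig_vb_add]
        have h3 : ∑ b, evO OO (xb F a) (pderiv b R) w * (Vb F Z₁ a + Vb F Z₂ a) w b =
            ∑ b, evO OO (xb F a) (pderiv b R) w * Vb F Z₁ a w b + ∑ b, evO OO (xb F a) (pderiv b R) w * Vb F Z₂ a w b := by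
          rw [← Finset.sum_add_distrib]
          refine Finset.sum_congr rfl fun b _ => ?_
          rw [← mul_add]
          rfl
        rw [h3, e1, e2, add_zero]
      smul_mem' := by
        rintro c Z₁ ⟨h1, g1⟩
        refine ⟨fun w hw => Eig_smul (hF.an w hw) c (h1 w hw), fun R hR => ?_⟩
        filter_upwards [g1 R hR] with w e1
        rw [Eig_vb_smul]
        have h3 : ∑ b, evO OO (xb F a) (pderiv b R) w * (c • Vb F Z₁ a) w b = c * ∑ b, evO OO (xb F a) (pderiv b R) w * Vb F Z₁ a w b := by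
          rw [Finset.mul_sum]
          refine Finset.sum_congr rfl fun b _ => ?_
          show _ * (c * Vb F Z₁ a w b) = _
          ring
        rw [h3, e1, mul_zero] }
  obtain ⟨Z', hZ', μ, hμ, hZ'0, hsh⟩ := exists_eig (E := Fin (N + 1) × Fin (N + 1) → ℂ) (U := HP) (p := per) (w₀ := w₀) HP_per hw₀ VV
    (by
      rintro Z₁ ⟨h1, g1⟩
      refine ⟨fun w hw => Eig_shift hFp hw (h1 (w + per) ((HP_per w).2 hw)), Eig_rel hFp hOp hw₀ ?_⟩
      refine relX_transport hF hO (fun w hw => (h1 w hw).1) hw₀ h₀ ((HP_per w₀).2 hw₀) ?_ g1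
      rwa [hFp w₀ hw₀])
    (by
      rintro Z₁ ⟨h1, -⟩ h0 w hw
      exact isVar_zero hP hθ hm f hf hF h1 hw₀ h0 w hw)
    ⟨Z, ⟨hZ, hR⟩, w₀, hw₀, hZ0⟩
  obtain ⟨q, hq⟩ := exists_per per_ne_zero hμ
  refine ⟨Z', q, hZ'.1, hZ'.2, hZ'0, fun w hw => ?_⟩
  rw [hq]
  exact hsh w hw

/-- the functions `α`, corrected by an exponential function, have the period `per` -/
theorem alpha_per (hF : IsCurve P F HP) (hFp : ∀ w ∈ HP, F (w + per) = F w) {Z : ℂ → Fin (N + 1) × Fin (N + 1) → ℂ} {α : ℂ → Fin J → ℂ}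
    (hα : ∀ w ∈ HP, ∀ b, F w b ≠ 0 → Vb F Z b w ∈ conTan P (xb F b w) ∧ Vb F Z b w b = 0 ∧ ∀ k, (θ k).toFun (xb F b w) (Vb F Z b w) = α w k)
    (hxb : ∀ w ∈ HP, ∀ b, F w b ≠ 0 → xb F b w ∈ cone P) {q : ℂ} (hq : ∀ w ∈ HP, Z (w + per) = Complex.exp (q * per) • Z w) {w : ℂ} (hw : w ∈ HP)
    (k : Fin J) : Complex.exp (-(m k * q * (w + per))) * α (w + per) k = Complex.exp (-(m k * q * w)) * α w k := by
  have hFw : F w ≠ 0 := (hF.mem w hw).1
  obtain ⟨b, hb⟩ : ∃ b, F w b ≠ 0 := by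
    by_contra h
    push Not at h
    exact hFw (funext h)
  have hwp : w + per ∈ HP := (HP_per w).2 hw
  have hb' : F (w + per) b ≠ 0 := by rwa [hFp w hw]
  obtain ⟨h1, -, h3⟩ := hα w hw b hb
  obtain ⟨-, -, h3'⟩ := hα (w + per) hwp b hb'
  have e1 : xb F b (w + per) = xb F b w := Eig_xb hFp b hw
  have e2 : Vb F Z b (w + per) = Complex.exp (q * per) • Vb F Z b w := by
    rw [Eig_vb hFp Z b hw]
    funext j
    show Z (w + per) (b, j) / F w b ^ 2 = Complex.exp (q * per) * (Z w (b, j) / F w b ^ 2)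
    rw [hq w hw]
    show Complex.exp (q * per) * Z w (b, j) / F w b ^ 2 = _
    rw [mul_div_assoc]
  have e3 : α (w + per) k = Complex.exp (q * per) ^ m k * α w k := by
    rw [← h3' k, e1, e2, (θ k).smul _ (hxb w hw b hb) _ h1, h3 k]
  rw [e3, ← Complex.exp_nat_mul, ← mul_assoc, ← Complex.exp_add]
  congr 2
  ring

end Pool.Agent.GA
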