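import Mathlib

/-!
# GA EigA: an eigenvector of the shift on a space of functions which are determined by their value at one point

`VV` is a linear space of functions on `U` with values in a finite-dimensional space, invariant under the shift `w ↦ w + p`, and a function in `VV`
is zero on `U` if it is zero at the point `w₀`.  If `VV` contains a function which is not zero on `U` then there are such a function `Z` and `μ ≠ 0` with
`Z (w + p) = μ Z (w)` on `U`; so `exp (- q w) Z (w)` has the period `p` if `exp (q p) = μ`.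
-/

set_option autoImplicit false

namespace Pool.Agent.GA

theorem exists_eig {E : Type*} [AddCommGroup E] [Module ℂ E] [FiniteDimensional ℂ E] {U : Set ℂ} {p w₀ : ℂ} (hp : ∀ w, w + p ∈ U ↔ w ∈ U)
    (hw₀ : w₀ ∈ U) (VV : Submodule ℂ (ℂ → E)) (hinv : ∀ Z ∈ VV, (fun w => Z (w + p)) ∈ VV) (hdet : ∀ Z ∈ VV, Z w₀ = 0 → ∀ w ∈ U, Z w = 0)
    (hne : ∃ Z ∈ VV, ∃ w ∈ U, Z w ≠ 0) :
    ∃ Z ∈ VV, ∃ μ : ℂ, μ ≠ 0 ∧ Z w₀ ≠ 0 ∧ ∀ w ∈ U, Z (w + p) = μ • Z w := by
  classical
  -- the evaluation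
  let ev : VV →ₗ[ℂ] E := (LinearMap.proj w₀).comp VV.subtype
  have hev : ∀ Z : VV, ev Z = (Z : ℂ → E) w₀ := fun Z => rfl
  let W : Submodule ℂ E := LinearMap.range ev
  -- the shift
  let sh : VV →ₗ[ℂ] VV :=
    { toFun := fun Z => ⟨fun w => (Z : ℂ → E) (w + p), hinv Z Z.2⟩
      map_add' := fun Z Z' => rfl
      map_smul' := fun c Z => rfl }
  have hsh : ∀ (Z : VV) (w : ℂ), (sh Z : ℂ → E) w = (Z : ℂ → E) (w + p) := fun Z w => rfl
  have hker : LinearMap.ker ev ≤ LinearMap.ker (ev.comp sh) := by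
    intro Z hZ
    rw [LinearMap.mem_ker] at hZ ⊢
    show (sh Z : ℂ → E) w₀ = 0
    rw [hsh]
    exact hdet Z Z.2 hZ _ ((hp w₀).2 hw₀)
  -- a section of the evaluation on its range
  obtain ⟨σ, hσ⟩ := ev.rangeRestrict.exists_rightInverse_of_surjective (LinearMap.range_rangeRestrict ev)
  have hσ' : ∀ e : W, ev (σ e) = (e : E) := by
    intro e
    have h1 : ev.rangeRestrict (σ e) = e := by
      have := congrArg (fun f : W →ₗ[ℂ] W => f e) hσ
      exact this
    have h2 := congrArg (Subtype.val) h1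
    exact h2
  let M : W →ₗ[ℂ] W := ev.rangeRestrict.comp (sh.comp σ)
  have hM : ∀ e : W, ((M e : W) : E) = ev (sh (σ e)) := fun e => rfl
  have hnt : Nontrivial W := by
    obtain ⟨Z, hZ, w, hw, hZw⟩ := hne
    refine ⟨⟨⟨ev ⟨Z, hZ⟩, LinearMap.mem_range_self ev _⟩, 0, fun h => hZw ?_⟩⟩
    have h1 : ev ⟨Z, hZ⟩ = 0 := congrArg Subtype.val h
    exact hdet Z hZ h1 w hw
  obtain ⟨μ, hμ⟩ := Module.End.exists_eigenvalue M
  obtain ⟨e, he⟩ := hμ.exists_hasEigenvector
  have he0 : e ≠ 0 := he.2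
  have heM : M e = μ • e := he.apply_eq_smul
  obtain ⟨Z, hZdef⟩ : ∃ Z : VV, Z = σ e := ⟨_, rfl⟩
  have hZ0 : (Z : ℂ → E) w₀ ≠ 0 := by
    intro h
    apply he0
    apply Subtype.ext
    have h1 := hσ' e
    rw [← hZdef, hev, h] at h1
    exact h1.symm
  have hdiff : ∀ w ∈ U, (Z : ℂ → E) (w + p) = μ • (Z : ℂ → E) w := by
    intro w hw
    have h1 : ((sh Z - μ • Z : VV) : ℂ → E) w₀ = 0 := by
      have h2 : ev (sh Z - μ • Z) = 0 := by
        rw [map_sub, map_smul, hZdef, hσ' e, ← hM e, heM]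
        show μ • (e : E) - μ • (e : E) = 0
        rw [sub_self]
      exact h2
    have h3 := hdet _ (sh Z - μ • Z : VV).2 h1 w hw
    have h4 : (Z : ℂ → E) (w + p) - μ • (Z : ℂ → E) w = 0 := h3
    exact sub_eq_zero.1 h4
  refine ⟨Z, Z.2, μ, ?_, hZ0, hdiff⟩
  rintro rfl
  apply hZ0
  have h1 : w₀ - p ∈ U := by
    rw [← hp (w₀ - p), sub_add_cancel]
    exact hw₀
  have h2 := hdiff (w₀ - p) h1
  rw [sub_add_cancel, zero_smul] at h2
  exact h2

/-- the correction by an exponential function -/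
theorem exists_per {p μ : ℂ} (hp : p ≠ 0) (hμ : μ ≠ 0) : ∃ q : ℂ, Complex.exp (q * p) = μ :=
  ⟨Complex.log μ / p, by rw [div_mul_cancel₀ _ hp, Complex.exp_log hμ]⟩

theorem per_of_eig {E : Type*} [AddCommGroup E] [Module ℂ E] {p μ q : ℂ} (hq : Complex.exp (q * p) = μ) {Z : ℂ → E} {w : ℂ}
    (h : Z (w + p) = μ • Z w) : Complex.exp (-(q * (w + p))) • Z (w + p) = Complex.exp (-(q * w)) • Z w := by
  rw [h, smul_smul, ← hq, ← Complex.exp_add]
  congr 2
  ring

end Pool.Agent.GA
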