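import Pool.Agent.GA.ADefs

/-!
# GA EndA: the algebraic criterion from a derivation

`aeval (Dt p) = vdet * D (aeval p)` for all `p`, by Cramer; induction on `k`.
-/

set_option autoImplicit false

open MvPolynomial Topology Filter Metric
open Pool.Agent.GG

namespace Pool.Agent.GA

variable {N : ℕ}

/-- the chain rule for a derivation -/
private theorem der_aeval {E σ : Type*} [CommRing E] [Algebra ℂ E] [Fintype σ] (D : Derivation ℂ E E) (y : σ → E) (p : MvPolynomial σ ℂ) :
    D (aeval y p) = ∑ s, aeval y (pderiv s p) * D (y s) := by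
  classical
  induction p using MvPolynomial.induction_on with
  | C a => simp
  | add p q hp hq => simp [hp, hq, add_mul, Finset.sum_add_distrib]
  | mul_X p i hp =>
    have e : ∀ s, aeval y (pderiv s (p * X i)) * D (y s) =
        y i * (aeval y (pderiv s p) * D (y s)) + aeval y p * (if s = i then D (y i) else 0) := by
      intro s
      rw [Derivation.leibniz, pderiv_X]
      by_cases h : s = i
      · subst h
        simp
        ring
      · have h' : i ≠ s := fun h' => h h'.symm
        simp [h, h']
        ring
    rw [Finset.sum_congr rfl fun s _ => e s, Finset.sum_add_distrib, ← Finset.mul_sum, ← Finset.mul_sum, ← hp]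
    simp only [Finset.sum_ite_eq', Finset.mem_univ, if_true, map_mul, aeval_X, Derivation.leibniz, smul_eq_mul]
    ring

/-- MODULE EndA.  `aeval (Dt p) = vdet * D (aeval p)` for all `p`, by Cramer; induction on `k`. -/
theorem crit_alg {ι : Type} {E : Type*} [Field E] [Algebra ℂ E] (G : ι → MvPolynomial (Ph N) ℂ) (I : Fin (N + 1) → ι) (D : Derivation ℂ E E)
    {x V : Fin (N + 1) → E} (hx : ∀ b, D (x b) = V b) (hG : ∀ l, D (aeval (Sum.elim x V) (G l)) = 0)
    (hI : aeval (Sum.elim x V) (vdet G I) ≠ 0) : ∀ l k, aeval (Sum.elim x V) ((⇑(Dt G I))^[k + 1] (G l)) = 0 := by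
  classical
  set e : MvPolynomial (Ph N) ℂ →ₐ[ℂ] E := aeval (Sum.elim x V) with he
  -- the chain rule in the two kinds of variables
  have chain : ∀ p, D (e p) = ∑ b, e (pderiv (Sum.inl b) p) * V b + ∑ b, e (pderiv (Sum.inr b) p) * D (V b) := by
    intro p
    rw [he, der_aeval, Fintype.sum_sum_type]
    simp [hx]
  have hX : ∀ b, e (X (Sum.inr b)) = V b := fun b => by rw [he, aeval_X, Sum.elim_inr]
  clear_value e
  -- Cramer
  have sys : (e.mapMatrix (vmat G I)).mulVec (fun b => D (V b)) = fun l => e (rhs G I l) := by
    funext l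
    have h1 := hG (I l)
    rw [chain] at h1
    have h2 : (e.mapMatrix (vmat G I)).mulVec (fun b => D (V b)) l = ∑ b, e (pderiv (Sum.inr b) (G (I l))) * D (V b) := rfl
    have h3 : e (rhs G I l) = -∑ b, e (pderiv (Sum.inl b) (G (I l))) * V b := by
      simp only [rhs, map_neg, map_sum, map_mul, hX]
    rw [h2, h3]
    exact eq_neg_of_add_eq_zero_right h1
  have cramer : ∀ b, e (vdet G I) * D (V b) = e ((vmat G I).adjugate.mulVec (rhs G I) b) := by
    intro b
    have h1 : (e.mapMatrix (vmat G I)).adjugate.mulVec ((e.mapMatrix (vmat G I)).mulVec (fun b => D (V b))) =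
        (e.mapMatrix (vmat G I)).det • fun b => D (V b) := by
      rw [Matrix.mulVec_mulVec, Matrix.adjugate_mul, Matrix.smul_mulVec, Matrix.one_mulVec]
    have h2 : (e.mapMatrix (vmat G I)).det = e (vdet G I) := (AlgHom.map_det e (vmat G I)).symm
    have h3 : (e.mapMatrix (vmat G I)).adjugate = e.mapMatrix (vmat G I).adjugate := (AlgHom.map_adjugate e (vmat G I)).symm
    rw [h2, sys, h3] at h1
    have h4 := congrFun h1 b
    simp only [Pi.smul_apply, smul_eq_mul] at h4
    rw [← h4]
    simp only [Matrix.mulVec, dotProduct, AlgHom.mapMatrix_apply, Matrix.map_apply, map_sum, map_mul]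
  have key : ∀ p, e (Dt G I p) = e (vdet G I) * D (e p) := by
    intro p
    have h1 : Dt G I p = ∑ s, pderiv s p * fld G I s := by
      have h2 := der_aeval (Dt G I) (X : Ph N → MvPolynomial (Ph N) ℂ) p
      simp only [aeval_X_left, AlgHom.id_apply] at h2
      rw [h2]
      refine Finset.sum_congr rfl fun s _ => ?_
      rw [Dt, mkDerivation_X]
    rw [h1, map_sum, Fintype.sum_sum_type, chain, mul_add, Finset.mul_sum, Finset.mul_sum]
    congr 1
    · refine Finset.sum_congr rfl fun b _ => ?_
      simp only [fld, Sum.elim_inl, map_mul, hX]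
      ring
    · refine Finset.sum_congr rfl fun b _ => ?_
      simp only [fld, Sum.elim_inr, map_mul]
      rw [← cramer]
      ring
  intro l k
  induction k with
  | zero =>
    rw [Function.iterate_succ_apply', Function.iterate_zero_apply]
    exact (key _).trans (by rw [hG l, mul_zero])
  | succ k ih =>
    rw [Function.iterate_succ_apply']
    exact (key _).trans (by rw [ih, map_zero, mul_zero])

end Pool.Agent.GA
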