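import Pool.Agent.GA.DerExt

/-!
# GA EndC0: a derivation of a field from a solution of the linearised relations
-/

set_option autoImplicit false

open MvPolynomial

noncomputable section

namespace Pool.Agent.GA

/-- If `V` satisfies the linearised equation of every algebraic relation of `x` over `O`, then there is a derivation over `O` with `D (x b) = V b`. -/
theorem exists_der_of_rel {σ O E : Type} [Fintype σ] [CommRing O] [Algebra ℂ O] [Field E] [Algebra ℂ E] (φ : O →+* E)
    (hφ : ∀ c : ℂ, φ (algebraMap ℂ O c) = algebraMap ℂ E c) (x V : σ → E)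
    (h : ∀ R : MvPolynomial σ O, eval₂ φ x R = 0 → ∑ b, eval₂ φ x (pderiv b R) * V b = 0) :
    ∃ D : Derivation ℂ E E, (∀ g, D (φ g) = 0) ∧ ∀ b, D (x b) = V b := by
  classical
  let ψ : MvPolynomial σ O →ₐ[ℂ] E :=
    { toRingHom := eval₂Hom φ x
      commutes' := fun c => by
        show eval₂Hom φ x (algebraMap ℂ (MvPolynomial σ O) c) = algebraMap ℂ E c
        rw [IsScalarTower.algebraMap_apply ℂ O (MvPolynomial σ O), MvPolynomial.algebraMap_eq, eval₂Hom_C, hφ] }
  have hψ : ∀ R, ψ R = eval₂ φ x R := fun _ => rfl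
  let δ : MvPolynomial σ O → E := fun R => ∑ b, ψ (pderiv b R) * V b
  have hδ : ∀ R R', ψ R = ψ R' → δ R = δ R' := by
    intro R R' hRR
    have h1 := h (R - R') (by rw [← hψ, map_sub, hRR, sub_self])
    have h2 : δ R - δ R' = 0 := by
      rw [← h1, ← Finset.sum_sub_distrib]
      refine Finset.sum_congr rfl fun b _ => ?_
      rw [← hψ, map_sub, map_sub, sub_mul]
    exact sub_eq_zero.1 h2
  have hadd : ∀ R R', δ (R + R') = δ R + δ R' := by
    intro R R'
    rw [← Finset.sum_add_distrib]
    refine Finset.sum_congr rfl fun b _ => ?_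
    rw [map_add, map_add, add_mul]
  have hmul : ∀ R R', δ (R * R') = ψ R * δ R' + ψ R' * δ R := by
    intro R R'
    rw [Finset.mul_sum, Finset.mul_sum, ← Finset.sum_add_distrib]
    refine Finset.sum_congr rfl fun b _ => ?_
    rw [Derivation.leibniz, smul_eq_mul, smul_eq_mul, map_add, map_mul, map_mul]
    ring
  have hC : ∀ g, δ (C g) = 0 := by
    intro g
    refine Finset.sum_eq_zero fun b _ => ?_
    rw [pderiv_C, map_zero, zero_mul]
  have hX : ∀ b, δ (X b) = V b := by
    intro b
    show ∑ b', ψ (pderiv b' (X b)) * V b' = V b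
    rw [Finset.sum_eq_single b]
    · rw [pderiv_X_self, map_one, one_mul]
    · intro b' _ hb
      rw [pderiv_X_of_ne hb.symm, map_zero, zero_mul]
    · intro hb
      exact absurd (Finset.mem_univ b) hb
  have hsmul : ∀ (c : ℂ) R, δ (c • R) = c • δ R := by
    intro c R
    rw [Finset.smul_sum]
    refine Finset.sum_congr rfl fun b _ => ?_
    have h1 : pderiv b (c • R) = c • pderiv b R := by
      have h2 : c • R = (algebraMap ℂ O c) • R := (algebraMap_smul O c R).symm
      have h3 : c • pderiv b R = (algebraMap ℂ O c) • pderiv b R := (algebraMap_smul O c _).symm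
      rw [h2, h3]
      exact (pderiv b).map_smul _ _
    rw [h1, map_smul, smul_mul_assoc]
  let A : Subalgebra ℂ E := ψ.range
  let r : A → MvPolynomial σ O := fun a => a.2.choose
  have hr : ∀ a : A, ψ (r a) = a := fun a => a.2.choose_spec
  let d : Derivation ℂ A E := Derivation.mk'
    { toFun := fun a => δ (r a)
      map_add' := fun a b => by
        rw [← hadd]
        refine hδ _ _ ?_
        rw [map_add, hr, hr, hr]
        rfl
      map_smul' := fun c a => by
        rw [RingHom.id_apply, ← hsmul]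
        refine hδ _ _ ?_
        rw [map_smul, hr, hr]
        rfl }
    (fun a b => by
      show δ (r (a * b)) = (a : E) * δ (r b) + (b : E) * δ (r a)
      rw [← hr a, ← hr b, ← hmul]
      refine hδ _ _ ?_
      rw [map_mul, hr, hr, hr]
      rfl)
  have hd : ∀ R, d ⟨ψ R, R, rfl⟩ = δ R := fun R => hδ _ _ (hr ⟨ψ R, R, rfl⟩)
  obtain ⟨D, hD⟩ := exists_ext (A := A) (E := E) Subtype.val_injective d
  have hD' : ∀ R, D (ψ R) = δ R := fun R => (hD ⟨ψ R, R, rfl⟩).trans (hd R)
  refine ⟨D, fun g => ?_, fun b => ?_⟩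
  · have h1 := hD' (C g)
    rw [hC, hψ, eval₂_C] at h1
    exact h1
  · have h1 := hD' (X b)
    rw [hX, hψ, eval₂_X] at h1
    exact h1

end Pool.Agent.GA
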