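import Pool.Agent.GA.ADefs

/-!
# GA Ger: the field of the germs of meromorphic functions
-/

set_option autoImplicit false

open MvPolynomial Topology Filter Metric

noncomputable section

namespace Pool.Agent.GA

section Ger

variable {z₀ : ℂ}

theorem gm_inj {f g : ℂ → ℂ} {hf : AnalyticAt ℂ f z₀} {hg : AnalyticAt ℂ g z₀} : gm z₀ f hf = gm z₀ g hg ↔ f =ᶠ[𝓝 z₀] g := by
  constructor
  · intro h
    have h1 := IsFractionRing.injective (AnG z₀) (Gm z₀) h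
    exact Filter.Germ.coe_eq.1 (congrArg Subtype.val h1)
  · intro h
    exact congrArg (algebraMap (AnG z₀) (Gm z₀)) (Subtype.ext (Filter.Germ.coe_eq.2 h))

theorem gm_add {f g h : ℂ → ℂ} (hf : AnalyticAt ℂ f z₀) (hg : AnalyticAt ℂ g z₀) (hh : AnalyticAt ℂ h z₀) (he : h =ᶠ[𝓝 z₀] fun z => f z + g z) :
    gm z₀ h hh = gm z₀ f hf + gm z₀ g hg := by
  have h1 : gm z₀ h hh = gm z₀ (f + g) (hf.add hg) := gm_inj.2 he
  rw [h1, gm, gm, gm, ← map_add]
  rfl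

theorem gm_mul {f g h : ℂ → ℂ} (hf : AnalyticAt ℂ f z₀) (hg : AnalyticAt ℂ g z₀) (hh : AnalyticAt ℂ h z₀) (he : h =ᶠ[𝓝 z₀] fun z => f z * g z) :
    gm z₀ h hh = gm z₀ f hf * gm z₀ g hg := by
  have h1 : gm z₀ h hh = gm z₀ (f * g) (hf.mul hg) := gm_inj.2 he
  rw [h1, gm, gm, gm, ← map_mul]
  rfl

theorem gm_const (c : ℂ) {h : ℂ → ℂ} (hh : AnalyticAt ℂ h z₀) (he : h =ᶠ[𝓝 z₀] fun _ => c) : gm z₀ h hh = algebraMap ℂ (Gm z₀) c := by
  have h1 : gm z₀ h hh = gm z₀ (fun _ => c) analyticAt_const := gm_inj.2 he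
  rw [h1, gm, IsScalarTower.algebraMap_apply ℂ (AnG z₀) (Gm z₀)]
  rfl

theorem gm_surj (y : Gm z₀) : ∃ (f g : ℂ → ℂ) (hf : AnalyticAt ℂ f z₀) (hg : AnalyticAt ℂ g z₀), gm z₀ g hg ≠ 0 ∧ y * gm z₀ g hg = gm z₀ f hf := by
  obtain ⟨a, b, hb, rfl⟩ := IsFractionRing.div_surjective (A := AnG z₀) y
  have hb0 : algebraMap (AnG z₀) (Gm z₀) b ≠ 0 := by
    intro h0
    exact (nonZeroDivisors.ne_zero hb) ((IsFractionRing.injective (AnG z₀) (Gm z₀)) (by rw [h0, map_zero]))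
  rcases a with ⟨_, f, hf, rfl⟩
  rcases b with ⟨_, g, hg, rfl⟩
  exact ⟨f, g, hf, hg, hb0, div_mul_cancel₀ _ hb0⟩

private def dfun (a : AnG z₀) : AnG z₀ := ⟨((deriv a.2.choose : ℂ → ℂ) : Filter.Germ (𝓝 z₀) ℂ), deriv a.2.choose, a.2.choose_spec.1.deriv, rfl⟩

private theorem dfun_mk (f : ℂ → ℂ) (hf : AnalyticAt ℂ f z₀) :
    dfun ⟨(f : Filter.Germ (𝓝 z₀) ℂ), f, hf, rfl⟩ = ⟨((deriv f : ℂ → ℂ) : Filter.Germ (𝓝 z₀) ℂ), deriv f, hf.deriv, rfl⟩ := by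
  have h1 := (⟨(f : Filter.Germ (𝓝 z₀) ℂ), f, hf, rfl⟩ : AnG z₀).2.choose_spec.2
  exact Subtype.ext (Filter.Germ.coe_eq.2 (Filter.EventuallyEq.deriv (Filter.Germ.coe_eq.1 h1)))

private theorem mk_congr {f g : ℂ → ℂ} (hf : AnalyticAt ℂ f z₀) (hg : AnalyticAt ℂ g z₀) (h : f =ᶠ[𝓝 z₀] g) :
    (⟨(f : Filter.Germ (𝓝 z₀) ℂ), f, hf, rfl⟩ : AnG z₀) = ⟨(g : Filter.Germ (𝓝 z₀) ℂ), g, hg, rfl⟩ :=
  Subtype.ext (Filter.Germ.coe_eq.2 h)

private def dA (z₀ : ℂ) : Derivation ℂ (AnG z₀) (AnG z₀) :=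
  Derivation.mk'
    ({ toFun := dfun
       map_add' := by
        rintro ⟨_, f, hf, rfl⟩ ⟨_, g, hg, rfl⟩
        have h1 : ((⟨(f : Filter.Germ (𝓝 z₀) ℂ), f, hf, rfl⟩ : AnG z₀) + ⟨(g : Filter.Germ (𝓝 z₀) ℂ), g, hg, rfl⟩) =
          ⟨((f + g : ℂ → ℂ) : Filter.Germ (𝓝 z₀) ℂ), f + g, hf.add hg, rfl⟩ := rfl
        rw [h1, dfun_mk (f + g) (hf.add hg), dfun_mk f hf, dfun_mk g hg]
        have h2 : deriv (f + g) =ᶠ[𝓝 z₀] deriv f + deriv g := by
          filter_upwards [hf.eventually_analyticAt, hg.eventually_analyticAt] with z h3 h4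
          exact deriv_add h3.differentiableAt h4.differentiableAt
        rw [mk_congr (hf.add hg).deriv (hf.deriv.add hg.deriv) h2]
        rfl
       map_smul' := by
        rintro c ⟨_, f, hf, rfl⟩
        have h1 : (c • (⟨(f : Filter.Germ (𝓝 z₀) ℂ), f, hf, rfl⟩ : AnG z₀)) =
          ⟨(((fun z => c * f z) : ℂ → ℂ) : Filter.Germ (𝓝 z₀) ℂ), fun z => c * f z, analyticAt_const.mul hf, rfl⟩ := rfl
        have h4 : AnalyticAt ℂ (fun z => c * f z) z₀ := analyticAt_const.mul hf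
        have h5 : AnalyticAt ℂ (fun z => c * deriv f z) z₀ := analyticAt_const.mul hf.deriv
        rw [h1, dfun_mk (fun z => c * f z) h4, dfun_mk f hf]
        have h2 : deriv (fun z => c * f z) =ᶠ[𝓝 z₀] fun z => c * deriv f z := by
          filter_upwards [hf.eventually_analyticAt] with z h3
          exact deriv_const_mul c h3.differentiableAt
        rw [mk_congr h4.deriv h5 h2]
        rfl } : AnG z₀ →ₗ[ℂ] AnG z₀)
    (by
      rintro ⟨_, f, hf, rfl⟩ ⟨_, g, hg, rfl⟩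
      have h1 : ((⟨(f : Filter.Germ (𝓝 z₀) ℂ), f, hf, rfl⟩ : AnG z₀) * ⟨(g : Filter.Germ (𝓝 z₀) ℂ), g, hg, rfl⟩) =
        ⟨((f * g : ℂ → ℂ) : Filter.Germ (𝓝 z₀) ℂ), f * g, hf.mul hg, rfl⟩ := rfl
      show dfun _ = _ • dfun _ + _ • dfun _
      rw [h1, dfun_mk (f * g) (hf.mul hg), dfun_mk f hf, dfun_mk g hg]
      have h2 : deriv (f * g) =ᶠ[𝓝 z₀] f * deriv g + g * deriv f := by
        filter_upwards [hf.eventually_analyticAt, hg.eventually_analyticAt] with z h3 h4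
        rw [deriv_mul h3.differentiableAt h4.differentiableAt]
        simp only [Pi.add_apply, Pi.mul_apply]
        ring
      rw [mk_congr (hf.mul hg).deriv ((hf.mul hg.deriv).add (hg.mul hf.deriv)) h2]
      rfl)

/-- the derivation `d / dz` of the field of the germs of meromorphic functions -/
theorem exists_dz (z₀ : ℂ) : ∃ d : Derivation ℂ (Gm z₀) (Gm z₀), ∀ f (hf : AnalyticAt ℂ f z₀), d (gm z₀ f hf) = gm z₀ (deriv f) hf.deriv := by
  have : Algebra.FormallyEtale (AnG z₀) (Gm z₀) :=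
    Algebra.FormallyEtale.of_isLocalization (nonZeroDivisors (AnG z₀))
  let l : Ω[AnG z₀⁄ℂ] →ₗ[AnG z₀] (Gm z₀) :=
    (Algebra.linearMap (AnG z₀) (Gm z₀)).comp (dA z₀).liftKaehlerDifferential
  let e := KaehlerDifferential.tensorKaehlerEquivOfFormallyEtale ℂ (AnG z₀) (Gm z₀)
  let l' : Ω[Gm z₀⁄ℂ] →ₗ[Gm z₀] (Gm z₀) :=
    (l.liftBaseChange (Gm z₀)).comp e.symm.toLinearMap
  refine ⟨l'.compDer (KaehlerDifferential.D ℂ (Gm z₀)), fun f hf => ?_⟩
  change l.liftBaseChange (Gm z₀) (e.symm (KaehlerDifferential.D ℂ (Gm z₀)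
    (algebraMap (AnG z₀) (Gm z₀) ⟨(f : Filter.Germ (𝓝 z₀) ℂ), f, hf, rfl⟩))) = _
  rw [KaehlerDifferential.tensorKaehlerEquivOfFormallyEtale_symm_D_algebraMap,
    LinearMap.liftBaseChange_tmul, one_smul]
  change algebraMap (AnG z₀) (Gm z₀)
    ((dA z₀).liftKaehlerDifferential (KaehlerDifferential.D ℂ (AnG z₀) ⟨(f : Filter.Germ (𝓝 z₀) ℂ), f, hf, rfl⟩)) = _
  rw [Derivation.liftKaehlerDifferential_comp_D]
  change algebraMap (AnG z₀) (Gm z₀) (dfun ⟨(f : Filter.Germ (𝓝 z₀) ℂ), f, hf, rfl⟩) = _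
  rw [dfun_mk f hf]
  rfl

private def ofO {OO : Subalgebra ℂ (ℂ → ℂ)} (hO : ∀ g ∈ OO, AnalyticAt ℂ g z₀) : OO →+* Gm z₀ where
  toFun g := gm z₀ g (hO g g.2)
  map_one' := by
    rw [gm_const (z₀ := z₀) 1 (hO _ (1 : OO).2) (Eventually.of_forall fun _ => rfl), map_one]
  map_zero' := by
    rw [gm_const (z₀ := z₀) 0 (hO _ (0 : OO).2) (Eventually.of_forall fun _ => rfl), map_zero]
  map_add' f g := gm_add (hO f f.2) (hO g g.2) (hO _ (f + g : OO).2) (Eventually.of_forall fun _ => rfl)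
  map_mul' f g := gm_mul (hO f f.2) (hO g g.2) (hO _ (f * g : OO).2) (Eventually.of_forall fun _ => rfl)

/-- polynomials over `OO` and germs -/
theorem gm_evO {σ : Type} [Fintype σ] {OO : Subalgebra ℂ (ℂ → ℂ)} (hO : ∀ g ∈ OO, AnalyticAt ℂ g z₀) {y : ℂ → σ → ℂ} (hy : AnalyticAt ℂ y z₀) :
    ∃ φ : OO →+* Gm z₀, (∀ g : OO, φ g = gm z₀ g (hO g g.2)) ∧ ∀ R : MvPolynomial σ OO, ∃ h : AnalyticAt ℂ (evO OO y R) z₀,
      eval₂ φ (fun s => gm z₀ (fun z => y z s) ((analyticAt_pi_iff.mp hy) s)) R = gm z₀ (evO OO y R) h := by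
  refine ⟨ofO hO, fun g => rfl, fun R => ?_⟩
  induction R using MvPolynomial.induction_on with
  | C a =>
    have h1 : evO OO y (C a) = (a : ℂ → ℂ) := funext fun w => by
      rw [evO, eval₂_C]
      rfl
    refine ⟨by rw [h1]; exact hO a a.2, ?_⟩
    rw [eval₂_C]
    exact (gm_inj (hf := hO a a.2)).2 (by rw [h1])
  | add p q hp hq =>
    obtain ⟨hp1, hp2⟩ := hp
    obtain ⟨hq1, hq2⟩ := hq
    have h1 : evO OO y (p + q) = fun w => evO OO y p w + evO OO y q w := funext fun w => by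
      rw [evO, eval₂_add]
      rfl
    have h2 : AnalyticAt ℂ (evO OO y (p + q)) z₀ := by
      rw [h1]
      exact hp1.add hq1
    refine ⟨h2, ?_⟩
    rw [eval₂_add, hp2, hq2]
    exact (gm_add hp1 hq1 h2 (by rw [h1])).symm
  | mul_X p s hp =>
    obtain ⟨hp1, hp2⟩ := hp
    have h1 : evO OO y (p * X s) = fun w => evO OO y p w * y w s := funext fun w => by
      rw [evO, eval₂_mul, eval₂_X]
      rfl
    have h3 := (analyticAt_pi_iff.mp hy) s
    have h2 : AnalyticAt ℂ (evO OO y (p * X s)) z₀ := by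
      rw [h1]
      exact hp1.mul h3
    refine ⟨h2, ?_⟩
    rw [eval₂_mul, eval₂_X, hp2]
    exact (gm_mul hp1 h3 h2 (by rw [h1])).symm

/-- polynomials over `ℂ` and germs -/
theorem gm_eval {σ : Type} [Fintype σ] {y : ℂ → σ → ℂ} (hy : AnalyticAt ℂ y z₀) (R : MvPolynomial σ ℂ) : ∃ h : AnalyticAt ℂ (fun z => eval (y z) R) z₀,
    aeval (fun s => gm z₀ (fun z => y z s) ((analyticAt_pi_iff.mp hy) s)) R = gm z₀ (fun z => eval (y z) R) h := by
  induction R using MvPolynomial.induction_on with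
  | C a =>
    have h1 : (fun z => eval (y z) (C a)) = fun _ => a := funext fun w => eval_C a
    have h2 : AnalyticAt ℂ (fun z => eval (y z) (C a)) z₀ := by
      rw [h1]
      exact analyticAt_const
    refine ⟨h2, ?_⟩
    rw [aeval_C]
    exact (gm_const a h2 (by rw [h1])).symm
  | add p q hp hq =>
    obtain ⟨hp1, hp2⟩ := hp
    obtain ⟨hq1, hq2⟩ := hq
    have h1 : (fun z => eval (y z) (p + q)) = fun w => eval (y w) p + eval (y w) q := funext fun w => map_add _ _ _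
    have h2 : AnalyticAt ℂ (fun z => eval (y z) (p + q)) z₀ := by
      rw [h1]
      exact hp1.add hq1
    refine ⟨h2, ?_⟩
    rw [map_add, hp2, hq2]
    exact (gm_add hp1 hq1 h2 (by rw [h1])).symm
  | mul_X p s hp =>
    obtain ⟨hp1, hp2⟩ := hp
    have h1 : (fun z => eval (y z) (p * X s)) = fun w => eval (y w) p * y w s := funext fun w => by rw [map_mul, eval_X]
    have h3 := (analyticAt_pi_iff.mp hy) s
    have h2 : AnalyticAt ℂ (fun z => eval (y z) (p * X s)) z₀ := by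
      rw [h1]
      exact hp1.mul h3
    refine ⟨h2, ?_⟩
    rw [map_mul, aeval_X, hp2]
    exact (gm_mul hp1 h3 h2 (by rw [h1])).symm

end Ger

end Pool.Agent.GA
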