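import Pool.Agent.GA.EndA
import Pool.Agent.GA.EndC0
import Pool.Agent.GA.Ger

/-!
# GA EndC: the criterion for a variation field with small values
-/

set_option autoImplicit false

open MvPolynomial Topology Filter Metric
open Pool.Agent.GG

noncomputable section

namespace Pool.Agent.GA

variable {N : ℕ}

private theorem gm_add' {z₀ : ℂ} {f g : ℂ → ℂ} (hf : AnalyticAt ℂ f z₀) (hg : AnalyticAt ℂ g z₀) :
    gm z₀ f hf + gm z₀ g hg = gm z₀ (fun z => f z + g z) (hf.add hg) := (map_add _ _ _).symm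

private theorem gm_mul' {z₀ : ℂ} {f g : ℂ → ℂ} (hf : AnalyticAt ℂ f z₀) (hg : AnalyticAt ℂ g z₀) :
    gm z₀ f hf * gm z₀ g hg = gm z₀ (fun z => f z * g z) (hf.mul hg) := (map_mul _ _ _).symm

private theorem gm_zero' {z₀ : ℂ} : gm z₀ (fun _ => 0) analyticAt_const = 0 := map_zero _

private theorem gm_sum' {z₀ : ℂ} {ι : Type} (s : Finset ι) (f : ι → ℂ → ℂ) (hf : ∀ i, AnalyticAt ℂ (f i) z₀)
    (h : AnalyticAt ℂ (fun z => ∑ i ∈ s, f i z) z₀) : ∑ i ∈ s, gm z₀ (f i) (hf i) = gm z₀ (fun z => ∑ i ∈ s, f i z) h := by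
  classical
  induction s using Finset.induction_on with
  | empty => simpa using gm_zero'.symm
  | insert a s ha ih =>
    have h1 : AnalyticAt ℂ (fun z => ∑ i ∈ s, f i z) z₀ := Finset.analyticAt_fun_sum _ fun i _ => hf i
    rw [Finset.sum_insert ha, ih h1, gm_add' (hf a) h1]
    refine gm_inj.2 (Eventually.of_forall fun z => ?_)
    simp only [Finset.sum_insert ha]

private theorem gm_const' {z₀ : ℂ} (c : ℂ) : gm z₀ (fun _ => c) analyticAt_const = algebraMap ℂ (Gm z₀) c := rfl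

private theorem gm_eq_zero {z₀ : ℂ} {f : ℂ → ℂ} {hf : AnalyticAt ℂ f z₀} : gm z₀ f hf = 0 ↔ ∀ᶠ z in 𝓝 z₀, f z = 0 := by
  rw [← gm_zero', gm_inj]
  rfl

variable {ι : Type} {U : Set ℂ} {OO : Subalgebra ℂ (ℂ → ℂ)}

/-- MODULE EndC.  `E = Gm w₁`; the derivation `R (x) ↦ ∑ b, (∂_b R) (x) V_b` of the ring `OO [x]` is well defined by `RelX` and extends to `E` (`exists_ext`); it kills `OO`; `crit_alg`; value at `w₁`. -/
theorem crit_of_rel (hO : IsSmallRing OO U) (G : ι → MvPolynomial (Ph N) ℂ) (I : Fin (N + 1) → ι) {x V : ℂ → Fin (N + 1) → ℂ} {w₁ : ℂ} (hw : w₁ ∈ U)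
    (hx : AnalyticAt ℂ x w₁) (hV : AnalyticAt ℂ V w₁) (hR : RelX OO x V w₁)
    (hG : ∀ l, ∃ g ∈ OO, ∀ᶠ w in 𝓝 w₁, eval (pt (x w) (V w)) (G l) = g w) (hI : eval (pt (x w₁) (V w₁)) (vdet G I) ≠ 0) :
    Crit G I (pt (x w₁) (V w₁)) := by
  have hO' : ∀ g ∈ OO, AnalyticAt ℂ g w₁ := fun g hg => hO.an g hg w₁ hw
  have hxb : ∀ b, AnalyticAt ℂ (fun z => x z b) w₁ := analyticAt_pi_iff.mp hx
  have hVb : ∀ b, AnalyticAt ℂ (fun z => V z b) w₁ := analyticAt_pi_iff.mp hV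
  obtain ⟨φ, hφ, hφx⟩ := gm_evO hO' hx
  set X' : Fin (N + 1) → Gm w₁ := fun b => gm w₁ (fun z => x z b) (hxb b) with hX'
  set V' : Fin (N + 1) → Gm w₁ := fun b => gm w₁ (fun z => V z b) (hVb b) with hV'
  obtain ⟨D, hD, hDx⟩ := exists_der_of_rel φ (fun c => by rw [hφ]; rfl) X' V' (by
    intro R h0
    obtain ⟨h1, h2⟩ := hφx R
    rw [h2] at h0
    have h3 := hR R (gm_eq_zero.1 h0)
    choose h4 h5 using hφx
    have h6 : ∀ b, eval₂ φ X' (pderiv b R) * V' b = gm w₁ (fun z => evO OO x (pderiv b R) z * V z b) ((h4 (pderiv b R)).mul (hVb b)) := by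
      intro b
      rw [h5, gm_mul']
    rw [Finset.sum_congr rfl fun b _ => h6 b, gm_sum' (f := fun b z => evO OO x (pderiv b R) z * V z b)
      (h := Finset.analyticAt_fun_sum _ fun b _ => (h4 (pderiv b R)).mul (hVb b))]
    exact gm_eq_zero.2 h3)
  have hy : AnalyticAt ℂ (fun z => pt (x z) (V z)) w₁ := by
    rw [analyticAt_pi_iff]
    rintro (b | b)
    · exact hxb b
    · exact hVb b
  have hs : (fun s => gm w₁ (fun z => pt (x z) (V z) s) ((analyticAt_pi_iff.mp hy) s)) = Sum.elim X' V' := by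
    funext s
    rcases s with b | b <;> rfl
  have hev : ∀ p : MvPolynomial (Ph N) ℂ, ∃ h : AnalyticAt ℂ (fun z => eval (pt (x z) (V z)) p) w₁,
      aeval (Sum.elim X' V') p = gm w₁ (fun z => eval (pt (x z) (V z)) p) h := by
    intro p
    obtain ⟨h1, h2⟩ := gm_eval hy p
    rw [hs] at h2
    exact ⟨h1, h2⟩
  have h1 := crit_alg G I D hDx (by
    intro l
    obtain ⟨g, hg, hgl⟩ := hG l
    obtain ⟨h1, h2⟩ := hev (G l)
    have h3 : gm w₁ (fun z => eval (pt (x z) (V z)) (G l)) h1 = φ ⟨g, hg⟩ := by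
      rw [hφ]
      exact gm_inj.2 hgl
    rw [h2, h3, hD]) (by
    obtain ⟨h1, h2⟩ := hev (vdet G I)
    rw [h2]
    intro h3
    exact hI (gm_eq_zero.1 h3).self_of_nhds)
  refine ⟨hI, fun l k => ?_⟩
  obtain ⟨h2, h3⟩ := hev ((⇑(Dt G I))^[k + 1] (G l))
  have h4 := h1 l k
  rw [h3] at h4
  exact (gm_eq_zero.1 h4).self_of_nhds

end Pool.Agent.GA
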