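import Pool.Agent.GA.HPl
import Pool.Agent.GG.Cst

/-!
# GA Ent: entire curves

`f (1 / z)` on the punctured disc.  If it extends, `θ_k (f')` (in the coordinate of `ℂ`, for a global lift, `H17.exists_global_lift`) is entire and tends to `0` at `∞` (`θ_k (f') = θ_k (df/du) (-1/z²)^(m k)`, `u = 1 / z`): it is `0`, so `f' ∈ span f` (`GG.no_common_zero`) and `f` is
constant.  Otherwise `R (f z) = 0` for `|z| > 1`, so for all `z` (identity theorem).
-/

set_option autoImplicit false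

open MvPolynomial Topology Filter Metric
open Pool.Agent.H13.SM (conTan cone)
open Pool.Agent.H17 (PN VanishesAt HolomorphicInto puncturedDisc)
open Pool.Agent.H17EF (projVar)
open Pool.Agent.H62.FC (Homog)
open Pool.Agent.H36.BP (EN fs wd)
open Pool.Agent.GG

namespace Pool.Agent.GA

variable {N : ℕ} {P : Ideal (MvPolynomial (Fin (N + 1)) ℂ)} {J : ℕ} {m : Fin J → ℕ} {θ : ∀ k, SymSec P (m k)}

/-- the values of a symmetric differential in the coordinates `z` and `u = 1 / z` -/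
private theorem ent_val (hP : Homog P) {n : ℕ} (t : SymSec P n) {F φ : ℂ → Fin (N + 1) → ℂ} (hF : Differentiable ℂ F) (hFX : ∀ z, F z ∈ cone P)
    {u : ℂ} (hu : u ≠ 0) (hφ : DifferentiableAt ℂ φ u) (hφ0 : φ u ≠ 0)
    (hr : ∀ᶠ v in 𝓝 u, ∀ i j, φ v i * F v⁻¹ j - φ v j * F v⁻¹ i = 0) :
    t.toFun (φ u) (deriv φ u) = (-(u ^ 2)⁻¹) ^ n * t.toFun (F u⁻¹) (deriv F u⁻¹) := by
  obtain ⟨x, hx⟩ : ∃ x, x = F u⁻¹ := ⟨_, rfl⟩
  obtain ⟨v, hv⟩ : ∃ v, v = deriv F u⁻¹ := ⟨_, rfl⟩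
  have hxP : x ∈ cone P := hx ▸ hFX _
  have hvP : v ∈ conTan P x := by
    rw [hv, hx]
    exact cst_deriv_mem (hF _) (Eventually.of_forall hFX)
  -- a coordinate
  obtain ⟨j, hj⟩ : ∃ j, x j ≠ 0 := by
    by_contra hcon
    push Not at hcon
    exact hxP.1 (funext hcon)
  -- the lift near `u`
  have hFi : HasDerivAt (fun v : ℂ => F v⁻¹) ((-(u ^ 2)⁻¹) • v) u := by
    rw [hv]
    exact (hF u⁻¹).hasDerivAt.scomp u (hasDerivAt_inv hu)
  have hFj : ∀ᶠ w in 𝓝 u, F w⁻¹ j ≠ 0 := by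
    have h1 : ContinuousAt (fun w : ℂ => F w⁻¹ j) u := (hasDerivAt_pi.1 hFi j).continuousAt
    refine h1.eventually_ne ?_
    rw [← hx]
    exact hj
  obtain ⟨c, hc⟩ : ∃ c : ℂ → ℂ, c = fun w => φ w j / F w⁻¹ j := ⟨_, rfl⟩
  have hcd : DifferentiableAt ℂ c u := by
    rw [hc]
    refine DifferentiableAt.div (differentiableAt_pi.1 hφ j) (hasDerivAt_pi.1 hFi j).differentiableAt ?_
    rw [← hx]
    exact hj
  have hφc : φ =ᶠ[𝓝 u] fun w => c w • F w⁻¹ := by
    filter_upwards [hr, hFj] with w h1 h2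
    funext i
    rw [hc]
    simp only [Pi.smul_apply, smul_eq_mul]
    rw [div_mul_eq_mul_div, eq_div_iff h2]
    linear_combination h1 i j
  have hφu : φ u = c u • x := by
    rw [hx]
    exact hφc.self_of_nhds
  have hcu : c u ≠ 0 := by
    intro h
    rw [h, zero_smul] at hφu
    exact hφ0 hφu
  have hdφ : deriv φ u = c u • ((-(u ^ 2)⁻¹) • v + ((c u)⁻¹ * deriv c u) • x) := by
    rw [hφc.deriv_eq]
    have h1 := (hcd.hasDerivAt.smul hFi).deriv
    have h2 : deriv (fun w => c w • F w⁻¹) u = c u • (-(u ^ 2)⁻¹) • v + deriv c u • F u⁻¹ := h1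
    rw [h2, smul_add, smul_smul (c u) ((c u)⁻¹ * deriv c u) x, ← mul_assoc, mul_inv_cancel₀ hcu, one_mul, ← hx]
  have hvP' : (-(u ^ 2)⁻¹) • v ∈ conTan P x := (conTan P x).smul_mem _ hvP
  have hw : (-(u ^ 2)⁻¹) • v + ((c u)⁻¹ * deriv c u) • x ∈ conTan P x :=
    (conTan P x).add_mem hvP' ((conTan P x).smul_mem _ (Pool.Agent.AD.G.self_mem_conTan hP hxP))
  rw [hφu, hdφ, t.scale x hxP _ hw _ hcu, t.add_smul x hxP _ hvP', t.smul x hxP _ hvP, ← hx, ← hv]

/-- a curve with `θ (f') = 0` is constant -/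
private theorem ent_const (hθ : Polar θ) (hm : ∀ k, 1 ≤ m k) {f : ℂ → PN N} {F : ℂ → Fin (N + 1) → ℂ} (hF : Differentiable ℂ F)
    (hFf : ∀ z, ∃ h : F z ≠ 0, f z = Projectivization.mk ℂ (F z) h) (hFX : ∀ z, F z ∈ cone P)
    (h : ∀ k z, (θ k).toFun (F z) (deriv F z) = 0) (z w : ℂ) : f z = f w := by
  have h0 : ∀ z, F z ≠ 0 := fun z => (hFX z).1
  have hl : Pool.Agent.H14.V.IsLift (fun z => (WithLp.toLp 2 (F z) : EN N)) f :=
    ⟨(Pool.Agent.H17EF.LE N).differentiable.comp hF, fun z => hFf z⟩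
  have hd : ∀ z, deriv (fun z => (WithLp.toLp 2 (F z) : EN N)) z = WithLp.toLp 2 (deriv F z) := by
    intro z
    exact ((Pool.Agent.H17EF.LE N : (Fin (N + 1) → ℂ) →L[ℂ] EN N).hasFDerivAt.comp_hasDerivAt z (hF z).hasDerivAt).deriv
  have hfs : ∀ z, fs (WithLp.toLp 2 (F z) : EN N) (deriv (fun z => (WithLp.toLp 2 (F z) : EN N)) z) = 0 := by
    intro z
    rw [hd]
    have h1 := no_common_zero hθ hm (hFX z) (cst_deriv_mem (hF z) (Eventually.of_forall hFX)) (fun k => h k z)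
    obtain ⟨a, ha⟩ := Submodule.mem_span_singleton.1 h1
    unfold fs
    rw [(Pool.Agent.H36.BP.wd_eq_zero (fun h => h0 z (WithLp.toLp_injective 2 h))).2 ⟨a, by rw [← ha]; rfl⟩, zero_div]
  apply Pool.Agent.H17EF.prP_injective
  rw [hl.prP, hl.prP]
  exact Pool.Agent.H14.V.pr_const hl.1 (fun z => hl.ne_zero z) hfs z w

theorem entire_of_punctured (hP : Homog P) (hθ : Polar θ) (hm : ∀ k, 1 ≤ m k) {R : MvPolynomial (Fin (N + 1)) ℂ} {e : ℕ} (hR : R.IsHomogeneous e)
    (hD : ∀ f : ℂ → PN N, HolomorphicInto f puncturedDisc → (∀ z ∈ puncturedDisc, f z ∈ projVar P) → (∃ z ∈ puncturedDisc, ¬ VanishesAt R (f z)) →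
      ∃ g : ℂ → PN N, HolomorphicInto g (ball 0 1) ∧ ∀ z ∈ puncturedDisc, g z = f z)
    {f : ℂ → PN N} (hf : HolomorphicInto f Set.univ) (hX : ∀ z, f z ∈ projVar P) (hne : ∃ z w, f z ≠ f w) (z : ℂ) : VanishesAt R (f z) := by
  classical
  -- a global lift
  obtain ⟨x, hx⟩ := Pool.Agent.H17.exists_global_lift hf
  obtain ⟨F, hFx⟩ : ∃ F : ℂ → Fin (N + 1) → ℂ, F = fun z j => (x j : ℂ → ℂ) z := ⟨_, rfl⟩
  have hF : Differentiable ℂ F := by
    rw [hFx]
    exact differentiable_pi.2 fun j => (x j).diff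
  have hFf : ∀ z, ∃ h : F z ≠ 0, f z = Projectivization.mk ℂ (F z) h := by
    intro z
    rw [hFx]
    exact hx z
  have hFX : ∀ z, F z ∈ cone P := by
    intro z
    obtain ⟨h, e⟩ := hFf z
    have h1 := hX z
    rw [e] at h1
    exact (Pool.Agent.H17EF.mk_mem_projVar hP h).1 h1
  -- the curve on the punctured disc
  obtain ⟨g, hg⟩ : ∃ g : ℂ → PN N, g = fun z => f z⁻¹ := ⟨_, rfl⟩
  have hgh : HolomorphicInto g puncturedDisc := by
    intro z hz
    have hz0 : z ≠ 0 := hz.2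
    refine ⟨fun w => F w⁻¹, ?_, Eventually.of_forall fun w => ?_⟩
    · exact (hF.analyticAt z⁻¹).fun_comp (analyticAt_inv hz0)
    · rw [hg]
      exact hFf w⁻¹
  by_cases hcase : ∃ z ∈ puncturedDisc, ¬ VanishesAt R (g z)
  · exfalso
    obtain ⟨G, hG, hGg⟩ := hD g hgh (fun z _ => by rw [hg]; exact hX _) hcase
    obtain ⟨φ, hφ, hφG⟩ := hG 0 (mem_ball_self one_pos)
    have hφ0 : φ 0 ≠ 0 := hφG.self_of_nhds.1
    -- near `0`
    have hnear : ∀ᶠ u in 𝓝 (0 : ℂ), u ≠ 0 → ∀ i j, φ u i * F u⁻¹ j - φ u j * F u⁻¹ i = 0 := by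
      filter_upwards [hφG, ball_mem_nhds (0 : ℂ) one_pos] with u h1 h2 h3
      obtain ⟨h4, h5⟩ := h1
      obtain ⟨h6, h7⟩ := hFf u⁻¹
      have h8 := hGg u ⟨h2, h3⟩
      rw [h5, hg] at h8
      have h9 : Projectivization.mk ℂ (φ u) h4 = Projectivization.mk ℂ (F u⁻¹) h6 := by
        rw [h8, ← h7]
      rw [Projectivization.mk_eq_mk_iff'] at h9
      obtain ⟨a, ha⟩ := h9
      intro i j
      rw [← ha]
      simp only [Pi.smul_apply, smul_eq_mul]
      ring
    have hcone' : ∀ᶠ u in 𝓝 (0 : ℂ), u ≠ 0 → φ u ∈ cone P := by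
      filter_upwards [hφG, ball_mem_nhds (0 : ℂ) one_pos] with u h1 h2 h3
      obtain ⟨h4, h5⟩ := h1
      have h8 := hGg u ⟨h2, h3⟩
      rw [h5, hg] at h8
      have h9 := hX u⁻¹
      rw [← (show _ = f u⁻¹ from h8)] at h9
      exact (Pool.Agent.H17EF.mk_mem_projVar hP h4).1 h9
    have hcone : ∀ᶠ u in 𝓝 (0 : ℂ), φ u ∈ cone P := by
      filter_upwards [hcone'] with u h1
      rcases eq_or_ne u 0 with h2 | h2
      · rw [h2]
        refine ⟨hφ0, fun Q hQ => ?_⟩
        have h3 : Tendsto (fun u => eval (φ u) Q) (𝓝[≠] 0) (𝓝 (eval (φ 0) Q)) :=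
          ((MvPolynomial.continuous_eval Q).continuousAt.comp hφ.continuousAt).tendsto.mono_left nhdsWithin_le_nhds
        have h4 : Tendsto (fun u => eval (φ u) Q) (𝓝[≠] 0) (𝓝 0) := by
          refine tendsto_const_nhds.congr' ?_
          filter_upwards [nhdsWithin_le_nhds hcone', self_mem_nhdsWithin] with u h5 h6
          exact ((h5 h6).2 Q hQ).symm
        exact tendsto_nhds_unique h3 h4
      · exact h1 h2
    -- the symmetric differentials vanish along the curve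
    have hzero : ∀ k z, (θ k).toFun (F z) (deriv F z) = 0 := by
      intro k
      have hent : Differentiable ℂ fun z => (θ k).toFun (F z) (deriv F z) := fun z =>
        ((θ k).analyticAt_curve (hF.analyticAt z) (Eventually.of_forall hFX)).differentiableAt
      have hφa := ((θ k).analyticAt_curve hφ hcone).continuousAt
      have hlim : Tendsto (fun z => (θ k).toFun (F z) (deriv F z)) (cocompact ℂ) (𝓝 0) := by
        have h1 : Tendsto (fun u : ℂ => (-1) ^ (m k) * u ^ (2 * m k) * (θ k).toFun (φ u) (deriv φ u)) (𝓝 0) (𝓝 0) := by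
          have h2 : ContinuousAt (fun u : ℂ => (-1) ^ (m k) * u ^ (2 * m k) * (θ k).toFun (φ u) (deriv φ u)) 0 :=
            (by fun_prop : ContinuousAt (fun u : ℂ => (-1) ^ (m k) * u ^ (2 * m k)) 0).mul hφa
          have h3 := h2.tendsto
          have h4 : (2 * m k) ≠ 0 := by
            have := hm k
            omega
          rw [zero_pow h4, mul_zero, zero_mul] at h3
          exact h3
        have h2 : ∀ᶠ u in 𝓝[≠] (0 : ℂ), (-1) ^ (m k) * u ^ (2 * m k) * (θ k).toFun (φ u) (deriv φ u) = (θ k).toFun (F u⁻¹) (deriv F u⁻¹) := by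
          filter_upwards [nhdsWithin_le_nhds hnear.eventually_nhds, nhdsWithin_le_nhds hφ.eventually_analyticAt, nhdsWithin_le_nhds hφG, self_mem_nhdsWithin] with u h3 h4 h5 h6
          have hu : u ≠ 0 := h6
          have h7 : ∀ᶠ v in 𝓝 u, ∀ i j, φ v i * F v⁻¹ j - φ v j * F v⁻¹ i = 0 := by
            filter_upwards [h3, isOpen_ne.mem_nhds hu] with v h8 h9 using h8 h9
          rw [ent_val hP (θ k) hF hFX hu h4.differentiableAt h5.1 h7]
          have h10 : (-1) ^ (m k) * u ^ (2 * m k) * (-(u ^ 2)⁻¹) ^ (m k) = 1 := by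
            rw [pow_mul, ← mul_pow, ← mul_pow]
            have h11 : -1 * u ^ 2 * -(u ^ 2)⁻¹ = 1 := by field_simp
            rw [h11, one_pow]
          rw [← mul_assoc, h10, one_mul]
        have h3 : Tendsto (fun u : ℂ => (θ k).toFun (F u⁻¹) (deriv F u⁻¹)) (𝓝[≠] 0) (𝓝 0) :=
          (h1.mono_left nhdsWithin_le_nhds).congr' h2
        have h4 := h3.comp Filter.tendsto_inv₀_cobounded'
        rw [← Metric.cobounded_eq_cocompact]
        refine h4.congr fun z => ?_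
        simp
      exact fun z => hent.apply_eq_of_tendsto_cocompact z hlim
    obtain ⟨z, w, hzw⟩ := hne
    exact hzw (ent_const hθ hm hF hFf hFX hzero z w)
  · push Not at hcase
    have han : AnalyticOnNhd ℂ (fun z => eval (F z) R) Set.univ := by
      intro z _
      have h2 : AnalyticAt ℂ (fun w => aeval (fun s => F w s) R) z :=
        AnalyticAt.aeval_mvPolynomial (fun s => (analyticAt_pi_iff.1 (hF.analyticAt z)) s) R
      simpa only [MvPolynomial.aeval_eq_eval] using h2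
    have hev : ∀ᶠ z in 𝓝 (2 : ℂ), eval (F z) R = 0 := by
      have h1 : {z : ℂ | 1 < ‖z‖} ∈ 𝓝 (2 : ℂ) := by
        refine (isOpen_lt continuous_const continuous_norm).mem_nhds ?_
        show (1 : ℝ) < ‖(2 : ℂ)‖
        norm_num
      filter_upwards [h1] with z hz
      have hz1 : (1 : ℝ) < ‖z‖ := hz
      have hz0 : z ≠ 0 := by
        intro h
        rw [h, norm_zero] at hz1
        linarith
      have h2 : z⁻¹ ∈ puncturedDisc := by
        refine ⟨?_, inv_ne_zero hz0⟩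
        rw [mem_ball_zero_iff, norm_inv]
        exact inv_lt_one_of_one_lt₀ hz1
      have h3 := hcase _ h2
      rw [hg] at h3
      simp only [inv_inv] at h3
      obtain ⟨h4, h5⟩ := hFf z
      rw [h5, Pool.Agent.H17.vanishesAt_mk_iff hR] at h3
      exact h3
    have h0 := han.eqOn_zero_of_preconnected_of_eventuallyEq_zero isPreconnected_univ (Set.mem_univ (2 : ℂ)) hev
    obtain ⟨h4, h5⟩ := hFf z
    rw [h5, Pool.Agent.H17.vanishesAt_mk_iff hR]
    exact h0 (Set.mem_univ z)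

end Pool.Agent.GA
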