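import Pool.Agent.MQ.Ker
import Pool.Agent.H22.W.Pow

/-!
# GA SmlCore: a holomorphic function is bounded by the area mean of its powers
-/

set_option autoImplicit false

open Topology Filter Metric MeasureTheory Set

noncomputable section

namespace Pool.Agent.GA

private theorem area_mean' {u : ℂ → ℝ} {c : ℂ} {h : ℝ} (hh : 0 < h) (hu : Continuous u)
    (hle : ∀ r, 0 < r → r < h → u c ≤ Real.circleAverage u c r) : Real.pi * h ^ 2 * u c ≤ ∫ z in ball c h, u z := by
  obtain ⟨g, hg⟩ : ∃ g : ℝ → ℝ, g = (Iio (Real.log h)).indicator fun s => Real.exp (2 * s) := ⟨_, rfl⟩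
  have hgz : ∀ z : ℂ, z ≠ 0 → g (Real.log ‖z‖) / ‖z‖ ^ 2 * u (c + z) = (ball (0 : ℂ) h).indicator (fun z => u (c + z)) z := by
    intro z hz
    have hz0 : 0 < ‖z‖ := norm_pos_iff.2 hz
    by_cases hzh : ‖z‖ < h
    · have h1 : Real.log ‖z‖ ∈ Iio (Real.log h) := Real.log_lt_log hz0 hzh
      have h2 : z ∈ ball (0 : ℂ) h := by simpa using hzh
      rw [hg, indicator_of_mem h1, indicator_of_mem h2, two_mul, Real.exp_add, Real.exp_log hz0]
      field_simp
    · have h1 : Real.log ‖z‖ ∉ Iio (Real.log h) := by
        simp only [mem_Iio, not_lt]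
        exact Real.log_le_log hh (not_lt.1 hzh)
      have h2 : z ∉ ball (0 : ℂ) h := by simpa using hzh
      rw [hg, indicator_of_notMem h1, indicator_of_notMem h2]
      simp
  have hae : (fun z : ℂ => g (Real.log ‖z‖) / ‖z‖ ^ 2 * u (c + z)) =ᵐ[volume] (ball (0 : ℂ) h).indicator (fun z => u (c + z)) := by
    have : ∀ᵐ z : ℂ, z ≠ 0 := by
      rw [ae_iff]
      simp
    filter_upwards [this] with z hz using hgz z hz
  have hcont : ContinuousOn (fun z => u (c + z)) (closedBall (0 : ℂ) h) := (hu.comp (by fun_prop)).continuousOn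
  have hint' : IntegrableOn (fun z => u (c + z)) (ball (0 : ℂ) h) :=
    (hcont.integrableOn_compact (isCompact_closedBall _ _)).mono_set ball_subset_closedBall
  have hint : Integrable (fun z : ℂ => g (Real.log ‖z‖) / ‖z‖ ^ 2 * u (c + z)) := by
    rw [integrable_congr hae]
    exact hint'.integrable_indicator measurableSet_ball
  have h1 := Pool.Agent.MQ.polar_radial g (fun z => u (c + z)) hint
  rw [integral_congr_ae hae, integral_indicator measurableSet_ball] at h1
  have h2 : ∫ z in ball c h, u z = ∫ z in ball (0 : ℂ) h, u (c + z) := by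
    have hpre : (fun z => c + z) ⁻¹' (ball c h) = ball (0 : ℂ) h := by
      ext z
      simp [dist_eq_norm]
    have := (measurePreserving_add_left volume c).setIntegral_preimage_emb (measurableEmbedding_addLeft c) u (ball c h)
    rw [hpre] at this
    exact this.symm
  rw [h2, h1]
  have hc : ∀ r, Real.circleAverage (fun z => u (c + z)) 0 r = Real.circleAverage u c r := by
    intro r
    simp only [Real.circleAverage_def]
    congr 1
    refine intervalIntegral.integral_congr fun θ _ => ?_
    simp [circleMap]
  simp only [hc]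
  -- the integral over the radii
  have hrad : ∀ s : ℝ, g s * u c ≤ g s * Real.circleAverage u c (Real.exp s) := by
    intro s
    by_cases hs : s ∈ Iio (Real.log h)
    · have h3 : Real.exp s < h := by
        have := Real.exp_lt_exp.2 hs
        rwa [Real.exp_log hh] at this
      have h4 : 0 ≤ g s := by rw [hg, indicator_of_mem hs]; exact (Real.exp_pos _).le
      exact mul_le_mul_of_nonneg_left (hle _ (Real.exp_pos _) h3) h4
    · rw [hg, indicator_of_notMem hs]
      simp
  have hgint : Integrable g := by
    rw [hg]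
    refine IntegrableOn.integrable_indicator ?_ measurableSet_Iio
    exact (integrableOn_exp_mul_Iic (by norm_num : (0 : ℝ) < 2) (Real.log h)).mono_set Iio_subset_Iic_self
  have hgi : ∫ s, g s = h ^ 2 / 2 := by
    rw [hg, integral_indicator measurableSet_Iio, ← integral_Iic_eq_integral_Iio, integral_exp_mul_Iic (by norm_num : (0 : ℝ) < 2) (Real.log h)]
    rw [show 2 * Real.log h = Real.log h + Real.log h by ring, Real.exp_add, Real.exp_log hh]
    ring
  have hF : Continuous fun r : ℝ => Real.circleAverage u c r := by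
    have h0 : (fun r : ℝ => Real.circleAverage u c r) = fun r : ℝ => (2 * Real.pi)⁻¹ * ∫ θ in (0 : ℝ)..2 * Real.pi, u (circleMap c r θ) := by
      funext r
      rw [Real.circleAverage_def, smul_eq_mul]
    rw [h0]
    refine continuous_const.mul ?_
    refine intervalIntegral.continuous_parametric_intervalIntegral_of_continuous' ?_ _ _
    have : Continuous fun p : ℝ × ℝ => circleMap c p.1 p.2 := by
      unfold circleMap
      fun_prop
    exact hu.comp this
  obtain ⟨M, hM⟩ : ∃ M, ∀ r ∈ Icc (0 : ℝ) h, |Real.circleAverage u c r| ≤ M := by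
    obtain ⟨M, hM⟩ := (isCompact_Icc (a := (0 : ℝ)) (b := h)).exists_bound_of_continuousOn hF.continuousOn
    exact ⟨M, fun r hr => by simpa using hM r hr⟩
  have hgm : Measurable g := by
    rw [hg]
    exact (by fun_prop : Measurable fun s : ℝ => Real.exp (2 * s)).indicator measurableSet_Iio
  have hgF : Integrable fun s => g s * Real.circleAverage u c (Real.exp s) := by
    refine Integrable.mono' (hgint.mul_const M) ((hgm.mul (hF.comp Real.continuous_exp).measurable).aestronglyMeasurable) (Eventually.of_forall fun s => ?_)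
    by_cases hs : s ∈ Iio (Real.log h)
    · have h3 : Real.exp s < h := by
        have := Real.exp_lt_exp.2 hs
        rwa [Real.exp_log hh] at this
      have h4 : 0 ≤ g s := by rw [hg, indicator_of_mem hs]; exact (Real.exp_pos _).le
      rw [Real.norm_eq_abs, abs_mul, abs_of_nonneg h4]
      exact mul_le_mul_of_nonneg_left (hM _ ⟨(Real.exp_pos _).le, h3.le⟩) h4
    · have h4 : g s = 0 := by rw [hg, indicator_of_notMem hs]
      rw [h4]
      simp
  have h5 := integral_mono (hgint.mul_const (u c)) hgF hrad
  simp only [integral_mul_const] at h5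
  rw [hgi] at h5
  have hpi := Real.pi_pos
  nlinarith

/-- the area mean over a disc, from the means over the circles -/
theorem area_mean {u : ℂ → ℝ} {c : ℂ} {h : ℝ} (hh : 0 < h) (hu : ContinuousOn u (closedBall c h))
    (hle : ∀ r, 0 < r → r < h → u c ≤ Real.circleAverage u c r) : Real.pi * h ^ 2 * u c ≤ ∫ z in ball c h, u z := by
  obtain ⟨G, hG⟩ := ContinuousMap.exists_restrict_eq (isClosed_closedBall (x := c) (ε := h)) ⟨(closedBall c h).domRestrict u, hu.domRestrict⟩
  have hGu : ∀ z ∈ closedBall c h, G z = u z := by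
    intro z hz
    exact congrArg (fun f => f ⟨z, hz⟩) hG
  have hc : c ∈ closedBall c h := mem_closedBall_self hh.le
  have h1 := area_mean' (u := fun z => G z) hh G.continuous (c := c) (by
    intro r hr hrh
    rw [hGu c hc]
    refine (hle r hr hrh).trans_eq (Real.circleAverage_congr_sphere ?_)
    intro z hz
    have hz' : z ∈ closedBall c h := by
      rw [abs_of_pos hr] at hz
      exact sphere_subset_closedBall.trans (closedBall_subset_closedBall hrh.le) hz
    exact (hGu z hz').symm)
  rw [hGu c hc] at h1
  rwa [setIntegral_congr_fun measurableSet_ball fun z hz => hGu z (ball_subset_closedBall hz)] at h1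

/-- the power of a holomorphic function is at most its area mean -/
theorem rpow_le_area {s : ℂ → ℂ} {c : ℂ} {h p : ℝ} (hh : 0 < h) (hp : 0 < p) (hs : AnalyticOnNhd ℂ s (closedBall c h)) :
    Real.pi * h ^ 2 * ‖s c‖ ^ p ≤ ∫ z in ball c h, ‖s z‖ ^ p := by
  refine area_mean (u := fun z => ‖s z‖ ^ p) hh ?_ fun r hr hrh => ?_
  · exact (hs.continuousOn.norm).rpow_const fun z _ => Or.inr hp.le
  · exact Pool.Agent.H22.W.rpow_le_avg hr hp (hs.mono (closedBall_subset_closedBall hrh.le))

/-- The power of a holomorphic function is bounded by the integral of a majorant over a square. -/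
theorem rpow_le_square {s : ℂ → ℂ} {e : ℂ → ℝ} {c : ℂ} {h p C : ℝ} (hh : 0 < h) (hp : 0 < p) (hC : 0 ≤ C) (hs : AnalyticOnNhd ℂ s (closedBall c h))
    (he : ContinuousOn e (Icc (c.re - h) (c.re + h) ×ℂ Icc (c.im - h) (c.im + h))) (he0 : ∀ z ∈ Icc (c.re - h) (c.re + h) ×ℂ Icc (c.im - h) (c.im + h), 0 ≤ e z)
    (hle : ∀ z ∈ closedBall c h, ‖s z‖ ^ p ≤ C * e z) :
    Real.pi * h ^ 2 * ‖s c‖ ^ p ≤ C * ∫ x in (c.re - h)..(c.re + h), ∫ y in (c.im - h)..(c.im + h), e (x + y * Complex.I) := by
  have hsub : ball c h ⊆ Icc (c.re - h) (c.re + h) ×ℂ Icc (c.im - h) (c.im + h) := by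
    intro z hz
    have h1 : ‖z - c‖ < h := by simpa [dist_eq_norm] using hz
    have h2 := (Complex.abs_re_le_norm (z - c)).trans h1.le
    have h3 := (Complex.abs_im_le_norm (z - c)).trans h1.le
    rw [Complex.sub_re, abs_le] at h2
    rw [Complex.sub_im, abs_le] at h3
    exact ⟨⟨by linarith, by linarith⟩, ⟨by linarith, by linarith⟩⟩
  have hK : IsCompact (Icc (c.re - h) (c.re + h) ×ℂ Icc (c.im - h) (c.im + h)) := isCompact_Icc.reProdIm isCompact_Icc
  have hei : IntegrableOn e (Icc (c.re - h) (c.re + h) ×ℂ Icc (c.im - h) (c.im + h)) := he.integrableOn_compact hK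
  have h1 := rpow_le_area hh hp hs
  have h2 : ∫ z in ball c h, ‖s z‖ ^ p ≤ ∫ z in ball c h, C * e z := by
    refine setIntegral_mono_on ?_ ((hei.mono_set hsub).const_mul C) measurableSet_ball fun z hz => hle z (ball_subset_closedBall hz)
    exact (((hs.continuousOn.norm).rpow_const fun z _ => Or.inr hp.le).integrableOn_compact (isCompact_closedBall _ _)).mono_set ball_subset_closedBall
  have h3 : ∫ z in ball c h, C * e z ≤ C * ∫ z in Icc (c.re - h) (c.re + h) ×ℂ Icc (c.im - h) (c.im + h), e z := by
    rw [integral_const_mul]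
    refine mul_le_mul_of_nonneg_left ?_ hC
    refine setIntegral_mono_set hei ?_ (LE.le.eventuallyLE hsub)
    exact (ae_restrict_iff' hK.measurableSet).2 (Eventually.of_forall fun z hz => he0 z hz)
  have h4 : ∫ z in Icc (c.re - h) (c.re + h) ×ℂ Icc (c.im - h) (c.im + h), e z =
      ∫ x in (c.re - h)..(c.re + h), ∫ y in (c.im - h)..(c.im + h), e (x + y * Complex.I) := by
    have h5 := (Complex.volume_preserving_equiv_real_prod.symm).setIntegral_preimage_emb Complex.measurableEquivRealProd.symm.measurableEmbedding e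
      (Icc (c.re - h) (c.re + h) ×ℂ Icc (c.im - h) (c.im + h))
    have h6 : Complex.measurableEquivRealProd.symm ⁻¹' (Icc (c.re - h) (c.re + h) ×ℂ Icc (c.im - h) (c.im + h)) =
        Icc (c.re - h) (c.re + h) ×ˢ Icc (c.im - h) (c.im + h) := by
      ext p
      simp [Complex.mem_reProdIm, Complex.measurableEquivRealProd, Prod.le_def]
      tauto
    rw [h6] at h5
    rw [← h5]
    have h7 : IntegrableOn (fun p : ℝ × ℝ => e (Complex.measurableEquivRealProd.symm p)) (Icc (c.re - h) (c.re + h) ×ˢ Icc (c.im - h) (c.im + h))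
        (volume.prod volume) := by
      have := ((Complex.volume_preserving_equiv_real_prod.symm).integrableOn_comp_preimage Complex.measurableEquivRealProd.symm.measurableEmbedding
        (f := e) (s := Icc (c.re - h) (c.re + h) ×ℂ Icc (c.im - h) (c.im + h))).2 hei
      rw [h6] at this
      exact this
    have h8 := setIntegral_prod (fun p : ℝ × ℝ => e (Complex.measurableEquivRealProd.symm p)) h7
    have h9 : ∀ x y : ℝ, Complex.measurableEquivRealProd.symm (x, y) = x + y * Complex.I := fun x y => by
      exact Complex.equivRealProdCLM_symm_apply (x, y)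
    refine h8.trans ?_
    simp only [h9]
    rw [integral_Icc_eq_integral_Ioc, ← intervalIntegral.integral_of_le (by linarith)]
    refine intervalIntegral.integral_congr fun x _ => ?_
    rw [integral_Icc_eq_integral_Ioc, ← intervalIntegral.integral_of_le (by linarith)]
  rw [← h4]
  exact h1.trans (h2.trans h3)

end Pool.Agent.GA
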