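import Pool.Agent.GA.Defs
import Pool.Agent.GA.SmlCore

/-!
# GA SmlArea: a holomorphic function which is dominated by the speed is bounded by the area
-/

set_option autoImplicit false

open Topology Filter Metric MeasureTheory Set

noncomputable section

namespace Pool.Agent.GA

/-- the integrals over the vertical segments are continuous -/
theorem sml_continuousOn_int {h : ℂ → ℝ} (hc : ContinuousOn h HP) (a b : ℝ) :
    ContinuousOn (fun t : ℝ => ∫ y in a..b, h (t + y * Complex.I)) (Ioi 0) := by
  intro t₀ ht₀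
  have ht₀ : 0 < t₀ := ht₀
  have ha : 0 < t₀ / 2 := by positivity
  obtain ⟨k, hk⟩ : ∃ k : ℂ → ℝ, k = fun z => h ((max z.re (t₀ / 2) : ℝ) + z.im * Complex.I) := ⟨_, rfl⟩
  have hkc : Continuous k := by
    rw [hk]
    refine hc.comp_continuous (by fun_prop) fun z => ?_
    simp only [HP, mem_ofPred_eq, Complex.add_re, Complex.ofReal_re, Complex.mul_re, Complex.I_re, mul_zero, Complex.ofReal_im, Complex.I_im, mul_one, sub_self,
      add_zero]
    exact lt_of_lt_of_le ha (le_max_right _ _)
  have h1 : Continuous (fun t : ℝ => ∫ y in a..b, k (t + y * Complex.I)) := by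
    refine intervalIntegral.continuous_parametric_intervalIntegral_of_continuous' ?_ _ _
    exact hkc.comp (by fun_prop)
  have h2 : (fun t : ℝ => ∫ y in a..b, h (t + y * Complex.I)) =ᶠ[𝓝 t₀] fun t : ℝ => ∫ y in a..b, k (t + y * Complex.I) := by
    filter_upwards [eventually_gt_nhds (show t₀ / 2 < t₀ by linarith)] with t ht
    refine intervalIntegral.integral_congr fun y _ => ?_
    simp only [hk]
    congr 1
    simp [max_eq_left ht.le]
  exact (h1.continuousAt.congr h2.symm).continuousWithinAt

/-- the means over the vertical segments are continuous -/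
theorem sml_continuousOn_mn {h : ℂ → ℝ} (hc : ContinuousOn h HP) : ContinuousOn (mn h) (Ioi 0) := sml_continuousOn_int hc 0 (2 * Real.pi)

/-- a holomorphic function which is dominated by the speed is bounded by the area -/
theorem sml_area {s : ℂ → ℝ} (hs : Speed s) {g : ℂ → ℂ} (hg : ∀ w ∈ HP, AnalyticAt ℂ g w) {p C : ℝ} (hp : 0 < p) (hC : 0 ≤ C)
    (hle : ∀ w ∈ HP, ‖g w‖ ^ p ≤ C * s w ^ 2) {w : ℂ} {h : ℝ} (hh : 0 < h) (hh1 : h ≤ Real.pi) (hw : 1 ≤ w.re - h) :
    Real.pi * h ^ 2 * ‖g w‖ ^ p ≤ C * AA s (w.re + h) := by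
  have hsc : ContinuousOn (fun w => s w ^ 2) HP := hs.cont.pow 2
  have hball : closedBall w h ⊆ HP := by
    intro z hz
    have h1 : ‖z - w‖ ≤ h := by simpa [dist_eq_norm] using hz
    have h2 := (Complex.abs_re_le_norm (z - w)).trans h1
    rw [Complex.sub_re, abs_le] at h2
    change 0 < z.re
    linarith [h2.1]
  have hsq : (Icc (w.re - h) (w.re + h) ×ℂ Icc (w.im - h) (w.im + h)) ⊆ HP := by
    intro z hz
    have h1 : w.re - h ≤ z.re := hz.1.1
    change 0 < z.re
    linarith
  have h1 := rpow_le_square (s := g) (e := fun w => s w ^ 2) (c := w) hh hp hC (fun z hz => hg z (hball hz)) (hsc.mono hsq) (fun z _ => sq_nonneg _)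
    (fun z hz => hle z (hball hz))
  refine h1.trans (mul_le_mul_of_nonneg_left ?_ hC)
  have hline : ∀ x : ℝ, 0 < x → ∀ y : ℝ, (x + y * Complex.I : ℂ) ∈ HP := by
    intro x hx y
    simpa [HP] using hx
  have hcy : ∀ x : ℝ, 0 < x → Continuous fun y : ℝ => s (x + y * Complex.I) ^ 2 := fun x hx =>
    hsc.comp_continuous (by fun_prop) (hline x hx)
  -- the inner integral
  have hin : ∀ x : ℝ, 0 < x → (∫ y in (w.im - h)..(w.im + h), s (x + y * Complex.I) ^ 2) ≤ mn (fun w => s w ^ 2) x := by
    intro x hx
    have hper : Function.Periodic (fun y : ℝ => s (x + y * Complex.I) ^ 2) (2 * Real.pi) := by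
      intro y
      have h2 : (x + (y + 2 * Real.pi : ℝ) * Complex.I : ℂ) = (x + y * Complex.I) + per := by
        rw [per]
        push_cast
        ring
      simp only
      rw [h2, hs.periodic _ (hline x hx y)]
    have h3 : mn (fun w => s w ^ 2) x = ∫ y in (w.im - Real.pi)..(w.im + Real.pi), s (x + y * Complex.I) ^ 2 := by
      have := hper.intervalIntegral_add_eq 0 (w.im - Real.pi)
      rw [zero_add, show w.im - Real.pi + 2 * Real.pi = w.im + Real.pi by ring] at this
      exact this
    rw [h3]
    refine intervalIntegral.integral_mono_interval (by linarith) (by linarith) (by linarith) (Eventually.of_forall fun y => sq_nonneg _)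
      ((hcy x hx).intervalIntegrable _ _)
  have hmc : ContinuousOn (mn fun w => s w ^ 2) (Ioi 0) := sml_continuousOn_mn hsc
  have hmi : ∀ a b : ℝ, 1 ≤ a → 1 ≤ b → IntervalIntegrable (mn fun w => s w ^ 2) volume a b := by
    intro a b ha hb
    refine (hmc.mono ?_).intervalIntegrable
    intro x hx
    have : min a b ≤ x := hx.1
    have h2 : 1 ≤ min a b := le_min ha hb
    change 0 < x
    linarith
  have hmn0 : ∀ x, 0 ≤ mn (fun w => s w ^ 2) x := fun x =>
    intervalIntegral.integral_nonneg (by positivity) fun y _ => sq_nonneg _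
  have hle1 : (∫ x in (w.re - h)..(w.re + h), ∫ y in (w.im - h)..(w.im + h), s (x + y * Complex.I) ^ 2) ≤ ∫ x in (w.re - h)..(w.re + h), mn (fun w => s w ^ 2) x := by
    refine intervalIntegral.integral_mono_on (by linarith) ?_ (hmi _ _ hw (by linarith)) fun x hx => hin x (by linarith [hx.1])
    refine ((sml_continuousOn_int hsc (w.im - h) (w.im + h)).mono ?_).intervalIntegrable
    intro x hx
    rw [uIcc_of_le (by linarith)] at hx
    change 0 < x
    linarith [hx.1]
  refine hle1.trans ?_
  rw [AA, max_eq_left (by linarith)]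
  exact intervalIntegral.integral_mono_interval hw (by linarith) le_rfl (Eventually.of_forall fun x => hmn0 x) (hmi _ _ le_rfl (by linarith))

/-- the area is monotone -/
theorem sml_AA_mono {s : ℂ → ℝ} (hs : Speed s) : Monotone (AA s) := by
  intro a b hab
  have hmc : ContinuousOn (mn fun w => s w ^ 2) (Ioi 0) := sml_continuousOn_mn (hs.cont.pow 2)
  have hmn0 : ∀ x, 0 ≤ mn (fun w => s w ^ 2) x := fun x =>
    intervalIntegral.integral_nonneg (by positivity) fun y _ => sq_nonneg _
  refine intervalIntegral.integral_mono_interval le_rfl (le_max_right _ _) (max_le_max_right _ hab) (Eventually.of_forall fun x => hmn0 x) ?_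
  refine (hmc.mono ?_).intervalIntegrable
  intro x hx
  rw [uIcc_of_le (le_max_right _ _)] at hx
  change 0 < x
  linarith [hx.1]

end Pool.Agent.GA
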