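import Pool.Agent.GA.Bas
import Pool.Agent.GA.SmlArea
import Mathlib.Analysis.Complex.Periodic

/-!
# GA Ext0: curves of finite area extend

The values `s_k` of the symmetric differentials are bounded on `Re w > 2` (`sml_area`), so they are holomorphic functions of `z = e^(-w)` at `z = 0`
(`Function.Periodic`), with the value `0` at `0` because the area is finite: `|s_k| ≤ C e^(-Re w)`, so `sp F w ≤ C e^(-δ Re w)` (`theta_bd`).
The derivative of `|F_a|² / ∑ |F_i|²` is at most `2 (N + 1)` times the speed, so there is an index `a` such that this quotient is at least `1 / (2 (N + 1))`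
for large `Re w`: the quotients `F_i / F_a` are bounded, and have limits by `Function.Periodic`.
-/

set_option autoImplicit false

open MvPolynomial Topology Filter Metric
open Pool.Agent.H13.SM (conTan cone)
open Pool.Agent.H62.FC (Homog)
open Pool.Agent.GG

namespace Pool.Agent.GA

variable {N : ℕ} {P : Ideal (MvPolynomial (Fin (N + 1)) ℂ)} {J : ℕ} {m : Fin J → ℕ} {θ : ∀ k, SymSec P (m k)} {F : ℂ → Fin (N + 1) → ℂ}

/-- bounded periodic holomorphic functions -/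
theorem ext0_cusp {f : ℂ → ℂ} {X₀ K : ℝ} (hd : ∀ w : ℂ, X₀ < w.re → DifferentiableAt ℂ f w) (hper : ∀ w : ℂ, X₀ < w.re → f (w + per) = f w)
    (hK : ∀ w : ℂ, X₀ < w.re → ‖f w‖ ≤ K) :
    ∃ c : ℂ, Tendsto f (comap Complex.re atTop) (𝓝 c) ∧ ∃ C X₁ : ℝ, ∀ w : ℂ, X₁ < w.re → ‖f w - c‖ ≤ C * Real.exp (-w.re) := by
  classical
  obtain ⟨g, hg⟩ : ∃ g : ℂ → ℂ, g = fun z => if X₀ < z.im then f (-Complex.I * z) else 0 := ⟨_, rfl⟩
  have hre : ∀ z : ℂ, (-Complex.I * z).re = z.im := by intro z; simp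
  have hgp : Function.Periodic g ((2 * Real.pi : ℝ) : ℂ) := by
    intro z
    rw [hg]
    have h1 : (z + ((2 * Real.pi : ℝ) : ℂ)).im = z.im := by simp
    simp only [h1]
    split_ifs with h
    · have h2 := hper (-Complex.I * (z + ((2 * Real.pi : ℝ) : ℂ))) (by rw [hre, h1]; exact h)
      rw [← h2]
      congr 1
      unfold per
      push_cast
      ring
    · rfl
  have hev : ∀ᶠ z in comap Complex.im atTop, X₀ < z.im := tendsto_comap.eventually (eventually_gt_atTop X₀)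
  have hgd : ∀ᶠ z in comap Complex.im atTop, DifferentiableAt ℂ g z := by
    filter_upwards [hev] with z hz
    have h1 : g =ᶠ[𝓝 z] fun z => f (-Complex.I * z) := by
      filter_upwards [(isOpen_lt continuous_const Complex.continuous_im).mem_nhds hz] with y hy
      rw [hg]
      exact if_pos hy
    refine DifferentiableAt.congr_of_eventuallyEq ?_ h1
    exact DifferentiableAt.comp (g := f) (f := fun z => -Complex.I * z) z (hd _ (by rw [hre]; exact hz)) (by fun_prop)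
  have hgb : BoundedAtFilter (comap Complex.im atTop) g := by
    refine Asymptotics.IsBigO.of_bound K ?_
    filter_upwards [hev] with z hz
    rw [hg]
    simp only [if_pos hz, Pi.one_apply, norm_one, mul_one]
    exact hK _ (by rw [hre]; exact hz)
  have h2π : 0 < 2 * Real.pi := Real.two_pi_pos
  have h1 := Function.Periodic.tendsto_at_I_inf h2π hgp hgd hgb
  have h2 := Function.Periodic.exp_decay_sub_of_bounded_at_inf h2π hgp hgd hgb
  set c := Function.Periodic.cuspFunction (2 * Real.pi) g 0 with hc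
  have hI : ∀ w : ℂ, (Complex.I * w).im = w.re := by intro w; simp
  have hIt : Tendsto (fun w : ℂ => Complex.I * w) (comap Complex.re atTop) (comap Complex.im atTop) := by
    rw [tendsto_comap_iff]
    have : (Complex.im ∘ fun w : ℂ => Complex.I * w) = Complex.re := funext hI
    rw [this]
    exact tendsto_comap
  have hgf : ∀ w : ℂ, X₀ < w.re → g (Complex.I * w) = f w := by
    intro w hw
    rw [hg]
    simp only [hI, if_pos hw]
    congr 1
    linear_combination (-w) * Complex.I_mul_I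
  refine ⟨c, ?_, ?_⟩
  · refine (h1.comp hIt).congr' ?_
    filter_upwards [tendsto_comap.eventually (eventually_gt_atTop X₀)] with w hw
    exact hgf w hw
  · obtain ⟨C, hC⟩ := h2.bound
    rw [eventually_comap] at hC
    obtain ⟨X₁, hX₁⟩ := hC.exists_forall_of_atTop
    refine ⟨C, max X₀ X₁, fun w hw => ?_⟩
    have h3 := hX₁ w.re ((le_max_right _ _).trans hw.le) (Complex.I * w) (hI w)
    rw [hgf w (lt_of_le_of_lt (le_max_left _ _) hw), hI, Real.norm_eq_abs, abs_of_pos (Real.exp_pos _)] at h3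
    have h4 : -2 * Real.pi * w.re / (2 * Real.pi) = -w.re := by
      field_simp
    rwa [h4] at h3

/-- the values of the differentials decay -/
theorem ext0_decay {s : ℂ → ℝ} (hs : Speed s) {g : ℂ → ℂ} (hg : ∀ w ∈ HP, AnalyticAt ℂ g w) (hper : ∀ w ∈ HP, g (w + per) = g w) {m : ℕ} (hm : 1 ≤ m)
    {C : ℝ} (hC : 0 < C) (hle : ∀ w ∈ HP, ‖g w‖ ≤ C * s w ^ m) {B : ℝ} (hB : ∀ X, AA s X ≤ B) :
    ∃ C' X₁ : ℝ, ∀ w : ℂ, X₁ < w.re → ‖g w‖ ≤ C' * Real.exp (-w.re) := by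
  have hm0 : (0 : ℝ) < m := by exact_mod_cast hm
  -- boundedness
  obtain ⟨p, hp⟩ : ∃ p : ℝ, p = 2 / m := ⟨_, rfl⟩
  have hp0 : 0 < p := by rw [hp]; positivity
  have hle2 : ∀ w ∈ HP, ‖g w‖ ^ p ≤ C ^ p * s w ^ 2 := by
    intro w hw
    have hsw := hs.nonneg w hw
    calc ‖g w‖ ^ p ≤ (C * s w ^ m) ^ p := Real.rpow_le_rpow (norm_nonneg _) (hle w hw) hp0.le
      _ = C ^ p * s w ^ 2 := by
        rw [Real.mul_rpow hC.le (pow_nonneg hsw _), ← Real.rpow_natCast (s w) m, ← Real.rpow_mul hsw, hp]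
        rw [mul_div_cancel₀ _ hm0.ne']
        norm_cast
  have hbd : ∀ w : ℂ, 2 < w.re → ‖g w‖ ≤ (C ^ p * B / Real.pi) ^ (1 / p) := by
    intro w hw
    have hw0 : w ∈ HP := by change 0 < w.re; linarith
    have h1 := sml_area hs hg hp0 (Real.rpow_nonneg hC.le p) hle2 (w := w) (h := 1) one_pos (by linarith [Real.pi_gt_three]) (by linarith)
    have h2 : ‖g w‖ ^ p ≤ C ^ p * B / Real.pi := by
      rw [le_div_iff₀ Real.pi_pos]
      have h3 := mul_le_mul_of_nonneg_left (hB (w.re + 1)) (Real.rpow_nonneg hC.le p)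
      linarith
    calc ‖g w‖ = (‖g w‖ ^ p) ^ (1 / p) := by
          rw [← Real.rpow_mul (norm_nonneg _), mul_one_div_cancel hp0.ne', Real.rpow_one]
      _ ≤ _ := Real.rpow_le_rpow (Real.rpow_nonneg (norm_nonneg _) _) h2 (by positivity)
  obtain ⟨c, hc, C', X₁, h1⟩ := ext0_cusp (f := g) (X₀ := 2) (fun w hw => (hg w (by change 0 < w.re; linarith)).differentiableAt)
    (fun w hw => hper w (by change 0 < w.re; linarith)) hbd
  -- the limit is `0`
  have hc0 : c = 0 := by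
    by_contra hc0
    have hcn : 0 < ‖c‖ := norm_pos_iff.2 hc0
    have h2 : ∀ᶠ w in comap Complex.re atTop, ‖c‖ / 2 < ‖g w‖ := hc.norm.eventually (lt_mem_nhds (by linarith))
    rw [eventually_comap] at h2
    obtain ⟨X₂, hX₂⟩ := h2.exists_forall_of_atTop
    obtain ⟨κ, hκ⟩ : ∃ κ : ℝ, κ = min (‖c‖ / (2 * C)) 1 := ⟨_, rfl⟩
    have hκ0 : 0 < κ := by rw [hκ]; exact lt_min (by positivity) one_pos
    have hκs : ∀ w : ℂ, max X₂ 1 ≤ w.re → κ ≤ s w := by
      intro w hw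
      have hw1 : 1 ≤ w.re := (le_max_right _ _).trans hw
      have hw0 : w ∈ HP := by change 0 < w.re; linarith
      by_contra hlt
      rw [not_le] at hlt
      have h3 : s w ≤ 1 := hlt.le.trans (by rw [hκ]; exact min_le_right _ _)
      have h4 : s w ^ m ≤ s w := by
        calc s w ^ m ≤ s w ^ 1 := pow_le_pow_of_le_one (hs.nonneg w hw0) h3 hm
          _ = s w := pow_one _
      have h5 := hX₂ w.re ((le_max_left _ _).trans hw) w rfl
      have h6 := hle w hw0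
      have h7 : κ ≤ ‖c‖ / (2 * C) := by rw [hκ]; exact min_le_left _ _
      have h8 : ‖c‖ / 2 < C * (‖c‖ / (2 * C)) := by
        calc ‖c‖ / 2 < ‖g w‖ := h5
          _ ≤ C * s w ^ m := h6
          _ ≤ C * s w := mul_le_mul_of_nonneg_left h4 hC.le
          _ ≤ C * κ := mul_le_mul_of_nonneg_left hlt.le hC.le
          _ ≤ _ := mul_le_mul_of_nonneg_left h7 hC.le
      have h9 : C * (‖c‖ / (2 * C)) = ‖c‖ / 2 := by field_simp
      linarith
    obtain ⟨Y, hY⟩ : ∃ Y : ℝ, Y = max X₂ 1 := ⟨_, rfl⟩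
    have hY1 : 1 ≤ Y := by rw [hY]; exact le_max_right _ _
    obtain ⟨X, hX⟩ : ∃ X : ℝ, X = Y + (|B| + 1) / (2 * Real.pi * κ ^ 2) := ⟨_, rfl⟩
    have hXY : Y ≤ X := by
      rw [hX]
      have : 0 ≤ (|B| + 1) / (2 * Real.pi * κ ^ 2) := by positivity
      linarith
    have hmc : ContinuousOn (mn fun w => s w ^ 2) (Set.Ioi 0) := sml_continuousOn_mn (hs.cont.pow 2)
    have hmn0 : ∀ x, 0 ≤ mn (fun w => s w ^ 2) x := fun x =>
      intervalIntegral.integral_nonneg (by positivity) fun y _ => sq_nonneg _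
    have hmi : ∀ a b : ℝ, 1 ≤ a → a ≤ b → IntervalIntegrable (mn fun w => s w ^ 2) MeasureTheory.volume a b := by
      intro a b ha hab
      refine (hmc.mono ?_).intervalIntegrable
      intro x hx
      rw [Set.uIcc_of_le hab] at hx
      change 0 < x
      linarith [hx.1]
    have h3 : ∀ t ∈ Set.Icc Y X, 2 * Real.pi * κ ^ 2 ≤ mn (fun w => s w ^ 2) t := by
      intro t ht
      have ht0 : 0 < t := by linarith [ht.1]
      have hcy : Continuous fun y : ℝ => s (t + y * Complex.I) ^ 2 := by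
        refine (hs.cont.pow 2).comp_continuous (by fun_prop) fun y => ?_
        simpa [HP] using ht0
      have h4 : ∫ y in (0 : ℝ)..2 * Real.pi, κ ^ 2 ≤ mn (fun w => s w ^ 2) t := by
        refine intervalIntegral.integral_mono_on Real.two_pi_pos.le intervalIntegrable_const (hcy.intervalIntegrable _ _) fun y _ => ?_
        refine pow_le_pow_left₀ hκ0.le (hκs _ ?_) 2
        rw [← hY]
        simpa using ht.1
      rw [intervalIntegral.integral_const, smul_eq_mul, sub_zero] at h4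
      exact h4
    have h4 : (X - Y) * (2 * Real.pi * κ ^ 2) ≤ AA s X := by
      calc (X - Y) * (2 * Real.pi * κ ^ 2) = ∫ t in Y..X, 2 * Real.pi * κ ^ 2 := by
            rw [intervalIntegral.integral_const, smul_eq_mul]
        _ ≤ ∫ t in Y..X, mn (fun w => s w ^ 2) t := intervalIntegral.integral_mono_on hXY intervalIntegrable_const (hmi _ _ hY1 hXY) h3
        _ ≤ AA s X := by
          rw [AA, max_eq_left (hY1.trans hXY)]
          exact intervalIntegral.integral_mono_interval hY1 hXY le_rfl (Eventually.of_forall fun x => hmn0 x) (hmi _ _ le_rfl (hY1.trans hXY))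
    have h5 : (X - Y) * (2 * Real.pi * κ ^ 2) = |B| + 1 := by
      rw [hX, add_sub_cancel_left]
      have := Real.pi_pos
      field_simp
    have h6 := hB X
    have h7 := le_abs_self B
    linarith
  refine ⟨C', X₁, fun w hw => ?_⟩
  have h2 := h1 w hw
  rwa [hc0, sub_zero] at h2

/-- the speed decays -/
theorem ext0_speed (hP : Homog P) (hθ : Polar θ) (hm : ∀ k, 1 ≤ m k) (hF : HCurve P F) {B : ℝ} (hB : ∀ X, AA (sp F) X ≤ B) :
    ∃ A δ X₁ : ℝ, 0 < A ∧ 0 < δ ∧ 1 ≤ X₁ ∧ ∀ w : ℂ, X₁ ≤ w.re → sp F w ≤ A * Real.exp (-(δ * w.re)) := by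
  obtain ⟨c, hc, C, hC, hbd⟩ := theta_bd (P := P) hP hθ hm
  have h1 : ∀ k, ∃ C' X₁ : ℝ, ∀ w : ℂ, X₁ < w.re → ‖sth θ F k w‖ ≤ C' * Real.exp (-w.re) := by
    intro k
    exact ext0_decay (HCurve.speed hF) (fun w hw => sth_an hF k hw) (fun w hw => sth_periodic hF k hw) (hm k) hC
      (fun w hw => (hbd (F w) (hF.cone w hw) (deriv F w) (hF.deriv_mem hw)).1 k) hB
  choose C' X' h2 using h1
  obtain ⟨Cm, hCm⟩ : ∃ Cm : ℝ, ∀ k, C' k ≤ Cm := by
    obtain ⟨Cm, h3⟩ := (Set.finite_range C').bddAbove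
    exact ⟨Cm, fun k => h3 ⟨k, rfl⟩⟩
  obtain ⟨Xm, hXm⟩ : ∃ Xm : ℝ, ∀ k, X' k ≤ Xm := by
    obtain ⟨Xm, h3⟩ := (Set.finite_range X').bddAbove
    exact ⟨Xm, fun k => h3 ⟨k, rfl⟩⟩
  obtain ⟨Mx, hMx⟩ : ∃ Mx : ℕ, ∀ k, m k ≤ Mx := by
    obtain ⟨Mx, h3⟩ := (Set.finite_range m).bddAbove
    exact ⟨Mx, fun k => h3 ⟨k, rfl⟩⟩
  have hM1 : (0 : ℝ) < (Mx : ℝ) + 1 := by positivity
  refine ⟨max 1 (Cm / c), 1 / ((Mx : ℝ) + 1), max 1 (Xm + 1), lt_of_lt_of_le one_pos (le_max_left _ _), by positivity, le_max_left _ _, fun w hw => ?_⟩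
  have hw1 : 1 ≤ w.re := (le_max_left _ _).trans hw
  have hw0 : w ∈ HP := by change 0 < w.re; linarith
  have hA1 : 1 ≤ max 1 (Cm / c) := le_max_left _ _
  have hs0 := (HCurve.speed hF).nonneg w hw0
  by_cases hsp : deriv F w ∈ Submodule.span ℂ {F w}
  · have h3 : sp F w = 0 := by
      obtain ⟨a, ha⟩ := Submodule.mem_span_singleton.1 hsp
      have h4 : (fun p : Fin (N + 1) × Fin (N + 1) => F w p.1 * deriv F w p.2 - F w p.2 * deriv F w p.1) = 0 := by
        funext p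
        rw [← ha]
        simp only [Pi.smul_apply, smul_eq_mul, Pi.zero_apply]
        ring
      rw [sp, wl, h4, norm_zero, zero_div]
    rw [h3]
    positivity
  · obtain ⟨k, hk⟩ := (hbd (F w) (hF.cone w hw0) (deriv F w) (hF.deriv_mem hw0)).2 hsp
    have h3 : ‖sth θ F k w‖ ≤ C' k * Real.exp (-w.re) := h2 k w (by
      have := (le_max_right _ _).trans hw
      linarith [hXm k])
    have he := Real.exp_pos (-w.re)
    have h4 : sp F w ^ m k ≤ Cm / c * Real.exp (-w.re) := by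
      have h5 : c * sp F w ^ m k ≤ Cm * Real.exp (-w.re) := (hk.trans h3).trans (mul_le_mul_of_nonneg_right (hCm k) he.le)
      rw [div_mul_eq_mul_div, le_div_iff₀ hc, mul_comm]
      exact h5
    have h5 : sp F w ^ m k ≤ (max 1 (Cm / c) * Real.exp (-(1 / ((Mx : ℝ) + 1) * w.re))) ^ m k := by
      rw [mul_pow, ← Real.exp_nat_mul]
      refine h4.trans (mul_le_mul ?_ ?_ he.le (by positivity))
      · calc Cm / c ≤ max 1 (Cm / c) := le_max_right _ _
          _ = max 1 (Cm / c) ^ 1 := (pow_one _).symm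
          _ ≤ _ := pow_le_pow_right₀ hA1 (hm k)
      · rw [Real.exp_le_exp]
        have h6 : (m k : ℝ) ≤ (Mx : ℝ) + 1 := by
          have : (m k : ℝ) ≤ Mx := by exact_mod_cast hMx k
          linarith
        have h7 : (m k : ℝ) * (1 / ((Mx : ℝ) + 1) * w.re) ≤ w.re := by
          rw [← mul_assoc, mul_one_div, div_mul_eq_mul_div, div_le_iff₀ hM1, mul_comm w.re]
          exact mul_le_mul_of_nonneg_right h6 (by linarith)
        linarith
    exact le_of_pow_le_pow_left₀ (by have := hm k; omega) (by positivity) h5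

/-! ## the share of a coordinate -/

/-- the derivative of the share of a coordinate along a real curve -/
theorem ext0_share {f : ℝ → Fin (N + 1) → ℂ} {f' : Fin (N + 1) → ℂ} {t : ℝ} (hf : HasDerivAt f f' t) (h0 : f t ≠ 0) (a : Fin (N + 1)) :
    ∃ d, HasDerivAt (fun t => ‖f t a‖ ^ 2 / ∑ i, ‖f t i‖ ^ 2) d t ∧ |d| ≤ 2 * ((N : ℝ) + 1) * wl (f t) f' := by
  have h1 : ∀ i, HasDerivAt (fun t => ‖f t i‖ ^ 2) (2 * inner ℝ (f t i) (f' i)) t := fun i => (hasDerivAt_pi.1 hf i).norm_sq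
  have h2 : HasDerivAt (fun t => ∑ i, ‖f t i‖ ^ 2) (∑ i, 2 * inner ℝ (f t i) (f' i)) t := HasDerivAt.fun_sum fun i _ => h1 i
  obtain ⟨k, hk⟩ : ∃ k, f t k ≠ 0 := by
    by_contra hcon
    push Not at hcon
    exact h0 (funext hcon)
  obtain ⟨S, hS⟩ : ∃ S : ℝ, S = ∑ i, ‖f t i‖ ^ 2 := ⟨_, rfl⟩
  have hle : ∀ i, ‖f t i‖ ^ 2 ≤ S := fun i => by
    rw [hS]
    exact Finset.single_le_sum (f := fun i => ‖f t i‖ ^ 2) (fun j _ => sq_nonneg _) (Finset.mem_univ i)
  have hS0 : 0 < S := lt_of_lt_of_le (pow_pos (norm_pos_iff.2 hk) 2) (hle k)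
  have h3 := (h1 a).div h2 (by rw [← hS]; exact hS0.ne')
  refine ⟨_, h3, ?_⟩
  rw [← hS]
  have hwl : ∀ i, ‖f t i * f' a - f t a * f' i‖ ≤ wl (f t) f' * S := by
    intro i
    have h4 : ‖f t i * f' a - f t a * f' i‖ ≤ ‖fun p : Fin (N + 1) × Fin (N + 1) => f t p.1 * f' p.2 - f t p.2 * f' p.1‖ :=
      norm_le_pi_norm (fun p : Fin (N + 1) × Fin (N + 1) => f t p.1 * f' p.2 - f t p.2 * f' p.1) (i, a)
    have hn0 : 0 < ‖f t‖ := norm_pos_iff.2 h0
    have h5 : ‖fun p : Fin (N + 1) × Fin (N + 1) => f t p.1 * f' p.2 - f t p.2 * f' p.1‖ = wl (f t) f' * ‖f t‖ ^ 2 := by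
      rw [wl, div_mul_cancel₀ _ (by positivity)]
    have h6 : ‖f t‖ ^ 2 ≤ S := by
      have h7 : ‖f t‖ ≤ Real.sqrt S := by
        rw [pi_norm_le_iff_of_nonneg (Real.sqrt_nonneg _)]
        intro i
        exact Real.le_sqrt_of_sq_le (hle i)
      calc ‖f t‖ ^ 2 ≤ Real.sqrt S ^ 2 := pow_le_pow_left₀ (norm_nonneg _) h7 2
        _ = S := Real.sq_sqrt hS0.le
    have hw0 : 0 ≤ wl (f t) f' := by
      rw [wl]
      positivity
    rw [h5] at h4
    exact h4.trans (mul_le_mul_of_nonneg_left h6 hw0)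
  have hterm : ∀ i, |2 * inner ℝ (f t a) (f' a) * ‖f t i‖ ^ 2 - ‖f t a‖ ^ 2 * (2 * inner ℝ (f t i) (f' i))| ≤ 2 * (wl (f t) f' * S ^ 2) := by
    intro i
    have e1 : 2 * inner ℝ (f t a) (f' a) * ‖f t i‖ ^ 2 - ‖f t a‖ ^ 2 * (2 * inner ℝ (f t i) (f' i)) =
        2 * ((starRingEnd ℂ) (f t a) * (starRingEnd ℂ) (f t i) * (f t i * f' a - f t a * f' i)).re := by
      rw [Complex.inner, Complex.inner, Complex.sq_norm, Complex.sq_norm, Complex.normSq_apply, Complex.normSq_apply]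
      simp only [Complex.mul_re, Complex.mul_im, Complex.sub_re, Complex.sub_im, Complex.conj_re, Complex.conj_im]
      ring
    rw [e1, abs_mul, abs_two]
    refine mul_le_mul_of_nonneg_left ?_ two_pos.le
    refine (Complex.abs_re_le_norm _).trans ?_
    rw [norm_mul, norm_mul, RCLike.norm_conj, RCLike.norm_conj]
    have h4 : ‖f t a‖ * ‖f t i‖ ≤ S := by nlinarith [hle a, hle i, sq_nonneg (‖f t a‖ - ‖f t i‖)]
    calc ‖f t a‖ * ‖f t i‖ * ‖f t i * f' a - f t a * f' i‖ ≤ S * (wl (f t) f' * S) :=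
          mul_le_mul h4 (hwl i) (norm_nonneg _) hS0.le
      _ = wl (f t) f' * S ^ 2 := by ring
  have e2 : 2 * inner ℝ (f t a) (f' a) * S - ‖f t a‖ ^ 2 * ∑ i, 2 * inner ℝ (f t i) (f' i) =
      ∑ i, (2 * inner ℝ (f t a) (f' a) * ‖f t i‖ ^ 2 - ‖f t a‖ ^ 2 * (2 * inner ℝ (f t i) (f' i))) := by
    rw [hS, Finset.mul_sum, Finset.mul_sum, ← Finset.sum_sub_distrib]
  rw [e2, abs_div, abs_of_pos (pow_pos hS0 2), div_le_iff₀ (pow_pos hS0 2)]
  calc |∑ i, (2 * inner ℝ (f t a) (f' a) * ‖f t i‖ ^ 2 - ‖f t a‖ ^ 2 * (2 * inner ℝ (f t i) (f' i)))|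
      ≤ ∑ i, |2 * inner ℝ (f t a) (f' a) * ‖f t i‖ ^ 2 - ‖f t a‖ ^ 2 * (2 * inner ℝ (f t i) (f' i))| := Finset.abs_sum_le_sum_abs _ _
    _ ≤ ∑ _i : Fin (N + 1), 2 * (wl (f t) f' * S ^ 2) := Finset.sum_le_sum fun i _ => hterm i
    _ = 2 * ((N : ℝ) + 1) * wl (f t) f' * S ^ 2 := by
      rw [Finset.sum_const, Finset.card_univ, Fintype.card_fin, nsmul_eq_mul]
      push_cast
      ring

/-- an exponentially small derivative on a ray -/
theorem ext0_ray {φ : ℝ → ℝ} {t₀ A δ : ℝ} (hδ : 0 < δ) (hφ : ∀ t, t₀ ≤ t → ∃ d, HasDerivAt φ d t ∧ |d| ≤ A * Real.exp (-(δ * t))) {t : ℝ} (ht : t₀ ≤ t) :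
    φ t₀ - A / δ * Real.exp (-(δ * t₀)) ≤ φ t := by
  have hA : 0 ≤ A := by
    obtain ⟨d, -, hd⟩ := hφ t₀ le_rfl
    have := (abs_nonneg d).trans hd
    exact nonneg_of_mul_nonneg_left this (Real.exp_pos _)
  choose! φ' h1 h2 using hφ
  have h3 : ∀ t, t₀ ≤ t → HasDerivAt (fun t => φ t - A / δ * Real.exp (-(δ * t))) (φ' t + A * Real.exp (-(δ * t))) t := by
    intro t ht
    have h4 : HasDerivAt (fun t : ℝ => Real.exp (-(δ * t))) (Real.exp (-(δ * t)) * (-(δ * 1))) t := ((hasDerivAt_id t).const_mul δ).neg.exp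
    refine ((h1 t ht).sub (h4.const_mul (A / δ))).congr_deriv ?_
    field_simp
    ring
  have h5 : MonotoneOn (fun t => φ t - A / δ * Real.exp (-(δ * t))) (Set.Ici t₀) := by
    refine monotoneOn_of_hasDerivWithinAt_nonneg (convex_Ici t₀) (f' := fun t => φ' t + A * Real.exp (-(δ * t)))
      (fun t ht => (h3 t ht).continuousAt.continuousWithinAt) ?_ ?_
    · intro t ht
      rw [interior_Ici] at ht
      exact (h3 t ht.le).hasDerivWithinAt
    · intro t ht
      rw [interior_Ici] at ht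
      have := (abs_le.1 (h2 t ht.le)).1
      linarith
  have h6 := h5 (Set.mem_Ici.2 le_rfl) (Set.mem_Ici.2 ht) ht
  have h7 : 0 ≤ A / δ * Real.exp (-(δ * t)) := by positivity
  simp only at h6
  linarith

/-- the share of one coordinate is bounded below -/
theorem ext0_coord (hF : HCurve P F) {A δ X₁ : ℝ} (hA : 0 < A) (hδ : 0 < δ) (hX₁ : 1 ≤ X₁)
    (hsp : ∀ w : ℂ, X₁ ≤ w.re → sp F w ≤ A * Real.exp (-(δ * w.re))) :
    ∃ (a : Fin (N + 1)) (κ X₂ : ℝ), 0 < κ ∧ 1 ≤ X₂ ∧ ∀ w : ℂ, X₂ ≤ w.re → κ * ∑ i, ‖F w i‖ ^ 2 ≤ ‖F w a‖ ^ 2 := by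
  have hN : (0 : ℝ) < (N : ℝ) + 1 := by positivity
  have hF0 : ∀ w ∈ HP, F w ≠ 0 := fun w hw => (hF.cone w hw).1
  have hS0 : ∀ w ∈ HP, 0 < ∑ i, ‖F w i‖ ^ 2 := by
    intro w hw
    obtain ⟨k, hk⟩ : ∃ k, F w k ≠ 0 := by
      by_contra hcon
      push Not at hcon
      exact hF0 w hw (funext hcon)
    exact Finset.sum_pos' (fun i _ => sq_nonneg _) ⟨k, Finset.mem_univ k, pow_pos (norm_pos_iff.2 hk) 2⟩
  -- the derivative along lines
  have hline : ∀ (a : Fin (N + 1)) (w₀ u : ℂ) (t : ℝ), ‖u‖ = 1 → X₁ ≤ (w₀ + t * u).re →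
      ∃ d, HasDerivAt (fun t : ℝ => ‖F (w₀ + t * u) a‖ ^ 2 / ∑ i, ‖F (w₀ + t * u) i‖ ^ 2) d t ∧
        |d| ≤ 2 * ((N : ℝ) + 1) * A * Real.exp (-(δ * (w₀ + t * u).re)) := by
    intro a w₀ u t hu ht
    have hw : w₀ + t * u ∈ HP := by change 0 < (w₀ + t * u).re; linarith
    have h1 : HasDerivAt (fun t : ℝ => w₀ + t * u) u t := by
      have := ((Complex.ofRealCLM.hasDerivAt (x := t)).mul_const u).const_add w₀
      simpa using this
    have h2 : HasDerivAt (fun t : ℝ => F (w₀ + t * u)) (u • deriv F (w₀ + t * u)) t :=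
      (hF.an _ hw).differentiableAt.hasDerivAt.scomp t h1
    obtain ⟨d, h3, h4⟩ := ext0_share h2 (hF0 _ hw) a
    refine ⟨d, h3, h4.trans ?_⟩
    have h5 : wl (F (w₀ + t * u)) (u • deriv F (w₀ + t * u)) = sp F (w₀ + t * u) := by
      rw [sp, wl, wl]
      congr 1
      have h6 : (fun p : Fin (N + 1) × Fin (N + 1) => F (w₀ + t * u) p.1 * (u • deriv F (w₀ + t * u)) p.2 -
          F (w₀ + t * u) p.2 * (u • deriv F (w₀ + t * u)) p.1) =
          u • fun p : Fin (N + 1) × Fin (N + 1) => F (w₀ + t * u) p.1 * deriv F (w₀ + t * u) p.2 - F (w₀ + t * u) p.2 * deriv F (w₀ + t * u) p.1 := by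
        funext p
        simp only [Pi.smul_apply, smul_eq_mul]
        ring
      rw [h6, norm_smul, hu, one_mul]
    rw [h5, mul_assoc (2 * ((N : ℝ) + 1))]
    exact mul_le_mul_of_nonneg_left (hsp _ ht) (by positivity)
  -- the choice of the level
  obtain ⟨K, hK⟩ : ∃ K : ℝ, K = 2 * ((N : ℝ) + 1) * A := ⟨_, rfl⟩
  have hK0 : 0 < K := by rw [hK]; positivity
  obtain ⟨X₂, hX₂, hsm⟩ : ∃ X₂ : ℝ, X₁ ≤ X₂ ∧ (K / δ + K * (2 * Real.pi)) * Real.exp (-(δ * X₂)) ≤ 1 / (2 * ((N : ℝ) + 1)) := by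
    have h1 : Tendsto (fun x : ℝ => (K / δ + K * (2 * Real.pi)) * Real.exp (-(δ * x))) atTop (𝓝 0) := by
      have h2 : Tendsto (fun x : ℝ => Real.exp (-(δ * x))) atTop (𝓝 0) :=
        Real.tendsto_exp_atBot.comp (tendsto_neg_atTop_atBot.comp (tendsto_id.const_mul_atTop hδ))
      simpa using h2.const_mul (K / δ + K * (2 * Real.pi))
    obtain ⟨X₂, h3, h4⟩ := ((eventually_ge_atTop X₁).and (h1.eventually (gt_mem_nhds (show (0 : ℝ) < 1 / (2 * ((N : ℝ) + 1)) by positivity)))).exists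
    exact ⟨X₂, h3, h4.le⟩
  have hX₂0 : (X₂ : ℂ) ∈ HP := by
    change 0 < ((X₂ : ℂ)).re
    rw [Complex.ofReal_re]
    linarith
  -- the choice of the coordinate
  obtain ⟨a, ha⟩ : ∃ a, 1 / ((N : ℝ) + 1) ≤ ‖F X₂ a‖ ^ 2 / ∑ i, ‖F X₂ i‖ ^ 2 := by
    by_contra hcon
    push Not at hcon
    have h1 : ∑ a, ‖F X₂ a‖ ^ 2 / ∑ i, ‖F X₂ i‖ ^ 2 < ∑ _a : Fin (N + 1), 1 / ((N : ℝ) + 1) :=
      Finset.sum_lt_sum_of_nonempty Finset.univ_nonempty fun a _ => hcon a
    rw [← Finset.sum_div, div_self (hS0 _ hX₂0).ne', Finset.sum_const, Finset.card_univ, Fintype.card_fin, nsmul_eq_mul] at h1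
    push_cast at h1
    rw [mul_one_div_cancel hN.ne'] at h1
    exact lt_irrefl _ h1
  refine ⟨a, 1 / (2 * ((N : ℝ) + 1)), X₂, by positivity, hX₁.trans hX₂, fun w hw => ?_⟩
  obtain ⟨h, hh⟩ : ∃ h : ℂ → ℝ, h = fun w => ‖F w a‖ ^ 2 / ∑ i, ‖F w i‖ ^ 2 := ⟨_, rfl⟩
  have hw0 : w ∈ HP := by change 0 < w.re; linarith
  suffices hgoal : 1 / (2 * ((N : ℝ) + 1)) ≤ h w by
    rw [hh] at hgoal
    simp only at hgoal
    rwa [le_div_iff₀ (hS0 w hw0)] at hgoal
  -- reduction to one period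
  have hper : Function.Periodic (fun y : ℝ => h (w.re + y * Complex.I)) (2 * Real.pi) := by
    intro y
    have h2 : (w.re + (y + 2 * Real.pi : ℝ) * Complex.I : ℂ) = (w.re + y * Complex.I) + per := by
      rw [per]
      push_cast
      ring
    have h3 : (w.re + y * Complex.I : ℂ) ∈ HP := by
      change 0 < (w.re + y * Complex.I : ℂ).re
      simpa using lt_of_lt_of_le one_pos (hX₁.trans (hX₂.trans hw))
    simp only
    rw [h2, hh]
    simp only [hF.periodic _ h3]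
  obtain ⟨y, hy, hyw⟩ := hper.exists_mem_Ico₀ Real.two_pi_pos w.im
  rw [Complex.re_add_im] at hyw
  rw [hyw]
  -- the vertical segment
  have h1 : ‖h (X₂ + y * Complex.I) - h X₂‖ ≤ K * Real.exp (-(δ * X₂)) * (2 * Real.pi) := by
    have h2 : ∀ t ∈ Set.univ, ∃ d, HasDerivAt (fun t : ℝ => h (X₂ + t * Complex.I)) d t ∧ |d| ≤ K * Real.exp (-(δ * X₂)) := by
      intro t _
      obtain ⟨d, h3, h4⟩ := hline a X₂ Complex.I t Complex.norm_I (by simpa using hX₂)
      refine ⟨d, by rw [hh]; exact h3, ?_⟩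
      rw [hK]
      refine h4.trans (le_of_eq ?_)
      congr 3
      simp
    choose! d h3 h4 using h2
    have h5 := Convex.norm_image_sub_le_of_norm_hasDerivWithin_le (f := fun t : ℝ => h (X₂ + t * Complex.I)) (f' := d) (s := Set.univ) (x := 0) (y := y)
      (fun t ht => (h3 t ht).hasDerivWithinAt) (fun t ht => h4 t ht) convex_univ (Set.mem_univ _) (Set.mem_univ _)
    simp only [Complex.ofReal_zero, zero_mul, add_zero, sub_zero] at h5
    refine h5.trans (mul_le_mul_of_nonneg_left ?_ (by positivity))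
    rw [Real.norm_eq_abs, abs_of_nonneg hy.1]
    exact hy.2.le
  -- the horizontal ray
  have h2 : h (X₂ + y * Complex.I) - K / δ * Real.exp (-(δ * X₂)) ≤ h (w.re + y * Complex.I) := by
    have h3 := ext0_ray (φ := fun t : ℝ => h ((y * Complex.I) + t * (1 : ℂ))) (t₀ := X₂) (A := K) hδ (fun t ht => by
      obtain ⟨d, h3, h4⟩ := hline a (y * Complex.I) 1 t norm_one (by simpa using hX₂.trans ht)
      refine ⟨d, by rw [hh]; exact h3, ?_⟩
      rw [hK]
      refine h4.trans (le_of_eq ?_)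
      congr 3
      simp) hw
    simp only [mul_one] at h3
    rw [add_comm (X₂ : ℂ), add_comm ((w.re : ℝ) : ℂ)]
    exact h3
  have h3 : 1 / ((N : ℝ) + 1) ≤ h X₂ := by rw [hh]; exact ha
  have h4 : h X₂ - K * Real.exp (-(δ * X₂)) * (2 * Real.pi) ≤ h (X₂ + y * Complex.I) := by
    have := (abs_le.1 h1).1
    linarith
  have h5 : 1 / ((N : ℝ) + 1) = 1 / (2 * ((N : ℝ) + 1)) + 1 / (2 * ((N : ℝ) + 1)) := by field_simp; norm_num
  have h6 : (K / δ + K * (2 * Real.pi)) * Real.exp (-(δ * X₂)) = K / δ * Real.exp (-(δ * X₂)) + K * Real.exp (-(δ * X₂)) * (2 * Real.pi) := by ring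
  linarith

theorem ext0 (hP : Homog P) (hθ : Polar θ) (hm : ∀ k, 1 ≤ m k) (hF : HCurve P F) {B : ℝ} (hB : ∀ X, AA (sp F) X ≤ B) :
    ∃ (a : Fin (N + 1)) (L : Fin (N + 1) → ℂ), (∀ᶠ w in comap Complex.re atTop, F w a ≠ 0) ∧
      Tendsto (fun w => (F w a)⁻¹ • F w) (comap Complex.re atTop) (𝓝 L) := by
  obtain ⟨A, δ, X₁, hA, hδ, hX₁, h1⟩ := ext0_speed hP hθ hm hF hB
  obtain ⟨a, κ, X₂, hκ, hX₂, h2⟩ := ext0_coord hF hA hδ hX₁ h1
  have hne : ∀ w : ℂ, X₂ < w.re → F w a ≠ 0 := by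
    intro w hw h0
    have hw0 : w ∈ HP := by change 0 < w.re; linarith
    have h3 := h2 w hw.le
    rw [h0, norm_zero, zero_pow two_ne_zero] at h3
    refine (hF.cone w hw0).1 (funext fun i => ?_)
    have h4 : ∑ i, ‖F w i‖ ^ 2 ≤ 0 := nonpos_of_mul_nonpos_right h3 hκ
    have h5 : ‖F w i‖ ^ 2 ≤ 0 := (Finset.single_le_sum (f := fun i => ‖F w i‖ ^ 2) (fun j _ => sq_nonneg _) (Finset.mem_univ i)).trans h4
    have h6 : ‖F w i‖ = 0 := by
      have := sq_nonneg ‖F w i‖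
      exact pow_eq_zero_iff two_ne_zero |>.1 (le_antisymm h5 this)
    exact norm_eq_zero.1 h6
  have hlim : ∀ i, ∃ c : ℂ, Tendsto (fun w => (F w a)⁻¹ * F w i) (comap Complex.re atTop) (𝓝 c) := by
    intro i
    have g1 : ∀ w : ℂ, X₂ < w.re → DifferentiableAt ℂ (fun w => (F w a)⁻¹ * F w i) w := by
      intro w hw
      have hw0 : w ∈ HP := by change 0 < w.re; linarith
      have h3 := differentiableAt_pi.1 (hF.an w hw0).differentiableAt
      exact ((h3 a).inv (hne w hw)).mul (h3 i)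
    have g2 : ∀ w : ℂ, X₂ < w.re → (fun w => (F w a)⁻¹ * F w i) (w + per) = (fun w => (F w a)⁻¹ * F w i) w := by
      intro w hw
      have hw0 : w ∈ HP := by change 0 < w.re; linarith
      simp only [hF.periodic w hw0]
    have g3 : ∀ w : ℂ, X₂ < w.re → ‖(fun w => (F w a)⁻¹ * F w i) w‖ ≤ Real.sqrt (1 / κ) := by
      intro w hw
      have h3 : 0 < ‖F w a‖ := norm_pos_iff.2 (hne w hw)
      refine Real.le_sqrt_of_sq_le ?_
      simp only
      have h4 : κ * ‖F w i‖ ^ 2 ≤ ‖F w a‖ ^ 2 :=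
        (mul_le_mul_of_nonneg_left (Finset.single_le_sum (f := fun i => ‖F w i‖ ^ 2) (fun j _ => sq_nonneg _) (Finset.mem_univ i)) hκ.le).trans (h2 w hw.le)
      have h5 : 0 < ‖F w a‖ ^ 2 := by positivity
      rw [norm_mul, norm_inv, mul_pow, inv_pow, le_div_iff₀ hκ]
      calc (‖F w a‖ ^ 2)⁻¹ * ‖F w i‖ ^ 2 * κ = (κ * ‖F w i‖ ^ 2) / ‖F w a‖ ^ 2 := by ring
        _ ≤ 1 := (div_le_one h5).2 h4
    obtain ⟨c, hc, -⟩ := ext0_cusp g1 g2 g3
    exact ⟨c, hc⟩
  choose L hL using hlim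
  refine ⟨a, L, ?_, ?_⟩
  · filter_upwards [tendsto_comap.eventually (eventually_gt_atTop X₂)] with w hw
    exact hne w hw
  · rw [tendsto_pi_nhds]
    exact hL

end Pool.Agent.GA
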