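import Pool.Agent.GA.ADefs
import Pool.Agent.GA.CntB

/-!
# GA HorC2: a variation field from the dual derivations

The linear differential equation `g_l' = ∑ m, (C l m / s) g_m` and `V_b = ∑ m, g_m Y m (inl b) / s`.
-/

set_option autoImplicit false

open MvPolynomial Topology Filter Metric
open Pool.Agent.GG (Ph pt)

noncomputable section

namespace Pool.Agent.GA

variable {N : ℕ} {U : Set ℂ} {OO : Subalgebra ℂ (ℂ → ℂ)}

/-- the value of a polynomial over `OO` along an analytic curve is analytic -/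
theorem horC2_analyticAt_evO {σ : Type} [Fintype σ] {w : ℂ} (hO : ∀ g ∈ OO, AnalyticAt ℂ g w) {y : ℂ → σ → ℂ} (hy : AnalyticAt ℂ y w)
    (R : MvPolynomial σ OO) : AnalyticAt ℂ (evO OO y R) w := by
  have h1 : evO OO y R = fun w => ∑ d ∈ R.support, ((R.coeff d : OO) : ℂ → ℂ) w * ∏ i, y w i ^ d i := by
    funext w
    unfold evO
    rw [eval₂_eq']
    rfl
  rw [h1]
  refine Finset.analyticAt_fun_sum _ fun d _ => ?_
  refine (hO _ (R.coeff d).2).mul ?_
  exact Finset.analyticAt_fun_prod _ fun i _ => (analyticAt_pi_iff.1 hy i).pow _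

private theorem analyticAt_pt {x : ℂ → Fin (N + 1) → ℂ} {w : ℂ} (hx : AnalyticAt ℂ x w) : AnalyticAt ℂ (fun w => pt (x w) (deriv x w)) w := by
  rw [analyticAt_pi_iff]
  rintro (b | b)
  · exact analyticAt_pi_iff.1 hx b
  · exact analyticAt_pi_iff.1 hx.deriv b

/-- the matrix `A` as a continuous linear map -/
private def mat {r : ℕ} (A : Fin (r + 1) → Fin (r + 1) → ℂ → ℂ) (w : ℂ) : (Fin (r + 1) → ℂ) →L[ℂ] (Fin (r + 1) → ℂ) :=
  ∑ l, ∑ m, A l m w • (ContinuousLinearMap.single ℂ (fun _ : Fin (r + 1) => ℂ) l).comp (ContinuousLinearMap.proj (R := ℂ) (φ := fun _ : Fin (r + 1) => ℂ) m)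

private theorem mat_apply {r : ℕ} (A : Fin (r + 1) → Fin (r + 1) → ℂ → ℂ) (w : ℂ) (u : Fin (r + 1) → ℂ) (l : Fin (r + 1)) :
    mat A w u l = ∑ m, A l m w * u m := by
  unfold mat
  simp only [sum_apply, smul_apply, ContinuousLinearMap.comp_apply, ContinuousLinearMap.proj_apply, Finset.sum_apply,
    Pi.smul_apply, smul_eq_mul]
  rw [Finset.sum_eq_single l]
  · refine Finset.sum_congr rfl fun m _ => ?_
    simp
  · intro k _ hk
    refine Finset.sum_eq_zero fun m _ => ?_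
    simp [Ne.symm hk]
  · intro h
    exact absurd (Finset.mem_univ _) h

private theorem mat_analytic {r : ℕ} {A : Fin (r + 1) → Fin (r + 1) → ℂ → ℂ} {w : ℂ} (hA : ∀ l m, AnalyticAt ℂ (A l m) w) : AnalyticAt ℂ (mat A) w := by
  unfold mat
  refine Finset.analyticAt_fun_sum _ fun l _ => Finset.analyticAt_fun_sum _ fun m _ => ?_
  exact (hA l m).smul analyticAt_const

/-- MODULE HorC2 -/
theorem exists_of_Dual (hO : IsSmallRing OO U) {x : ℂ → Fin (N + 1) → ℂ} {z₁ : ℂ} (hU : IsOpen U) (hz : z₁ ∈ U) (hx : AnalyticAt ℂ x z₁)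
    {r : ℕ} {σ : Fin (r + 1) → Ph N} {s : ℂ → ℂ} {Y : Fin (r + 1) → Ph N → ℂ → ℂ} {C : Fin (r + 1) → Fin (r + 1) → ℂ → ℂ} (h : Dual OO x z₁ r σ s Y C) :
    ∃ᶠ w₀ in 𝓝 z₁, ∃ V : ℂ → Fin (N + 1) → ℂ, AnalyticAt ℂ V w₀ ∧ V w₀ ≠ 0 ∧ RelP OO x V w₀ := by
  classical
  -- a disc on which everything is analytic
  have hs : ∀ᶠ w in 𝓝 z₁, w ≠ z₁ → s w ≠ 0 :=
    eventually_nhdsWithin_iff.1 (h.an.eventually_eq_zero_or_eventually_ne_zero.resolve_left h.ne)
  obtain ⟨ρ, hρ, hD⟩ := Metric.eventually_nhds_iff_ball.1 ((hU.eventually_mem hz).and (hx.eventually_analyticAt.and (h.an.eventually_analyticAt.and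
    ((Filter.eventually_all.2 fun m => Filter.eventually_all.2 fun i => (h.anY m i).eventually_analyticAt).and
    ((Filter.eventually_all.2 fun l => Filter.eventually_all.2 fun m => (h.anC l m).eventually_analyticAt).and
    ((Filter.eventually_all.2 fun m => Filter.eventually_all.2 fun l => h.unit m l).and
    ((Filter.eventually_all.2 fun m => Filter.eventually_all.2 fun b => h.der m b).and hs)))))))
  obtain ⟨y, hy⟩ : ∃ y : ℂ → Ph N → ℂ, y = fun w => pt (x w) (deriv x w) := ⟨_, rfl⟩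
  have hyan : ∀ w ∈ ball z₁ ρ, AnalyticAt ℂ y w := fun w hw => by
    rw [hy]
    exact analyticAt_pt (hD w hw).2.1
  have hev : ∀ R : MvPolynomial (Ph N) OO, AnalyticOnNhd ℂ (evO OO y R) (ball z₁ ρ) := fun R w hw =>
    horC2_analyticAt_evO (fun g hg => hO.an g hg w (hD w hw).1) (hyan w hw) R
  have hpre : IsPreconnected (ball z₁ ρ) := (convex_ball z₁ ρ).isPreconnected
  have hz₁ : z₁ ∈ ball z₁ ρ := mem_ball_self hρ
  -- relations and their linearisations on the disc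
  have key : ∀ R : MvPolynomial (Ph N) OO, ∀ w₁ ∈ ball z₁ ρ, (∀ᶠ w in 𝓝 w₁, evO OO y R w = 0) → ∀ m, ∀ w ∈ ball z₁ ρ,
      ∑ i, evO OO y (pderiv i R) w * Y m i w = 0 := by
    intro R w₁ hw₁ hR m
    have h1 : Set.EqOn (evO OO y R) 0 (ball z₁ ρ) := (hev R).eqOn_zero_of_preconnected_of_eventuallyEq_zero hpre hw₁ hR
    have h2 : ∀ᶠ w in 𝓝 z₁, evO OO y R w = 0 := by
      filter_upwards [isOpen_ball.mem_nhds hz₁] with w hw
      exact h1 hw
    rw [hy] at h2
    have h3 := h.rel m R h2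
    rw [← hy] at h3
    have h4 : AnalyticOnNhd ℂ (fun w => ∑ i, evO OO y (pderiv i R) w * Y m i w) (ball z₁ ρ) := fun w hw =>
      Finset.analyticAt_fun_sum _ fun i _ => (hev _ w hw).mul ((hD w hw).2.2.2.1 m i)
    exact fun w hw => h4.eqOn_zero_of_preconnected_of_eventuallyEq_zero hpre hz₁ h3 hw
  rw [frequently_iff]
  intro W hW
  -- a point near z₁, different from z₁
  have h1 : ∀ᶠ w in 𝓝[≠] z₁, w ∈ interior W ∩ ball z₁ ρ ∧ w ≠ z₁ := by
    rw [eventually_nhdsWithin_iff]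
    filter_upwards [(isOpen_interior.inter isOpen_ball).mem_nhds ⟨mem_interior_iff_mem_nhds.2 hW, hz₁⟩] with w hw hne
    exact ⟨hw, hne⟩
  obtain ⟨z₂, ⟨hz₂W, hz₂⟩, hne⟩ := h1.exists
  obtain ⟨A, hA⟩ : ∃ A : Fin (r + 1) → Fin (r + 1) → ℂ → ℂ, A = fun l m w => C l m w / s w := ⟨_, rfl⟩
  have hs2 : s z₂ ≠ 0 := (hD z₂ hz₂).2.2.2.2.2.2.2 hne
  have hAan : ∀ l m, AnalyticAt ℂ (A l m) z₂ := fun l m => by
    rw [hA]
    exact ((hD z₂ hz₂).2.2.2.2.1 l m).div (hD z₂ hz₂).2.2.1 hs2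
  obtain ⟨r', hr', -, -, hsol⟩ := exists_linear (mat_analytic hAan) one_pos
  obtain ⟨g, hg0, hg⟩ := hsol z₂ (mem_ball_self hr') (Pi.single 0 1)
  have hgan : AnalyticOnNhd ℂ g (ball z₂ r') := analyticOnNhd_of_linear isOpen_ball hg
  obtain ⟨q, hq⟩ : ∃ q : Fin (r + 1) → Ph N → ℂ → ℂ, q = fun m i w => Y m i w / s w := ⟨_, rfl⟩
  obtain ⟨V, hV⟩ : ∃ V : ℂ → Fin (N + 1) → ℂ, V = fun w b => ∑ m, g w m * q m (Sum.inl b) w := ⟨_, rfl⟩
  -- the open set
  obtain ⟨D, hDdef⟩ : ∃ D : Set ℂ, D = (interior W ∩ ball z₁ ρ) ∩ {z₁}ᶜ ∩ ball z₂ r' := ⟨_, rfl⟩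
  have hDo : IsOpen D := by
    rw [hDdef]
    exact ((isOpen_interior.inter isOpen_ball).inter isOpen_compl_singleton).inter isOpen_ball
  have hD1 : ∀ w ∈ D, w ∈ W ∧ w ∈ ball z₁ ρ ∧ w ≠ z₁ ∧ w ∈ ball z₂ r' := by
    intro w hw
    rw [hDdef] at hw
    exact ⟨interior_subset hw.1.1.1, hw.1.1.2, hw.1.2, hw.2⟩
  have hz₂D : z₂ ∈ D := by
    rw [hDdef]
    exact ⟨⟨⟨hz₂W, hz₂⟩, hne⟩, mem_ball_self hr'⟩
  have hsD : ∀ w ∈ D, s w ≠ 0 := fun w hw => (hD w (hD1 w hw).2.1).2.2.2.2.2.2.2 (hD1 w hw).2.2.1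
  have hqan : ∀ w ∈ D, ∀ m i, AnalyticAt ℂ (q m i) w := fun w hw m i => by
    rw [hq]
    exact ((hD w (hD1 w hw).2.1).2.2.2.1 m i).div (hD w (hD1 w hw).2.1).2.2.1 (hsD w hw)
  have hVan : ∀ w ∈ D, AnalyticAt ℂ V w := by
    intro w hw
    rw [hV, analyticAt_pi_iff]
    intro b
    exact Finset.analyticAt_fun_sum _ fun m _ => (analyticAt_pi_iff.1 (hgan w (hD1 w hw).2.2.2) m).mul (hqan w hw m _)
  have hform : ∀ w ∈ D, ∀ i, pt (V w) (deriv V w) i = ∑ m, g w m * q m i w := by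
    rintro w hw (b | b)
    · show V w b = _
      rw [hV]
    · show deriv V w b = _
      have h2 : deriv V w b = deriv (fun w => V w b) w := by
        have h3 := hasDerivAt_pi.1 (hVan w hw).differentiableAt.hasDerivAt b
        exact h3.deriv.symm
      rw [h2]
      have h3 : HasDerivAt (fun w => V w b) (∑ m, (mat A w (g w) m * q m (Sum.inl b) w + g w m * deriv (q m (Sum.inl b)) w)) w := by
        rw [hV]
        refine HasDerivAt.fun_sum fun m _ => ?_
        exact (hasDerivAt_pi.1 (hg w (hD1 w hw).2.2.2) m).mul (hqan w hw m _).differentiableAt.hasDerivAt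
      rw [h3.deriv]
      have h4 : ∀ m, q m (Sum.inr b) w = deriv (q m (Sum.inl b)) w + ∑ l, A l m w * q l (Sum.inl b) w := by
        intro m
        have h5 := (hD w (hD1 w hw).2.1).2.2.2.2.2.2.1 m b (hsD w hw)
        rw [hq, hA]
        exact h5
      have h6 : ∑ m, g w m * q m (Sum.inr b) w = ∑ m, g w m * deriv (q m (Sum.inl b)) w + ∑ m, ∑ l, g w m * (A l m w * q l (Sum.inl b) w) := by
        rw [← Finset.sum_add_distrib]
        refine Finset.sum_congr rfl fun m _ => ?_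
        rw [h4 m, mul_add, Finset.mul_sum]
      rw [h6, Finset.sum_comm, Finset.sum_add_distrib, add_comm]
      congr 1
      refine Finset.sum_congr rfl fun m _ => ?_
      rw [mat_apply, Finset.sum_mul]
      refine Finset.sum_congr rfl fun l _ => ?_
      ring
  -- V is not zero near z₂
  have hne0 : ∃ w ∈ D, V w ≠ 0 := by
    by_contra hcon
    push Not at hcon
    have h2 : V =ᶠ[𝓝 z₂] fun _ => 0 := by
      filter_upwards [hDo.mem_nhds hz₂D] with w hw
      exact hcon w hw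
    have h3 : deriv V z₂ = 0 := by
      rw [h2.deriv_eq, deriv_const]
    have h4 := hform z₂ hz₂D (σ 0)
    have h5 : pt (V z₂) (deriv V z₂) (σ 0) = 0 := by
      rw [h3, hcon z₂ hz₂D]
      rcases σ 0 with b | b <;> rfl
    rw [h5, hg0, Finset.sum_eq_single 0] at h4
    · have h6 : q 0 (σ 0) z₂ = 1 := by
        rw [hq]
        have h7 := (hD z₂ hz₂).2.2.2.2.2.1 0 0
        simp only [if_true] at h7
        show Y 0 (σ 0) z₂ / s z₂ = 1
        rw [h7]
        exact div_self hs2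
      rw [h6] at h4
      simp at h4
    · intro m _ hm
      rw [Pi.single_eq_of_ne hm, zero_mul]
    · intro h6
      exact absurd (Finset.mem_univ _) h6
  obtain ⟨w₀, hw₀, hV0⟩ := hne0
  refine ⟨w₀, (hD1 w₀ hw₀).1, V, hVan w₀ hw₀, hV0, ?_⟩
  intro R hR
  rw [← hy] at hR ⊢
  filter_upwards [hDo.mem_nhds hw₀] with w hw
  have h2 : ∀ m, ∑ i, evO OO y (pderiv i R) w * Y m i w = 0 := fun m => key R w₀ (hD1 w₀ hw₀).2.1 hR m w (hD1 w hw).2.1
  calc ∑ i, evO OO y (pderiv i R) w * pt (V w) (deriv V w) i = ∑ i, ∑ m, evO OO y (pderiv i R) w * (g w m * q m i w) := by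
        refine Finset.sum_congr rfl fun i _ => ?_
        rw [hform w hw i, Finset.mul_sum]
    _ = ∑ m, g w m / s w * ∑ i, evO OO y (pderiv i R) w * Y m i w := by
        rw [Finset.sum_comm]
        refine Finset.sum_congr rfl fun m _ => ?_
        rw [Finset.mul_sum]
        refine Finset.sum_congr rfl fun i _ => ?_
        rw [hq]
        have := hsD w hw
        field_simp
    _ = 0 := by
        refine Finset.sum_eq_zero fun m _ => ?_
        rw [h2 m, mul_zero]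

end Pool.Agent.GA
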