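import Pool.Agent.GA.HorC1
import Pool.Agent.GA.HorC2

/-!
# GA HorC: a variation field in a chart (HorC1 and HorC2)
-/

set_option autoImplicit false

open MvPolynomial Topology Filter Metric
open Pool.Agent.GG

noncomputable section

namespace Pool.Agent.GA

variable {N : ℕ} {ι : Type} {U : Set ℂ} {OO : Subalgebra ℂ (ℂ → ℂ)}

/-- HorC1 + HorC2 -/
theorem hor_chart (hO : IsSmallRing OO U) (G : ι → MvPolynomial (Ph N) ℂ) (I : Fin (N + 1) → ι) {x : ℂ → Fin (N + 1) → ℂ} {z₁ : ℂ}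
    (hU : IsOpen U) (hz : z₁ ∈ U) (hx : AnalyticAt ℂ x z₁) (hG : ∀ l, ∃ g ∈ OO, ∀ᶠ w in 𝓝 z₁, eval (pt (x w) (deriv x w)) (G l) = g w)
    (hI : ¬ ∀ᶠ w in 𝓝 z₁, eval (pt (x w) (deriv x w)) (vdet G I) = 0)
    (hT : ∃ c, ∀ p : Polynomial OO, (∀ᶠ w in 𝓝 z₁, p.eval₂ (ev0 OO w) (x w c) = 0) → ∀ n, ∀ᶠ w in 𝓝 z₁, ev0 OO w (p.coeff n) = 0) :
    ∃ᶠ w₀ in 𝓝 z₁, ∃ V : ℂ → Fin (N + 1) → ℂ, AnalyticAt ℂ V w₀ ∧ V w₀ ≠ 0 ∧ RelP OO x V w₀ := by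
  obtain ⟨r, σ, s, Y, C, h⟩ := exists_Dual hO G I hz hx hG hI hT
  exact exists_of_Dual hO hU hz hx h

end Pool.Agent.GA
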