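import Pool.Agent.GA.RelC
import Pool.Agent.GA.HorC
import Pool.Agent.GG.Chart
import Pool.Agent.GG.Row

/-!
# GA Hor: horizontal variation fields near a point

If the coordinates of the curve are not all algebraic over the small functions, there is a variation field (not zero) which comes from a derivation over the
small functions (`hor_chart` in the chart `a`; `relP_chart` for the other charts).
-/

set_option autoImplicit false

open MvPolynomial Topology Filter Metric
open Pool.Agent.H13.SM (conTan cone)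
open Pool.Agent.H62.FC (Homog)
open Pool.Agent.GG

namespace Pool.Agent.GA

variable {N : ℕ} {P : Ideal (MvPolynomial (Fin (N + 1)) ℂ)} {J : ℕ} {m : Fin J → ℕ} {θ : ∀ k, SymSec P (m k)} {F : ℂ → Fin (N + 1) → ℂ}
  {U : Set ℂ} {OO : Subalgebra ℂ (ℂ → ℂ)}

theorem xb_an {w : ℂ} {b : Fin (N + 1)} (hF : AnalyticAt ℂ F w) (hb : F w b ≠ 0) : AnalyticAt ℂ (xb F b) w :=
  ((analyticAt_pi_iff.mp hF b).inv hb).smul hF

/-- the derivative in a chart -/
theorem xb_deriv {w : ℂ} {b : Fin (N + 1)} (hF : AnalyticAt ℂ F w) (hb : F w b ≠ 0) :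
    deriv (xb F b) w = (F w b)⁻¹ • (deriv F w + (-(deriv F w b / F w b)) • F w) := by
  have h1 : HasDerivAt (fun w => F w b) (deriv F w b) w := (hasDerivAt_pi.mp hF.differentiableAt.hasDerivAt) b
  have h2 := (h1.fun_inv hb).fun_smul hF.differentiableAt.hasDerivAt
  have h3 := h2.deriv
  unfold xb
  rw [h3]
  funext i
  simp only [Pi.add_apply, Pi.smul_apply, smul_eq_mul]
  field_simp

theorem cone_smul_mem (hP : Homog P) {x : Fin (N + 1) → ℂ} (hx : x ∈ cone P) {c : ℂ} (hc : c ≠ 0) : c • x ∈ cone P :=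
  ⟨smul_ne_zero hc hx.1, Pool.Agent.H13.SM.cone_smul hP hx.2 _⟩

theorem IsCurve.deriv_mem (hF : IsCurve P F U) {w : ℂ} (hw : w ∈ U) : deriv F w ∈ conTan P (F w) :=
  Chart_tan (hF.an w hw).differentiableAt (by filter_upwards [hF.isOpen.mem_nhds hw] with s hs using hF.mem s hs)

/-- the curve in a chart, with the values of the symmetric differentials -/
theorem IsCurve.isTan (hP : Homog P) (hF : IsCurve P F U) {w : ℂ} (hw : w ∈ U) {b : Fin (N + 1)} (hb : F w b ≠ 0) :
    IsTan θ b (fun k => (θ k).toFun (F w) (deriv F w)) (xb F b w) (deriv (xb F b) w) := by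
  have hA := hF.an w hw
  have hc := hF.mem w hw
  have hself : F w ∈ conTan P (F w) := fun Q hQ => Pool.Agent.H13.SM.euler hP hc.2 hQ
  have hd := hF.deriv_mem hw
  have hd2 : deriv F w + (-(deriv F w b / F w b)) • F w ∈ conTan P (F w) := Submodule.add_mem _ hd (Submodule.smul_mem _ _ hself)
  have hev : ∀ᶠ s in 𝓝 w, F s b ≠ 0 := (analyticAt_pi_iff.mp hA b).continuousAt.eventually_ne hb
  refine ⟨cone_smul_mem hP hc (inv_ne_zero hb), by simp [xb, inv_mul_cancel₀ hb], ?_, ?_, fun k => ?_⟩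
  · refine Chart_tan (xb_an hA hb).differentiableAt ?_
    filter_upwards [hev, hF.isOpen.mem_nhds hw] with s hs hsU
    exact cone_smul_mem hP (hF.mem s hsU) (inv_ne_zero hs)
  · rw [xb_deriv hA hb]
    simp only [Pi.add_apply, Pi.smul_apply, smul_eq_mul]
    field_simp
    ring
  · rw [xb_deriv hA hb]
    show (θ k).toFun ((F w b)⁻¹ • F w) _ = _
    rw [(θ k).scale _ hc _ hd2 _ (inv_ne_zero hb), (θ k).add_smul _ hc _ hd]

/-- the values of the family on the curve do not depend on the chart -/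
theorem IsCurve.gval (hP : Homog P) (f : Frame θ) (hF : IsCurve P F U) {w : ℂ} (hw : w ∈ U) {b : Fin (N + 1)} (hb : F w b ≠ 0)
    (l : (Unit ⊕ Unit) ⊕ (Fin f.q ⊕ Fin f.q) ⊕ Fin J) :
    eval (pt (xb F b w) (deriv (xb F b) w)) (gfam f b l) = gvals (fun k => (θ k).toFun (F w) (deriv F w)) f.q l :=
  gval_of_isTan f (hF.isTan hP hw hb) l

/-- the values are small functions -/
theorem gvals_mem (f : Frame θ) (hs : ∀ k, (fun w => (θ k).toFun (F w) (deriv F w)) ∈ OO) (l : (Unit ⊕ Unit) ⊕ (Fin f.q ⊕ Fin f.q) ⊕ Fin J) :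
    (fun w => gvals (fun k => (θ k).toFun (F w) (deriv F w)) f.q l) ∈ OO := by
  rcases l with (_ | _) | (j | j) | k
  · exact OO.one_mem
  · exact OO.zero_mem
  · exact OO.zero_mem
  · exact OO.zero_mem
  · exact hs k

private theorem hor_lhs_congr {G : MvPolynomial (Ph N) ℂ} {x x' V V' : ℂ → Fin (N + 1) → ℂ} {w : ℂ} (hx : x =ᶠ[𝓝 w] x') (hV : V =ᶠ[𝓝 w] V') :
    lhs G x V w = lhs G x' V' w := by
  unfold lhs
  rw [hx.eq_of_nhds, hx.deriv_eq, hV.eq_of_nhds, hV.deriv_eq]

theorem hor (hP : Homog P) (hθ : Polar θ) (f : Frame θ) (hF : IsCurve P F U) (hO : IsSmallRing OO U)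
    (hs : ∀ k, (fun w => (θ k).toFun (F w) (deriv F w)) ∈ OO) {a : Fin (N + 1)} (ha : ∃ w ∈ U, F w a ≠ 0)
    (hT : ∃ c, ∀ (d : ℕ) (A : Fin (d + 1) → ℂ → ℂ), (∀ i, A i ∈ OO) →
      (∀ w ∈ U, ∑ i, A i w * F w c ^ (i : ℕ) * F w a ^ (d - i) = 0) → ∀ i, ∀ w ∈ U, A i w = 0) :
    ∃ w₀ ∈ U, F w₀ a ≠ 0 ∧ ∃ Z : ℂ → Fin (N + 1) × Fin (N + 1) → ℂ, IsVar f F Z w₀ ∧ RelX OO (xb F a) (Vb F Z a) w₀ ∧ Z w₀ ≠ 0 := by
  classical
  have hU := hF.isOpen
  have hFan : ∀ i, AnalyticOnNhd ℂ (fun w => F w i) U := fun i w hw => analyticAt_pi_iff.mp (hF.an w hw) i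
  -- a point in the chart where the derivative is not zero
  obtain ⟨z₁, hz₁, ha₁, hd₁⟩ : ∃ z₁ ∈ U, F z₁ a ≠ 0 ∧ deriv F z₁ ∉ Submodule.span ℂ {F z₁} := by
    obtain ⟨w₂, hw₂, hd₂⟩ := hF.ne
    have hne : F w₂ ≠ 0 := (hF.mem w₂ hw₂).1
    obtain ⟨i, hi⟩ := Function.ne_iff.1 hne
    have h1 : ∃ j, F w₂ i * deriv F w₂ j - F w₂ j * deriv F w₂ i ≠ 0 := by
      by_contra hcon
      push Not at hcon
      apply hd₂
      rw [Submodule.mem_span_singleton]
      refine ⟨deriv F w₂ i / F w₂ i, ?_⟩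
      funext j
      have hi' : F w₂ i ≠ 0 := hi
      have h2 := hcon j
      simp only [Pi.smul_apply, smul_eq_mul]
      field_simp
      linear_combination -h2
    obtain ⟨j, hj⟩ := h1
    have hdan : ∀ i, AnalyticOnNhd ℂ (fun w => deriv F w i) U := fun i w hw => analyticAt_pi_iff.mp (hF.an w hw).deriv i
    have hWan : AnalyticOnNhd ℂ (fun w => F w i * deriv F w j - F w j * deriv F w i) U :=
      ((hFan i).mul (hdan j)).sub ((hFan j).mul (hdan i))
    by_contra hcon
    push Not at hcon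
    have h3 : ∀ w ∈ U, F w a * (F w i * deriv F w j - F w j * deriv F w i) = 0 := by
      intro w hw
      by_cases h : F w a = 0
      · rw [h, zero_mul]
      · have h4 := hcon w hw h
        obtain ⟨c, hc⟩ := Submodule.mem_span_singleton.1 h4
        have hci := congrFun hc i
        have hcj := congrFun hc j
        simp only [Pi.smul_apply, smul_eq_mul] at hci hcj
        rw [← hci, ← hcj]
        ring
    obtain ⟨w₃, hw₃, ha₃⟩ := ha
    have h5 : ∀ᶠ w in 𝓝 w₃, F w i * deriv F w j - F w j * deriv F w i = 0 := by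
      filter_upwards [(hFan a w₃ hw₃).continuousAt.eventually_ne ha₃, hU.mem_nhds hw₃] with w hw hwU
      exact (mul_eq_zero.1 (h3 w hwU)).resolve_left hw
    exact hj (hWan.eqOn_zero_of_preconnected_of_eventuallyEq_zero hF.conn hw₃ h5 hw₂)
  have hx := xb_an (hF.an z₁ hz₁) ha₁
  have hTan := hF.isTan (θ := θ) hP hz₁ ha₁
  have hv : deriv (xb F a) z₁ ≠ 0 := by
    intro h0
    rw [xb_deriv (hF.an z₁ hz₁) ha₁, smul_eq_zero] at h0
    rcases h0 with h0 | h0
    · exact inv_ne_zero ha₁ h0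
    · apply hd₁
      rw [Submodule.mem_span_singleton]
      refine ⟨deriv F z₁ a / F z₁ a, ?_⟩
      rw [neg_smul, ← sub_eq_add_neg, sub_eq_zero] at h0
      exact h0.symm
  obtain ⟨I, hI⟩ := exists_row hθ f hTan hv
  have hane : ∀ᶠ w in 𝓝 z₁, F w a ≠ 0 := (hFan a z₁ hz₁).continuousAt.eventually_ne ha₁
  have hUz : ∀ᶠ w in 𝓝 z₁, w ∈ U := hU.mem_nhds hz₁
  have hG : ∀ l, ∃ g ∈ OO, ∀ᶠ w in 𝓝 z₁, eval (pt (xb F a w) (deriv (xb F a) w)) (gfam f a l) = g w := by
    intro l
    refine ⟨_, gvals_mem f hs l, ?_⟩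
    filter_upwards [hane, hUz] with w hw hwU
    exact hF.gval hP f hwU hw l
  have hT' : ∃ c, ∀ p : Polynomial OO, (∀ᶠ w in 𝓝 z₁, p.eval₂ (ev0 OO w) (xb F a w c) = 0) → ∀ n, ∀ᶠ w in 𝓝 z₁, ev0 OO w (p.coeff n) = 0 := by
    obtain ⟨c, hc⟩ := hT
    refine ⟨c, fun p hp n => ?_⟩
    by_cases hn : p.natDegree < n
    · rw [Polynomial.coeff_eq_zero_of_natDegree_lt hn]
      exact Eventually.of_forall fun w => map_zero _
    have hn' : n < p.natDegree + 1 := by omega
    have h1 : ∀ w ∈ U, ∑ i : Fin (p.natDegree + 1), (p.coeff i : ℂ → ℂ) w * F w c ^ (i : ℕ) * F w a ^ (p.natDegree - i) = 0 := by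
      have han : AnalyticOnNhd ℂ (fun w => ∑ i : Fin (p.natDegree + 1), (p.coeff i : ℂ → ℂ) w * F w c ^ (i : ℕ) * F w a ^ (p.natDegree - i)) U := by
        intro w hw
        refine Finset.analyticAt_fun_sum _ fun i _ => ?_
        exact (((hO.an _ (p.coeff i).2 w hw).mul ((hFan c w hw).pow _)).mul ((hFan a w hw).pow _))
      have h2 : ∀ᶠ w in 𝓝 z₁, ∑ i : Fin (p.natDegree + 1), (p.coeff i : ℂ → ℂ) w * F w c ^ (i : ℕ) * F w a ^ (p.natDegree - i) = 0 := by
        filter_upwards [hane, hp] with w hw hpw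
        rw [Polynomial.eval₂_eq_sum_range, ← Fin.sum_univ_eq_sum_range (fun i => (ev0 OO w) (p.coeff i) * xb F a w c ^ i)] at hpw
        have h3 : ∑ i : Fin (p.natDegree + 1), (p.coeff i : ℂ → ℂ) w * F w c ^ (i : ℕ) * F w a ^ (p.natDegree - i) =
            F w a ^ p.natDegree * ∑ i : Fin (p.natDegree + 1), (ev0 OO w) (p.coeff i) * xb F a w c ^ (i : ℕ) := by
          rw [Finset.mul_sum]
          refine Finset.sum_congr rfl fun i _ => ?_
          have h4 : (i : ℕ) ≤ p.natDegree := by omega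
          have h5 : F w a ^ p.natDegree = F w a ^ (p.natDegree - i) * F w a ^ (i : ℕ) := by
            rw [← pow_add, Nat.sub_add_cancel h4]
          have h6 : xb F a w c ^ (i : ℕ) * F w a ^ (i : ℕ) = F w c ^ (i : ℕ) := by
            rw [← mul_pow]
            congr 1
            simp only [xb, Pi.smul_apply, smul_eq_mul]
            field_simp
          rw [h5, ← h6]
          show (p.coeff i : ℂ → ℂ) w * _ * _ = _ * ((p.coeff i : ℂ → ℂ) w * _)
          ring
        rw [h3, hpw, mul_zero]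
      exact fun w hw => han.eqOn_zero_of_preconnected_of_eventuallyEq_zero hF.conn hz₁ h2 hw
    have h2 := hc p.natDegree (fun i => (p.coeff i : ℂ → ℂ)) (fun i => (p.coeff i).2) h1 ⟨n, hn'⟩
    filter_upwards [hUz] with w hw
    exact h2 w hw
  have hfr := hor_chart hO (gfam f a) I hU hz₁ hx hG (fun h => hI h.self_of_nhds) hT'
  obtain ⟨w₀, ⟨V, hVan, hV0, hRel⟩, ha₀, hU₀⟩ := (hfr.and_eventually (hane.and hUz)).exists
  have hxw := xb_an (hF.an w₀ hU₀) ha₀
  have hane₀ : ∀ᶠ w in 𝓝 w₀, F w a ≠ 0 := (hFan a w₀ hU₀).continuousAt.eventually_ne ha₀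
  have hUw : ∀ᶠ w in 𝓝 w₀, w ∈ U := hU.mem_nhds hU₀
  have hVan' : ∀ᶠ w in 𝓝 w₀, AnalyticAt ℂ V w := hVan.eventually_analyticAt
  -- the normalisation of the field
  have hVa : ∀ᶠ w in 𝓝 w₀, V w a = 0 := by
    have h1 := hRel.lhs (G := X (Sum.inl a)) (g := 1) OO.one_mem (by
      filter_upwards [hane₀] with w hw
      simp [pt, xb, inv_mul_cancel₀ hw])
    filter_upwards [h1] with w hw
    unfold lhs at hw
    rw [Finset.sum_eq_single (Sum.inl a)] at hw
    · simpa using hw
    · intro s _ hs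
      simp [pderiv_X, Pi.single_eq_of_ne' hs]
    · simp
  refine ⟨w₀, hU₀, ha₀, fun w p => F w a ^ 2 * (xb F a w p.1 * V w p.2 - xb F a w p.2 * V w p.1), ?_, ?_, ?_⟩
  · refine ⟨?_, ?_⟩
    · rw [analyticAt_pi_iff]
      intro p
      exact ((hFan a w₀ hU₀).pow 2).mul (((analyticAt_pi_iff.mp hxw p.1).mul (analyticAt_pi_iff.mp hVan p.2)).sub
        ((analyticAt_pi_iff.mp hxw p.2).mul (analyticAt_pi_iff.mp hVan p.1)))
    · have hall : ∀ᶠ w in 𝓝 w₀, ∀ (b : Fin (N + 1)) (l : (Unit ⊕ Unit) ⊕ (Fin f.q ⊕ Fin f.q) ⊕ Fin J), xb F a w b ≠ 0 →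
          lhs (gfam f b l) (fun w => (xb F a w b)⁻¹ • xb F a w) (fun w => (xb F a w b)⁻¹ • V w - (V w b / xb F a w b ^ 2) • xb F a w) w = 0 := by
        rw [Filter.eventually_all]
        intro b
        rw [Filter.eventually_all]
        intro l
        refine relP_chart hxw hVan hRel b (gvals_mem f hs l) ?_
        filter_upwards [hane₀.eventually_nhds, hUw] with w hw hwU hb
        have hwa := hw.self_of_nhds
        have hb' : F w b ≠ 0 := by
          intro h0
          apply hb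
          simp [xb, h0]
        have h1 : (fun w => (xb F a w b)⁻¹ • xb F a w) =ᶠ[𝓝 w] xb F b := by
          filter_upwards [hw] with u hu
          simp only [xb, Pi.smul_apply, smul_eq_mul, smul_smul]
          congr 1
          rw [mul_inv, inv_inv, mul_comm (F u a), mul_assoc, mul_inv_cancel₀ hu, mul_one]
        have h2 : (xb F a w b)⁻¹ • xb F a w = xb F b w := h1.eq_of_nhds
        rw [h1.deriv_eq, h2]
        exact hF.gval hP f hwU hb' l
      filter_upwards [hane₀.eventually_nhds, hUw, hall, hVan'] with w hw hwU hw2 hwV b hb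
      have hwa := hw.self_of_nhds
      have hbx : xb F a w b ≠ 0 := by
        simp only [xb, Pi.smul_apply, smul_eq_mul]
        exact mul_ne_zero (inv_ne_zero hwa) hb
      refine ⟨fun i j => ?_, fun l => ?_⟩
      · simp only [Vb, xb, Pi.smul_apply, smul_eq_mul]
        field_simp
        ring
      · rw [← hw2 b l hbx]
        apply hor_lhs_congr
        · filter_upwards [hw] with u hu
          simp only [xb, Pi.smul_apply, smul_eq_mul, smul_smul]
          congr 1
          rw [mul_inv, inv_inv, mul_comm (F u a), mul_assoc, mul_inv_cancel₀ hu, mul_one]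
        · have hbe : ∀ᶠ u in 𝓝 w, F u b ≠ 0 := (hFan b w hwU).continuousAt.eventually_ne hb
          filter_upwards [hw, hbe] with u hu hub
          funext j
          simp only [Vb, xb, Pi.smul_apply, Pi.sub_apply, smul_eq_mul]
          field_simp
  · have h1 := hRel.relX
    intro R hR
    filter_upwards [h1 R hR, hane₀, hVa] with w hw hwa hwV
    rw [← hw]
    refine Finset.sum_congr rfl fun b _ => ?_
    congr 1
    simp only [Vb, xb, Pi.smul_apply, smul_eq_mul, hwV]
    field_simp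
    ring
  · obtain ⟨j, hj⟩ := Function.ne_iff.1 hV0
    intro h0
    apply hj
    have h1 := congrFun h0 (a, j)
    have h2 := hVa.self_of_nhds
    simp only [xb, Pi.smul_apply, smul_eq_mul, h2, mul_zero, sub_zero, inv_mul_cancel₀ ha₀, one_mul, Pi.zero_apply] at h1
    exact (mul_eq_zero.1 h1).resolve_left (pow_ne_zero 2 ha₀)

end Pool.Agent.GA
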