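import Pool.Agent.GA.Bas
import Pool.Agent.GA.Ring
import Pool.Agent.GA.SmlArea

/-!
# GA Sml: the values of the symmetric differentials on the curve are small

`|s_k (w)| ^ (2 / m_k) ≤` mean of `|s_k| ^ (2 / m_k) ≤ C sp²` over the disc of radius `1 / τ_n` around `w` (`GA/SmlArea`), and the integral of `sp²` over the disc is at
most `AA (X_n) ≤ τ_n²`: `log⁺ |s_k (w)| ≤ C (1 + log τ_n)` for `1 + 1 / τ_n ≤ Re w ≤ X_n - 1 / τ_n`; `IsOO.of_mean`.
-/

set_option autoImplicit false

open MvPolynomial Topology Filter Metric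
open Pool.Agent.H13.SM (conTan cone)
open Pool.Agent.H62.FC (Homog)
open Pool.Agent.GG

namespace Pool.Agent.GA

variable {N : ℕ} {P : Ideal (MvPolynomial (Fin (N + 1)) ℂ)} {J : ℕ} {m : Fin J → ℕ} {θ : ∀ k, SymSec P (m k)} {F : ℂ → Fin (N + 1) → ℂ}
  {X : ℕ → ℝ}

/-- a periodic holomorphic function which is bounded by a power of the speed is small -/
theorem IsOO.of_speed {s : ℂ → ℝ} (hs : Speed s) (hX : Lev s X) {a : ℂ → ℂ} (han : ∀ w ∈ HP, AnalyticAt ℂ a w) (hper : ∀ w ∈ HP, a (w + per) = a w)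
    {C : ℝ} {k : ℕ} (hb : ∀ w ∈ HP, ‖a w‖ ≤ C * s w ^ k) : IsOO s X a := by
  obtain ⟨D, hD, hD1⟩ : ∃ D : ℝ, D = max C 1 ∧ 1 ≤ D := ⟨_, rfl, le_max_right _ _⟩
  have hbD : ∀ w ∈ HP, ‖a w‖ ≤ D * s w ^ k := fun w hw =>
    (hb w hw).trans (mul_le_mul_of_nonneg_right (by rw [hD]; exact le_max_left _ _) (pow_nonneg (hs.nonneg w hw) _))
  -- the levels
  have hτ : ∀ n : ℕ, 4 * ((n : ℝ) + 1) ≤ tau s X n := by
    intro n
    have h1 := hX.sub n
    have h2 := hX.big n
    have h3 : (0 : ℝ) ≤ n := Nat.cast_nonneg n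
    nlinarith
  have hτ4 : ∀ n, 4 ≤ tau s X n := fun n => by
    have := hτ n
    have h3 : (0 : ℝ) ≤ n := Nat.cast_nonneg n
    linarith
  have hτlim : Tendsto (tau s X) atTop atTop := by
    refine tendsto_atTop_mono hτ ?_
    exact Tendsto.const_mul_atTop (by norm_num) (tendsto_atTop_add_const_right _ _ tendsto_natCast_atTop_atTop)
  have hAA0 : ∀ t, 0 ≤ AA s t := fun t =>
    intervalIntegral.integral_nonneg (le_max_right _ _) fun x _ => intervalIntegral.integral_nonneg (by positivity) fun y _ => sq_nonneg _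
  have hAAτ : ∀ n, AA s (X n) ≤ tau s X n ^ 2 := by
    intro n
    have h1 := hX.area n
    have h2 := hX.big n
    have h3 : (0 : ℝ) ≤ n := Nat.cast_nonneg n
    have h4 := hAA0 (X n)
    have h5 : AA s (X n) ≤ X n * AA s (X n) := by nlinarith
    have h6 : X n * AA s (X n) ≤ ((n : ℝ) + 1) * (X n * AA s (X n)) := by
      have : 0 ≤ X n * AA s (X n) := mul_nonneg (by linarith) h4
      nlinarith
    linarith
  -- the pointwise bound
  obtain ⟨B, hB0, hB⟩ : ∃ B : ℝ, 0 ≤ B ∧ ∀ n, ∀ w : ℂ, w.re ∈ Set.Icc (xi s X n - 1 / tau s X n) (xi s X n + 1 / tau s X n) →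
      Real.posLog ‖a w‖ ≤ B + 2 * k * Real.log (tau s X n) := by
    refine ⟨Real.log D, Real.log_nonneg hD1, fun n w hw => ?_⟩
    have ht4 := hτ4 n
    have ht0 : 0 < tau s X n := by linarith
    have hlog : 0 ≤ Real.log (tau s X n) := Real.log_nonneg (by linarith)
    have hr : 1 / tau s X n ≤ 1 / 4 := by gcongr
    have hr0 : 0 < 1 / tau s X n := by positivity
    have hxi : xi s X n = X n - 2 * (1 / tau s X n) := by
      rw [xi]
      ring
    rw [hxi] at hw
    have hbig := hX.big n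
    have h3 : (0 : ℝ) ≤ n := Nat.cast_nonneg n
    have hwHP : w ∈ HP := by
      change 0 < w.re
      linarith [hw.1]
    rcases Nat.eq_zero_or_pos k with hk | hk
    · subst hk
      have h1 := hbD w hwHP
      rw [pow_zero, mul_one] at h1
      have h2 : Real.posLog ‖a w‖ ≤ Real.posLog D := Real.posLog_le_posLog (norm_nonneg _) h1
      rw [Real.posLog_eq_log (x := D) (by rw [abs_of_pos (by linarith)]; exact hD1)] at h2
      simpa using h2
    · have hk0 : (0 : ℝ) < k := by exact_mod_cast hk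
      have hp : (0 : ℝ) < 2 / k := by positivity
      have hle : ∀ z ∈ HP, ‖a z‖ ^ ((2 : ℝ) / k) ≤ D ^ ((2 : ℝ) / k) * s z ^ 2 := by
        intro z hz
        have h1 := Real.rpow_le_rpow (norm_nonneg _) (hbD z hz) hp.le
        rw [Real.mul_rpow (by linarith) (pow_nonneg (hs.nonneg z hz) _), ← Real.rpow_natCast (s z) k, ← Real.rpow_mul (hs.nonneg z hz)] at h1
        rwa [show (k : ℝ) * (2 / k) = 2 by field_simp, Real.rpow_two] at h1
      have h1 := sml_area hs han hp (Real.rpow_nonneg (by linarith) _) hle (w := w) (h := 1 / tau s X n) hr0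
        (by linarith [Real.pi_gt_three]) (by linarith [hw.1])
      have h2 : AA s (w.re + 1 / tau s X n) ≤ AA s (X n) := sml_AA_mono hs (by linarith [hw.2])
      have hDp : 0 < D ^ ((2 : ℝ) / k) := Real.rpow_pos_of_pos (by linarith) _
      have h4 : Real.pi * (1 / tau s X n) ^ 2 * ‖a w‖ ^ ((2 : ℝ) / k) ≤ D ^ ((2 : ℝ) / k) * tau s X n ^ 2 :=
        h1.trans (mul_le_mul_of_nonneg_left (h2.trans (hAAτ n)) hDp.le)
      have h5 : ‖a w‖ ^ ((2 : ℝ) / k) ≤ D ^ ((2 : ℝ) / k) * tau s X n ^ 4 := by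
        have hy : 0 ≤ ‖a w‖ ^ ((2 : ℝ) / k) := Real.rpow_nonneg (norm_nonneg _) _
        have h6 : ‖a w‖ ^ ((2 : ℝ) / k) ≤ Real.pi * ‖a w‖ ^ ((2 : ℝ) / k) := by nlinarith [Real.pi_gt_three]
        have h7 : Real.pi * ‖a w‖ ^ ((2 : ℝ) / k) = tau s X n ^ 2 * (Real.pi * (1 / tau s X n) ^ 2 * ‖a w‖ ^ ((2 : ℝ) / k)) := by
          field_simp
        rw [h7] at h6
        refine h6.trans ((mul_le_mul_of_nonneg_left h4 (by positivity)).trans_eq ?_)
        ring
      -- take logarithms
      have h8 : ‖a w‖ ≤ D * tau s X n ^ (2 * k) := by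
        have h9 := Real.rpow_le_rpow (Real.rpow_nonneg (norm_nonneg _) _) h5 (show (0 : ℝ) ≤ k / 2 by positivity)
        rw [← Real.rpow_mul (norm_nonneg _), show (2 : ℝ) / k * (k / 2) = 1 by field_simp, Real.rpow_one, Real.mul_rpow hDp.le (by positivity),
          ← Real.rpow_mul (by linarith), show (2 : ℝ) / k * (k / 2) = 1 by field_simp, Real.rpow_one, ← Real.rpow_natCast (tau s X n) 4,
          ← Real.rpow_mul ht0.le] at h9
        rwa [show ((4 : ℕ) : ℝ) * (k / 2) = ((2 * k : ℕ) : ℝ) by push_cast; ring, Real.rpow_natCast] at h9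
      have h10 : Real.posLog ‖a w‖ ≤ Real.posLog (D * tau s X n ^ (2 * k)) := Real.posLog_le_posLog (norm_nonneg _) h8
      have h11 : 1 ≤ D * tau s X n ^ (2 * k) := by
        have : 1 ≤ tau s X n ^ (2 * k) := one_le_pow₀ (by linarith)
        nlinarith
      rw [Real.posLog_eq_log (x := D * tau s X n ^ (2 * k)) (by rwa [abs_of_pos (by linarith)]), Real.log_mul (by linarith) (by positivity), Real.log_pow] at h10
      push_cast at h10
      exact h10
  refine IsOO.of_mean hX han hper (η := fun n => 2 * Real.pi * (B + 2 * k * Real.log (tau s X n))) ?_ (Eventually.of_forall fun n t ht => ?_)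
  · unfold SmallN
    have h1 : Tendsto (fun n => Real.log (tau s X n) / tau s X n) atTop (𝓝 0) := by
      have := (Real.isLittleO_log_id_atTop.tendsto_div_nhds_zero).comp hτlim
      exact this
    have h2 : Tendsto (fun n => B / tau s X n) atTop (𝓝 0) := hτlim.const_div_atTop _
    have h3 := (h2.add (h1.const_mul (2 * (k : ℝ)))).const_mul (2 * Real.pi)
    simp only [mul_zero, add_zero] at h3
    refine h3.congr fun n => ?_
    ring
  · unfold mn
    have hbd : ∀ y ∈ Set.Icc (0 : ℝ) (2 * Real.pi), Real.posLog ‖a (t + y * Complex.I)‖ ≤ B + 2 * k * Real.log (tau s X n) := by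
      intro y _
      refine hB n _ ?_
      simpa using ht
    have ht0 : 0 < t := by
      have h1 := hτ4 n
      have h2 := hX.big n
      have h3 : (0 : ℝ) ≤ n := Nat.cast_nonneg n
      have h4 : 1 / tau s X n ≤ 1 / 4 := by gcongr
      have h5 := ht.1
      rw [xi, show (2 : ℝ) / tau s X n = 2 * (1 / tau s X n) by ring] at h5
      linarith
    have hcont : Continuous fun y : ℝ => Real.posLog ‖a (t + y * Complex.I)‖ := by
      refine Real.continuous_posLog.comp (continuous_norm.comp (continuous_iff_continuousAt.2 fun y => ?_))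
      have h1 : (t + y * Complex.I : ℂ) ∈ HP := by simpa [HP] using ht0
      exact ContinuousAt.comp (f := fun y : ℝ => (t + y * Complex.I : ℂ)) (g := a) (han _ h1).continuousAt (by fun_prop)
    have h1 := intervalIntegral.integral_mono_on (μ := MeasureTheory.volume) (show (0 : ℝ) ≤ 2 * Real.pi by positivity) (hcont.intervalIntegrable _ _)
      intervalIntegrable_const hbd
    refine h1.trans_eq ?_
    rw [intervalIntegral.integral_const]
    simp

theorem sth_small (hP : Homog P) (hθ : Polar θ) (hm : ∀ k, 1 ≤ m k) (hF : HCurve P F) (hX : Lev (sp F) X) (k : Fin J) : IsOO (sp F) X (sth θ F k) := by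
  obtain ⟨c, -, C, -, h⟩ := theta_bd hP hθ hm
  exact IsOO.of_speed hF.speed hX (fun w hw => sth_an hF k hw) (fun w hw => sth_periodic hF k hw) fun w hw => (h _ (hF.cone w hw) _ (hF.deriv_mem hw)).1 k

end Pool.Agent.GA
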