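import Pool.Agent.GA.Psh
import Pool.Agent.GA.Ring

/-!
# GA Trn: the coordinates of the curve are not all algebraic over the small functions

Otherwise for every `c` there is `G_c ∈ OO`, `G_c ≠ 0` (the leading coefficient of a relation), such that `G_c x_c`, `x_c = F_c / F_a`, is bounded by the sum of the absolute values
of the coefficients (`exists_y`): it extends to a holomorphic function on the half-plane (`exists_quot`) and is small in the mean.
`G := ∏ G_c`, `H_c := G x_c` (holomorphic, periodic, `H_c F_a = G F_c`, so `H` is parallel to `F`), `mn log⁺ |H_c| = o (τ_n)` at `ξ_n`.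
`psh_lower` at `t = ξ_n`: `c τ_n / 2 ≤ c TT (ξ_n) ≤ o (τ_n) + C ξ_n = o (τ_n)`.
-/

set_option autoImplicit false

open Topology Filter Metric
open Pool.Agent.GG

namespace Pool.Agent.GA

namespace Tr0

theorem hp_preconn : IsPreconnected HP := (convex_halfSpace_re_gt 0).isPreconnected

/-- a holomorphic function which is not identically zero has isolated zeros -/
theorem ev_ne {f : ℂ → ℂ} (hf : ∀ w ∈ HP, AnalyticAt ℂ f w) (h0 : ∃ w ∈ HP, f w ≠ 0) {w : ℂ} (hw : w ∈ HP) : ∀ᶠ z in 𝓝[≠] w, f z ≠ 0 := by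
  rcases (hf w hw).eventually_eq_zero_or_eventually_ne_zero with h | h
  · obtain ⟨z, hz, hz0⟩ := h0
    have h1 : AnalyticOnNhd ℂ f HP := hf
    exact absurd (h1.eqOn_zero_of_preconnected_of_eventuallyEq_zero hp_preconn hw h hz) hz0
  · exact h

/-- cancellation -/
theorem cancel {f g h : ℂ → ℂ} (hf : ContinuousOn f HP) (hg : ContinuousOn g HP) (hh : ∀ w ∈ HP, AnalyticAt ℂ h w) (h0 : ∃ w ∈ HP, h w ≠ 0)
    (e : ∀ w ∈ HP, f w * h w = g w * h w) : ∀ w ∈ HP, f w = g w := by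
  intro w hw
  have h1 := ev_ne hh h0 hw
  have h2 : ∀ᶠ z in 𝓝[≠] w, f z = g z := by
    filter_upwards [h1, mem_nhdsWithin_of_mem_nhds (Rg.isOpen_HP.mem_nhds hw)] with z hz hz'
    exact mul_right_cancel₀ hz (e z hz')
  have h3 : Tendsto f (𝓝[≠] w) (𝓝 (f w)) := (hf.continuousAt (Rg.isOpen_HP.mem_nhds hw)).tendsto.mono_left nhdsWithin_le_nhds
  have h4 : Tendsto g (𝓝[≠] w) (𝓝 (g w)) := (hg.continuousAt (Rg.isOpen_HP.mem_nhds hw)).tendsto.mono_left nhdsWithin_le_nhds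
  exact tendsto_nhds_unique (h3.congr' h2) h4

/-- division of holomorphic functions -/
theorem exists_quot {g f : ℂ → ℂ} (hg : ∀ w ∈ HP, AnalyticAt ℂ g w) (hf : ∀ w ∈ HP, AnalyticAt ℂ f w) (h0 : ∃ w ∈ HP, f w ≠ 0) {B : ℂ → ℝ}
    (hB : ContinuousOn B HP) (hle : ∀ w ∈ HP, f w ≠ 0 → ‖g w‖ ≤ B w * ‖f w‖) :
    ∃ y : ℂ → ℂ, (∀ w ∈ HP, AnalyticAt ℂ y w) ∧ (∀ w ∈ HP, y w * f w = g w) ∧ ∀ w ∈ HP, ‖y w‖ ≤ B w := by
  classical
  obtain ⟨q, hq⟩ : ∃ q : ℂ → ℂ, q = fun z => g z / f z := ⟨_, rfl⟩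
  obtain ⟨y, hy⟩ : ∃ y : ℂ → ℂ, y = fun w => if f w ≠ 0 then q w else limUnder (𝓝[≠] w) q := ⟨_, rfl⟩
  have hqB : ∀ w ∈ HP, f w ≠ 0 → ‖q w‖ ≤ B w := by
    intro w hw hfw
    rw [hq]
    simp only [norm_div]
    rw [div_le_iff₀ (norm_pos_iff.2 hfw)]
    exact hle w hw hfw
  have hqan : ∀ w ∈ HP, f w ≠ 0 → AnalyticAt ℂ q w := fun w hw hfw => by
    rw [hq]
    exact (hg w hw).div (hf w hw) hfw
  have hyan : ∀ w ∈ HP, AnalyticAt ℂ y w := by
    intro w hw
    by_cases hfw : f w = 0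
    · -- a zero of `f`
      have h1 := ev_ne hf h0 hw
      have hBc : ContinuousAt B w := hB.continuousAt (Rg.isOpen_HP.mem_nhds hw)
      have h2 : ∀ᶠ z in 𝓝 w, B z < B w + 1 := hBc.eventually_lt continuousAt_const (by linarith)
      obtain ⟨s, hs, hso, hws⟩ := _root_.mem_nhds_iff.1 ((eventually_nhdsWithin_iff.1 h1).and (h2.and (Rg.isOpen_HP.mem_nhds hw)))
      have h3 : DifferentiableOn ℂ q (s \ {w}) := by
        intro z hz
        have h4 := hs hz.1
        exact (hqan z h4.2.2 (h4.1 hz.2)).differentiableAt.differentiableWithinAt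
      have h5 : BddAbove (norm ∘ q '' (s \ {w})) := by
        refine ⟨B w + 1, ?_⟩
        rintro _ ⟨z, hz, rfl⟩
        have h4 := hs hz.1
        exact (hqB z h4.2.2 (h4.1 hz.2)).trans h4.2.1.le
      have h6 := Complex.differentiableOn_update_limUnder_of_bddAbove (hso.mem_nhds hws) h3 h5
      have h7 : AnalyticAt ℂ (Function.update q w (limUnder (𝓝[≠] w) q)) w := h6.analyticAt (hso.mem_nhds hws)
      refine h7.congr ?_
      filter_upwards [hso.mem_nhds hws] with z hz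
      by_cases hzw : z = w
      · rw [hzw, Function.update_self, hy]
        simp only [hfw, ne_eq, not_true_eq_false, if_false]
      · rw [Function.update_of_ne hzw, hy]
        simp only [(hs hz).1 hzw, ne_eq, not_false_eq_true, if_true]
    · refine (hqan w hw hfw).congr ?_
      filter_upwards [(hf w hw).continuousAt.eventually_ne hfw] with z hz
      rw [hy]
      simp only [hz, ne_eq, not_false_eq_true, if_true]
  have hyq : ∀ w, f w ≠ 0 → y w = q w := fun w hw => by rw [hy]; simp only [hw, ne_eq, not_false_eq_true, if_true]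
  refine ⟨y, hyan, ?_, ?_⟩
  · refine cancel ((Rg.cont_of_an hyan).mul (Rg.cont_of_an hf)) (Rg.cont_of_an hg) hf h0 fun w hw => ?_
    by_cases hfw : f w = 0
    · rw [hfw, mul_zero, mul_zero]
    · rw [hyq w hfw, hq]
      simp only [div_mul_cancel₀ _ hfw]
  · intro w hw
    have h1 := ev_ne hf h0 hw
    have h3 : Tendsto (fun z => ‖y z‖) (𝓝[≠] w) (𝓝 ‖y w‖) := (hyan w hw).continuousAt.norm.tendsto.mono_left nhdsWithin_le_nhds
    have h4 : Tendsto B (𝓝[≠] w) (𝓝 (B w)) := (hB.continuousAt (Rg.isOpen_HP.mem_nhds hw)).tendsto.mono_left nhdsWithin_le_nhds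
    refine le_of_tendsto_of_tendsto h3 h4 ?_
    filter_upwards [h1, mem_nhdsWithin_of_mem_nhds (Rg.isOpen_HP.mem_nhds hw)] with z hz hz'
    rw [hyq z hz]
    exact hqB z hz' hz

/-- the bound of `g u / v` for a root of a polynomial with the leading coefficient `g` -/
theorem root_bound {d : ℕ} {e : Fin (d + 1)} {A : Fin (d + 1) → ℂ} {u v : ℂ} (hv : v ≠ 0) (hA : ∀ i, e < i → A i = 0)
    (h : ∑ i, A i * u ^ (i : ℕ) * v ^ (d - i) = 0) : ‖A e * u‖ ≤ (∑ i, ‖A i‖) * ‖v‖ := by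
  classical
  have hvn : 0 < ‖v‖ := norm_pos_iff.2 hv
  rw [norm_mul]
  rcases le_or_gt ‖u‖ ‖v‖ with huv | huv
  · have h1 : ‖A e‖ ≤ ∑ i, ‖A i‖ := Finset.single_le_sum (fun i _ => norm_nonneg (A i)) (Finset.mem_univ e)
    exact mul_le_mul h1 huv (norm_nonneg _) (Finset.sum_nonneg fun i _ => norm_nonneg _)
  · have hun : 0 < ‖u‖ := hvn.trans huv
    -- the leading term
    have h1 : A e * u ^ (e : ℕ) * v ^ (d - e) = -∑ i ∈ Finset.univ.filter (· < e), A i * u ^ (i : ℕ) * v ^ (d - i) := by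
      have h2 : ∑ i, A i * u ^ (i : ℕ) * v ^ (d - i) = A e * u ^ (e : ℕ) * v ^ (d - e) +
          ∑ i ∈ Finset.univ.filter (· < e), A i * u ^ (i : ℕ) * v ^ (d - i) := by
        rw [← Finset.add_sum_erase _ _ (Finset.mem_univ e)]
        congr 1
        symm
        refine Finset.sum_subset ?_ ?_
        · intro i hi
          rw [Finset.mem_filter] at hi
          exact Finset.mem_erase.2 ⟨hi.2.ne, Finset.mem_univ _⟩
        · intro i hi hi'
          rw [Finset.mem_filter, not_and] at hi'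
          have h3 : e < i := lt_of_le_of_ne (not_lt.1 (hi' (Finset.mem_univ _))) (Ne.symm (Finset.mem_erase.1 hi).1)
          rw [hA i h3, zero_mul, zero_mul]
      rw [h2] at h
      exact eq_neg_of_add_eq_zero_left h
    have h2 : ‖A e‖ * ‖u‖ ^ (e : ℕ) * ‖v‖ ^ (d - e : ℕ) ≤ ∑ i ∈ Finset.univ.filter (· < e), ‖A i‖ * ‖u‖ ^ (i : ℕ) * ‖v‖ ^ (d - i : ℕ) := by
      have h3 := congrArg norm h1
      rw [norm_neg, norm_mul, norm_mul, norm_pow, norm_pow] at h3
      rw [h3]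
      refine (norm_sum_le _ _).trans (le_of_eq ?_)
      refine Finset.sum_congr rfl fun i _ => ?_
      rw [norm_mul, norm_mul, norm_pow, norm_pow]
    rcases Nat.eq_zero_or_pos (e : ℕ) with he | he
    · -- `e = 0`
      have h3 : Finset.univ.filter (· < e) = ∅ := by
        refine Finset.filter_eq_empty_iff.2 fun i _ hi => ?_
        have h4 : (i : ℕ) < (e : ℕ) := hi
        omega
      rw [h3, Finset.sum_empty, he, pow_zero, mul_one] at h2
      have h4 : ‖A e‖ ≤ 0 := by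
        by_contra h5
        push Not at h5
        have h6 : 0 < ‖A e‖ * ‖v‖ ^ (d - 0 : ℕ) := by positivity
        linarith
      have h5 : ‖A e‖ = 0 := le_antisymm h4 (norm_nonneg _)
      rw [h5, zero_mul]
      exact mul_nonneg (Finset.sum_nonneg fun i _ => norm_nonneg _) hvn.le
    · have hed : (e : ℕ) ≤ d := Nat.lt_succ_iff.1 e.2
      have h3 : ∑ i ∈ Finset.univ.filter (· < e), ‖A i‖ * ‖u‖ ^ (i : ℕ) * ‖v‖ ^ (d - i : ℕ) ≤
          (∑ i, ‖A i‖) * (‖u‖ ^ ((e : ℕ) - 1) * ‖v‖ ^ (d - e + 1 : ℕ)) := by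
        rw [Finset.sum_mul]
        refine (Finset.sum_le_sum fun i hi => ?_).trans (Finset.sum_le_sum_of_subset_of_nonneg (Finset.filter_subset _ _) fun i _ _ => by positivity)
        have hie : (i : ℕ) < (e : ℕ) := (Finset.mem_filter.1 hi).2
        rw [mul_assoc]
        refine mul_le_mul_of_nonneg_left ?_ (norm_nonneg _)
        have h4 : ‖v‖ ^ (d - i : ℕ) = ‖v‖ ^ ((e : ℕ) - 1 - i) * ‖v‖ ^ (d - e + 1 : ℕ) := by
          rw [← pow_add]
          congr 1
          omega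
        have h5 : ‖u‖ ^ ((e : ℕ) - 1) = ‖u‖ ^ (i : ℕ) * ‖u‖ ^ ((e : ℕ) - 1 - i) := by
          rw [← pow_add]
          congr 1
          omega
        rw [h4, h5, mul_assoc]
        refine mul_le_mul_of_nonneg_left ?_ (by positivity)
        exact mul_le_mul_of_nonneg_right (pow_le_pow_left₀ hvn.le huv.le _) (by positivity)
      have h4 := h2.trans h3
      have h5 : ‖u‖ ^ (e : ℕ) = ‖u‖ ^ ((e : ℕ) - 1) * ‖u‖ := by
        rw [← pow_succ]
        congr 1
        omega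
      rw [h5, pow_succ ‖v‖ (d - e : ℕ)] at h4
      have h6 : 0 < ‖u‖ ^ ((e : ℕ) - 1) * ‖v‖ ^ (d - e : ℕ) := by positivity
      refine le_of_mul_le_mul_left ?_ h6
      calc ‖u‖ ^ ((e : ℕ) - 1) * ‖v‖ ^ (d - e : ℕ) * (‖A e‖ * ‖u‖) = ‖A e‖ * (‖u‖ ^ ((e : ℕ) - 1) * ‖u‖) * ‖v‖ ^ (d - e : ℕ) := by ring
        _ ≤ (∑ i, ‖A i‖) * (‖u‖ ^ ((e : ℕ) - 1) * (‖v‖ ^ (d - e : ℕ) * ‖v‖)) := h4
        _ = ‖u‖ ^ ((e : ℕ) - 1) * ‖v‖ ^ (d - e : ℕ) * ((∑ i, ‖A i‖) * ‖v‖) := by ring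

theorem smM_of_mem {s : ℂ → ℝ} {X : ℕ → ℝ} {L : Lev s X} {g : ℂ → ℂ} (h : g ∈ OO L) : SmM s X g := by
  have h1 := (mem_OO.1 h).small 0
  simp only [iteratedDeriv_zero] at h1
  exact h1

end Tr0

open Tr0

variable {N : ℕ} {F : ℂ → Fin (N + 1) → ℂ} {X : ℕ → ℝ}

private theorem exists_y (hF : ∀ w ∈ HP, AnalyticAt ℂ F w) (hFp : ∀ w ∈ HP, F (w + per) = F w) (L : Lev (sp F) X) {a c : Fin (N + 1)}
    (ha : ∃ w ∈ HP, F w a ≠ 0) {d : ℕ} {A : Fin (d + 1) → ℂ → ℂ} (hA : ∀ i, A i ∈ OO L)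
    (hrel : ∀ w ∈ HP, ∑ i, A i w * F w c ^ (i : ℕ) * F w a ^ (d - i) = 0) (hne : ∃ i, ∃ w ∈ HP, A i w ≠ 0) :
    ∃ G y : ℂ → ℂ, G ∈ OO L ∧ (∃ w ∈ HP, G w ≠ 0) ∧ (∀ w ∈ HP, AnalyticAt ℂ y w) ∧ (∀ w ∈ HP, y (w + per) = y w) ∧
      (∀ w ∈ HP, y w * F w a = G w * F w c) ∧ SmM (sp F) X y := by
  classical
  -- the degree
  obtain ⟨e, he, hmax⟩ : ∃ e : Fin (d + 1), (∃ w ∈ HP, A e w ≠ 0) ∧ ∀ i, e < i → ∀ w ∈ HP, A i w = 0 := by
    obtain ⟨i₀, hi₀⟩ := hne
    obtain ⟨e, he, hm⟩ := Finset.exists_max_image (Finset.univ.filter fun i : Fin (d + 1) => ∃ w ∈ HP, A i w ≠ 0) (fun i => i)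
      ⟨i₀, Finset.mem_filter.2 ⟨Finset.mem_univ _, hi₀⟩⟩
    refine ⟨e, (Finset.mem_filter.1 he).2, fun i hi w hw => ?_⟩
    by_contra h
    exact absurd (hm i (Finset.mem_filter.2 ⟨Finset.mem_univ _, w, hw, h⟩)) (not_le.2 hi)
  have hFi : ∀ i, ∀ w ∈ HP, AnalyticAt ℂ (fun w => F w i) w := fun i w hw =>
    ((ContinuousLinearMap.proj (R := ℂ) (φ := fun _ : Fin (N + 1) => ℂ) i).analyticAt _).comp (hF w hw)
  have hAan : ∀ i, ∀ w ∈ HP, AnalyticAt ℂ (A i) w := fun i => (mem_OO.1 (hA i)).an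
  have hAc : ∀ i, ContinuousOn (A i) HP := fun i => Rg.cont_of_an (hAan i)
  have hBc : ContinuousOn (fun w => ∑ i, ‖A i w‖) HP := continuousOn_finsetSum _ fun i _ => (hAc i).norm
  obtain ⟨y, hy1, hy2, hy3⟩ := exists_quot (g := fun w => A e w * F w c) (f := fun w => F w a) (B := fun w => ∑ i, ‖A i w‖)
    (fun w hw => (hAan e w hw).mul (hFi c w hw)) (hFi a) ha hBc
    (fun w hw hfw => root_bound hfw (fun i hi => hmax i hi w hw) (hrel w hw))
  have hper : ∀ w ∈ HP, w + per ∈ HP := fun w hw => by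
    have h1 : (w + per).re = w.re := by simp [per]
    show 0 < (w + per).re
    rw [h1]
    exact hw
  refine ⟨A e, y, hA e, he, hy1, ?_, hy2, ?_⟩
  · -- the period
    have hy1' : ContinuousOn (fun w => y (w + per)) HP := (Rg.cont_of_an hy1).comp (by fun_prop) hper
    refine cancel hy1' (Rg.cont_of_an hy1) (hFi a) ha fun w hw => ?_
    have h1 := hy2 (w + per) (hper w hw)
    rw [hFp w hw, (mem_OO.1 (hA e)).periodic w hw] at h1
    rw [h1, hy2 w hw]
  · -- smallness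
    have h1 : SmallN (sp F) X fun n => 2 * Real.pi * Real.log ((d : ℝ) + 1) + ∑ i, mn (fun w => Real.posLog ‖A i w‖) (xi (sp F) X n) := by
      refine (smallN_const L _).add ?_
      have h2 : Tendsto (fun n => ∑ i, mn (fun w => Real.posLog ‖A i w‖) (xi (sp F) X n) / tau (sp F) X n) atTop (𝓝 (∑ _i : Fin (d + 1), (0 : ℝ))) :=
        tendsto_finsetSum _ fun i _ => smM_of_mem (hA i)
      rw [Finset.sum_const_zero] at h2
      refine h2.congr fun n => ?_
      rw [Finset.sum_div]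
    refine h1.mono L (fun n => mn_posLog_nonneg _ _) fun n => ?_
    have hξ := L.xi_pos n
    have hcl : ∀ i, Continuous fun t : ℝ => Real.posLog ‖A i ((xi (sp F) X n : ℂ) + t * Complex.I)‖ := fun i =>
      Rg.continuous_line (Rg.cont_posLog (hAc i)) hξ
    calc mn (fun w => Real.posLog ‖y w‖) (xi (sp F) X n) ≤ mn (fun w => Real.log ((d : ℝ) + 1) + ∑ i, Real.posLog ‖A i w‖) (xi (sp F) X n) := by
          have hc1 : Continuous fun t : ℝ => Real.posLog ‖y ((xi (sp F) X n : ℂ) + t * Complex.I)‖ :=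
            Rg.continuous_line (Rg.cont_posLog (Rg.cont_of_an hy1)) hξ
          have hc2 : Continuous fun t : ℝ => Real.log ((d : ℝ) + 1) + ∑ i, Real.posLog ‖A i ((xi (sp F) X n : ℂ) + t * Complex.I)‖ :=
            continuous_const.add (continuous_finsetSum _ fun i _ => hcl i)
          refine intervalIntegral.integral_mono_on (by positivity) (hc1.intervalIntegrable _ _) (hc2.intervalIntegrable _ _) fun t _ => ?_
          have hmem : ((xi (sp F) X n : ℂ) + t * Complex.I) ∈ HP := Rg.line_mem hξ t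
          have h3 := hy3 _ hmem
          refine (Real.posLog_le_posLog (norm_nonneg _) h3).trans ?_
          have h4 := Real.posLog_sum (Finset.univ : Finset (Fin (d + 1))) fun i => ‖A i ((xi (sp F) X n : ℂ) + t * Complex.I)‖
          rw [Finset.card_univ, Fintype.card_fin] at h4
          push_cast at h4
          exact h4
      _ = 2 * Real.pi * Real.log ((d : ℝ) + 1) + ∑ i, mn (fun w => Real.posLog ‖A i w‖) (xi (sp F) X n) := by
          rw [mn, intervalIntegral.integral_add intervalIntegrable_const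
            ((continuous_finsetSum _ fun i _ => hcl i).intervalIntegrable _ _), intervalIntegral.integral_const, smul_eq_mul,
            intervalIntegral.integral_finsetSum fun i _ => (hcl i).intervalIntegrable _ _]
          simp only [mn, sub_zero]

theorem not_algebraic (hF : ∀ w ∈ HP, AnalyticAt ℂ F w) (hF0 : ∀ w ∈ HP, F w ≠ 0) (hFp : ∀ w ∈ HP, F (w + per) = F w)
    (hX : Lev (sp F) X) {a : Fin (N + 1)} (ha : ∃ w ∈ HP, F w a ≠ 0) :
    ∃ c, ∀ (d : ℕ) (A : Fin (d + 1) → ℂ → ℂ), (∀ i, A i ∈ OO hX) →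
      (∀ w ∈ HP, ∑ i, A i w * F w c ^ (i : ℕ) * F w a ^ (d - i) = 0) → ∀ i, ∀ w ∈ HP, A i w = 0 := by
  classical
  by_contra hcon
  push Not at hcon
  have key : ∀ c, ∃ G y : ℂ → ℂ, G ∈ OO hX ∧ (∃ w ∈ HP, G w ≠ 0) ∧ (∀ w ∈ HP, AnalyticAt ℂ y w) ∧ (∀ w ∈ HP, y (w + per) = y w) ∧
      (∀ w ∈ HP, y w * F w a = G w * F w c) ∧ SmM (sp F) X y := by
    intro c
    obtain ⟨d, A, hA, hrel, i, w, hw, hne⟩ := hcon c
    exact exists_y hF hFp hX ha hA hrel ⟨i, w, hw, hne⟩
  choose G y hG hG0 hy hyp hyG hys using key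
  have hFi : ∀ i, ∀ w ∈ HP, AnalyticAt ℂ (fun w => F w i) w := fun i w hw =>
    ((ContinuousLinearMap.proj (R := ℂ) (φ := fun _ : Fin (N + 1) => ℂ) i).analyticAt _).comp (hF w hw)
  -- the products
  have hprod : ∀ s : Finset (Fin (N + 1)), (∏ j ∈ s, G j) ∈ OO hX := fun s => Subalgebra.prod_mem _ fun j _ => hG j
  obtain ⟨H, hH⟩ : ∃ H : ℂ → Fin (N + 1) → ℂ, H = fun w i => (∏ j ∈ Finset.univ.erase i, G j) w * y i w := ⟨_, rfl⟩
  have hHi : ∀ w i, H w i = (∏ j ∈ Finset.univ.erase i, G j) w * y i w := fun w i => by rw [hH]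
  have hHan : ∀ i, ∀ w ∈ HP, AnalyticAt ℂ (fun w => H w i) w := fun i w hw => by
    simp only [hHi]
    exact ((mem_OO.1 (hprod _)).an w hw).mul (hy i w hw)
  have hHFa : ∀ w ∈ HP, ∀ i, H w i * F w a = (∏ j, G j) w * F w i := fun w hw i => by
    rw [hHi, mul_assoc, hyG i w hw, ← mul_assoc, ← Finset.prod_erase_mul Finset.univ G (Finset.mem_univ i)]
    rfl
  have hper : ∀ w ∈ HP, w + per ∈ HP := fun w hw => by
    have h1 : (w + per).re = w.re := by simp [per]
    show 0 < (w + per).re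
    rw [h1]
    exact hw
  obtain ⟨c, hc, C, hpsh⟩ := psh_lower (F := F) (H := H) hF hF0 hFp (fun w hw => analyticAt_pi_iff.2 fun i => hHan i w hw)
    (fun w hw => by
      funext i
      rw [hHi, hHi, (mem_OO.1 (hprod _)).periodic w hw, hyp i w hw])
    (by
      -- a point where `G` and `F a` are not zero
      have ha' := ha
      obtain ⟨w₀, hw₀, -⟩ := ha'
      have h1 : ∀ᶠ z in 𝓝[≠] w₀, ∀ j, G j z ≠ 0 := eventually_all.2 fun j => ev_ne (mem_OO.1 (hG j)).an (hG0 j) hw₀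
      have h2 := ev_ne (hFi a) ha hw₀
      obtain ⟨z, ⟨hz1, hz2⟩, hz3⟩ := ((h1.and h2).and (mem_nhdsWithin_of_mem_nhds (Rg.isOpen_HP.mem_nhds hw₀))).exists
      refine ⟨z, hz3, fun h0 => ?_⟩
      have h3 := hHFa z hz3 a
      rw [h0, Pi.zero_apply, zero_mul, Finset.prod_apply] at h3
      exact mul_ne_zero (Finset.prod_ne_zero_iff.2 fun j _ => hz1 j) hz2 h3.symm)
    (fun w hw i j => by
      have h1 : ∀ w ∈ HP, (fun w => H w i * F w j) w = (fun w => H w j * F w i) w := by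
        refine cancel (Rg.cont_of_an fun w hw => (hHan i w hw).mul (hFi j w hw)) (Rg.cont_of_an fun w hw => (hHan j w hw).mul (hFi i w hw))
          (hFi a) ha fun w hw => ?_
        have h2 := hHFa w hw i
        have h3 := hHFa w hw j
        calc H w i * F w j * F w a = (H w i * F w a) * F w j := by ring
          _ = (H w j * F w a) * F w i := by rw [h2, h3]; ring
          _ = H w j * F w i * F w a := by ring
      exact h1 w hw)
  -- the contradiction
  have hsm : ∀ i, SmM (sp F) X fun w => H w i := fun i => by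
    have h1 := SmM.mul hX (Rg.cont_of_an (mem_OO.1 (hprod (Finset.univ.erase i))).an) (Rg.cont_of_an (hy i)) (smM_of_mem (hprod _)) (hys i)
    refine h1.congr hX fun w _ => ?_
    rw [hHi]
    rfl
  have h1 : SmallN (sp F) X fun n => (∑ i, mn (fun w => Real.posLog ‖H w i‖) (xi (sp F) X n)) + |C| * X n := by
    refine SmallN.add ?_ (hX.smallX.const_mul _)
    have h2 : Tendsto (fun n => ∑ i, mn (fun w => Real.posLog ‖H w i‖) (xi (sp F) X n) / tau (sp F) X n) atTop (𝓝 (∑ _i : Fin (N + 1), (0 : ℝ))) :=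
      tendsto_finsetSum _ fun i _ => hsm i
    rw [Finset.sum_const_zero] at h2
    refine h2.congr fun n => ?_
    rw [Finset.sum_div]
  have h2 : ∀ n, c / 2 ≤ ((∑ i, mn (fun w => Real.posLog ‖H w i‖) (xi (sp F) X n)) + |C| * X n) / tau (sp F) X n := by
    intro n
    have h3 := hX.tau_pos n
    have h4 := hX.xi_ge n
    have hn : (0 : ℝ) ≤ n := Nat.cast_nonneg n
    have h5 := hpsh (xi (sp F) X n) (by linarith)
    have h6 := hX.half n
    have h7 := hX.xi_lt n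
    rw [le_div_iff₀ h3]
    have h8 : C * xi (sp F) X n ≤ |C| * X n := by
      have h9 : C * xi (sp F) X n ≤ |C| * xi (sp F) X n := mul_le_mul_of_nonneg_right (le_abs_self C) (by linarith)
      have h10 : |C| * xi (sp F) X n ≤ |C| * X n := mul_le_mul_of_nonneg_left h7.le (abs_nonneg C)
      linarith
    have h9 : c * tau (sp F) X n ≤ c * (2 * TT (AA (sp F)) (xi (sp F) X n)) := mul_le_mul_of_nonneg_left h6 hc.le
    linarith
  have h3 := ge_of_tendsto' h1 h2
  linarith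

end Pool.Agent.GA
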