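import Pool.Agent.GA.Eig
import Pool.Agent.GA.Hor
import Pool.Agent.GA.Cnt
import Pool.Agent.GA.Alpha
import Pool.Agent.GA.ArcF
import Pool.Agent.GA.Brg
import Pool.Agent.GA.Sml
import Pool.Agent.GA.Trn
import Pool.Agent.GA.Gro
import Pool.Agent.GA.Ext0
import Pool.Agent.GA.Ent
import Pool.Agent.GG.Fin
import Pool.Agent.H36.BP.MainA

/-!
# GA Fin: all curves lie in the hypersurface section of the order two curves

`main_HP`: in the half-plane.  `main_punct`: a holomorphic map of the punctured disc to the variety whose image does not lie in `R = 0` extends.  `main_entire`: nonconstant entire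
curves lie in `R = 0`.  `R` is any form which vanishes at the points with a vector satisfying the algebraic criterion (`GG.exists_R`).
-/

set_option autoImplicit false

open MvPolynomial Topology Filter Metric
open Pool.Agent.H13.SM (conTan cone)
open Pool.Agent.H17 (PN VanishesAt HolomorphicInto puncturedDisc)
open Pool.Agent.H17BP (vanishesAt_mk)
open Pool.Agent.H17EF (projVar)
open Pool.Agent.H62.FC (Homog)
open Pool.Agent.GG

namespace Pool.Agent.GA

variable {N : ℕ} {P : Ideal (MvPolynomial (Fin (N + 1)) ℂ)} {J : ℕ} {m : Fin J → ℕ} {θ : ∀ k, SymSec P (m k)}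

/-! ## levels -/

theorem AA_continuous {s : ℂ → ℝ} (hs : Speed s) : Continuous (AA s) := by
  have hm : ContinuousOn (mn fun w => s w ^ 2) (Set.Ioi 0) := sml_continuousOn_mn (hs.cont.pow 2)
  have hK : Continuous fun t : ℝ => mn (fun w => s w ^ 2) (max t 1) :=
    hm.comp_continuous (by fun_prop) fun t => Set.mem_Ioi.2 (lt_of_lt_of_le one_pos (le_max_right t 1))
  have h1 : ∀ X, AA s X = ∫ t in (1 : ℝ)..max X 1, mn (fun w => s w ^ 2) (max t 1) := by
    intro X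
    unfold AA
    refine intervalIntegral.integral_congr fun t ht => ?_
    rw [Set.uIcc_of_le (le_max_right _ _)] at ht
    show _ = mn _ (max t 1)
    rw [max_eq_left ht.1]
  have h2 : Continuous fun X : ℝ => ∫ t in (1 : ℝ)..X, mn (fun w => s w ^ 2) (max t 1) :=
    intervalIntegral.continuous_primitive (fun a b => hK.intervalIntegrable a b) 1
  have h3 : AA s = (fun X : ℝ => ∫ t in (1 : ℝ)..X, mn (fun w => s w ^ 2) (max t 1)) ∘ fun X => max X 1 := by
    funext X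
    exact h1 X
  rw [h3]
  exact h2.comp (by fun_prop)

theorem exists_lev {s : ℂ → ℝ} (hs : Speed s) (hA : ¬ ∃ B, ∀ X, AA s X ≤ B) : ∃ X : ℕ → ℝ, Lev s X := by
  have h1 : Tendsto (AA s) atTop atTop := by
    refine tendsto_atTop_atTop_of_monotone (sml_AA_mono hs) fun b => ?_
    by_contra hcon
    push Not at hcon
    exact hA ⟨b, fun X => (hcon X).le⟩
  obtain ⟨X, h2, h3, h4, h5⟩ := sel (AA_continuous hs) (sml_AA_mono hs) h1
  exact ⟨X, h2, h3, h4, h5⟩

/-! ## the half-plane -/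

private theorem Fin_ne {F : ℂ → Fin (N + 1) → ℂ} (hA : ¬ ∃ B, ∀ X, AA (sp F) X ≤ B) : ∃ w ∈ HP, deriv F w ∉ Submodule.span ℂ {F w} := by
  by_contra hcon
  push Not at hcon
  apply hA
  refine ⟨0, fun X => le_of_eq ?_⟩
  have h0 : ∀ w ∈ HP, sp F w = 0 := by
    intro w hw
    obtain ⟨r, hr⟩ := Submodule.mem_span_singleton.1 (hcon w hw)
    unfold sp wl
    rw [← hr]
    have h1 : (fun p : Fin (N + 1) × Fin (N + 1) => F w p.1 * (r • F w) p.2 - F w p.2 * (r • F w) p.1) = 0 := by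
      funext p
      simp only [Pi.smul_apply, smul_eq_mul, Pi.zero_apply]
      ring
    rw [h1, norm_zero, zero_div]
  unfold AA
  have h2 : ∫ t in (1 : ℝ)..max X 1, mn (fun w => sp F w ^ 2) t = ∫ t in (1 : ℝ)..max X 1, (0 : ℝ) := by
    refine intervalIntegral.integral_congr fun t ht => ?_
    rw [Set.uIcc_of_le (le_max_right _ _)] at ht
    show mn (fun w => sp F w ^ 2) t = 0
    have h3 := mn_congr (g := fun w => sp F w ^ 2) (h := fun _ => (0 : ℝ)) (t := t) (fun w hw => by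
      show sp F w ^ 2 = 0
      rw [h0 w hw]
      norm_num) (lt_of_lt_of_le one_pos ht.1)
    rw [h3, mn_const, mul_zero]
  rw [h2]
  simp

private theorem Fin_relX {OO : Subalgebra ℂ (ℂ → ℂ)} {x V V' : ℂ → Fin (N + 1) → ℂ} {w₀ : ℂ} (h : RelX OO x V w₀) {l : ℂ → ℂ}
    (hV : ∀ᶠ w in 𝓝 w₀, V' w = l w • V w) : RelX OO x V' w₀ := by
  intro R hR
  filter_upwards [h R hR, hV] with w h1 h2
  rw [h2]
  simp only [Pi.smul_apply, smul_eq_mul]
  calc ∑ b, evO OO x (pderiv b R) w * (l w * V w b) = l w * ∑ b, evO OO x (pderiv b R) w * V w b := by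
        rw [Finset.mul_sum]
        exact Finset.sum_congr rfl fun b _ => by ring
    _ = 0 := by rw [h1, mul_zero]

private theorem Fin_cone (hP : Homog P) {x : Fin (N + 1) → ℂ} (hx : ∀ Q ∈ P, eval x Q = 0) (c : ℂ) {Q : MvPolynomial (Fin (N + 1)) ℂ} (hQ : Q ∈ P) :
    eval (c • x) Q = 0 := by
  rw [← sum_homogeneousComponent Q, map_sum]
  refine Finset.sum_eq_zero fun n _ => ?_
  have h7 := Pool.Agent.H92.GT.Proj.aeval_scale (K := ℂ) (homogeneousComponent_isHomogeneous n Q) c x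
  rw [aeval_def, aeval_def] at h7
  have h8 : eval (c • x) (homogeneousComponent n Q) = c ^ n * eval x (homogeneousComponent n Q) := h7
  rw [h8, hx _ (hP Q hQ n), mul_zero]

theorem main_HP (hP : Homog P) (hθ : Polar θ) (hm : ∀ k, 1 ≤ m k) {R : MvPolynomial (Fin (N + 1)) ℂ} {e : ℕ} (hR : R.IsHomogeneous e)
    (hRz : ∀ (f : Frame θ) (a : Fin (N + 1)) (I : Fin (N + 1) → (Unit ⊕ Unit) ⊕ (Fin f.q ⊕ Fin f.q) ⊕ Fin J) (c : Fin J → ℂ) (x v : Fin (N + 1) → ℂ),
      IsTan θ a c x v → v ≠ 0 → Crit (gfam f a) I (pt x v) → eval x R = 0)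
    {F : ℂ → Fin (N + 1) → ℂ} (hF : HCurve P F) (hA : ¬ ∃ B, ∀ X, AA (sp F) X ≤ B) : ∀ w ∈ HP, eval (F w) R = 0 := by
  classical
  have hs := hF.speed
  obtain ⟨X, hX⟩ := exists_lev hs hA
  obtain ⟨f, hf⟩ := exists_homFr θ
  have hC : IsCurve P F HP := hF.isCurve (Fin_ne hA)
  have hO : IsSmallRing (OO hX) HP := isSmallRing_OO hX
  have hOp : ∀ g ∈ OO hX, ∀ w ∈ HP, g (w + per) = g w := fun g hg => (mem_OO.1 hg).periodic
  have h1 : (1 : ℂ) ∈ HP := by
    show (0 : ℝ) < (1 : ℂ).re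
    norm_num
  obtain ⟨a, ha⟩ : ∃ a, F 1 a ≠ 0 := by
    by_contra hcon
    push Not at hcon
    exact (hF.cone 1 h1).1 (funext hcon)
  have hT := not_algebraic hF.an (fun w hw => (hF.cone w hw).1) hF.periodic hX ⟨1, h1, ha⟩
  obtain ⟨w₀, hw₀, h₀, Z₀, hZ₀, hR₀, hne₀⟩ := hor hP hθ f hC hO (fun k => mem_OO.2 (sth_small hP hθ hm hF hX k)) ⟨1, h1, ha⟩ hT
  obtain ⟨Z₁, hZ₁, hZe⟩ := exists_cont hP hθ hm f hf hC (convex_halfSpace_re_gt 0) hw₀ hZ₀
  have hR₁ : RelX (OO hX) (xb F a) (Vb F Z₁ a) w₀ := Fin_relX (l := fun _ => 1) hR₀ (by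
    filter_upwards [hZe] with w hw
    rw [one_smul]
    unfold Vb
    rw [hw])
  have hne₁ : Z₁ w₀ ≠ 0 := by
    rw [hZe.self_of_nhds]
    exact hne₀
  obtain ⟨Z, q, hZ, hRZ, hZ0, hq⟩ := exists_eigVar hP hθ hm f hf hC hF.periodic hO hOp hw₀ h₀ hZ₁ hR₁ hne₁
  obtain ⟨α, hα, hα'⟩ := exists_alpha hP f hC hZ
  have hxc : ∀ w ∈ HP, ∀ b, F w b ≠ 0 → xb F b w ∈ cone P := by
    intro w hw b hb
    obtain ⟨h2, h3⟩ := hF.cone w hw
    refine ⟨smul_ne_zero (inv_ne_zero hb) h2, fun Q hQ => ?_⟩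
    exact Fin_cone hP h3 _ hQ
  -- the functions `exp (-m q w) α` are small
  have hsm : ∀ k, (fun w => Complex.exp (-(m k * q * w)) * α w k) ∈ OO hX := by
    intro k
    obtain ⟨C, hC'⟩ := alpha_deriv hP hθ hm f hf
    have hb := hC' HP F Z α hC hZ hα fun w hw b hb => (hα' w hw b hb).2.2
    have hmk : m k ∣ ∏ i, m i := Finset.dvd_prod_of_mem m (Finset.mem_univ k)
    have hpos : 0 < ∏ i, m i := Finset.prod_pos fun i _ => hm i
    refine mem_OO.2 (gro_comp (n := J) (A := fun w k => α w k ^ ((∏ i, m i) / m k)) (k := k) (q := -((∏ i, m i : ℕ) * q)) (e := (∏ i, m i) / m k)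
      hs hX (fun w hw => ?_) hb (fun w hw => ?_) (fun w hw => ?_) ?_ fun w hw => le_of_eq ?_)
    · refine analyticAt_pi_iff.2 fun i => ?_
      exact ((analyticAt_pi_iff.1 (hα w hw)) i).pow _
    · have h2 : AnalyticAt ℂ (fun w : ℂ => Complex.exp (-(m k * q * w))) w := by fun_prop
      exact h2.mul ((analyticAt_pi_iff.1 (hα w hw)) k)
    · exact alpha_per hC hF.periodic hα' hxc hq hw k
    · exact Nat.div_pos (Nat.le_of_dvd hpos hmk) (hm k)
    · show ‖Complex.exp (-(m k * q * w)) * α w k‖ ^ ((∏ i, m i) / m k) = _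
      rw [norm_mul, mul_pow, norm_pow]
      congr 1
      rw [← norm_pow, ← Complex.exp_nat_mul]
      congr 2
      have h3 : (((∏ i, m i) / m k : ℕ) : ℂ) * (m k : ℂ) = ((∏ i, m i : ℕ) : ℂ) := by
        rw [← Nat.cast_mul, Nat.div_mul_cancel hmk]
      calc (((∏ i, m i) / m k : ℕ) : ℂ) * -(m k * q * w) = -(((((∏ i, m i) / m k : ℕ) : ℂ) * (m k : ℂ)) * q * w) := by ring
        _ = -((∏ i, m i : ℕ) * q) * w := by rw [h3]; ring
  -- the criterion
  have hpt : ∀ w ∈ HP, F w a ≠ 0 → eval (F w) R = 0 := by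
    intro w₁ hw₁ h₁
    have hRw : RelX (OO hX) (xb F a) (Vb F Z a) w₁ := relX_transport hC hO (fun w hw => (hZ w hw).1) hw₀ h₀ hw₁ h₁ hRZ
    have hFa : AnalyticAt ℂ F w₁ := hF.an w₁ hw₁
    have hFaa : AnalyticAt ℂ (fun w => F w a) w₁ := (analyticAt_pi_iff.1 hFa) a
    have hx : AnalyticAt ℂ (xb F a) w₁ := by
      refine analyticAt_pi_iff.2 fun i => ?_
      exact (hFaa.inv h₁).mul ((analyticAt_pi_iff.1 hFa) i)
    have hV0 : AnalyticAt ℂ (Vb F Z a) w₁ := by
      refine analyticAt_pi_iff.2 fun i => ?_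
      exact ((analyticAt_pi_iff.1 (hZ w₁ hw₁).1) (a, i)).div (hFaa.pow 2) (pow_ne_zero _ h₁)
    have hev : ∀ᶠ w in 𝓝 w₁, w ∈ HP ∧ F w a ≠ 0 := ((isOpen_HP.eventually_mem hw₁)).and (hFaa.continuousAt.eventually_ne h₁)
    have hexp : AnalyticAt ℂ (fun w : ℂ => Complex.exp (-(q * w))) w₁ := by fun_prop
    have hV : AnalyticAt ℂ (fun w => Complex.exp (-(q * w)) • Vb F Z a w) w₁ := hexp.smul hV0
    have hZ1 : Z w₁ ≠ 0 := fun h => hZ0 (isVar_zero hP hθ hm f hf hC hZ hw₁ h w₀ hw₀)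
    have hVne : Vb F Z a w₁ ≠ 0 := by
      intro h
      apply hZ1
      have h2 := ((hZ w₁ hw₁).2.self_of_nhds a h₁).1
      funext p
      rw [show p = (p.1, p.2) from rfl, h2 p.1 p.2, h]
      simp
    have hVne' : (fun w => Complex.exp (-(q * w)) • Vb F Z a w) w₁ ≠ 0 := smul_ne_zero (Complex.exp_ne_zero _) hVne
    obtain ⟨I, c, hTan, hCrit⟩ := crit_point hθ f hO (a := a) (x := xb F a) (V := fun w => Complex.exp (-(q * w)) • Vb F Z a w) hw₁ hx hV
      (by
        filter_upwards [hev] with w hw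
        refine ⟨hxc w hw.1 a hw.2, ?_⟩
        show (F w a)⁻¹ * F w a = 1
        exact inv_mul_cancel₀ hw.2)
      (Fin_relX (l := fun w => Complex.exp (-(q * w))) hRw (Eventually.of_forall fun _ => rfl))
      (fun k => ⟨_, hsm k, by
        filter_upwards [hev] with w hw
        obtain ⟨h3, -, h4⟩ := hα' w hw.1 a hw.2
        rw [(θ k).smul _ (hxc w hw.1 a hw.2) _ h3, h4 k, ← Complex.exp_nat_mul]
        congr 2
        ring⟩) hVne'
    have h5 := hRz f a I c _ _ hTan hVne' hCrit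
    have h6 : F w₁ = F w₁ a • xb F a w₁ := by
      unfold xb
      rw [smul_smul, mul_inv_cancel₀ h₁, one_smul]
    have h7 := Pool.Agent.H92.GT.Proj.aeval_scale (K := ℂ) hR (F w₁ a) (xb F a w₁)
    rw [aeval_def, aeval_def] at h7
    have h8 : eval (F w₁ a • xb F a w₁) R = F w₁ a ^ e * eval (xb F a w₁) R := h7
    rw [h6, h8, h5, mul_zero]
  intro w hw
  refine Tr0.cancel (f := fun w => eval (F w) R) (g := fun _ => 0) (h := fun w => F w a) ?_ continuousOn_const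
    (fun w hw => (analyticAt_pi_iff.1 (hF.an w hw)) a) ⟨1, h1, ha⟩ (fun w hw => ?_) w hw
  · exact (MvPolynomial.continuous_eval R).comp_continuousOn fun w hw => (hF.an w hw).continuousAt.continuousWithinAt
  · by_cases h : F w a = 0
    · simp only [h, mul_zero]
    · simp only [hpt w hw h, zero_mul]

/-! ## the punctured disc and the plane -/

theorem main_punct (hP : Homog P) (hθ : Polar θ) (hm : ∀ k, 1 ≤ m k) {R : MvPolynomial (Fin (N + 1)) ℂ} {e : ℕ} (hR : R.IsHomogeneous e)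
    (hRz : ∀ (f : Frame θ) (a : Fin (N + 1)) (I : Fin (N + 1) → (Unit ⊕ Unit) ⊕ (Fin f.q ⊕ Fin f.q) ⊕ Fin J) (c : Fin J → ℂ) (x v : Fin (N + 1) → ℂ),
      IsTan θ a c x v → v ≠ 0 → Crit (gfam f a) I (pt x v) → eval x R = 0)
    {f : ℂ → PN N} (hf : HolomorphicInto f puncturedDisc) (hX : ∀ z ∈ puncturedDisc, f z ∈ projVar P) (hne : ∃ z ∈ puncturedDisc, ¬ VanishesAt R (f z)) :
    ∃ g : ℂ → PN N, HolomorphicInto g (ball 0 1) ∧ ∀ z ∈ puncturedDisc, g z = f z := by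
  obtain ⟨F, hF, hFf⟩ := exists_HCurve hP hf hX
  by_cases hA : ∃ B, ∀ X, AA (sp F) X ≤ B
  · obtain ⟨B, hB⟩ := hA
    obtain ⟨a, L, ha, hL⟩ := ext0 hP hθ hm hF hB
    exact extends_of_lim hf hFf ha hL
  · exfalso
    have h := main_HP hP hθ hm hR hRz hF hA
    obtain ⟨z, hz, hzR⟩ := hne
    apply hzR
    have h4 : (1 / 4 : ℂ) ∈ puncturedDisc := by
      refine ⟨?_, ?_⟩
      · rw [mem_ball_zero_iff]
        norm_num
      · norm_num
    refine Pool.Agent.H36.BP.vanish_identity (S := {R}) Pool.Agent.H36.BP.preconnected_puncturedDisc hf (by rintro _ rfl; exact ⟨e, hR⟩) (z₀ := 1 / 4) h4 ?_ z hz R rfl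
    have h5 : ∀ᶠ u in 𝓝 (1 / 4 : ℂ), u ≠ 0 ∧ ‖u‖ < 1 / 2 := by
      refine (continuousAt_id.eventually_ne (by norm_num)).and ?_
      exact continuous_norm.continuousAt.eventually_lt continuousAt_const (by norm_num)
    filter_upwards [h5] with u hu Q hQ
    rw [Set.mem_singleton_iff.1 hQ]
    have h6 : Complex.exp (-(-Complex.log (2 * u))) / 2 = u := by
      rw [neg_neg, Complex.exp_log (mul_ne_zero two_ne_zero hu.1)]
      ring
    have h7 : -Complex.log (2 * u) ∈ HP := by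
      show 0 < (-Complex.log (2 * u)).re
      rw [Complex.neg_re, Complex.log_re]
      have h8 : ‖2 * u‖ < 1 := by
        rw [norm_mul, Complex.norm_ofNat]
        linarith [hu.2]
      have h9 : 0 < ‖2 * u‖ := norm_pos_iff.2 (mul_ne_zero two_ne_zero hu.1)
      linarith [Real.log_neg h9 h8]
    obtain ⟨h10, h11⟩ := hFf _ h7
    rw [h6] at h11
    rw [h11, vanishesAt_mk hR]
    exact h _ h7

theorem main_entire (hP : Homog P) (hθ : Polar θ) (hm : ∀ k, 1 ≤ m k) {R : MvPolynomial (Fin (N + 1)) ℂ} {e : ℕ} (hR : R.IsHomogeneous e)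
    (hRz : ∀ (f : Frame θ) (a : Fin (N + 1)) (I : Fin (N + 1) → (Unit ⊕ Unit) ⊕ (Fin f.q ⊕ Fin f.q) ⊕ Fin J) (c : Fin J → ℂ) (x v : Fin (N + 1) → ℂ),
      IsTan θ a c x v → v ≠ 0 → Crit (gfam f a) I (pt x v) → eval x R = 0)
    {f : ℂ → PN N} (hf : HolomorphicInto f Set.univ) (hX : ∀ z, f z ∈ projVar P) (hne : ∃ z w, f z ≠ f w) (z : ℂ) : VanishesAt R (f z) :=
  entire_of_punctured hP hθ hm hR (fun _ hf hX hne => main_punct hP hθ hm hR hRz hf hX hne) hf hX hne z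

end Pool.Agent.GA
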