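import Pool.Agent.GA.Defs
import Pool.Agent.H36.BP.Lift
import Pool.Agent.H17EF.Bridge

/-!
# GA HPl: from the punctured disc to the half-plane and back

`exists_HCurve`: `H36.BP.lift_punct` with `r = 3 / 4`, `F w = G (exp (-w) / 2)`; values in the cone because `f z ∈ projVar P`.
`extends_of_lim`: the representative of `f z` with the coordinate `a` equal to `1` is a holomorphic function near `0`: removable singularity.
-/

set_option autoImplicit false

open MvPolynomial Topology Filter Metric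
open Pool.Agent.H13.SM (conTan cone)
open Pool.Agent.H17 (PN VanishesAt HolomorphicInto puncturedDisc)
open Pool.Agent.H17EF (projVar)
open Pool.Agent.H62.FC (Homog)
open Pool.Agent.GG

namespace Pool.Agent.GA

variable {N : ℕ} {P : Ideal (MvPolynomial (Fin (N + 1)) ℂ)}

private theorem hpl_mem {w : ℂ} (hw : w ∈ HP) : Complex.exp (-w) / 2 ∈ ball (0 : ℂ) (3 / 4) \ {0} := by
  have hw' : 0 < w.re := hw
  have h1 : ‖Complex.exp (-w)‖ < 1 := by
    rw [Complex.norm_exp, Complex.neg_re]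
    exact Real.exp_lt_one_iff.mpr (by linarith)
  refine ⟨?_, ?_⟩
  · rw [mem_ball_zero_iff, norm_div, Complex.norm_ofNat]
    linarith
  · exact div_ne_zero (Complex.exp_ne_zero _) two_ne_zero

theorem exists_HCurve (hP : Homog P) {f : ℂ → PN N} (hf : HolomorphicInto f puncturedDisc) (hX : ∀ z ∈ puncturedDisc, f z ∈ projVar P) :
    ∃ F : ℂ → Fin (N + 1) → ℂ, HCurve P F ∧ ∀ w ∈ HP, ∃ h : F w ≠ 0, f (Complex.exp (-w) / 2) = Projectivization.mk ℂ (F w) h := by
  obtain ⟨G, hGd, hGf⟩ := Pool.Agent.H36.BP.lift_punct hf (r := 3 / 4) (by norm_num) (by norm_num)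
  have hsub : ball (0 : ℂ) (3 / 4) \ {0} ⊆ puncturedDisc := Set.sdiff_subset_sdiff_left (ball_subset_ball (by norm_num))
  refine ⟨fun w => (G (Complex.exp (-w) / 2)).ofLp, ⟨?_, ?_, ?_⟩, ?_⟩
  · intro w hw
    have hO : IsOpen (ball (0 : ℂ) (3 / 4) \ {0}) := isOpen_ball.sdiff isClosed_singleton
    have h1 : AnalyticAt ℂ G (Complex.exp (-w) / 2) := hGd.analyticAt (hO.mem_nhds (hpl_mem hw))
    have h2 : AnalyticAt ℂ (fun w : ℂ => Complex.exp (-w) / 2) w := by fun_prop
    have h3 : AnalyticAt ℂ (fun w : ℂ => G (Complex.exp (-w) / 2)) w := AnalyticAt.comp (g := G) h1 h2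
    exact ((Pool.Agent.H17EF.LE N).symm.toContinuousLinearMap.analyticAt _).comp h3
  · intro w hw
    obtain ⟨h1, h2⟩ := hGf _ (hpl_mem hw)
    have h3 := hX _ (hsub (hpl_mem hw))
    rw [h2] at h3
    exact (Pool.Agent.H17EF.mk_mem_projVar hP h1).1 h3
  · intro w _
    have h1 : Complex.exp (-(w + per)) = Complex.exp (-w) := by
      rw [neg_add, Complex.exp_add]
      have h2 : Complex.exp (-per) = 1 := by
        rw [Complex.exp_neg]
        unfold per
        rw [Complex.exp_two_pi_mul_I, inv_one]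
      rw [h2, mul_one]
    simp only [h1]
  · intro w hw
    obtain ⟨h1, h2⟩ := hGf _ (hpl_mem hw)
    exact ⟨h1, h2⟩

/-- the representative whose coordinate `a` is `1` -/
private noncomputable def nrm (a : Fin (N + 1)) (p : PN N) : Fin (N + 1) → ℂ := (p.rep a)⁻¹ • p.rep

private theorem nrm_mk (a : Fin (N + 1)) {x : Fin (N + 1) → ℂ} (hx : x ≠ 0) : nrm a (Projectivization.mk ℂ x hx) = (x a)⁻¹ • x := by
  obtain ⟨c, hc, hrep⟩ := Pool.Agent.H36.BP.rep_mk hx
  unfold nrm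
  rw [hrep, Pi.smul_apply, smul_smul, smul_eq_mul, mul_inv]
  congr 1
  field_simp

private theorem mk_congr {x y : Fin (N + 1) → ℂ} (h : x = y) (hx : x ≠ 0) : ∃ hy : y ≠ 0, Projectivization.mk ℂ x hx = Projectivization.mk ℂ y hy := by
  subst h
  exact ⟨hx, rfl⟩

theorem extends_of_lim {f : ℂ → PN N} (hf : HolomorphicInto f puncturedDisc) {F : ℂ → Fin (N + 1) → ℂ}
    (hF : ∀ w ∈ HP, ∃ h : F w ≠ 0, f (Complex.exp (-w) / 2) = Projectivization.mk ℂ (F w) h)
    {a : Fin (N + 1)} {L : Fin (N + 1) → ℂ} (ha : ∀ᶠ w in comap Complex.re atTop, F w a ≠ 0)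
    (hL : Tendsto (fun w => (F w a)⁻¹ • F w) (comap Complex.re atTop) (𝓝 L)) :
    ∃ g : ℂ → PN N, HolomorphicInto g (ball 0 1) ∧ ∀ z ∈ puncturedDisc, g z = f z := by
  classical
  -- the inverse of `w ↦ exp (-w) / 2`
  set W : ℂ → ℂ := fun z => -Complex.log (2 * z) with hW
  have hWe : ∀ z : ℂ, z ≠ 0 → Complex.exp (-W z) / 2 = z := by
    intro z hz
    rw [hW]
    simp only [neg_neg]
    rw [Complex.exp_log (mul_ne_zero two_ne_zero hz), mul_div_cancel_left₀ _ two_ne_zero]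
  have hWt : Tendsto W (𝓝[≠] 0) (comap Complex.re atTop) := by
    rw [tendsto_comap_iff]
    have h1 : (Complex.re ∘ W) = fun z => -Real.log ‖2 * z‖ := by
      funext z
      simp only [hW, Function.comp_apply, Complex.neg_re, Complex.log_re]
    rw [h1]
    have h2 : Tendsto (fun z : ℂ => ‖2 * z‖) (𝓝[≠] 0) (𝓝[>] 0) := by
      rw [tendsto_nhdsWithin_iff]
      refine ⟨?_, ?_⟩
      · have h3 : ContinuousAt (fun z : ℂ => ‖2 * z‖) 0 := by fun_prop
        have h4 := h3.tendsto.mono_left (nhdsWithin_le_nhds (s := {(0 : ℂ)}ᶜ))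
        simpa using h4
      · filter_upwards [self_mem_nhdsWithin] with z hz
        have hz' : z ≠ 0 := hz
        exact norm_pos_iff.2 (mul_ne_zero two_ne_zero hz')
    exact tendsto_neg_atBot_atTop.comp (Real.tendsto_log_nhdsGT_zero.comp h2)
  have hWHP : ∀ᶠ z in 𝓝[≠] (0 : ℂ), W z ∈ HP :=
    hWt.eventually (show ∀ᶠ w in comap Complex.re atTop, w ∈ HP from (eventually_gt_atTop (0 : ℝ)).comap Complex.re)
  have hne : ∀ᶠ z in 𝓝[≠] (0 : ℂ), z ≠ 0 := self_mem_nhdsWithin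
  have hball : ∀ᶠ z in 𝓝[≠] (0 : ℂ), z ∈ ball (0 : ℂ) 1 := nhdsWithin_le_nhds (ball_mem_nhds _ one_pos)
  have hWa : ∀ᶠ z in 𝓝[≠] (0 : ℂ), F (W z) a ≠ 0 := hWt.eventually ha
  -- `f z` in the punctured neighbourhood
  have hfz : ∀ᶠ z in 𝓝[≠] (0 : ℂ), nrm a (f z) = (F (W z) a)⁻¹ • F (W z) ∧ nrm a (f z) a = 1 ∧
      ∃ h : nrm a (f z) ≠ 0, f z = Projectivization.mk ℂ (nrm a (f z)) h := by
    filter_upwards [hWHP, hne, hWa] with z h1 h2 h3
    obtain ⟨h4, h5⟩ := hF _ h1
    rw [hWe z h2] at h5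
    have h6 : nrm a (f z) = (F (W z) a)⁻¹ • F (W z) := by rw [h5, nrm_mk]
    have h7 : nrm a (f z) a = 1 := by
      rw [h6, Pi.smul_apply, smul_eq_mul, inv_mul_cancel₀ h3]
    have h8 : nrm a (f z) ≠ 0 := fun h9 => by
      rw [h9] at h7
      exact zero_ne_one h7
    have h9 : (F (W z) a)⁻¹ • F (W z) ≠ 0 := h6 ▸ h8
    have h10 : f z = Projectivization.mk ℂ ((F (W z) a)⁻¹ • F (W z)) h9 := by
      rw [h5, Projectivization.mk_eq_mk_iff']
      exact ⟨F (W z) a, by rw [smul_smul, mul_inv_cancel₀ h3, one_smul]⟩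
    obtain ⟨h11, h12⟩ := mk_congr h6.symm h9
    exact ⟨h6, h7, h11, h10.trans h12⟩
  have hlim : Tendsto (fun z => nrm a (f z)) (𝓝[≠] 0) (𝓝 L) := by
    refine (hL.comp hWt).congr' ?_
    filter_upwards [hfz] with z hz
    exact hz.1.symm
  have hLa : L a = 1 := by
    have h1 : Tendsto (fun z => nrm a (f z) a) (𝓝[≠] (0 : ℂ)) (𝓝 (L a)) := (tendsto_pi_nhds.1 hlim) a
    have h2 : Tendsto (fun z => nrm a (f z) a) (𝓝[≠] (0 : ℂ)) (𝓝 1) := by
      refine tendsto_const_nhds.congr' ?_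
      filter_upwards [hfz] with z hz
      exact hz.2.1.symm
    exact tendsto_nhds_unique h1 h2
  have hL0 : L ≠ 0 := fun h => by
    rw [h] at hLa
    exact zero_ne_one hLa
  -- the extension
  set φ : ℂ → Fin (N + 1) → ℂ := Function.update (fun z => nrm a (f z)) 0 L with hφ
  have hφe : ∀ z : ℂ, z ≠ 0 → φ z = nrm a (f z) := fun z hz => Function.update_of_ne hz _ _
  have hφ0 : φ 0 = L := Function.update_self _ _ _
  have hφc : ContinuousAt φ 0 := by
    rw [continuousAt_iff_punctured_nhds, hφ0]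
    refine hlim.congr' ?_
    filter_upwards [hne] with z hz
    exact (hφe z hz).symm
  have hφd : ∀ᶠ z in 𝓝[≠] (0 : ℂ), DifferentiableAt ℂ φ z := by
    filter_upwards [hne, hball, hfz] with z h1 h2 h4
    obtain ⟨ψ, hψ, hψf⟩ := hf z ⟨h2, h1⟩
    have h5 : ψ z a ≠ 0 := by
      obtain ⟨h6, h7⟩ := hψf.self_of_nhds
      intro h8
      have h9 := h4.2.1
      rw [h7, nrm_mk, Pi.smul_apply, h8, smul_zero] at h9
      exact zero_ne_one h9
    have h6 : DifferentiableAt ℂ (fun z => (ψ z a)⁻¹ • ψ z) z := by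
      have h7 : DifferentiableAt ℂ (fun z => ψ z a) z := differentiableAt_pi.1 hψ.differentiableAt a
      exact (h7.inv h5).smul hψ.differentiableAt
    refine h6.congr_of_eventuallyEq ?_
    filter_upwards [hψf, eventually_ne_nhds h1] with y h7 h8
    obtain ⟨h9, h10⟩ := h7
    rw [hφe y h8, h10, nrm_mk]
  have hφa : AnalyticAt ℂ φ 0 := Complex.analyticAt_of_differentiable_on_punctured_nhds_of_continuousAt hφd hφc
  refine ⟨fun z => if z = 0 then Projectivization.mk ℂ L hL0 else f z, ?_, ?_⟩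
  · intro z₀ hz₀
    by_cases h0 : z₀ = 0
    · subst h0
      refine ⟨φ, hφa, ?_⟩
      have h1 : ∀ᶠ z in 𝓝 (0 : ℂ), z ≠ 0 → ∃ h : nrm a (f z) ≠ 0, f z = Projectivization.mk ℂ (nrm a (f z)) h :=
        eventually_nhdsWithin_iff.1 (hfz.mono fun z hz => hz.2.2)
      filter_upwards [h1] with z hz
      by_cases h2 : z = 0
      · subst h2
        simp only [if_true]
        exact mk_congr hφ0.symm hL0
      · obtain ⟨h3, h4⟩ := hz h2
        simp only [if_neg h2]
        obtain ⟨h5, h6⟩ := mk_congr (hφe z h2).symm h3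
        exact ⟨h5, h4.trans h6⟩
    · obtain ⟨ψ, hψ, hψf⟩ := hf z₀ ⟨hz₀, h0⟩
      refine ⟨ψ, hψ, ?_⟩
      filter_upwards [hψf, eventually_ne_nhds h0] with z h1 h2
      simp only [if_neg h2]
      exact h1
  · intro z hz
    simp only [if_neg (show z ≠ 0 from hz.2)]

end Pool.Agent.GA
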