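import Pool.Agent.GA.AlgD
import Pool.Agent.GA.Ger

/-!
# GA HorC1: the dual derivations along the curve

`M = Gm z₁`, `d = d/dz`, `K` = the subfield generated by the germs of the functions in `OO`; `x'' ∈ K (x, x')` by Cramer's rule.
-/

set_option autoImplicit false

open MvPolynomial Topology Filter Metric
open Pool.Agent.GG

namespace Pool.Agent.GA

variable {N : ℕ}

/-! ## germs -/

section

variable {z₀ : ℂ}

private theorem gm_congr {f g : ℂ → ℂ} (hf : AnalyticAt ℂ f z₀) (hg : AnalyticAt ℂ g z₀) (h : f = g) : gm z₀ f hf = gm z₀ g hg := by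
  subst h
  rfl

private theorem hcgm_add {f g : ℂ → ℂ} (hf : AnalyticAt ℂ f z₀) (hg : AnalyticAt ℂ g z₀) :
    gm z₀ (fun z => f z + g z) (hf.fun_add hg) = gm z₀ f hf + gm z₀ g hg := by
  unfold gm
  rw [← map_add]
  rfl

private theorem hcgm_mul {f g : ℂ → ℂ} (hf : AnalyticAt ℂ f z₀) (hg : AnalyticAt ℂ g z₀) :
    gm z₀ (fun z => f z * g z) (hf.fun_mul hg) = gm z₀ f hf * gm z₀ g hg := by
  unfold gm
  rw [← map_mul]
  rfl

private theorem hcgm_const (c : ℂ) : gm z₀ (fun _ => c) analyticAt_const = algebraMap ℂ (Gm z₀) c := by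
  rw [IsScalarTower.algebraMap_apply ℂ (AnG z₀) (Gm z₀)]
  rfl

private theorem gm_zero' : gm z₀ (fun _ => 0) analyticAt_const = 0 := by
  rw [hcgm_const, map_zero]

private theorem gm_eq_zero {f : ℂ → ℂ} (hf : AnalyticAt ℂ f z₀) : gm z₀ f hf = 0 ↔ ∀ᶠ z in 𝓝 z₀, f z = 0 := by
  rw [← gm_zero', gm_inj]
  rfl

private theorem gm_sum {κ : Type*} (s : Finset κ) {f : κ → ℂ → ℂ} (hf : ∀ i, AnalyticAt ℂ (f i) z₀) :
    ∃ h : AnalyticAt ℂ (fun z => ∑ i ∈ s, f i z) z₀, gm z₀ (fun z => ∑ i ∈ s, f i z) h = ∑ i ∈ s, gm z₀ (f i) (hf i) := by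
  classical
  induction s using Finset.induction_on with
  | empty =>
    refine ⟨?_, ?_⟩
    · simp only [Finset.sum_empty]
      exact analyticAt_const
    · rw [Finset.sum_empty, gm_eq_zero]
      exact Eventually.of_forall fun z => Finset.sum_empty
  | insert a s ha ih =>
    obtain ⟨h1, h2⟩ := ih
    have h3 : (fun z => ∑ i ∈ insert a s, f i z) = fun z => f a z + ∑ i ∈ s, f i z := by
      funext z
      exact Finset.sum_insert ha
    have h4 : AnalyticAt ℂ (fun z => ∑ i ∈ insert a s, f i z) z₀ := by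
      rw [h3]
      exact (hf a).fun_add h1
    refine ⟨h4, ?_⟩
    rw [Finset.sum_insert ha, ← h2, ← hcgm_add]
    exact gm_congr _ _ h3

/-- common denominators -/
private theorem exists_denom {κ : Type} [Finite κ] (Y : κ → Gm z₀) : ∃ (s : ℂ → ℂ) (hs : AnalyticAt ℂ s z₀) (f : κ → ℂ → ℂ) (hf : ∀ i, AnalyticAt ℂ (f i) z₀),
    gm z₀ s hs ≠ 0 ∧ ∀ i, Y i * gm z₀ s hs = gm z₀ (f i) (hf i) := by
  obtain ⟨⟨⟨_, s, hs, rfl⟩, hb⟩, h⟩ := IsLocalization.exist_integer_multiples_of_finite (nonZeroDivisors (AnG z₀)) Y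
  have h' : ∀ i, ∃ f : ℂ → ℂ, ∃ hf : AnalyticAt ℂ f z₀, Y i * gm z₀ s hs = gm z₀ f hf := by
    intro i
    obtain ⟨⟨_, f, hf, rfl⟩, hfi⟩ := h i
    refine ⟨f, hf, ?_⟩
    rw [mul_comm]
    unfold gm
    rw [hfi]
    rw [Algebra.smul_def]
  choose f hf hfs using h'
  refine ⟨s, hs, f, hf, ?_, hfs⟩
  intro h0
  have h1 : (⟨(s : Filter.Germ (𝓝 z₀) ℂ), s, hs, rfl⟩ : AnG z₀) = 0 := by
    have := h0
    unfold gm at this
    rwa [map_eq_zero_iff _ (IsFractionRing.injective (AnG z₀) (Gm z₀))] at this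
  exact nonZeroDivisors.ne_zero hb h1

end

/-- the derivative of a polynomial -/
private theorem d_aeval {M : Type*} [Field M] [Algebra ℂ M] (d : Derivation ℂ M M) (y : Ph N → M) (R : MvPolynomial (Ph N) ℂ) :
    d (aeval y R) = ∑ s, aeval y (pderiv s R) * d (y s) := by
  classical
  induction R using MvPolynomial.induction_on with
  | C c => simp
  | add p q hp hq => simp only [map_add, hp, hq, add_mul, Finset.sum_add_distrib]
  | mul_X p i hp =>
    rw [map_mul, aeval_X, Derivation.leibniz, hp]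
    have h1 : ∀ s, aeval y (pderiv s (p * X i)) * d (y s) = y i * (aeval y (pderiv s p) * d (y s)) + if s = i then aeval y p * d (y i) else 0 := by
      intro s
      rw [Derivation.leibniz, pderiv_X]
      by_cases hs : s = i
      · subst hs
        simp only [Pi.single_eq_same, if_true, smul_eq_mul, mul_one, map_add, map_mul, aeval_X]
        ring
      · rw [if_neg hs, Pi.single_eq_of_ne (Ne.symm hs)]
        simp only [smul_eq_mul, mul_zero, zero_add, map_mul, aeval_X]
        ring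
    rw [Finset.sum_congr rfl fun s _ => h1 s, Finset.sum_add_distrib, ← Finset.mul_sum, Finset.sum_ite_eq' Finset.univ i]
    simp only [Finset.mem_univ, if_true, smul_eq_mul]
    ring

/-- Cramer's rule over an intermediate field -/
private theorem cramer_mem {K M : Type*} [Field K] [Field M] [Algebra K M] (L : IntermediateField K M) {n : ℕ} (A : Matrix (Fin n) (Fin n) M)
    (hA : ∀ i j, A i j ∈ L) (hd : A.det ≠ 0) (v : Fin n → M) (hv : ∀ i, A.mulVec v i ∈ L) (j : Fin n) : v j ∈ L := by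
  classical
  set A' : Matrix (Fin n) (Fin n) L := fun i j => ⟨A i j, hA i j⟩ with hA'
  have h1 : (algebraMap L M).mapMatrix A' = A := by
    ext i j
    rfl
  have h2 : A.det ∈ L := by
    rw [← h1, ← RingHom.map_det]
    exact (A'.det).2
  have h3 : ∀ i j, A.adjugate i j ∈ L := by
    intro i j
    rw [← h1, ← RingHom.map_adjugate]
    exact (A'.adjugate i j).2
  have h4 : A.adjugate.mulVec (A.mulVec v) = A.det • v := by
    rw [Matrix.mulVec_mulVec, Matrix.adjugate_mul, Matrix.smul_mulVec, Matrix.one_mulVec]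
  have h5 : v j = A.det⁻¹ * A.adjugate.mulVec (A.mulVec v) j := by
    rw [h4, Pi.smul_apply, smul_eq_mul, ← mul_assoc, inv_mul_cancel₀ hd, one_mul]
  rw [h5]
  refine L.mul_mem (L.inv_mem h2) ?_
  rw [Matrix.mulVec, dotProduct]
  exact sum_mem fun i _ => L.mul_mem (h3 j i) (hv i)

/-- clearing denominators -/
private theorem transc {M : Type*} [Field M] {A : Type*} [CommRing A] (φ : A →+* M) (t : M)
    (h : ∀ q : Polynomial A, q.eval₂ φ t = 0 → ∀ n, φ (q.coeff n) = 0) : Transcendental (Subfield.closure (Set.range φ)) t := by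
  classical
  -- common denominators
  have hden : ∀ s : Finset (Subfield.closure (Set.range φ)), ∃ b : A, φ b ≠ 0 ∧ ∀ c ∈ s, ∃ a : A, φ b * c = φ a := by
    intro s
    induction s using Finset.induction_on with
    | empty => exact ⟨1, by rw [map_one]; exact one_ne_zero, fun c hc => absurd hc (Finset.notMem_empty c)⟩
    | insert c s hc ih =>
      obtain ⟨b, hb, hbs⟩ := ih
      obtain ⟨u, hu, v, hv, huv⟩ := Subfield.mem_closure_iff.1 c.2
      have hr : Subring.closure (Set.range φ) = φ.range := by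
        rw [← RingHom.coe_range, Subring.closure_eq]
      rw [hr] at hu hv
      obtain ⟨u', rfl⟩ := hu
      obtain ⟨v', rfl⟩ := hv
      by_cases hv0 : φ v' = 0
      · refine ⟨b, hb, fun c' hc' => ?_⟩
        rcases Finset.mem_insert.1 hc' with rfl | hc'
        · refine ⟨0, ?_⟩
          rw [← huv, hv0, div_zero, mul_zero, map_zero]
        · exact hbs c' hc'
      · refine ⟨b * v', by rw [map_mul]; exact mul_ne_zero hb hv0, fun c' hc' => ?_⟩
        rcases Finset.mem_insert.1 hc' with rfl | hc'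
        · refine ⟨b * u', ?_⟩
          rw [← huv, map_mul, map_mul]
          field_simp
        · obtain ⟨a, ha⟩ := hbs c' hc'
          refine ⟨a * v', ?_⟩
          rw [map_mul, map_mul, ← ha]
          ring
  intro halg
  obtain ⟨p, hp0, hp⟩ := halg
  obtain ⟨b, hb, hbs⟩ := hden (p.support.image p.coeff)
  have hbs' : ∀ n, ∃ a : A, φ b * (p.coeff n : M) = φ a := by
    intro n
    by_cases hn : n ∈ p.support
    · exact hbs _ (Finset.mem_image_of_mem _ hn)
    · refine ⟨0, ?_⟩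
      rw [Polynomial.notMem_support_iff.1 hn]
      simp
  choose a ha using hbs'
  have hq : (∑ n ∈ p.support, Polynomial.monomial n (a n)).eval₂ φ t = 0 := by
    rw [Polynomial.eval₂_finsetSum]
    have h1 : ∀ n ∈ p.support, (Polynomial.monomial n (a n)).eval₂ φ t = φ b * ((p.coeff n : M) * t ^ n) := by
      intro n _
      rw [Polynomial.eval₂_monomial, ← ha n]
      ring
    rw [Finset.sum_congr rfl h1, ← Finset.mul_sum]
    have h2 : ∑ n ∈ p.support, (p.coeff n : M) * t ^ n = 0 := by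
      rw [Polynomial.aeval_def, Polynomial.eval₂_eq_sum, Polynomial.sum_def] at hp
      exact hp
    rw [h2, mul_zero]
  obtain ⟨n, hn⟩ := Polynomial.nonempty_support_iff.2 hp0
  have h3 := h _ hq n
  rw [Polynomial.finsetSum_coeff] at h3
  simp only [Polynomial.coeff_monomial] at h3
  rw [Finset.sum_ite_eq' p.support n, if_pos hn, ← ha n] at h3
  rcases mul_eq_zero.1 h3 with h4 | h4
  · exact hb h4
  · exact (Polynomial.mem_support_iff.1 hn) (Subtype.ext h4)

private theorem toInt {M : Type*} [Field M] [Algebra ℂ M] (d : Derivation ℂ M M) : ∃ d' : Derivation ℤ M M, ∀ x, d' x = d x :=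
  ⟨d.restrictScalars ℤ, fun _ => rfl⟩

variable {ι : Type} {U : Set ℂ} {OO : Subalgebra ℂ (ℂ → ℂ)}

theorem exists_Dual (hO : IsSmallRing OO U) (G : ι → MvPolynomial (Ph N) ℂ) (I : Fin (N + 1) → ι) {x : ℂ → Fin (N + 1) → ℂ} {z₁ : ℂ}
    (hz : z₁ ∈ U) (hx : AnalyticAt ℂ x z₁) (hG : ∀ l, ∃ g ∈ OO, ∀ᶠ w in 𝓝 z₁, eval (pt (x w) (deriv x w)) (G l) = g w)
    (hI : ¬ ∀ᶠ w in 𝓝 z₁, eval (pt (x w) (deriv x w)) (vdet G I) = 0)
    (hT : ∃ c, ∀ p : Polynomial OO, (∀ᶠ w in 𝓝 z₁, p.eval₂ (ev0 OO w) (x w c) = 0) → ∀ n, ∀ᶠ w in 𝓝 z₁, ev0 OO w (p.coeff n) = 0) :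
    ∃ (r : ℕ) (σ : Fin (r + 1) → Ph N) (s : ℂ → ℂ) (Y : Fin (r + 1) → Ph N → ℂ → ℂ) (C : Fin (r + 1) → Fin (r + 1) → ℂ → ℂ), Dual OO x z₁ r σ s Y C := by
  classical
  have hO' : ∀ g ∈ OO, AnalyticAt ℂ g z₁ := fun g hg => hO.an g hg z₁ hz
  have hdx : AnalyticAt ℂ (deriv x) z₁ := hx.deriv
  have hy : AnalyticAt ℂ (fun w => pt (x w) (deriv x w)) z₁ := by
    rw [analyticAt_pi_iff]
    rintro (b | b)
    · exact (analyticAt_pi_iff.1 hx) b
    · exact (analyticAt_pi_iff.1 hdx) b
  obtain ⟨φ, hφ, hφR⟩ := gm_evO (OO := OO) hO' hy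
  obtain ⟨d, hd⟩ := exists_dz z₁
  set y : Ph N → Gm z₁ := fun s => gm z₁ (fun z => pt (x z) (deriv x z) s) ((analyticAt_pi_iff.mp hy) s) with hydef
  have hchar : CharZero (Gm z₁) := charZero_of_injective_algebraMap (algebraMap ℂ (Gm z₁)).injective
  -- the subfield
  have hφK : ∀ g, φ g ∈ Subfield.closure (Set.range φ) := fun g => Subfield.subset_closure ⟨g, rfl⟩
  have hdφ : ∀ g : OO, d (φ g) = φ ⟨deriv g, hO.deriv_mem g g.2⟩ := by
    intro g
    rw [hφ, hφ, hd]
  have hdK : ∀ c ∈ Subfield.closure (Set.range φ), d c ∈ Subfield.closure (Set.range φ) := by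
    intro c hc
    refine Subfield.closure_induction (p := fun c _ => d c ∈ Subfield.closure (Set.range φ)) ?_ ?_ ?_ ?_ ?_ ?_ hc
    · rintro _ ⟨g, rfl⟩
      rw [hdφ]
      exact hφK _
    · rw [Derivation.map_one_eq_zero]
      exact zero_mem _
    · intro a b _ _ ha hb
      rw [map_add]
      exact add_mem ha hb
    · intro a _ ha
      rw [map_neg]
      exact neg_mem ha
    · intro a ha' ha
      rw [Derivation.leibniz_inv, smul_eq_mul]
      exact mul_mem (neg_mem (pow_mem (inv_mem ha') 2)) ha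
    · intro a b ha' hb' ha hb
      rw [Derivation.leibniz, smul_eq_mul, smul_eq_mul]
      exact add_mem (mul_mem ha' hb) (mul_mem hb' ha)
  -- the derivatives of the coordinates
  have h1 : ∀ b, d (y (Sum.inl b)) = y (Sum.inr b) := by
    intro b
    simp only [hydef]
    rw [hd, gm_inj]
    have hev : ∀ᶠ z in 𝓝 z₁, DifferentiableAt ℂ x z := hx.eventually_analyticAt.mono fun z hz => hz.differentiableAt
    filter_upwards [hev] with z hz
    exact (hasDerivAt_pi.1 hz.hasDerivAt b).deriv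
  -- the acceleration
  set L := IntermediateField.adjoin (Subfield.closure (Set.range φ)) (Set.range y) with hL
  have hyL : ∀ s, y s ∈ L := fun s => IntermediateField.subset_adjoin _ _ ⟨s, rfl⟩
  have hKL : ∀ c ∈ Subfield.closure (Set.range φ), c ∈ L := fun c hc => L.algebraMap_mem ⟨c, hc⟩
  have hconst : ∀ c : ℂ, algebraMap ℂ (Gm z₁) c ∈ Subfield.closure (Set.range φ) := by
    intro c
    have h2 : algebraMap ℂ (Gm z₁) c = φ (algebraMap ℂ OO c) := by
      rw [hφ, ← hcgm_const]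
      exact gm_congr _ _ rfl
    rw [h2]
    exact hφK _
  have hRL : ∀ R : MvPolynomial (Ph N) ℂ, aeval y R ∈ L := by
    intro R
    induction R using MvPolynomial.induction_on with
    | C c =>
      rw [aeval_C]
      exact hKL _ (hconst c)
    | add p q hp hq =>
      rw [map_add]
      exact add_mem hp hq
    | mul_X p i hp =>
      rw [map_mul, aeval_X]
      exact mul_mem hp (hyL i)
  have hval : ∀ R : MvPolynomial (Ph N) ℂ, ∃ h : AnalyticAt ℂ (fun z => eval (pt (x z) (deriv x z)) R) z₁, aeval y R = gm z₁ _ h := fun R => gm_eval hy R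
  have h2 : ∀ b, d (y (Sum.inr b)) ∈ L := by
    have hdet : ((vmat G I).map (aeval y) : Matrix (Fin (N + 1)) (Fin (N + 1)) (Gm z₁)).det ≠ 0 := by
      have h3 : ((vmat G I).map (aeval y) : Matrix (Fin (N + 1)) (Fin (N + 1)) (Gm z₁)).det = aeval y (vdet G I) := by
        unfold vdet
        rw [AlgHom.map_det]
        rfl
      rw [h3]
      obtain ⟨h4, h5⟩ := hval (vdet G I)
      rw [h5, Ne, gm_eq_zero]
      exact hI
    refine cramer_mem L ((vmat G I).map (aeval y)) (fun i j => hRL _) hdet (fun b => d (y (Sum.inr b))) ?_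
    intro i
    obtain ⟨g, hg, hGg⟩ := hG (I i)
    have h3 : aeval y (G (I i)) = φ ⟨g, hg⟩ := by
      obtain ⟨h4, h5⟩ := hval (G (I i))
      rw [h5, hφ, gm_inj]
      exact hGg
    have h4 : ∑ s, aeval y (pderiv s (G (I i))) * d (y s) = d (φ ⟨g, hg⟩) := by
      rw [← h3, d_aeval]
    rw [Fintype.sum_sum_type] at h4
    have h5 : (((vmat G I).map (aeval y) : Matrix (Fin (N + 1)) (Fin (N + 1)) (Gm z₁)).mulVec fun b => d (y (Sum.inr b))) i =
        d (φ ⟨g, hg⟩) - ∑ b, aeval y (pderiv (Sum.inl b) (G (I i))) * d (y (Sum.inl b)) := by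
      rw [← h4, add_sub_cancel_left]
      rfl
    rw [h5]
    refine sub_mem (hKL _ (hdK _ (hφK _))) (sum_mem fun b _ => mul_mem (hRL _) ?_)
    rw [h1]
    exact hyL _
  -- transcendence
  have h3 : ∃ s, Transcendental (Subfield.closure (Set.range φ)) (y s) := by
    obtain ⟨c, hc⟩ := hT
    refine ⟨Sum.inl c, transc φ _ fun q hq n => ?_⟩
    have h4 := hφR (q.eval₂ MvPolynomial.C (MvPolynomial.X (Sum.inl c)))
    obtain ⟨h5, h6⟩ := h4
    have h7 : ∀ (S : Type) [CommRing S] (f : OO →+* S) (v : Ph N → S), MvPolynomial.eval₂ f v (q.eval₂ MvPolynomial.C (MvPolynomial.X (Sum.inl c))) = q.eval₂ f (v (Sum.inl c)) := by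
      intro S _ f v
      have h8 := Polynomial.hom_eval₂ q MvPolynomial.C (MvPolynomial.eval₂Hom f v) (MvPolynomial.X (Sum.inl c))
      rw [MvPolynomial.coe_eval₂Hom, MvPolynomial.eval₂_X, MvPolynomial.eval₂Hom_comp_C] at h8
      exact h8
    have h8 : q.eval₂ φ (y (Sum.inl c)) = gm z₁ _ h5 := by
      rw [← h6]
      exact (h7 (Gm z₁) φ y).symm
    rw [h8, gm_eq_zero] at hq
    have h9 : ∀ᶠ w in 𝓝 z₁, q.eval₂ (ev0 OO w) (x w c) = 0 := by
      filter_upwards [hq] with w hw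
      rw [← hw]
      exact (h7 ℂ (ev0 OO w) (pt (x w) (deriv x w))).symm
    have h10 := hc q h9 n
    rw [hφ, gm_eq_zero]
    exact h10
  -- the dual derivations
  obtain ⟨d', hd'⟩ := toInt d
  obtain ⟨r, σ, Y₀, C₀, hY1, hY2, hY3⟩ := exists_dual (Subfield.closure (Set.range φ)) d' (fun c hc => by rw [hd']; exact hdK c hc) y
    (fun b => by rw [hd']; exact h1 b) (fun b => by rw [hd']; exact h2 b) h3
  obtain ⟨s, hs, f, hf, hs0, hfs⟩ := exists_denom (z₀ := z₁) (Sum.elim (fun p : Fin (r + 1) × Ph N => Y₀ p.1 p.2) (fun p : Fin (r + 1) × Fin (r + 1) => C₀ p.1 p.2))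
  have hfY : ∀ m i, Y₀ m i * gm z₁ s hs = gm z₁ (f (Sum.inl (m, i))) (hf _) := fun m i => hfs (Sum.inl (m, i))
  have hfC : ∀ l m, C₀ l m * gm z₁ s hs = gm z₁ (f (Sum.inr (l, m))) (hf _) := fun l m => hfs (Sum.inr (l, m))
  refine ⟨r, σ, s, fun m i => f (Sum.inl (m, i)), fun l m => f (Sum.inr (l, m)), ?_⟩
  refine ⟨hs, ?_, fun m i => hf _, fun l m => hf _, ?_, ?_, ?_⟩
  · intro h
    exact hs0 ((gm_eq_zero hs).2 h)
  · intro m l
    have h4 := hfY m (σ l)
    rw [hY1] at h4
    by_cases hml : m = l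
    · rw [if_pos hml, one_mul] at h4
      have h5 := gm_inj.1 h4
      filter_upwards [h5] with w hw
      rw [if_pos hml]
      exact hw.symm
    · rw [if_neg hml, zero_mul] at h4
      have h5 := (gm_eq_zero _).1 h4.symm
      filter_upwards [h5] with w hw
      rw [if_neg hml]
      exact hw
  · intro m R hR
    obtain ⟨h4, h5⟩ := hφR R
    have h6 : MvPolynomial.eval₂ φ y R = 0 := by
      have := h5
      rw [(gm_eq_zero h4).2 hR] at this
      exact this
    set ψ : OO →+* Subfield.closure (Set.range φ) := φ.codRestrict _ hφK with hψ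
    have h7 : ∀ Q : MvPolynomial (Ph N) OO, aeval y (MvPolynomial.map ψ Q) = MvPolynomial.eval₂ φ y Q := by
      intro Q
      rw [MvPolynomial.aeval_def, MvPolynomial.eval₂_map]
      rfl
    have h8 := hY2 m (MvPolynomial.map ψ R) (by rw [h7]; exact h6)
    have h9 : ∀ i, aeval y (pderiv i (MvPolynomial.map ψ R)) * Y₀ m i * gm z₁ s hs =
        gm z₁ (evO OO (fun w => pt (x w) (deriv x w)) (pderiv i R)) (hφR (pderiv i R)).1 * gm z₁ (f (Sum.inl (m, i))) (hf _) := by
      intro i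
      rw [mul_assoc, hfY, pderiv_map, h7]
      congr 1
      exact (hφR (pderiv i R)).2
    have h10 : ∑ i, gm z₁ (evO OO (fun w => pt (x w) (deriv x w)) (pderiv i R)) (hφR (pderiv i R)).1 * gm z₁ (f (Sum.inl (m, i))) (hf _) = 0 := by
      rw [← Finset.sum_congr rfl fun i _ => h9 i, ← Finset.sum_mul, h8, zero_mul]
    simp only [← hcgm_mul] at h10
    obtain ⟨h11, h12⟩ := gm_sum (z₀ := z₁) Finset.univ (f := fun i w => evO OO (fun w => pt (x w) (deriv x w)) (pderiv i R) w * f (Sum.inl (m, i)) w)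
      (fun i => (hφR (pderiv i R)).1.fun_mul (hf _))
    rw [← h12, gm_eq_zero] at h10
    exact h10
  · intro m b
    have h4 := hY3 m b
    have h5 : d (Y₀ m (Sum.inl b)) * gm z₁ s hs * gm z₁ s hs =
        gm z₁ (deriv (f (Sum.inl (m, Sum.inl b)))) (hf _).deriv * gm z₁ s hs - gm z₁ (f (Sum.inl (m, Sum.inl b))) (hf _) * gm z₁ (deriv s) hs.deriv := by
      have h6 : d (Y₀ m (Sum.inl b) * gm z₁ s hs) = gm z₁ (deriv (f (Sum.inl (m, Sum.inl b)))) (hf _).deriv := by
        rw [hfY, hd]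
      rw [Derivation.leibniz, smul_eq_mul, smul_eq_mul, hd] at h6
      rw [← h6, ← hfY]
      ring
    have h6 : gm z₁ (f (Sum.inl (m, Sum.inr b))) (hf _) * gm z₁ s hs + gm z₁ (f (Sum.inl (m, Sum.inl b))) (hf _) * gm z₁ (deriv s) hs.deriv =
        gm z₁ (deriv (f (Sum.inl (m, Sum.inl b)))) (hf _).deriv * gm z₁ s hs +
          ∑ l, gm z₁ (f (Sum.inr (l, m))) (hf _) * gm z₁ (f (Sum.inl (l, Sum.inl b))) (hf _) := by
      have h7 : ∑ l, gm z₁ (f (Sum.inr (l, m))) (hf _) * gm z₁ (f (Sum.inl (l, Sum.inl b))) (hf _) =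
          (∑ l, C₀ l m * Y₀ l (Sum.inl b)) * gm z₁ s hs * gm z₁ s hs := by
        rw [Finset.sum_mul, Finset.sum_mul]
        refine Finset.sum_congr rfl fun l _ => ?_
        rw [← hfY, ← hfC]
        ring
      rw [h7, ← hfY m (Sum.inr b), h4]
      rw [hd']
      linear_combination h5
    simp only [← hcgm_mul] at h6
    obtain ⟨h11, h12⟩ := gm_sum (z₀ := z₁) Finset.univ (f := fun l w => f (Sum.inr (l, m)) w * f (Sum.inl (l, Sum.inl b)) w)
      (fun l => (hf _).fun_mul (hf _))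
    rw [← h12, ← hcgm_add, ← hcgm_add] at h6
    have h13 := gm_inj.1 h6
    filter_upwards [h13, hs.eventually_analyticAt, (hf (Sum.inl (m, Sum.inl b))).eventually_analyticAt] with w hw hw1 hw2 hsw
    have h14 : deriv (fun w => f (Sum.inl (m, Sum.inl b)) w / s w) w =
        (deriv (f (Sum.inl (m, Sum.inl b))) w * s w - f (Sum.inl (m, Sum.inl b)) w * deriv s w) / s w ^ 2 :=
      (hw2.differentiableAt.hasDerivAt.div hw1.differentiableAt.hasDerivAt hsw).deriv
    rw [h14]
    have h15 : ∑ l, f (Sum.inr (l, m)) w / s w * (f (Sum.inl (l, Sum.inl b)) w / s w) = (∑ l, f (Sum.inr (l, m)) w * f (Sum.inl (l, Sum.inl b)) w) / s w ^ 2 := by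
      rw [Finset.sum_div]
      refine Finset.sum_congr rfl fun l _ => ?_
      field_simp
    rw [h15]
    field_simp
    linear_combination hw

end Pool.Agent.GA
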