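import Pool.Agent.GA.Strip

/-!
# GA PshA: lower bound for the mean of `log⁺ ‖H‖` on vertical segments

`H` is a holomorphic, `2πi`-periodic map from the right half-plane to a Hermitian space, not identically zero.  If the continuous function `e ≥ 0` is at most
the Fubini–Study density of `H` off the zeros of `H`, then `∫_1^X (X - t) ∫_0^{2π} e (t + i y) dy dt ≤ ∫_0^{2π} log⁺ ‖H (X + i y)‖ dy + C (1 + X)`.
-/

set_option autoImplicit false

open Complex Topology Filter MeasureTheory Set Laplacian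
open scoped Real
open Pool.Agent.MQ
open Pool.Agent.H30M (gg)

noncomputable section

namespace Pool.Agent.GA.StripN

variable {V : Type*} [NormedAddCommGroup V] [InnerProductSpace ℂ V] [CompleteSpace V]

/-- the regularised logarithm of the norm -/
def ue (H : ℂ → V) (δ : ℝ) (w : ℂ) : ℝ := Real.log (‖H w‖ ^ 2 + δ) / 2

variable {H : ℂ → V} {z : ℂ} {δ : ℝ}

theorem contDiffAt_ue (hH : AnalyticAt ℂ H z) (hδ : 0 < δ) : ContDiffAt ℝ 2 (ue H δ) z := by
  have h1 : ContDiffAt ℝ 2 (fun w => ‖H w‖ ^ 2 + δ) z := (contDiffAt_sqnorm hH).add contDiffAt_const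
  have h2 : ‖H z‖ ^ 2 + δ ≠ 0 := by positivity
  exact (h1.log h2).div_const 2

theorem lap_ue (hH : AnalyticAt ℂ H z) (hδ : 0 < δ) :
    Δ (ue H δ) z = 2 * ((‖H z‖ ^ 2 + δ) * ‖deriv H z‖ ^ 2 - ‖inner ℂ (H z) (deriv H z)‖ ^ 2) / (‖H z‖ ^ 2 + δ) ^ 2 := by
  have hp : 0 < ‖H z‖ ^ 2 + δ := by positivity
  have hF' : HasDerivAt H (deriv H z) z := hH.differentiableAt.hasDerivAt
  have e : ue H δ = fun w => (fun t => Real.log (t + δ) / 2) (‖H w‖ ^ 2) := rfl
  have hu : ContDiffAt ℝ 2 (fun w => ‖H w‖ ^ 2) z := contDiffAt_sqnorm hH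
  have hφ : ContDiffAt ℝ 2 (fun t : ℝ => Real.log (t + δ) / 2) (‖H z‖ ^ 2) :=
    (ContDiffAt.log (contDiffAt_id.add contDiffAt_const) hp.ne').div_const 2
  have d1 : deriv (fun t : ℝ => Real.log (t + δ) / 2) = fun t => (t + δ)⁻¹ / 2 := by
    funext t
    rw [deriv_div_const, deriv_comp_add_const, Real.deriv_log]
  have d2 : deriv (deriv (fun t : ℝ => Real.log (t + δ) / 2)) (‖H z‖ ^ 2) = - ((‖H z‖ ^ 2 + δ) ^ 2)⁻¹ / 2 := by
    rw [d1, deriv_div_const, deriv_comp_add_const (fun t : ℝ => t⁻¹), deriv_inv]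
  rw [e, Pool.Agent.H30M.lap_comp hφ hu, d2, d1, ← lp_eq_lap hu, lp_sqnorm hH, gg_self,
    gr_sqnorm hF', norm_mul, RCLike.norm_conj]
  simp only [Complex.norm_ofNat]
  field_simp
  ring

theorem fderiv_ue (hH : AnalyticAt ℂ H z) (hδ : 0 < δ) :
    fderiv ℝ (ue H δ) z 1 = (inner ℂ (H z) (deriv H z)).re / (‖H z‖ ^ 2 + δ) := by
  have hp : 0 < ‖H z‖ ^ 2 + δ := by positivity
  have hF' : HasDerivAt H (deriv H z) z := hH.differentiableAt.hasDerivAt
  have hK : HasDerivAt (fun t : ℝ => Real.log (t + δ) / 2) ((‖H z‖ ^ 2 + δ)⁻¹ / 2) (‖H z‖ ^ 2) := by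
    have := ((Real.hasDerivAt_log hp.ne').comp_add_const (‖H z‖ ^ 2) δ).div_const 2
    exact this
  have h := gr_comp hK (differentiableAt_sqnorm hF')
  have h2 := congrArg Complex.re h
  rw [gr_sqnorm hF'] at h2
  have h3 : (gr (fun w => (fun t : ℝ => Real.log (t + δ) / 2) (‖H w‖ ^ 2)) z).re = fderiv ℝ (ue H δ) z 1 := rfl
  rw [← h3]
  refine h2.trans ?_
  rw [Complex.re_ofReal_mul]
  have h4 : (2 * (starRingEnd ℂ) (inner ℂ (H z) (deriv H z))).re = 2 * (inner ℂ (H z) (deriv H z)).re := by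
    generalize inner ℂ (H z) (deriv H z) = c
    simp [Complex.mul_re]
  rw [h4]
  field_simp

theorem abs_fderiv_ue_le (hH : AnalyticAt ℂ H z) (hδ : 0 < δ) (h0 : H z ≠ 0) :
    -(‖deriv H z‖ / ‖H z‖) ≤ fderiv ℝ (ue H δ) z 1 := by
  rw [fderiv_ue hH hδ]
  have hn : 0 < ‖H z‖ := norm_pos_iff.2 h0
  have h1 : |(inner ℂ (H z) (deriv H z)).re| ≤ ‖H z‖ * ‖deriv H z‖ :=
    (Complex.abs_re_le_norm _).trans (norm_inner_le_norm _ _)
  have h2 : -(‖H z‖ * ‖deriv H z‖) ≤ (inner ℂ (H z) (deriv H z)).re := (abs_le.1 h1).1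
  have h3 : ‖H z‖ * ‖deriv H z‖ / (‖H z‖ ^ 2 + δ) ≤ ‖deriv H z‖ / ‖H z‖ := by
    rw [div_le_div_iff₀ (by positivity) hn]
    nlinarith [mul_nonneg (norm_nonneg (deriv H z)) hδ.le]
  calc -(‖deriv H z‖ / ‖H z‖) ≤ -(‖H z‖ * ‖deriv H z‖ / (‖H z‖ ^ 2 + δ)) := neg_le_neg h3
    _ = -(‖H z‖ * ‖deriv H z‖) / (‖H z‖ ^ 2 + δ) := by ring
    _ ≤ _ := by gcongr

theorem log_norm_le_ue (hδ : 0 < δ) (h0 : H z ≠ 0) : Real.log ‖H z‖ ≤ ue H δ z := by
  have hn : 0 < ‖H z‖ := norm_pos_iff.2 h0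
  unfold ue
  have h1 : Real.log (‖H z‖ ^ 2) ≤ Real.log (‖H z‖ ^ 2 + δ) := Real.log_le_log (by positivity) (by linarith)
  rw [Real.log_pow] at h1
  push_cast at h1
  linarith

theorem ue_le (hδ : 0 < δ) (hδ1 : δ ≤ 1) : ue H δ z ≤ Real.posLog ‖H z‖ + 1 := by
  have hm1 : (1 : ℝ) ≤ max 1 ‖H z‖ := le_max_left _ _
  have h1 : ‖H z‖ ^ 2 + δ ≤ 2 * (max 1 ‖H z‖) ^ 2 := by
    have h2 : ‖H z‖ ^ 2 ≤ (max 1 ‖H z‖) ^ 2 := pow_le_pow_left₀ (norm_nonneg _) (le_max_right _ _) 2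
    nlinarith
  have h2 : Real.log (‖H z‖ ^ 2 + δ) ≤ Real.log (2 * (max 1 ‖H z‖) ^ 2) := Real.log_le_log (by positivity) h1
  rw [Real.log_mul (by norm_num) (by positivity), Real.log_pow, ← Real.posLog_eq_log_max_one (norm_nonneg _)] at h2
  have h3 : Real.log 2 ≤ 1 := by
    have := Real.log_le_sub_one_of_pos (show (0 : ℝ) < 2 by norm_num)
    linarith
  unfold ue
  push_cast at h2
  linarith

/-- the regularised density -/
def wt (H : ℂ → V) (δ : ℝ) (w : ℂ) : ℝ := (‖H w‖ ^ 2 / (‖H w‖ ^ 2 + δ)) ^ 2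

theorem wt_nonneg (w : ℂ) : 0 ≤ wt H δ w := sq_nonneg _

theorem wt_le_one (hδ : 0 < δ) (w : ℂ) : wt H δ w ≤ 1 := by
  unfold wt
  have h1 : ‖H w‖ ^ 2 / (‖H w‖ ^ 2 + δ) ≤ 1 := by
    rw [div_le_one (by positivity)]
    linarith
  exact pow_le_one₀ (by positivity) h1

theorem mul_wt_le_lap (hH : AnalyticAt ℂ H z) (hδ : 0 < δ) {e : ℝ} (he0 : 0 ≤ e) (he : H z ≠ 0 → e ≤ fsd (H z) (deriv H z)) :
    e * wt H δ z ≤ Δ (ue H δ) z := by
  rw [lap_ue hH hδ]
  have hp : 0 < ‖H z‖ ^ 2 + δ := by positivity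
  have h1 : ‖inner ℂ (H z) (deriv H z)‖ ^ 2 ≤ (‖H z‖ * ‖deriv H z‖) ^ 2 :=
    pow_le_pow_left₀ (norm_nonneg _) (norm_inner_le_norm _ _) 2
  by_cases h0 : H z = 0
  · have : wt H δ z = 0 := by simp [wt, h0]
    rw [this, mul_zero]
    apply div_nonneg _ (by positivity)
    rw [h0]
    simp only [norm_zero, inner_zero_left]
    have h2 : 0 ≤ δ * ‖deriv H z‖ ^ 2 := by positivity
    nlinarith
  · have hn : 0 < ‖H z‖ := norm_pos_iff.2 h0
    refine (mul_le_mul_of_nonneg_right (he h0) (wt_nonneg z)).trans ?_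
    have e1 : fsd (H z) (deriv H z) * wt H δ z =
        2 * (‖H z‖ ^ 2 * ‖deriv H z‖ ^ 2 - ‖inner ℂ (H z) (deriv H z)‖ ^ 2) / (‖H z‖ ^ 2 + δ) ^ 2 := by
      unfold fsd wt
      field_simp
    rw [e1]
    gcongr
    linarith

section zeros

variable (hH : ∀ w : ℂ, 0 < w.re → AnalyticAt ℂ H w) (h0 : ∃ w : ℂ, 0 < w.re ∧ H w ≠ 0)
include hH h0

theorem countable_zeros : {w : ℂ | 0 < w.re ∧ H w = 0}.Countable := by
  obtain ⟨w₀, hw₀, hne⟩ := h0
  have hU : IsPreconnected {w : ℂ | 0 < w.re} := (convex_halfSpace_re_gt 0).isPreconnected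
  have hA : AnalyticOnNhd ℂ H {w : ℂ | 0 < w.re} := fun w hw => hH w hw
  have hev : ∀ w : ℂ, 0 < w.re → ∀ᶠ v in 𝓝[≠] w, H v ≠ 0 := by
    intro w hw
    rcases (hH w hw).eventually_eq_zero_or_eventually_ne_zero with h | h
    · exact absurd (hA.eqOn_zero_of_preconnected_of_eventuallyEq_zero hU hw h hw₀) hne
    · exact h
  have hd : DiscreteTopology {w : ℂ | 0 < w.re ∧ H w = 0} := by
    rw [discreteTopology_subtype_iff]
    rintro w ⟨hw, -⟩
    rw [← _root_.disjoint_iff, Filter.disjoint_principal_right]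
    filter_upwards [hev w hw] with v hv hv2 using hv hv2.2
  exact Set.countable_coe_iff.1 (countable_of_Lindelof_of_discrete (X := {w : ℂ | 0 < w.re ∧ H w = 0}))

theorem exists_line : ∃ a : ℝ, 1 / 2 < a ∧ a < 1 ∧ ∀ y : ℝ, H (pp a y) ≠ 0 := by
  have hc := (countable_zeros hH h0).image Complex.re
  obtain ⟨a, ha, ha2⟩ := (hc.dense_compl ℝ).exists_mem_open (isOpen_Ioo (a := (1 / 2 : ℝ)) (b := 1)) ⟨3 / 4, by norm_num, by norm_num⟩
  refine ⟨a, ha2.1, ha2.2, fun y hy => ha ⟨pp a y, ⟨?_, hy⟩, pp_re a y⟩⟩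
  rw [pp_re]
  linarith [ha2.1]

theorem ae_line {t : ℝ} (ht : 0 < t) : ∀ᵐ y : ℝ, H (pp t y) ≠ 0 := by
  have hc : {y : ℝ | H (pp t y) = 0}.Countable := by
    refine ((countable_zeros hH h0).preimage_of_injOn (f := fun y : ℝ => pp t y) ?_).mono ?_
    · intro y _ y' _ h
      simpa [pp] using h
    · intro y hy
      exact ⟨by rwa [pp_re], hy⟩
  exact hc.ae_notMem volume

end zeros

/-- continuity of a function along the line `Re w = t` -/
theorem cont_line {φ : ℂ → ℝ} {t : ℝ} (hφ : ∀ y : ℝ, ContinuousAt φ (pp t y)) : Continuous fun y => φ (pp t y) := by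
  rw [continuous_iff_continuousAt]
  intro y
  exact ContinuousAt.comp (f := fun y => pp t y) (hφ y) (hasDerivAt_pp_right t y).continuousAt

/-- **The lower bound for the means of `log⁺ ‖H‖`.** -/
theorem core (hH : ∀ w : ℂ, 0 < w.re → AnalyticAt ℂ H w) (h0 : ∃ w : ℂ, 0 < w.re ∧ H w ≠ 0)
    (hp : ∀ w : ℂ, 0 < w.re → H (w + 2 * π * I) = H w) {e : ℂ → ℝ} (he : ∀ w : ℂ, 0 < w.re → ContinuousAt e w)
    (he0 : ∀ w : ℂ, 0 < w.re → 0 ≤ e w) (hle : ∀ w : ℂ, 0 < w.re → H w ≠ 0 → e w ≤ fsd (H w) (deriv H w)) :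
    ∃ C : ℝ, 0 ≤ C ∧ ∀ X : ℝ, 1 ≤ X →
      ∫ t in (1 : ℝ)..X, (X - t) * ∫ y in (0 : ℝ)..2 * π, e (pp t y) ≤ (∫ y in (0 : ℝ)..2 * π, Real.posLog ‖H (pp X y)‖) + C * (1 + X) := by
  obtain ⟨a, ha1, ha2, hane⟩ := exists_line hH h0
  have ha : 0 < a := by linarith
  have h2π : (0 : ℝ) ≤ 2 * π := by positivity
  have hpa : ∀ y, 0 < (pp a y).re := fun y => by rw [pp_re]; exact ha
  set C₁ : ℝ := ∫ y in (0 : ℝ)..2 * π, Real.log ‖H (pp a y)‖ with hC₁
  set C₂ : ℝ := ∫ y in (0 : ℝ)..2 * π, -(‖deriv H (pp a y)‖ / ‖H (pp a y)‖) with hC₂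
  refine ⟨2 * π + |C₁| + |C₂|, by positivity, fun X hX => ?_⟩
  have hX0 : 0 < X := by linarith
  have haX : a ≤ X := by linarith
  have hpX : ∀ y, 0 < (pp X y).re := fun y => by rw [pp_re]; exact hX0
  -- the estimate for every `δ ∈ (0, 1]`
  have key : ∀ δ : ℝ, 0 < δ → δ ≤ 1 → ∫ t in a..X, (X - t) * ∫ y in (0 : ℝ)..2 * π, e (pp t y) * wt H δ (pp t y) ≤
      (∫ y in (0 : ℝ)..2 * π, Real.posLog ‖H (pp X y)‖) + (2 * π + |C₁| + |C₂|) * (1 + X) := by
    intro δ hδ hδ1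
    have hu : ∀ w : ℂ, 0 < w.re → ContDiffAt ℝ 2 (ue H δ) w := fun w hw => contDiffAt_ue (hH w hw) hδ
    have hup : ∀ w : ℂ, 0 < w.re → ue H δ (w + 2 * π * I) = ue H δ w := fun w hw => by unfold ue; rw [hp w hw]
    have hs := strip hu hup ha haX
    have hcu : ∀ w : ℂ, 0 < w.re → ContinuousAt (ue H δ) w := fun w hw => (hu w hw).continuousAt
    have hclap : ∀ w : ℂ, 0 < w.re → ContinuousAt (Δ (ue H δ)) w := by
      intro w hw
      have h1 : (fun w => dd (ue H δ) 1 w + dd (ue H δ) I w) =ᶠ[𝓝 w] Δ (ue H δ) := by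
        have : {z : ℂ | 0 < z.re} ∈ 𝓝 w := (isOpen_lt continuous_const continuous_re).mem_nhds hw
        filter_upwards [this] with z hz
        rw [Pool.Agent.H30M.lap_eq (hu z hz)]
        rfl
      exact ((continuousAt_dd 1 (hu w hw)).add (continuousAt_dd I (hu w hw))).congr h1
    have hcwt : ∀ w : ℂ, 0 < w.re → ContinuousAt (fun w => e w * wt H δ w) w := by
      intro w hw
      have h1 : ContinuousAt (fun w => ‖H w‖ ^ 2) w := ((hH w hw).continuousAt.norm).pow 2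
      have h2 : ‖H w‖ ^ 2 + δ ≠ 0 := by positivity
      exact (he w hw).mul ((h1.div (h1.add continuousAt_const) h2).pow 2)
    -- the three terms
    have b1 : ∫ y in (0 : ℝ)..2 * π, ue H δ (pp X y) ≤ (∫ y in (0 : ℝ)..2 * π, Real.posLog ‖H (pp X y)‖) + 2 * π := by
      have hcp : Continuous fun y => Real.posLog ‖H (pp X y)‖ :=
        cont_line (φ := fun w => Real.posLog ‖H w‖) fun y => Real.continuous_posLog.continuousAt.comp (hH _ (hpX y)).continuousAt.norm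
      have h1 : ∫ y in (0 : ℝ)..2 * π, ue H δ (pp X y) ≤ ∫ y in (0 : ℝ)..2 * π, (Real.posLog ‖H (pp X y)‖ + 1) :=
        intervalIntegral.integral_mono_on h2π (vint hcu hX0 _ _) ((hcp.add continuous_const).intervalIntegrable _ _)
          fun y _ => ue_le hδ hδ1
      rw [intervalIntegral.integral_add (hcp.intervalIntegrable _ _) (by simp)] at h1
      simpa using h1
    have b2 : C₁ ≤ ∫ y in (0 : ℝ)..2 * π, ue H δ (pp a y) := by
      refine intervalIntegral.integral_mono_on h2π ?_ (vint hcu ha _ _) fun y _ => log_norm_le_ue hδ (hane y)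
      exact (cont_line (φ := fun w => Real.log ‖H w‖) fun y =>
        (hH _ (hpa y)).continuousAt.norm.log (norm_ne_zero_iff.2 (hane y))).intervalIntegrable _ _
    have b3 : C₂ ≤ ∫ y in (0 : ℝ)..2 * π, fderiv ℝ (ue H δ) (pp a y) 1 := by
      refine intervalIntegral.integral_mono_on h2π ?_ (vint (fun w hw => (contDiffAt_fderiv_apply 1 (hu w hw)).continuousAt) ha _ _)
        fun y _ => abs_fderiv_ue_le (hH _ (hpa y)) hδ (hane y)
      exact (cont_line (φ := fun w => -(‖deriv H w‖ / ‖H w‖)) fun y =>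
        ((hH _ (hpa y)).deriv.continuousAt.norm.div (hH _ (hpa y)).continuousAt.norm (norm_ne_zero_iff.2 (hane y))).neg).intervalIntegrable _ _
    have b4 : ∫ t in a..X, (X - t) * ∫ y in (0 : ℝ)..2 * π, e (pp t y) * wt H δ (pp t y) ≤
        ∫ t in a..X, (X - t) * ∫ y in (0 : ℝ)..2 * π, Δ (ue H δ) (pp t y) := by
      have hsub : uIcc a X ⊆ Ioi 0 := by
        rw [uIcc_of_le haX]
        exact fun t ht => ha.trans_le ht.1
      refine intervalIntegral.integral_mono_on haX ?_ ?_ ?_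
      · exact (ContinuousOn.mul (by fun_prop) ((continuousOn_vint hcwt 0 (2 * π)).mono hsub)).intervalIntegrable
      · exact (ContinuousOn.mul (by fun_prop) ((continuousOn_vint hclap 0 (2 * π)).mono hsub)).intervalIntegrable
      · intro t ht
        have ht0 : 0 < t := ha.trans_le ht.1
        apply mul_le_mul_of_nonneg_left _ (sub_nonneg.2 ht.2)
        refine intervalIntegral.integral_mono_on h2π (vint hcwt ht0 _ _) (vint hclap ht0 _ _) fun y _ => ?_
        have hpt : 0 < (pp t y).re := by rwa [pp_re]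
        exact mul_wt_le_lap (hH _ hpt) hδ (he0 _ hpt) (hle _ hpt)
    have b5 : -(|C₂| * X) ≤ (X - a) * ∫ y in (0 : ℝ)..2 * π, fderiv ℝ (ue H δ) (pp a y) 1 := by
      have h1 : (X - a) * C₂ ≤ (X - a) * ∫ y in (0 : ℝ)..2 * π, fderiv ℝ (ue H δ) (pp a y) 1 :=
        mul_le_mul_of_nonneg_left b3 (sub_nonneg.2 haX)
      have h2 : -|C₂| ≤ C₂ := neg_abs_le _
      nlinarith [abs_nonneg C₂, mul_le_mul_of_nonneg_left h2 (sub_nonneg.2 haX)]
    have h3 : -|C₁| ≤ C₁ := neg_abs_le _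
    have h4 : 0 ≤ |C₁| * X := by positivity
    have h5 : 0 ≤ 2 * π * X := by positivity
    have h6 := abs_nonneg C₂
    nlinarith
  -- the limit
  have hsub : uIcc a X ⊆ Ioi 0 := by
    rw [uIcc_of_le haX]
    exact fun t ht => ha.trans_le ht.1
  have hcI : ContinuousOn (fun t => ∫ y in (0 : ℝ)..2 * π, e (pp t y)) (Ioi 0) := continuousOn_vint he _ _
  let δ : ℕ → ℝ := fun n => 1 / ((n : ℝ) + 1)
  have hδ : ∀ n, 0 < δ n := fun n => by positivity
  have hδ1 : ∀ n, δ n ≤ 1 := fun n => by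
    simp only [δ]
    rw [div_le_one (by positivity)]
    have : (0 : ℝ) ≤ n := Nat.cast_nonneg n
    linarith
  have hδt : Tendsto δ atTop (𝓝 0) := tendsto_one_div_add_atTop_nhds_zero_nat
  have hcwt : ∀ n, ∀ w : ℂ, 0 < w.re → ContinuousAt (fun w => e w * wt H (δ n) w) w := by
    intro n w hw
    have h1 : ContinuousAt (fun w => ‖H w‖ ^ 2) w := ((hH w hw).continuousAt.norm).pow 2
    have h3 := hδ n
    have h2 : ‖H w‖ ^ 2 + δ n ≠ 0 := by positivity
    exact (he w hw).mul ((h1.div (h1.add continuousAt_const) h2).pow 2)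
  have hb : ∀ n, ∀ w : ℂ, 0 < w.re → ‖e w * wt H (δ n) w‖ ≤ e w := by
    intro n w hw
    rw [Real.norm_eq_abs, abs_of_nonneg (mul_nonneg (he0 w hw) (wt_nonneg w))]
    exact mul_le_of_le_one_right (he0 w hw) (wt_le_one (hδ n) w)
  have hlim1 : ∀ t : ℝ, 0 < t → Tendsto (fun n => ∫ y in (0 : ℝ)..2 * π, e (pp t y) * wt H (δ n) (pp t y)) atTop
      (𝓝 (∫ y in (0 : ℝ)..2 * π, e (pp t y))) := by
    intro t ht
    have hpt : ∀ y, 0 < (pp t y).re := fun y => by rwa [pp_re]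
    refine intervalIntegral.tendsto_integral_filter_of_dominated_convergence (fun y => e (pp t y)) ?_ ?_ (vint he ht _ _) ?_
    · exact Eventually.of_forall fun n => (cont_line (φ := fun w => e w * wt H (δ n) w) fun y => hcwt n _ (hpt y)).aestronglyMeasurable
    · exact Eventually.of_forall fun n => Eventually.of_forall fun y _ => hb n _ (hpt y)
    · filter_upwards [ae_line hH h0 ht] with y hy _
      have hn : 0 < ‖H (pp t y)‖ := norm_pos_iff.2 hy
      have h1 : Tendsto (fun n => wt H (δ n) (pp t y)) atTop (𝓝 ((‖H (pp t y)‖ ^ 2 / (‖H (pp t y)‖ ^ 2 + 0)) ^ 2)) :=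
        ((tendsto_const_nhds.div (tendsto_const_nhds.add hδt) (by positivity))).pow 2
      have h2 : (‖H (pp t y)‖ ^ 2 / (‖H (pp t y)‖ ^ 2 + 0)) ^ 2 = 1 := by
        rw [add_zero, div_self (by positivity), one_pow]
      rw [h2] at h1
      simpa using h1.const_mul (e (pp t y))
  have hlim2 : Tendsto (fun n => ∫ t in a..X, (X - t) * ∫ y in (0 : ℝ)..2 * π, e (pp t y) * wt H (δ n) (pp t y)) atTop
      (𝓝 (∫ t in a..X, (X - t) * ∫ y in (0 : ℝ)..2 * π, e (pp t y))) := by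
    refine intervalIntegral.tendsto_integral_filter_of_dominated_convergence (fun t => (X - t) * ∫ y in (0 : ℝ)..2 * π, e (pp t y)) ?_ ?_ ?_ ?_
    · refine Eventually.of_forall fun n => ?_
      have h1 : ContinuousOn (fun t => (X - t) * ∫ y in (0 : ℝ)..2 * π, e (pp t y) * wt H (δ n) (pp t y)) (uIcc a X) :=
        ContinuousOn.mul (by fun_prop) ((continuousOn_vint (hcwt n) 0 (2 * π)).mono hsub)
      exact (h1.mono uIoc_subset_uIcc).aestronglyMeasurable measurableSet_uIoc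
    · refine Eventually.of_forall fun n => Eventually.of_forall fun t ht => ?_
      rw [uIoc_of_le haX] at ht
      have ht0 : 0 < t := ha.trans ht.1
      have hpt : ∀ y, 0 < (pp t y).re := fun y => by rwa [pp_re]
      rw [norm_mul, Real.norm_eq_abs, abs_of_nonneg (sub_nonneg.2 ht.2)]
      apply mul_le_mul_of_nonneg_left _ (sub_nonneg.2 ht.2)
      exact intervalIntegral.norm_integral_le_of_norm_le h2π (Eventually.of_forall fun y _ => hb n _ (hpt y)) (vint he ht0 _ _)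
    · exact (ContinuousOn.mul (by fun_prop) (hcI.mono hsub)).intervalIntegrable
    · refine Eventually.of_forall fun t ht => ?_
      rw [uIoc_of_le haX] at ht
      exact (hlim1 t (ha.trans ht.1)).const_mul _
  have hfin := le_of_tendsto' hlim2 fun n => key (δ n) (hδ n) (hδ1 n)
  refine le_trans ?_ hfin
  have hint : ∀ c d : ℝ, 0 < c → 0 < d → IntervalIntegrable (fun t => (X - t) * ∫ y in (0 : ℝ)..2 * π, e (pp t y)) volume c d := by
    intro c d hc hd
    refine (ContinuousOn.mul (by fun_prop) (hcI.mono ?_)).intervalIntegrable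
    intro t ht
    rcases le_total c d with h | h
    · rw [uIcc_of_le h] at ht; exact hc.trans_le ht.1
    · rw [uIcc_of_ge h] at ht; exact hd.trans_le ht.1
  rw [← intervalIntegral.integral_add_adjacent_intervals (hint a 1 ha one_pos) (hint 1 X one_pos hX0)]
  have hpos : 0 ≤ ∫ t in a..1, (X - t) * ∫ y in (0 : ℝ)..2 * π, e (pp t y) := by
    refine intervalIntegral.integral_nonneg ha2.le fun t ht => ?_
    have ht0 : 0 < t := ha.trans_le ht.1
    refine mul_nonneg (by linarith [ht.2]) (intervalIntegral.integral_nonneg h2π fun y _ => he0 _ (by rwa [pp_re]))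
  linarith

end Pool.Agent.GA.StripN
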