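import Pool.Agent.GA.Defs
import Pool.Agent.GA.PshA
import Pool.Agent.GG.Cst
import Pool.Agent.GG.Bd

/-!
# GA Psh: Jensen's inequality on the cylinder, without a reduced lift

`u = log (|H|² + ε²)` (Euclidean norm) is smooth and periodic, `φ X = mn u X` has `φ'' = mn (Δ u)`, `Δ u ≥ 4 (|H|²|H'|² - |⟨H, H'⟩|²) / (|H|² + ε²)²`,
and this is `≥ c (sp F)² (|H|² / (|H|² + ε²))²`.  Take a base level `X₀` in `(1/2, 1)` without zeros of `H`, let `ε → 0` (see `GA/PshA`, `core`).
-/

set_option autoImplicit false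

open Topology Filter Metric Set MeasureTheory
open Pool.Agent.GG
open Pool.Agent.H36.BP (EN wd fs)
open Pool.Agent.MQ (fsd)
open Pool.Agent.GA.StripN

noncomputable section

namespace Pool.Agent.GA

variable {N : ℕ} {F H : ℂ → Fin (N + 1) → ℂ}

/-- `TT (AA s)` as one integral -/
theorem psh_TT_AA {s : ℂ → ℝ} (hs : ∀ w : ℂ, 0 < w.re → ContinuousAt s w) {X : ℝ} (hX : 1 ≤ X) :
    TT (AA s) X = ∫ t in (1 : ℝ)..X, (X - t) * mn (fun w => s w ^ 2) t := by
  have hc : ContinuousOn (fun t => mn (fun w => s w ^ 2) t) (Ioi 0) :=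
    continuousOn_vint (φ := fun w => s w ^ 2) (fun w hw => (hs w hw).pow 2) 0 (2 * Real.pi)
  have hint : ∀ c d : ℝ, 0 < c → 0 < d → IntervalIntegrable (fun t => mn (fun w => s w ^ 2) t) volume c d := by
    intro c d hc' hd
    refine (hc.mono ?_).intervalIntegrable
    intro t ht
    rcases le_total c d with h | h
    · rw [uIcc_of_le h] at ht; exact hc'.trans_le ht.1
    · rw [uIcc_of_ge h] at ht; exact hd.trans_le ht.1
  -- the primitive without the maximum
  have h1 : ∀ t ∈ Ioi (0 : ℝ), HasDerivAt (fun t => ∫ x in (1 : ℝ)..t, mn (fun w => s w ^ 2) x) (mn (fun w => s w ^ 2) t) t := by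
    intro t ht
    have hnt : Ioi (0 : ℝ) ∈ 𝓝 t := isOpen_Ioi.mem_nhds ht
    exact intervalIntegral.integral_hasDerivAt_right (hint 1 t one_pos ht)
      ((hc.stronglyMeasurableAtFilter isOpen_Ioi) t ht) (hc.continuousAt hnt)
  have hc1 : ContinuousOn (fun t => ∫ x in (1 : ℝ)..t, mn (fun w => s w ^ 2) x) (Ioi 0) :=
    fun t ht => (h1 t ht).continuousAt.continuousWithinAt
  have hsub : uIcc 1 X ⊆ Ioi (0 : ℝ) := by
    rw [uIcc_of_le hX]
    exact fun t ht => one_pos.trans_le ht.1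
  have h2 : ∀ t ∈ uIcc 1 X, HasDerivAt (fun t => ∫ x in (1 : ℝ)..t, ∫ y in (1 : ℝ)..x, mn (fun w => s w ^ 2) y)
      (∫ x in (1 : ℝ)..t, mn (fun w => s w ^ 2) x) t := by
    intro t ht
    have ht0 : 0 < t := hsub ht
    have hnt : Ioi (0 : ℝ) ∈ 𝓝 t := isOpen_Ioi.mem_nhds ht0
    refine intervalIntegral.integral_hasDerivAt_right ((hc1.mono ?_).intervalIntegrable)
      ((hc1.stronglyMeasurableAtFilter isOpen_Ioi) t ht0) (hc1.continuousAt hnt)
    intro x hx
    rw [uIcc_of_le hX] at ht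
    rw [uIcc_of_le ht.1] at hx
    exact one_pos.trans_le hx.1
  have h3 := taylor2 h2 (fun t ht => h1 t (hsub ht)) (hc.mono hsub)
  simp only [intervalIntegral.integral_same, mul_zero, add_zero, zero_add] at h3
  rw [← h3]
  unfold TT AA
  refine intervalIntegral.integral_congr fun t ht => ?_
  rw [uIcc_of_le hX] at ht
  simp only [max_eq_left ht.1]

theorem psh_continuousAt_sp {w : ℂ} (hF : AnalyticAt ℂ F w) (h0 : F w ≠ 0) : ContinuousAt (sp F) w := by
  have hn : ‖F w‖ ^ 2 ≠ 0 := by have := norm_pos_iff.2 h0; positivity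
  have hc : ∀ i, ContinuousAt (fun z => F z i) w := fun i => (continuous_apply i).continuousAt.comp hF.continuousAt
  have hd : ∀ i, ContinuousAt (fun z => deriv F z i) w := fun i => (continuous_apply i).continuousAt.comp hF.deriv.continuousAt
  unfold sp wl
  refine ContinuousAt.div ?_ (hF.continuousAt.norm.pow 2) hn
  have h : ContinuousAt (fun z => fun p : Fin (N + 1) × Fin (N + 1) => F z p.1 * deriv F z p.2 - F z p.2 * deriv F z p.1) w :=
    continuousAt_pi.2 fun p => ((hc p.1).mul (hd p.2)).sub ((hc p.2).mul (hd p.1))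
  exact h.norm

/-- proportional curves have the same speed -/
theorem psh_wl_par {w : ℂ} (hF : AnalyticAt ℂ F w) (hF0 : F w ≠ 0) (hH : AnalyticAt ℂ H w) (hH0 : H w ≠ 0)
    (hpar : ∀ᶠ z in 𝓝 w, ∀ i j, H z i * F z j = H z j * F z i) : wl (H w) (deriv H w) = sp F w := by
  obtain ⟨j, hj⟩ : ∃ j, F w j ≠ 0 := by
    by_contra h
    push Not at h
    exact hF0 (funext h)
  have hFc : ∀ i, AnalyticAt ℂ (fun z => F z i) w := fun i => (analyticAt_pi_iff.1 hF) i
  have hHc : ∀ i, AnalyticAt ℂ (fun z => H z i) w := fun i => (analyticAt_pi_iff.1 hH) i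
  have hlam : AnalyticAt ℂ (fun z => H z j / F z j) w := (hHc j).div (hFc j) hj
  have hne : ∀ᶠ z in 𝓝 w, F z j ≠ 0 := (hFc j).continuousAt.eventually_ne hj
  have heq : H =ᶠ[𝓝 w] fun z => (H z j / F z j) • F z := by
    filter_upwards [hpar, hne] with z hz hz0
    funext i
    rw [Pi.smul_apply, smul_eq_mul, div_mul_eq_mul_div, eq_div_iff hz0]
    exact hz i j
  have h1 : deriv H w = (H w j / F w j) • deriv F w + deriv (fun z => H z j / F z j) w • F w := by
    rw [heq.deriv_eq]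
    exact (hlam.differentiableAt.hasDerivAt.smul hF.differentiableAt.hasDerivAt).deriv
  have hl0 : H w j / F w j ≠ 0 := by
    intro h
    apply hH0
    rw [heq.eq_of_nhds, h, zero_smul]
  rw [h1]
  nth_rewrite 1 [heq.eq_of_nhds]
  have e : deriv (fun z => H z j / F z j) w • F w = (deriv (fun z => H z j / F z j) w / (H w j / F w j)) • ((H w j / F w j) • F w) := by
    rw [smul_smul, div_mul_cancel₀ _ hl0]
  rw [e, wl_add_smul, wl_smul hl0]
  rfl

theorem psh_lower (hF : ∀ w ∈ HP, AnalyticAt ℂ F w) (hF0 : ∀ w ∈ HP, F w ≠ 0) (hFp : ∀ w ∈ HP, F (w + per) = F w)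
    (hH : ∀ w ∈ HP, AnalyticAt ℂ H w) (hHp : ∀ w ∈ HP, H (w + per) = H w) (h0 : ∃ w ∈ HP, H w ≠ 0)
    (hpar : ∀ w ∈ HP, ∀ i j, H w i * F w j = H w j * F w i) :
    ∃ c > 0, ∃ C, ∀ t : ℝ, 1 ≤ t → c * TT (AA (sp F)) t ≤ (∑ i, mn (fun w => Real.posLog ‖H w i‖) t) + C * t := by
  have hopen : IsOpen HP := isOpen_lt continuous_const Complex.continuous_re
  let G : ℂ → EN N := fun w => WithLp.toLp 2 (H w)
  have hG : ∀ w : ℂ, 0 < w.re → AnalyticAt ℂ G w := fun w hw =>
    ((PiLp.continuousLinearEquiv 2 ℂ (fun _ : Fin (N + 1) => ℂ)).symm.toContinuousLinearMap.analyticAt _).comp (hH w hw)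
  have hG' : ∀ w : ℂ, 0 < w.re → deriv G w = WithLp.toLp 2 (deriv H w) := fun w hw =>
    ((PiLp.continuousLinearEquiv 2 ℂ (fun _ : Fin (N + 1) => ℂ)).symm.toContinuousLinearMap.hasFDerivAt.comp_hasDerivAt w
      (hH w hw).differentiableAt.hasDerivAt).deriv
  have hGp : ∀ w : ℂ, 0 < w.re → G (w + 2 * Real.pi * Complex.I) = G w := fun w hw => by
    show WithLp.toLp 2 (H (w + per)) = WithLp.toLp 2 (H w)
    rw [hHp w hw]
  have hG0 : ∃ w : ℂ, 0 < w.re ∧ G w ≠ 0 := by
    obtain ⟨w, hw, hne⟩ := h0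
    exact ⟨w, hw, fun h => hne (WithLp.toLp_injective 2 h)⟩
  have hspc : ∀ w : ℂ, 0 < w.re → ContinuousAt (sp F) w := fun w hw => psh_continuousAt_sp (hF w hw) (hF0 w hw)
  let c₀ : ℝ := 1 / (2 * (N + 1) ^ 2)
  have hc₀ : 0 < c₀ := by positivity
  obtain ⟨C, hC0, hC⟩ := core (e := fun w => c₀ * sp F w ^ 2) hG hG0 hGp (fun w hw => continuousAt_const.mul ((hspc w hw).pow 2))
    (fun w _ => by positivity) (by
      intro w hw hne
      have hne' : H w ≠ 0 := fun h => hne (by show WithLp.toLp 2 (H w) = 0; rw [h]; rfl)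
      have h1 : wl (H w) (deriv H w) = sp F w := psh_wl_par (hF w hw) (hF0 w hw) (hH w hw) hne'
        (by filter_upwards [hopen.mem_nhds (show w ∈ HP from hw)] with z hz using hpar z hz)
      have h2 := cst_wl_le_fs (H w) (deriv H w) hne'
      rw [h1] at h2
      rw [hG' w hw]
      have h3 : fsd (WithLp.toLp 2 (H w) : EN N) (WithLp.toLp 2 (deriv H w)) = 2 * fs (WithLp.toLp 2 (H w) : EN N) (WithLp.toLp 2 (deriv H w)) ^ 2 := by
        unfold fsd fs
        rw [div_pow, Pool.Agent.H36.BP.wd_sq]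
        ring
      have h4 : 0 ≤ sp F w := wl_nonneg _ _
      have h5 : sp F w ^ 2 ≤ (2 * (N + 1) * fs (WithLp.toLp 2 (H w) : EN N) (WithLp.toLp 2 (deriv H w))) ^ 2 := pow_le_pow_left₀ h4 h2 2
      show c₀ * sp F w ^ 2 ≤ fsd (WithLp.toLp 2 (H w) : EN N) (WithLp.toLp 2 (deriv H w))
      rw [h3]
      calc c₀ * sp F w ^ 2 ≤ c₀ * (2 * (N + 1) * fs (WithLp.toLp 2 (H w) : EN N) (WithLp.toLp 2 (deriv H w))) ^ 2 := by gcongr
        _ = 2 * fs (WithLp.toLp 2 (H w) : EN N) (WithLp.toLp 2 (deriv H w)) ^ 2 := by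
          simp only [c₀]
          field_simp)
  refine ⟨c₀, hc₀, 2 * Real.pi * Real.log (N + 1) + 2 * C, fun t ht => ?_⟩
  have ht0 : 0 < t := by linarith
  have hpt : ∀ y, 0 < (pp t y).re := fun y => by rw [pp_re]; exact ht0
  rw [psh_TT_AA hspc ht]
  have h1 := hC t ht
  have h2 : ∫ x in (1 : ℝ)..t, (t - x) * ∫ y in (0 : ℝ)..2 * Real.pi, c₀ * sp F (pp x y) ^ 2 =
      c₀ * ∫ x in (1 : ℝ)..t, (t - x) * mn (fun w => sp F w ^ 2) x := by
    rw [← intervalIntegral.integral_const_mul]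
    refine intervalIntegral.integral_congr fun x _ => ?_
    show (t - x) * (∫ y in (0 : ℝ)..2 * Real.pi, c₀ * sp F (pp x y) ^ 2) = c₀ * ((t - x) * mn (fun w => sp F w ^ 2) x)
    rw [intervalIntegral.integral_const_mul]
    show (t - x) * (c₀ * mn (fun w => sp F w ^ 2) x) = _
    ring
  rw [← h2]
  refine h1.trans ?_
  have hcont : ∀ i : Fin (N + 1), Continuous fun y => Real.posLog ‖H (pp t y) i‖ := fun i =>
    cont_line (φ := fun w => Real.posLog ‖H w i‖) fun y => Real.continuous_posLog.continuousAt.comp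
      (((continuous_apply i).continuousAt.comp (hH _ (hpt y)).continuousAt).norm)
  have h3 : ∫ y in (0 : ℝ)..2 * Real.pi, Real.posLog ‖G (pp t y)‖ ≤
      ∫ y in (0 : ℝ)..2 * Real.pi, (Real.log (N + 1) + ∑ i, Real.posLog ‖H (pp t y) i‖) := by
    refine intervalIntegral.integral_mono_on (by positivity) ?_ ?_ fun y _ => ?_
    · exact (cont_line (φ := fun w => Real.posLog ‖G w‖) fun y => Real.continuous_posLog.continuousAt.comp
        (hG _ (hpt y)).continuousAt.norm).intervalIntegrable _ _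
    · exact (continuous_const.add (continuous_finsetSum _ fun i _ => hcont i)).intervalIntegrable _ _
    · have e1 : ‖G (pp t y)‖ ≤ ∑ i, ‖H (pp t y) i‖ := by
        rw [EuclideanSpace.norm_eq]
        refine Real.sqrt_le_iff.2 ⟨by positivity, ?_⟩
        exact Finset.sum_sq_le_sq_sum_of_nonneg fun i _ => norm_nonneg _
      refine (Real.posLog_le_posLog (norm_nonneg _) e1).trans ?_
      have e2 := Real.posLog_sum Finset.univ fun i => ‖H (pp t y) i‖
      simpa using e2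
  rw [intervalIntegral.integral_add (by simp) ((continuous_finsetSum _ fun i _ => hcont i).intervalIntegrable _ _),
    intervalIntegral.integral_finset_sum fun i _ => (hcont i).intervalIntegrable _ _] at h3
  have h4 : ∫ _y in (0 : ℝ)..2 * Real.pi, Real.log (N + 1) = 2 * Real.pi * Real.log (N + 1) := by simp
  rw [h4] at h3
  have h5 : 0 ≤ 2 * Real.pi * Real.log ((N : ℝ) + 1) := by
    have : 0 ≤ Real.log ((N : ℝ) + 1) := Real.log_nonneg (by have := Nat.cast_nonneg (α := ℝ) N; linarith)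
    positivity
  have h6 : ∑ i, ∫ y in (0 : ℝ)..2 * Real.pi, Real.posLog ‖H (pp t y) i‖ = ∑ i, mn (fun w => Real.posLog ‖H w i‖) t := rfl
  rw [h6] at h3
  nlinarith

end Pool.Agent.GA
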