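import Pool.Agent.GA.ADefs
import Pool.Agent.GG.Chart

/-!
# GA RelC: relations of the curve and of its derivative; change of the chart

`evO_lin`: the linearised equation of `R` at `w` is the derivative at `t = 0` of `t ↦ R_w (y + t W)`, `R_w` = `R` with the coefficients evaluated at `w`.  For `relP_chart`: `G' (x, v) = x_b ^ e G (φ (x, v))`,
`φ (x, v) = (x / x_b, v / x_b - v_b x / x_b ^ 2)`, `R = X_b G' - g X_b ^ (e + 1)`: `R_w (y + t W) = (x_b + t V_b) ^ (e + 1) (G (φ (y + t W)) - g w)`.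
-/

set_option autoImplicit false

open MvPolynomial Topology Filter Metric
open Pool.Agent.H13.SM (conTan cone)
open Pool.Agent.H62.FC (Homog)
open Pool.Agent.GG

namespace Pool.Agent.GA

variable {N : ℕ} {OO : Subalgebra ℂ (ℂ → ℂ)}

/-- the linearised equation as a derivative -/
theorem evO_lin {σ : Type} [Fintype σ] (y : ℂ → σ → ℂ) (R : MvPolynomial σ OO) (w : ℂ) (W : σ → ℂ) :
    HasDerivAt (fun t : ℂ => eval (y w + t • W) (map (ev0 OO w) R)) (∑ s, evO OO y (pderiv s R) w * W s) 0 := by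
  have h0 : HasDerivAt (fun t : ℂ => y w + t • W) W 0 := by
    have h1 : HasDerivAt (fun t : ℂ => t • W) ((1 : ℂ) • W) 0 := (hasDerivAt_id (0 : ℂ)).smul_const W
    rw [one_smul] at h1
    exact h1.const_add (y w)
  have h1 := Chart_hasDerivAt (map (ev0 OO w) R) h0
  have h2 : ∑ s, evO OO y (pderiv s R) w * W s = ∑ s, W s * eval (y w + (0 : ℂ) • W) (pderiv s (map (ev0 OO w) R)) := by
    refine Finset.sum_congr rfl fun s _ => ?_
    rw [zero_smul, add_zero, pderiv_map, eval_map, evO, mul_comm]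
  rw [h2]
  exact h1

theorem ev0_algebraMap (w : ℂ) : (ev0 OO w).comp (algebraMap ℂ OO) = RingHom.id ℂ := by
  ext
  rfl

theorem evO_map {σ : Type} (y : ℂ → σ → ℂ) (G : MvPolynomial σ ℂ) (w : ℂ) : evO OO y (map (algebraMap ℂ OO) G) w = eval (y w) G := by
  rw [evO, eval₂_map, ev0_algebraMap]
  rfl

theorem map_map_ev0 {σ : Type} (G : MvPolynomial σ ℂ) (w : ℂ) : map (ev0 OO w) (map (algebraMap ℂ OO) G) = G := by
  rw [MvPolynomial.map_map, ev0_algebraMap, MvPolynomial.map_id]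

theorem RelP.relX {x V : ℂ → Fin (N + 1) → ℂ} {w₀ : ℂ} (h : RelP OO x V w₀) : RelX OO x V w₀ := by
  intro R hR
  have h1 := h (rename Sum.inl R) (by
    filter_upwards [hR] with w hw
    rw [evO, eval₂_rename]
    exact hw)
  filter_upwards [h1] with w hw
  have h2 := evO_lin (fun w => pt (x w) (deriv x w)) (rename Sum.inl R) w (pt (V w) (deriv V w))
  have h3 := evO_lin x R w (V w)
  have h4 : (fun t : ℂ => eval (pt (x w) (deriv x w) + t • pt (V w) (deriv V w)) (map (ev0 OO w) (rename Sum.inl R))) =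
      fun t : ℂ => eval (x w + t • V w) (map (ev0 OO w) R) := by
    funext t
    rw [map_rename, eval_rename]
    rfl
  rw [h4, hw] at h2
  exact h3.unique h2

theorem RelP.lhs {x V : ℂ → Fin (N + 1) → ℂ} {w₀ : ℂ} (h : RelP OO x V w₀) {G : MvPolynomial (Ph N) ℂ} {g : ℂ → ℂ} (hg : g ∈ OO)
    (hG : ∀ᶠ w in 𝓝 w₀, eval (pt (x w) (deriv x w)) G = g w) : ∀ᶠ w in 𝓝 w₀, lhs G x V w = 0 := by
  have h1 := h (map (algebraMap ℂ OO) G - C ⟨g, hg⟩) (by
    filter_upwards [hG] with w hw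
    have h2 : evO OO (fun w => pt (x w) (deriv x w)) (map (algebraMap ℂ OO) G - C ⟨g, hg⟩) w =
        evO OO (fun w => pt (x w) (deriv x w)) (map (algebraMap ℂ OO) G) w - evO OO (fun w => pt (x w) (deriv x w)) (C ⟨g, hg⟩) w := by
      rw [evO, eval₂_sub]
      rfl
    rw [h2, evO_map, hw, evO, eval₂_C]
    exact sub_self (g w))
  filter_upwards [h1] with w hw
  rw [← hw, GA.lhs]
  refine Finset.sum_congr rfl fun s _ => ?_
  have h3 : pderiv s (map (algebraMap ℂ OO) G - C ⟨g, hg⟩) = map (algebraMap ℂ OO) (pderiv s G) := by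
    rw [map_sub, pderiv_C, pderiv_map]
    exact sub_zero (map (algebraMap ℂ OO) (pderiv s G))
  rw [h3, evO_map]

/-- the point in the chart `x_b = 1` -/
noncomputable def chg (b : Fin (N + 1)) (y : Ph N → ℂ) : Ph N → ℂ :=
  Sum.elim (fun j => (y (Sum.inl b))⁻¹ * y (Sum.inl j)) fun j => (y (Sum.inl b))⁻¹ * y (Sum.inr j) - y (Sum.inr b) / y (Sum.inl b) ^ 2 * y (Sum.inl j)

/-- the polynomial in the other coordinates -/
theorem exists_chg (b : Fin (N + 1)) (G : MvPolynomial (Ph N) ℂ) : ∃ (e : ℕ) (G' : MvPolynomial (Ph N) ℂ), ∀ y : Ph N → ℂ, y (Sum.inl b) ≠ 0 →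
    eval y G' = y (Sum.inl b) ^ e * eval (chg b y) G := by
  induction G using MvPolynomial.induction_on with
  | C c => exact ⟨0, C c, fun y _ => by simp⟩
  | add p q hp hq =>
    obtain ⟨e, p', hp⟩ := hp
    obtain ⟨d, q', hq⟩ := hq
    refine ⟨e + d, X (Sum.inl b) ^ d * p' + X (Sum.inl b) ^ e * q', fun y hy => ?_⟩
    rw [map_add, map_mul, map_mul, map_pow, map_pow, eval_X, hp y hy, hq y hy, map_add]
    ring
  | mul_X p i hp =>
    obtain ⟨e, p', hp⟩ := hp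
    cases i with
    | inl j =>
      refine ⟨e + 1, p' * X (Sum.inl j), fun y hy => ?_⟩
      rw [map_mul, eval_X, hp y hy, map_mul, eval_X]
      simp only [chg, Sum.elim_inl]
      field_simp
      ring
    | inr j =>
      refine ⟨e + 2, p' * (X (Sum.inl b) * X (Sum.inr j) - X (Sum.inr b) * X (Sum.inl j)), fun y hy => ?_⟩
      rw [map_mul, map_sub, map_mul, map_mul, eval_X, eval_X, eval_X, eval_X, hp y hy, map_mul, eval_X]
      simp only [chg, Sum.elim_inr]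
      field_simp
      ring

private theorem sc1 {a c : ℂ → ℂ} {a' c' w : ℂ} (ha : HasDerivAt a a' w) (hc : HasDerivAt c c' w) (h : a w ≠ 0) :
    HasDerivAt (fun w => (a w)⁻¹ * c w) ((a w)⁻¹ * c' - a' / a w ^ 2 * c w) w := by
  have h1 := (ha.inv h).mul hc
  have h2 : (a w)⁻¹ * c' - a' / a w ^ 2 * c w = -a' / a w ^ 2 * c w + (a w)⁻¹ * c' := by ring
  rw [h2]
  exact h1

private theorem sc3 {a c u d : ℂ → ℂ} {a' c' u' d' w : ℂ} (ha : HasDerivAt a a' w) (hc : HasDerivAt c c' w) (hu : HasDerivAt u u' w)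
    (hd : HasDerivAt d d' w) (h : a w ≠ 0) : HasDerivAt (fun w => (a w)⁻¹ * c w - u w / a w ^ 2 * d w)
      ((a w)⁻¹ * c' - a' / a w ^ 2 * c w - u' / a w ^ 2 * d w - u w / a w ^ 2 * d' + 2 * (u w * a' / a w ^ 3) * d w) w := by
  have h1 := sc1 ha hc h
  have h2 : HasDerivAt (fun w => a w ^ 2) (2 * a w * a') w := by
    have h3 := ha.pow 2
    have h4 : 2 * a w * a' = ((2 : ℕ) : ℂ) * a w ^ (2 - 1) * a' := by norm_num
    rw [h4]
    exact h3
  have h3 : HasDerivAt (fun w => u w / a w ^ 2) ((u' * a w ^ 2 - u w * (2 * a w * a')) / (a w ^ 2) ^ 2) w := hu.div h2 (pow_ne_zero 2 h)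
  have h4 : HasDerivAt (fun w => u w / a w ^ 2 * d w) ((u' * a w ^ 2 - u w * (2 * a w * a')) / (a w ^ 2) ^ 2 * d w + u w / a w ^ 2 * d') w := h3.mul hd
  have h5 : (a w)⁻¹ * c' - a' / a w ^ 2 * c w - u' / a w ^ 2 * d w - u w / a w ^ 2 * d' + 2 * (u w * a' / a w ^ 3) * d w =
      (a w)⁻¹ * c' - a' / a w ^ 2 * c w - ((u' * a w ^ 2 - u w * (2 * a w * a')) / (a w ^ 2) ^ 2 * d w + u w / a w ^ 2 * d') := by
    field_simp
    ring
  rw [h5]
  exact h1.sub h4

/-- the point in the chart along a curve -/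
theorem chg_curve {x : ℂ → Fin (N + 1) → ℂ} {w : ℂ} (hx : DifferentiableAt ℂ x w) {b : Fin (N + 1)} (hb : x w b ≠ 0) :
    chg b (pt (x w) (deriv x w)) = pt ((x w b)⁻¹ • x w) (deriv (fun w => (x w b)⁻¹ • x w) w) := by
  have hx' := hx.hasDerivAt
  have h1 : HasDerivAt (fun w => (x w b)⁻¹ • x w) (fun j => (x w b)⁻¹ * deriv x w j - deriv x w b / x w b ^ 2 * x w j) w :=
    hasDerivAt_pi.2 fun j => sc1 (hasDerivAt_pi.1 hx' b) (hasDerivAt_pi.1 hx' j) hb
  rw [h1.deriv]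
  rfl

/-- the variation in the chart -/
theorem hasDerivAt_chg {x V : ℂ → Fin (N + 1) → ℂ} {w : ℂ} (hx : DifferentiableAt ℂ x w) (hV : DifferentiableAt ℂ V w) {b : Fin (N + 1)} (hb : x w b ≠ 0) :
    HasDerivAt (fun t : ℂ => chg b (pt (x w) (deriv x w) + t • pt (V w) (deriv V w)))
      (pt ((x w b)⁻¹ • V w - (V w b / x w b ^ 2) • x w) (deriv (fun w => (x w b)⁻¹ • V w - (V w b / x w b ^ 2) • x w) w)) 0 := by
  have hx' := hx.hasDerivAt
  have hV' := hV.hasDerivAt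
  obtain ⟨v, hv⟩ : ∃ v, v = deriv x w := ⟨_, rfl⟩
  obtain ⟨V', hVV⟩ : ∃ V', V' = deriv V w := ⟨_, rfl⟩
  rw [← hv] at hx' ⊢
  rw [← hVV] at hV' ⊢
  have hd : HasDerivAt (fun w => (x w b)⁻¹ • V w - (V w b / x w b ^ 2) • x w)
      (fun j => (x w b)⁻¹ * V' j - v b / x w b ^ 2 * V w j - V' b / x w b ^ 2 * x w j - V w b / x w b ^ 2 * v j + 2 * (V w b * v b / x w b ^ 3) * x w j) w :=
    hasDerivAt_pi.2 fun j => sc3 (hasDerivAt_pi.1 hx' b) (hasDerivAt_pi.1 hV' j) (hasDerivAt_pi.1 hV' b) (hasDerivAt_pi.1 hx' j) hb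
  rw [hd.deriv]
  have hl : ∀ a c : ℂ, HasDerivAt (fun t : ℂ => a + t * c) c 0 := by
    intro a c
    have h1 : HasDerivAt (fun t : ℂ => t * c) (1 * c) 0 := (hasDerivAt_id (0 : ℂ)).mul_const c
    rw [one_mul] at h1
    exact h1.const_add a
  refine hasDerivAt_pi.2 fun s => ?_
  cases s with
  | inl j =>
    have h1 := sc1 (hl (x w b) (V w b)) (hl (x w j) (V w j)) (w := 0) (by simpa using hb)
    have h2 : ((x w b)⁻¹ • V w - (V w b / x w b ^ 2) • x w) j =
        (x w b + 0 * V w b)⁻¹ * V w j - V w b / (x w b + 0 * V w b) ^ 2 * (x w j + 0 * V w j) := by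
      simp only [zero_mul, add_zero]
      rfl
    show HasDerivAt _ (((x w b)⁻¹ • V w - (V w b / x w b ^ 2) • x w) j) 0
    rw [h2]
    exact h1
  | inr j =>
    have h1 := sc3 (hl (x w b) (V w b)) (hl (v j) (V' j)) (hl (v b) (V' b)) (hl (x w j) (V w j)) (w := 0) (by simpa using hb)
    have h2 : (x w b)⁻¹ * V' j - v b / x w b ^ 2 * V w j - V' b / x w b ^ 2 * x w j - V w b / x w b ^ 2 * v j + 2 * (V w b * v b / x w b ^ 3) * x w j =
        (x w b + 0 * V w b)⁻¹ * V' j - V w b / (x w b + 0 * V w b) ^ 2 * (v j + 0 * V' j) - V' b / (x w b + 0 * V w b) ^ 2 * (x w j + 0 * V w j) -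
          (v b + 0 * V' b) / (x w b + 0 * V w b) ^ 2 * V w j + 2 * ((v b + 0 * V' b) * V w b / (x w b + 0 * V w b) ^ 3) * (x w j + 0 * V w j) := by
      simp only [zero_mul, add_zero]
      ring
    show HasDerivAt _ ((x w b)⁻¹ * V' j - v b / x w b ^ 2 * V w j - V' b / x w b ^ 2 * x w j - V w b / x w b ^ 2 * v j + 2 * (V w b * v b / x w b ^ 3) * x w j) 0
    rw [h2]
    exact h1

theorem relP_chart {x V : ℂ → Fin (N + 1) → ℂ} {w₀ : ℂ} (hx : AnalyticAt ℂ x w₀) (hV : AnalyticAt ℂ V w₀) (h : RelP OO x V w₀) (b : Fin (N + 1))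
    {G : MvPolynomial (Ph N) ℂ} {g : ℂ → ℂ} (hg : g ∈ OO)
    (hG : ∀ᶠ w in 𝓝 w₀, x w b ≠ 0 → eval (pt ((x w b)⁻¹ • x w) (deriv (fun w => (x w b)⁻¹ • x w) w)) G = g w) :
    ∀ᶠ w in 𝓝 w₀, x w b ≠ 0 → GA.lhs G (fun w => (x w b)⁻¹ • x w) (fun w => (x w b)⁻¹ • V w - (V w b / x w b ^ 2) • x w) w = 0 := by
  obtain ⟨e, G', hG'⟩ := exists_chg b G
  obtain ⟨R, hR⟩ : ∃ R : MvPolynomial (Ph N) OO, R = X (Sum.inl b) * map (algebraMap ℂ OO) G' - C ⟨g, hg⟩ * X (Sum.inl b) ^ (e + 1) := ⟨_, rfl⟩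
  have hRw : ∀ w, map (ev0 OO w) R = X (Sum.inl b) * G' - C (g w) * X (Sum.inl b) ^ (e + 1) := by
    intro w
    rw [hR, map_sub, map_mul, map_mul, map_pow, map_X, map_C, map_map_ev0]
    rfl
  have hRe : ∀ (w : ℂ) (y : Ph N → ℂ), y (Sum.inl b) ≠ 0 → eval y (map (ev0 OO w) R) = y (Sum.inl b) ^ (e + 1) * (eval (chg b y) G - g w) := by
    intro w y hy
    rw [hRw, map_sub, map_mul, map_mul, map_pow, eval_X, eval_C, hG' y hy]
    ring
  have hRv : ∀ w (y : ℂ → Ph N → ℂ), evO OO y R w = eval (y w) (map (ev0 OO w) R) := by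
    intro w y
    rw [eval_map, evO]
  have h1 := h R (by
    filter_upwards [hG, hx.eventually_analyticAt] with w hw hxw
    rw [hRv]
    by_cases hb : x w b = 0
    · rw [hRw, map_sub, map_mul, map_mul, map_pow, eval_X, eval_C]
      have hb' : pt (x w) (deriv x w) (Sum.inl b) = 0 := hb
      rw [hb', zero_mul, zero_pow (Nat.succ_ne_zero e), mul_zero, sub_zero]
    · rw [hRe w (pt (x w) (deriv x w)) hb, chg_curve hxw.differentiableAt hb, hw hb, sub_self, mul_zero])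
  filter_upwards [h1, hG, hx.eventually_analyticAt, hV.eventually_analyticAt] with w hw hGw hxw hVw hb
  have h2 := evO_lin (fun w => pt (x w) (deriv x w)) R w (pt (V w) (deriv V w))
  rw [hw] at h2
  have h4 := Chart_hasDerivAt G (hasDerivAt_chg hxw.differentiableAt hVw.differentiableAt hb)
  rw [zero_smul, add_zero, chg_curve hxw.differentiableAt hb] at h4
  have hlin : HasDerivAt (fun t : ℂ => (pt (x w) (deriv x w) + t • pt (V w) (deriv V w)) (Sum.inl b)) (V w b) 0 := by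
    have h5 : HasDerivAt (fun t : ℂ => t * V w b) (1 * V w b) 0 := (hasDerivAt_id (0 : ℂ)).mul_const _
    rw [one_mul] at h5
    exact h5.const_add (x w b)
  have h5 := (hlin.pow (e + 1)).mul (h4.sub_const (g w))
  rw [zero_smul, add_zero, chg_curve hxw.differentiableAt hb, hGw hb, sub_self, mul_zero, zero_add] at h5
  have h6 : (fun t : ℂ => eval (pt (x w) (deriv x w) + t • pt (V w) (deriv V w)) (map (ev0 OO w) R)) =ᶠ[𝓝 0]
      fun t : ℂ => ((pt (x w) (deriv x w) + t • pt (V w) (deriv V w)) (Sum.inl b)) ^ (e + 1) *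
        (eval (chg b (pt (x w) (deriv x w) + t • pt (V w) (deriv V w))) G - g w) := by
    have h7 : ∀ᶠ t in 𝓝 (0 : ℂ), (pt (x w) (deriv x w) + t • pt (V w) (deriv V w)) (Sum.inl b) ≠ 0 :=
      hlin.continuousAt.eventually_ne (by rw [zero_smul, add_zero]; exact hb)
    filter_upwards [h7] with t ht
    exact hRe w _ ht
  have h8 := (h2.congr_of_eventuallyEq h6.symm).unique h5
  have h9 : x w b ^ (e + 1) * GA.lhs G (fun w => (x w b)⁻¹ • x w) (fun w => (x w b)⁻¹ • V w - (V w b / x w b ^ 2) • x w) w = 0 := by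
    refine Eq.trans ?_ h8.symm
    have h10 : x w b ^ (e + 1) = (fun t : ℂ => (pt (x w) (deriv x w) + t • pt (V w) (deriv V w)) (Sum.inl b)) 0 ^ (e + 1) := by
      simp
    rw [h10, GA.lhs]
    exact congrArg (fun u : ℂ => _ * u) (Finset.sum_congr rfl fun s _ => mul_comm _ _)
  exact (mul_eq_zero.1 h9).resolve_left (pow_ne_zero _ hb)

end Pool.Agent.GA
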