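import Pool.Agent.MQ.FS

/-!
# Integrals over vertical periods of functions on a half plane

For a function `u` of class `C²` on `{Re w > 0}` with `u (w + 2πi) = u w`, the second derivative in `X` of `∫_0^{2π} u (X + i y) dy` is
`∫_0^{2π} Δ u (X + i y) dy`.
-/

set_option autoImplicit false

open Complex Topology Filter MeasureTheory Set Laplacian
open scoped Real

noncomputable section

namespace Pool.Agent.GA.StripN

/-- Taylor's formula of order two. -/
theorem taylor2 {g g' g'' : ℝ → ℝ} {a b : ℝ} (h1 : ∀ t ∈ uIcc a b, HasDerivAt g (g' t) t)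
    (h2 : ∀ t ∈ uIcc a b, HasDerivAt g' (g'' t) t) (hc : ContinuousOn g'' (uIcc a b)) :
    g b = g a + (b - a) * g' a + ∫ t in a..b, (b - t) * g'' t := by
  have h : ∀ t ∈ uIcc a b, HasDerivAt (fun t => (b - t) * g' t + g t) ((b - t) * g'' t) t := by
    intro t ht
    have h3 : HasDerivAt (fun t : ℝ => b - t) (-1) t := by simpa using (hasDerivAt_id t).const_sub b
    exact ((h3.mul (h2 t ht)).add (h1 t ht)).congr_deriv (by ring)
  rw [intervalIntegral.integral_eq_sub_of_hasDerivAt h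
    ((ContinuousOn.mul (by fun_prop) hc).intervalIntegrable)]
  ring

variable {u : ℂ → ℝ}

/-- the point `t + i y` -/
abbrev pp (t y : ℝ) : ℂ := (t : ℂ) + (y : ℂ) * I

theorem pp_re (t y : ℝ) : (pp t y).re = t := by simp [pp]

theorem pp_im (t y : ℝ) : (pp t y).im = y := by simp [pp]

theorem hasDerivAt_pp_left (t y : ℝ) : HasDerivAt (fun t => pp t y) 1 t := by
  have h := (Complex.ofRealCLM.hasDerivAt (x := t)).add_const ((y : ℂ) * I)
  simpa [pp] using h

theorem hasDerivAt_pp_right (t y : ℝ) : HasDerivAt (fun y => pp t y) I y := by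
  have h := ((Complex.ofRealCLM.hasDerivAt (x := y)).mul_const I).const_add (t : ℂ)
  simpa [pp] using h

theorem continuous_pp : Continuous fun p : ℝ × ℝ => pp p.1 p.2 := by unfold pp; fun_prop

/-- the second derivative of `u` in the direction `e` -/
def dd (u : ℂ → ℝ) (e : ℂ) (w : ℂ) : ℝ := fderiv ℝ (fun z => fderiv ℝ u z e) w e

theorem contDiffAt_fderiv_apply (e : ℂ) {w : ℂ} (hu : ContDiffAt ℝ 2 u w) : ContDiffAt ℝ 1 (fun z => fderiv ℝ u z e) w := by
  have h1 : ContDiffAt ℝ 1 (fderiv ℝ u) w := hu.fderiv_right (by norm_num)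
  exact h1.clm_apply contDiffAt_const

theorem continuousAt_dd (e : ℂ) {w : ℂ} (hu : ContDiffAt ℝ 2 u w) : ContinuousAt (dd u e) w := by
  have h1 := contDiffAt_fderiv_apply e hu
  have h2 : ContDiffAt ℝ 0 (fderiv ℝ fun z => fderiv ℝ u z e) w := h1.fderiv_right (by norm_num)
  exact (h2.clm_apply contDiffAt_const).continuousAt

theorem hasDerivAt_left {t y : ℝ} (hu : DifferentiableAt ℝ u (pp t y)) :
    HasDerivAt (fun t => u (pp t y)) (fderiv ℝ u (pp t y) 1) t :=
  hu.hasFDerivAt.comp_hasDerivAt t (hasDerivAt_pp_left t y)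

theorem hasDerivAt_right {t y : ℝ} (hu : DifferentiableAt ℝ u (pp t y)) :
    HasDerivAt (fun y => u (pp t y)) (fderiv ℝ u (pp t y) I) y :=
  hu.hasFDerivAt.comp_hasDerivAt y (hasDerivAt_pp_right t y)

/-- functions which are continuous on the half plane are integrable along vertical segments -/
theorem vint {φ : ℂ → ℝ} (hφ : ∀ w : ℂ, 0 < w.re → ContinuousAt φ w) {t : ℝ} (ht : 0 < t) (a b : ℝ) :
    IntervalIntegrable (fun y => φ (pp t y)) volume a b := by
  apply Continuous.intervalIntegrable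
  rw [continuous_iff_continuousAt]
  intro y
  exact ContinuousAt.comp (f := fun y => pp t y) (hφ _ (by rwa [pp_re])) (hasDerivAt_pp_right t y).continuousAt

/-- their integrals over a period are continuous functions of `t` -/
theorem continuousOn_vint {φ : ℂ → ℝ} (hφ : ∀ w : ℂ, 0 < w.re → ContinuousAt φ w) (a b : ℝ) :
    ContinuousOn (fun t => ∫ y in a..b, φ (pp t y)) (Ioi 0) := by
  have h : ContinuousOn (Function.uncurry fun t y : ℝ => φ (pp t y)) (Ioi 0 ×ˢ univ) := by
    rintro ⟨t, y⟩ ⟨ht, -⟩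
    exact (ContinuousAt.comp (f := fun p : ℝ × ℝ => pp p.1 p.2) (x := (t, y)) (hφ _ (by rw [pp_re]; exact ht))
      continuous_pp.continuousAt).continuousWithinAt
  rw [continuousOn_iff_continuous_restrict]
  have h2 : Continuous (Function.uncurry fun (t : Ioi (0 : ℝ)) (y : ℝ) => φ (pp t y)) := by
    rw [continuous_iff_continuousAt]
    rintro ⟨t, y⟩
    refine ContinuousAt.comp (f := fun p : Ioi (0 : ℝ) × ℝ => pp p.1 p.2) (x := (t, y)) (hφ _ (by rw [pp_re]; exact t.2)) ?_
    exact (continuous_pp.comp (by fun_prop : Continuous fun p : Ioi (0 : ℝ) × ℝ => ((p.1 : ℝ), p.2))).continuousAt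
  exact intervalIntegral.continuous_parametric_intervalIntegral_of_continuous' h2 a b

theorem fderiv_periodic (hp : ∀ w : ℂ, 0 < w.re → u (w + 2 * π * I) = u w) {w : ℂ} (hw : 0 < w.re) :
    fderiv ℝ u (w + 2 * π * I) = fderiv ℝ u w := by
  rw [← fderiv_comp_add_right]
  apply Filter.EventuallyEq.fderiv_eq
  have : {z : ℂ | 0 < z.re} ∈ 𝓝 w := (isOpen_lt continuous_const continuous_re).mem_nhds hw
  filter_upwards [this] with z hz using hp z hz

theorem int_dd_I (hu : ∀ w : ℂ, 0 < w.re → ContDiffAt ℝ 2 u w) (hp : ∀ w : ℂ, 0 < w.re → u (w + 2 * π * I) = u w) {t : ℝ}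
    (ht : 0 < t) : ∫ y in (0 : ℝ)..2 * π, dd u I (pp t y) = 0 := by
  have h : ∀ y ∈ uIcc (0 : ℝ) (2 * π), HasDerivAt (fun y => fderiv ℝ u (pp t y) I) (dd u I (pp t y)) y := by
    intro y _
    exact hasDerivAt_right ((contDiffAt_fderiv_apply I (hu _ (by rwa [pp_re]))).differentiableAt (by norm_num))
  rw [intervalIntegral.integral_eq_sub_of_hasDerivAt h (vint (fun w hw => continuousAt_dd I (hu w hw)) ht _ _)]
  have e : pp t (2 * π) = pp t 0 + 2 * π * I := by simp [pp]
  rw [e, fderiv_periodic hp (by rwa [pp_re])]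
  simp

/-- **The second derivative of the integrals over the periods.** -/
theorem strip (hu : ∀ w : ℂ, 0 < w.re → ContDiffAt ℝ 2 u w) (hp : ∀ w : ℂ, 0 < w.re → u (w + 2 * π * I) = u w) {a b : ℝ}
    (ha : 0 < a) (hab : a ≤ b) :
    ∫ y in (0 : ℝ)..2 * π, u (pp b y) = (∫ y in (0 : ℝ)..2 * π, u (pp a y)) + (b - a) * (∫ y in (0 : ℝ)..2 * π, fderiv ℝ u (pp a y) 1) +
      ∫ t in a..b, (b - t) * ∫ y in (0 : ℝ)..2 * π, Δ u (pp t y) := by
  have hb : 0 < b := ha.trans_le hab
  have hpos : ∀ t ∈ uIcc a b, 0 < t := fun t ht => by rw [uIcc_of_le hab] at ht; exact ha.trans_le ht.1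
  have hu0 : ∀ w : ℂ, 0 < w.re → ContinuousAt u w := fun w hw => (hu w hw).continuousAt
  have hu1 : ∀ w : ℂ, 0 < w.re → ContinuousAt (fun z => fderiv ℝ u z 1) w := fun w hw => (contDiffAt_fderiv_apply 1 (hu w hw)).continuousAt
  have hu2 : ∀ w : ℂ, 0 < w.re → ContinuousAt (dd u 1) w := fun w hw => continuousAt_dd 1 (hu w hw)
  -- Taylor's formula on every horizontal line
  have h1 : ∀ y : ℝ, u (pp b y) = u (pp a y) + (b - a) * fderiv ℝ u (pp a y) 1 + ∫ t in a..b, (b - t) * dd u 1 (pp t y) := by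
    intro y
    refine taylor2 (g := fun t => u (pp t y)) (g' := fun t => fderiv ℝ u (pp t y) 1) (g'' := fun t => dd u 1 (pp t y)) ?_ ?_ ?_
    · exact fun t ht => hasDerivAt_left ((hu _ (by rw [pp_re]; exact hpos t ht)).differentiableAt (by norm_num))
    · exact fun t ht => hasDerivAt_left (u := fun z => fderiv ℝ u z 1)
        ((contDiffAt_fderiv_apply 1 (hu _ (by rw [pp_re]; exact hpos t ht))).differentiableAt (by norm_num))
    · intro t ht
      exact (ContinuousAt.comp (f := fun t => pp t y) (hu2 _ (by rw [pp_re]; exact hpos t ht))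
        (hasDerivAt_pp_left t y).continuousAt).continuousWithinAt
  have hcF : ContinuousOn (Function.uncurry fun t y : ℝ => (b - t) * dd u 1 (pp t y)) (Ioi 0 ×ˢ univ) := by
    rintro ⟨t, y⟩ ⟨ht, -⟩
    apply ContinuousAt.continuousWithinAt
    exact (by fun_prop : ContinuousAt (fun p : ℝ × ℝ => b - p.1) (t, y)).mul
      (ContinuousAt.comp (f := fun p : ℝ × ℝ => pp p.1 p.2) (x := (t, y)) (hu2 _ (by rw [pp_re]; exact ht)) continuous_pp.continuousAt)
  have hint : IntegrableOn (Function.uncurry fun t y : ℝ => (b - t) * dd u 1 (pp t y)) (uIoc a b ×ˢ uIoc 0 (2 * π)) := by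
    have hK : IsCompact (Icc a b ×ˢ Icc (0 : ℝ) (2 * π)) := isCompact_Icc.prod isCompact_Icc
    have := (hcF.mono (s := Ioi 0 ×ˢ univ) (t := Icc a b ×ˢ Icc (0 : ℝ) (2 * π)) fun p hp =>
      ⟨ha.trans_le hp.1.1, mem_univ _⟩).integrableOn_compact (μ := volume) hK
    apply this.mono_set
    rw [uIoc_of_le hab, uIoc_of_le (by positivity)]
    exact prod_mono Ioc_subset_Icc_self Ioc_subset_Icc_self
  have h2 : ∫ t in a..b, (b - t) * ∫ y in (0 : ℝ)..2 * π, Δ u (pp t y) = ∫ t in a..b, ∫ y in (0 : ℝ)..2 * π, (b - t) * dd u 1 (pp t y) := by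
    apply intervalIntegral.integral_congr
    intro t ht
    have ht0 := hpos t ht
    have e1 : ∫ y in (0 : ℝ)..2 * π, Δ u (pp t y) = ∫ y in (0 : ℝ)..2 * π, dd u 1 (pp t y) := by
      have e2 : ∀ y ∈ uIcc (0 : ℝ) (2 * π), Δ u (pp t y) = dd u 1 (pp t y) + dd u I (pp t y) := by
        intro y _
        rw [Pool.Agent.H30M.lap_eq (hu _ (by rwa [pp_re]))]
        rfl
      rw [intervalIntegral.integral_congr e2, intervalIntegral.integral_add (vint hu2 ht0 _ _)
        (vint (fun w hw => continuousAt_dd I (hu w hw)) ht0 _ _), int_dd_I hu hp ht0, add_zero]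
    simp only [e1]
    rw [intervalIntegral.integral_const_mul]
  rw [h2, intervalIntegral_intervalIntegral_swap hint]
  rw [intervalIntegral.integral_congr (fun y _ => h1 y)]
  have i1 := vint hu0 ha 0 (2 * π)
  have i2 := (vint hu1 ha 0 (2 * π)).const_mul (b - a)
  have i3 : IntervalIntegrable (fun y => ∫ t in a..b, (b - t) * dd u 1 (pp t y)) volume 0 (2 * π) := by
    have i4 : ∀ y, ∫ t in a..b, (b - t) * dd u 1 (pp t y) = u (pp b y) - u (pp a y) - (b - a) * fderiv ℝ u (pp a y) 1 := fun y => by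
      rw [h1 y]; ring
    simp only [i4]
    exact ((vint hu0 hb _ _).sub i1).sub i2
  rw [intervalIntegral.integral_add (i1.add i2) i3, intervalIntegral.integral_add i1 i2, intervalIntegral.integral_const_mul]

end Pool.Agent.GA.StripN
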